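import Pool.Agent.Mg.F8df504.G78a617

section

set_option autoImplicit false

namespace Pool.Agent.MP_8df504_an.C

open Set Filter Topology MeasureTheory

/-! Matching of the edges of `A` with the edges of `T A`, by induction on the maximum. -/

/-- a matching compatible with the relation `R` -/
def fin2_M {α : Type} (R : α → α → Prop) (s t : Finset α) : Prop :=
  ∃ μ : α → α, BijOn μ (s : Set α) (t : Set α) ∧ ∀ g ∈ s, R g (μ g)

lemma fin2_ins {α : Type} [DecidableEq α] {R : α → α → Prop} {s t : Finset α} {e ε : α}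
    (h : fin2_M R s t) (he : e ∉ s) (hε : ε ∉ t) (hR : R e ε) :
    fin2_M R (insert e s) (insert ε t) := by
  obtain ⟨μ, hμ, hc⟩ := h
  have h1 : ∀ g ∈ s, Function.update μ e ε g = μ g := fun g hg =>
    Function.update_of_ne (ne_of_mem_of_not_mem hg he) _ _
  refine ⟨Function.update μ e ε, ?_, fun g hg => ?_⟩
  · have h2 := (hμ.congr fun g hg => (h1 g hg).symm).insert (a := e) (by simpa using hε)
    simpa using h2
  · rcases Finset.mem_insert.1 hg with rfl | hg
    · simpa using hR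
    · rw [h1 g hg]
      exact hc g hg

lemma fin2_split {α : Type} [DecidableEq α] {R : α → α → Prop} {s t : Finset α} {e γ γ₁ γ₂ : α}
    (h : fin2_M R s t) (he : e ∉ s) (hγ : γ ∈ t) (h1 : γ₁ ∉ t) (h2 : γ₂ ∉ t) (h12 : γ₁ ≠ γ₂)
    (hR : R e γ₁) (hR' : ∀ g, R g γ → R g γ₂) :
    fin2_M R (insert e s) (insert γ₁ (insert γ₂ (t.erase γ))) := by
  obtain ⟨μ, hμ, hc⟩ := h
  obtain ⟨g, hg, rfl⟩ := hμ.surjOn hγ
  have h3 : fin2_M R (s.erase g) (t.erase (μ g)) :=
    ⟨μ, by simpa using hμ.sdiff_singleton hg, fun g' hg' => hc g' (Finset.mem_of_mem_erase hg')⟩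
  have h4 := fin2_ins h3 (Finset.notMem_erase g s) (fun h => h2 (Finset.mem_of_mem_erase h))
    (hR' g (hc g hg))
  rw [Finset.insert_erase hg] at h4
  refine fin2_ins h4 he (fun h => ?_) hR
  rcases Finset.mem_insert.1 h with h | h
  · exact h12 h
  · exact h1 (Finset.mem_of_mem_erase h)

lemma exists_match (T : ℝ → ℝ) (A : Finset ℝ) (hinj : InjOn T (A : Set ℝ)) :
    ∃ μ : ℝ × ℝ → ℝ × ℝ, BijOn μ (gaps A : Set (ℝ × ℝ)) (gaps (A.image T) : Set (ℝ × ℝ)) ∧
      ∀ g ∈ gaps A, Cov T g (μ g) := by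
  change fin2_M (Cov T) (gaps A) (gaps (A.image T))
  induction A using Finset.induction_on_max with
  | empty => exact ⟨id, by simp [gaps_empty], by simp [gaps_empty]⟩
  | insert y A hy ih =>
    rcases A.eq_empty_or_nonempty with rfl | hA
    · exact ⟨id, by simp [gaps_singleton], by simp [gaps_singleton]⟩
    have hM := ih (hinj.mono (by simp))
    have ha := A.max'_mem hA
    obtain ⟨he, hg⟩ := gaps_insert_max ha (fun z hz => A.le_max' z hz) (hy _ ha)
    have hTa : T (A.max' hA) ∈ A.image T := Finset.mem_image_of_mem T ha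
    have hTy : T y ∉ A.image T := by
      intro h
      obtain ⟨z, hz, e⟩ := Finset.mem_image.1 h
      exact (hy z hz).ne (hinj (by simp [hz]) (by simp) e)
    rw [hg, Finset.image_insert]
    rcases insert_cases _ _ hTy with h | ⟨b, hb, h1, h2⟩ | ⟨b, hb, h1, h2⟩ | ⟨γ, hγ, h1, h2⟩
    · simp [h] at hTa
    · obtain ⟨h3, h4⟩ := gaps_insert_max hb h1 h2
      rw [h4]
      exact fin2_ins hM he h3 ⟨min_le_of_left_le (h1 _ hTa), le_max_right _ _⟩
    · obtain ⟨h3, h4⟩ := gaps_insert_min hb h1 h2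
      rw [h4]
      exact fin2_ins hM he h3 ⟨min_le_right _ _, le_max_of_le_left (h1 _ hTa)⟩
    · obtain ⟨h3, h4, h5, h6⟩ := gaps_insert_mid hγ h1 h2
      rw [h6]
      rcases Gap.le_or_ge (mem_gaps.1 hγ) hTa with h7 | h7
      · exact fin2_split hM he hγ h3 h4 h5 ⟨min_le_of_left_le h7, le_max_right _ _⟩
          fun g hg => ⟨hg.1.trans h1.le, hg.2⟩
      · rw [Finset.insert_comm]
        exact fin2_split hM he hγ h4 h3 h5.symm ⟨min_le_right _ _, le_max_of_le_left h7⟩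
          fun g hg => ⟨hg.1, h2.le.trans hg.2⟩

lemma match_prod {T : ℝ → ℝ} {A : Finset ℝ} {μ : ℝ × ℝ → ℝ × ℝ}
    (hμ : BijOn μ (gaps A : Set (ℝ × ℝ)) (gaps (A.image T) : Set (ℝ × ℝ))) :
    ∏ g ∈ gaps A, img T g / len (μ g) = Pt T A / Dl (A.image T) := by
  rw [Finset.prod_div_distrib, Pt, Dl]
  congr 1
  exact Finset.prod_nbij μ (fun _ h => hμ.mapsTo h) hμ.injOn hμ.surjOn fun _ _ => rfl

/-- sub-products of a matching are bounded by the gain -/
lemma match_prod_le {T : ℝ → ℝ} {A : Finset ℝ} {μ : ℝ × ℝ → ℝ × ℝ} {G : ℝ}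
    (hμ : BijOn μ (gaps A : Set (ℝ × ℝ)) (gaps (A.image T) : Set (ℝ × ℝ)))
    (hc : ∀ g ∈ gaps A, Cov T g (μ g)) (hG : Pt T A ≤ G * Dl (A.image T))
    (F : Finset (ℝ × ℝ)) (hF : F ⊆ gaps A) : ∏ g ∈ F, img T g / len (μ g) ≤ G := by
  have h1 : ∀ g ∈ gaps A, 1 ≤ img T g / len (μ g) := fun g hg =>
    (one_le_div (Gap.len_pos (mem_gaps.1 (hμ.mapsTo hg)))).2 (hc g hg).len_le
  refine (Finset.prod_le_prod_of_subset_of_one_le hF
    (fun g hg => zero_le_one.trans (h1 g (hF hg))) fun g hg _ => h1 g hg).trans ?_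
  rw [match_prod hμ]
  exact (div_le_iff₀ (Dl_pos _)).2 hG

end Pool.Agent.MP_8df504_an.C

end

section

set_option autoImplicit false

namespace Pool.Agent.MP_8df504_an.C

open Set Filter Topology MeasureTheory

/-! The matching `pi` of the gaps of `K`.

Hints.  `fine_edge`: if `A ⊆ K` is finite, `η`-dense in `K` and contains the ends of all gaps of
`K` of length `≥ η`, then every edge of `A` of length `≥ 3η` is a gap of `K` (the midpoint of the
edge is not in `K`, take the gap of `K` around it with `exists_gap_around`; it has length `≥ η`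
because points of `K` inside the edge are within `η` of an end of the edge).
Choose finite sets `A n ⊆ K` such that both `A n` and `(A n).image T` are `1/(n+1)`-dense in `K` and
contain the ends of all gaps of length `≥ 1/(n+1)` (`finite_big`, `surjK`, compactness), and
matchings `μ n` (`exists_match`).  For a gap `g` of `K` and `n` large `g ∈ gaps (A n)` and
`img T g / len (μ n g) ≤ G` (`match_prod_le` with `F = {g}`), `img T g > 0`, so `μ n g` lies in the
finite set of gaps of `K` of length `≥ img T g / G`.  Fix the ultrafilter `hyperfilter ℕ`; `μ n g`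
is constant for hyperfilter-many `n` (`Ultrafilter.eventually_exists_mem_iff` or
`Ultrafilter.finite_biUnion_mem_iff`); call the value `pi g`.  Injectivity, `Cov` and the product
bound pass to the limit.  Surjectivity: for a gap `γ` and `n` large `γ = μ n (g n)` with
`len γ ≤ img T (g n) ≤ M len (g n)`, so `g n` is one of finitely many gaps of `K`. -/

lemma fine_edge {K : Set ℝ} (hK : IsCompact K) {A : Finset ℝ} (hA : (A : Set ℝ) ⊆ K) {η : ℝ}
    (hη : 0 < η) (hd : ∀ z ∈ K, ∃ a ∈ A, |z - a| < η)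
    (he : ∀ g ∈ Gap K, η ≤ len g → g.1 ∈ A ∧ g.2 ∈ A) {e : ℝ × ℝ} (h : e ∈ gaps A)
    (hl : 3 * η ≤ len e) : e ∈ Gap K := by
  rw [mem_gaps] at h
  have hlt := h.2.2.1
  unfold len at hl
  have hm : (e.1 + e.2) / 2 ∉ K := by
    intro hm
    obtain ⟨a, ha, hd'⟩ := hd _ hm
    rw [abs_lt] at hd'
    exact h.2.2.2 a ha ⟨by linarith [hd'.2], by linarith [hd'.1]⟩
  obtain ⟨g, hg, h1, h2, h3, h4⟩ := exists_gap_around hK (hA h.1) (hA h.2.1)
    (by linarith) (by linarith) hm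
  have h5 : g.1 < e.1 + η := by
    obtain ⟨a, ha, hd'⟩ := hd _ hg.1
    rw [abs_lt] at hd'
    rcases Gap.le_or_ge h (Finset.mem_coe.2 ha) with c | c <;> linarith [hd'.1, hd'.2]
  have h6 : e.2 - η < g.2 := by
    obtain ⟨a, ha, hd'⟩ := hd _ hg.2.1
    rw [abs_lt] at hd'
    rcases Gap.le_or_ge h (Finset.mem_coe.2 ha) with c | c <;> linarith [hd'.1, hd'.2]
  obtain ⟨h7, h8⟩ := he g hg (by unfold len; linarith)
  have h9 : g.1 = e.1 := by
    rcases Gap.le_or_ge h (Finset.mem_coe.2 h7) with c | c <;> linarith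
  have h10 : g.2 = e.2 := by
    rcases Gap.le_or_ge h (Finset.mem_coe.2 h8) with c | c <;> linarith
  rwa [← Prod.ext h9 h10]

/-- a finite subset of `K` that is `η`-dense and sees the gaps of length at least `η` -/
def piex_Fine (K : Set ℝ) (η : ℝ) (A : Finset ℝ) : Prop :=
  (A : Set ℝ) ⊆ K ∧ (∀ z ∈ K, ∃ a ∈ A, |z - a| < η) ∧
    ∀ g ∈ Gap K, η ≤ len g → g.1 ∈ A ∧ g.2 ∈ A

lemma piex_mono {K : Set ℝ} {η : ℝ} {A A' : Finset ℝ} (h : piex_Fine K η A) (hs : A ⊆ A')
    (hK : (A' : Set ℝ) ⊆ K) : piex_Fine K η A' := by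
  refine ⟨hK, fun z hz => ?_, fun g hg hl => ⟨hs (h.2.2 g hg hl).1, hs (h.2.2 g hg hl).2⟩⟩
  obtain ⟨a, ha, hd⟩ := h.2.1 z hz
  exact ⟨a, hs ha, hd⟩

lemma piex_mem {K : Set ℝ} {η : ℝ} {A : Finset ℝ} (h : piex_Fine K η A) {g : ℝ × ℝ}
    (hg : g ∈ Gap K) (hl : η ≤ len g) : g ∈ gaps A :=
  mem_gaps.2 ⟨(h.2.2 g hg hl).1, (h.2.2 g hg hl).2, hg.2.2.1, fun z hz => hg.2.2.2 z (h.1 hz)⟩

lemma piex_fine0 (P : Pre) {η : ℝ} (hη : 0 < η) : ∃ A : Finset ℝ, piex_Fine P.K η A := by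
  classical
  obtain ⟨t, htK, htf, hcov⟩ := finite_cover_balls_of_compact P.cpt hη
  have hb := P.finite_big hη
  refine ⟨htf.toFinset ∪ hb.toFinset.image Prod.fst ∪ hb.toFinset.image Prod.snd, ?_, ?_, ?_⟩
  · intro z hz
    simp only [Finset.coe_union, mem_union, Finite.coe_toFinset, Finset.coe_image, mem_image,
      mem_ofPred_eq] at hz
    rcases hz with (hz | ⟨g, hg, rfl⟩) | ⟨g, hg, rfl⟩
    · exact htK hz
    · exact hg.1.1
    · exact hg.1.2.1
  · intro z hz
    obtain ⟨a, ha, hd⟩ := mem_iUnion₂.1 (hcov hz)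
    refine ⟨a, Finset.mem_union_left _ (Finset.mem_union_left _ (htf.mem_toFinset.2 ha)), ?_⟩
    rwa [Metric.mem_ball, Real.dist_eq] at hd
  · intro g hg hl
    have hgm : g ∈ hb.toFinset := hb.mem_toFinset.2 ⟨hg, hl⟩
    exact ⟨Finset.mem_union_left _ (Finset.mem_union_right _ (Finset.mem_image_of_mem _ hgm)),
      Finset.mem_union_right _ (Finset.mem_image_of_mem _ hgm)⟩

lemma piex_fine (P : Pre) {η : ℝ} (hη : 0 < η) :
    ∃ A : Finset ℝ, piex_Fine P.K η A ∧ piex_Fine P.K η (A.image P.T) := by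
  classical
  obtain ⟨A, hA⟩ := piex_fine0 P hη
  have hs : ∀ a, ∃ b, a ∈ P.K → b ∈ P.K ∧ P.T b = a := by
    intro a
    by_cases ha : a ∈ P.K
    · obtain ⟨b, hb, e⟩ := P.surjK ha
      exact ⟨b, fun _ => ⟨hb, e⟩⟩
    · exact ⟨a, fun h => absurd h ha⟩
  choose s hs using hs
  have hK : ((A ∪ A.image s : Finset ℝ) : Set ℝ) ⊆ P.K := by
    intro z hz
    rcases Finset.mem_union.1 (Finset.mem_coe.1 hz) with hz | hz
    · exact hA.1 hz
    · obtain ⟨a, ha, rfl⟩ := Finset.mem_image.1 hz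
      exact (hs a (hA.1 ha)).1
  refine ⟨A ∪ A.image s, piex_mono hA Finset.subset_union_left hK, piex_mono hA ?_ ?_⟩
  · intro a ha
    exact Finset.mem_image.2 ⟨s a, Finset.mem_union_right _ (Finset.mem_image_of_mem _ ha),
      (hs a (hA.1 ha)).2⟩
  · intro z hz
    obtain ⟨a, ha, rfl⟩ := Finset.mem_image.1 (Finset.mem_coe.1 hz)
    exact P.mapsK (hK ha)

lemma piex_small {c : ℝ} (hc : 0 < c) :
    ∀ᶠ n : ℕ in (hyperfilter ℕ : Filter ℕ), 1 / ((n : ℝ) + 1) ≤ c := by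
  have h : ∀ᶠ n : ℕ in atTop, 1 / ((n : ℝ) + 1) ≤ c :=
    (tendsto_one_div_add_atTop_nhds_zero_nat (𝕜 := ℝ)).eventually (ge_mem_nhds hc)
  rw [← Nat.cofinite_eq_atTop] at h
  exact h.filter_mono hyperfilter_le_cofinite

lemma Pre.exists_pi (P : Pre) (L : Slp P) : ∃ pi : ℝ × ℝ → ℝ × ℝ, PiOK P pi := by
  classical
  have hpos : ∀ n : ℕ, (0 : ℝ) < 1 / ((n : ℝ) + 1) := fun n => Nat.one_div_pos_of_nat
  choose A hA hA' using fun n : ℕ => piex_fine P (hpos n)
  choose μ hμ hcov using fun n : ℕ => exists_match P.T (A n) (P.inj.mono (hA n).1)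
  have hG : 0 < P.G := lt_of_lt_of_le one_pos P.one_le_G
  have hM : 0 < L.M := lt_of_lt_of_le L.m_pos ((L.sl_lo 0).trans (L.sl_hi 0))
  have hle : ∀ n (F : Finset (ℝ × ℝ)), F ⊆ gaps (A n) →
      ∏ g ∈ F, img P.T g / len (μ n g) ≤ P.G :=
    fun n F hF => match_prod_le (hμ n) (hcov n) (P.gain _ (hA n).1) F hF
  have hex : ∀ g, ∃ γ, g ∈ Gap P.K → γ ∈ Gap P.K ∧
      ∀ᶠ n in (hyperfilter ℕ : Filter ℕ), g ∈ gaps (A n) ∧ μ n g = γ := by
    intro g
    by_cases hg : g ∈ Gap P.K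
    swap
    · exact ⟨g, fun h => absurd h hg⟩
    have himg : 0 < img P.T g :=
      abs_pos.2 (sub_ne_zero.2 fun e => hg.2.2.1.ne' (P.inj hg.2.1 hg.1 e))
    have hc : 0 < img P.T g / P.G := div_pos himg hG
    have h1 : ∀ᶠ n in (hyperfilter ℕ : Filter ℕ), ∃ γ ∈ {γ | γ ∈ Gap P.K ∧
        img P.T g / P.G ≤ len γ}, g ∈ gaps (A n) ∧ μ n g = γ := by
      filter_upwards [piex_small (Gap.len_pos hg), piex_small (div_pos hc three_pos)] with n h2 h3
      have h4 := piex_mem (hA n) hg h2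
      have h5 : μ n g ∈ gaps ((A n).image P.T) := (hμ n).mapsTo (Finset.mem_coe.2 h4)
      have h6 := hle n {g} (Finset.singleton_subset_iff.2 h4)
      rw [Finset.prod_singleton, div_le_iff₀ (Gap.len_pos (mem_gaps.1 h5))] at h6
      have h7 : img P.T g / P.G ≤ len (μ n g) := by
        rw [div_le_iff₀ hG]
        linarith
      exact ⟨μ n g, ⟨fine_edge P.cpt (hA' n).1 (hpos n) (hA' n).2.1 (hA' n).2.2 h5
        (by linarith), h7⟩, h4, rfl⟩
    obtain ⟨γ, hγ, h2⟩ := (Ultrafilter.eventually_exists_mem_iff (P.finite_big hc)).1 h1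
    exact ⟨γ, fun _ => ⟨hγ.1, h2⟩⟩
  choose pi hpi using hex
  refine ⟨pi, ⟨fun g hg => (hpi g hg).1, fun g hg g' hg' e => ?_, fun γ hγ => ?_⟩,
    fun g hg => ?_, fun F hF => ?_⟩
  · obtain ⟨n, h1, h2⟩ := ((hpi g hg).2.and (hpi g' hg').2).exists
    exact (hμ n).injOn (Finset.mem_coe.2 h1.1) (Finset.mem_coe.2 h2.1) (by rw [h1.2, h2.2, e])
  · have hc : 0 < len γ / L.M := div_pos (Gap.len_pos hγ) hM
    have h1 : ∀ᶠ n in (hyperfilter ℕ : Filter ℕ), ∃ g ∈ {g | g ∈ Gap P.K ∧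
        len γ / L.M ≤ len g}, μ n g = γ := by
      filter_upwards [piex_small (Gap.len_pos hγ), piex_small (div_pos hc three_pos)] with n h2 h3
      obtain ⟨g, hg, e⟩ := (hμ n).surjOn (Finset.mem_coe.2 (piex_mem (hA' n) hγ h2))
      have hg' : g ∈ gaps (A n) := Finset.mem_coe.1 hg
      have h4 := (hcov n g hg').len_le
      rw [e] at h4
      have hg2 := mem_gaps.1 hg'
      have h5 := L.lip g.2 (P.sub ((hA n).1 hg2.2.1)) g.1 (P.sub ((hA n).1 hg2.1))
      rw [abs_of_pos (sub_pos.2 hg2.2.2.1)] at h5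
      have h7 : len γ / L.M ≤ len g := by
        rw [div_le_iff₀ hM]
        unfold img at h4
        unfold len at h4 ⊢
        linarith
      exact ⟨g, ⟨fine_edge P.cpt (hA n).1 (hpos n) (hA n).2.1 (hA n).2.2 hg'
        (by linarith), h7⟩, e⟩
    obtain ⟨g, hg, h2⟩ := (Ultrafilter.eventually_exists_mem_iff (P.finite_big hc)).1 h1
    obtain ⟨n, h3, h4⟩ := (h2.and (hpi g hg.1).2).exists
    exact ⟨g, hg.1, by rw [← h4.2, h3]⟩
  · obtain ⟨n, h1, h2⟩ := (hpi g hg).2.exists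
    rw [← h2]
    exact hcov n g h1
  · have h1 : ∀ᶠ n in (hyperfilter ℕ : Filter ℕ), ∀ g ∈ F, g ∈ gaps (A n) ∧ μ n g = pi g :=
      (eventually_all_finset F).2 fun g hg => (hpi g (hF g hg)).2
    obtain ⟨n, h2⟩ := h1.exists
    refine le_trans (le_of_eq ?_) (hle n F fun g hg => (h2 g hg).1)
    exact Finset.prod_congr rfl fun g hg => by rw [(h2 g hg).2]

end Pool.Agent.MP_8df504_an.C

end

section

set_option autoImplicit false

namespace Pool.Agent.MP_8df504_an.C

open Set Filter Topology MeasureTheory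

/-! Clusters of heights.

`clusters`: `b 0` any positive point of `Kp true`, `sd 0 = true`; `b (i+1) = sSup (Kp (!sd i) ∩ [0, b i])`,
`a i = sInf (Kp (sd i) ∩ [b (i+1), b i])`.  The decreasing sequence `b` converges to a point of both
closed sets, so to `0`.

`exists_clu`: apply `clusters` to `Kp σ = {h ∈ [0,δ] | pt σ h ∈ K}` (disjoint off `0` because `T` is
injective on `K` and `T (pt σ h) = T c - h`).  Write `g i = gp (sd i) (b (i+2)) (a i)` and
`γ i = (T c - a i, T c - b (i+1))`; both are gaps of `K` (for `γ i` use `cover`; a point of `K` between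
two points `pt σ h`, `pt σ h'` is `pt σ h''` with `h''` between).  `pi (g i)` is a gap inside
`[T c - a i, T c - b (i+2)]`, with heights `q1 < q2`.  If both are in `[a (i+1), b (i+1)]` then
`gp (sd (i+1)) q1 q2` is a gap with the same partner (`pi_eq_of_ends`), contradiction with the
injectivity of `pi`.  Hence `pi (g i) = γ i` or `γ (i+1)`.  If `pi (g i) = γ (i+1)` once, then for all
later `i` (injectivity), and `r (g i) < 2` for large `i` (`finite_big_r`, the `g i` are distinct)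
gives `len (γ i) ≤ len (γ (i+1))`, impossible as `0 < len (γ i) ≤ b i → 0`.  So `pi (g i) = γ i`.
With `ℓ i = a i - b (i+1)` and `r (g i) ≤ 1 + ε` (`ε ≤ 1/2`, `i` large):
`ℓ (i+1) ≤ b (i+1) - b (i+2) ≤ ε ℓ i ≤ 2 ε (ℓ i - ℓ (i+1))`; telescoping and `b → 0` give
`b (i+1) ≤ 2 ε ℓ i`. -/

lemma clusters (Kp : Bool → Set ℝ) (δ : ℝ) (hcl : ∀ σ, IsClosed (Kp σ))
    (hsub : ∀ σ, Kp σ ⊆ Icc 0 δ) (hdis : ∀ h ∈ Kp true, h ∈ Kp false → h = 0)
    (hacc : ∀ σ, ∀ ε > 0, ∃ h ∈ Kp σ, 0 < h ∧ h < ε) :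
    ∃ (a b : ℕ → ℝ) (sd : ℕ → Bool), (∀ i, sd (i + 1) = !(sd i)) ∧ (∀ i, 0 < b i) ∧
      (∀ i, b (i + 1) < a i) ∧ (∀ i, a i ≤ b i) ∧ (∀ i, a i ∈ Kp (sd i)) ∧
      (∀ i, b i ∈ Kp (sd i)) ∧
      (∀ σ, ∀ h ∈ Kp σ, 0 < h → h ≤ b 0 → ∃ i, sd i = σ ∧ a i ≤ h ∧ h ≤ b i) ∧
      Tendsto b atTop (𝓝 0) := by
  have hcpt : ∀ σ, IsCompact (Kp σ) := fun σ => isCompact_Icc.of_isClosed_subset (hcl σ) (hsub σ)
  have hne : ∀ σ h, h ∈ Kp σ → h ∈ Kp (!σ) → h = 0 := by
    intro σ h h1 h2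
    cases σ
    · exact hdis h h2 h1
    · exact hdis h h1 h2
  have hstep : ∀ (σ : Bool) (x : ℝ), ∃ y, 0 < x → IsGreatest (Kp σ ∩ Iic x) y ∧ 0 < y := by
    intro σ x
    by_cases hx : 0 < x
    · obtain ⟨h, h1, h2, h3⟩ := hacc σ x hx
      obtain ⟨y, hy⟩ := ((hcpt σ).inter_right (isClosed_Iic (a := x))).exists_isGreatest
        ⟨h, h1, h3.le⟩
      exact ⟨y, fun _ => ⟨hy, h2.trans_le (hy.2 ⟨h1, h3.le⟩)⟩⟩
    · exact ⟨0, fun h => absurd h hx⟩
  choose nb hnb using hstep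
  obtain ⟨b0, hb0, hb0p, -⟩ := hacc true 1 one_pos
  let sd : ℕ → Bool := fun i => Nat.rec true (fun _ s => !s) i
  have hsd : ∀ i, sd (i + 1) = !(sd i) := fun _ => rfl
  have hor : ∀ i σ, sd i = σ ∨ sd (i + 1) = σ := by
    intro i σ
    rw [hsd]
    generalize sd i = t
    cases t <;> cases σ <;> simp
  let b : ℕ → ℝ := fun i => Nat.rec b0 (fun j x => nb (sd (j + 1)) x) i
  have hb : ∀ i, b (i + 1) = nb (sd (i + 1)) (b i) := fun _ => rfl
  have hpos : ∀ i, 0 < b i := by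
    intro i
    induction i with
    | zero => exact hb0p
    | succ i ih => rw [hb]; exact (hnb _ _ ih).2
  have hgr : ∀ i, IsGreatest (Kp (sd (i + 1)) ∩ Iic (b i)) (b (i + 1)) :=
    fun i => (hnb _ _ (hpos i)).1
  have hmem : ∀ i, b i ∈ Kp (sd i) := by
    intro i
    cases i with
    | zero => exact hb0
    | succ i => exact (hgr i).1.1
  have hanti : Antitone b := antitone_nat_of_succ_le fun i => (hgr i).1.2
  have hA : ∀ i, ∃ y, IsLeast (Kp (sd i) ∩ Ici (b (i + 1))) y := fun i =>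
    ((hcpt _).inter_right (isClosed_Ici (a := b (i + 1)))).exists_isLeast
      ⟨b i, hmem i, (hgr i).1.2⟩
  choose a ha using hA
  have hlim : Tendsto b atTop (𝓝 0) := by
    have hbd : BddBelow (range b) := ⟨0, by rintro _ ⟨i, rfl⟩; exact (hpos i).le⟩
    have ht := tendsto_atTop_ciInf hanti hbd
    have hin : ∀ σ, (⨅ i, b i) ∈ Kp σ := by
      intro σ
      refine (hcl σ).mem_of_frequently_of_tendsto ?_ ht
      rw [frequently_atTop]
      intro n
      rcases hor n σ with e | e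
      · exact ⟨n, le_rfl, e ▸ hmem n⟩
      · exact ⟨n + 1, Nat.le_succ n, e ▸ hmem (n + 1)⟩
    rwa [hdis _ (hin true) (hin false)] at ht
  refine ⟨a, b, sd, hsd, hpos, fun i => ?_, fun i => (ha i).2 ⟨hmem i, (hgr i).1.2⟩,
    fun i => (ha i).1.1, hmem, fun σ h hK h0 h1 => ?_, hlim⟩
  · refine lt_of_le_of_ne (ha i).1.2 fun e => ?_
    have h1 : b (i + 1) ∈ Kp (sd i) := e ▸ (ha i).1.1
    have h2 : b (i + 1) ∈ Kp (!(sd i)) := hsd i ▸ hmem (i + 1)
    exact (hpos (i + 1)).ne' (hne _ _ h1 h2)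
  · have hex : ∃ i, b (i + 1) < h := by
      obtain ⟨n, hn⟩ := eventually_atTop.1 (hlim.eventually (gt_mem_nhds h0))
      exact ⟨n, hn _ (Nat.le_succ n)⟩
    classical
    have hi := Nat.find_spec hex
    have hle : h ≤ b (Nat.find hex) := by
      rcases e : Nat.find hex with _ | j
      · exact h1
      · exact not_lt.1 (Nat.find_min hex (by omega : j < Nat.find hex))
    generalize Nat.find hex = i at hi hle
    rcases hor i σ with e | e
    · exact ⟨i, e, (ha i).2 ⟨e ▸ hK, hi.le⟩, hle⟩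
    · exact absurd ((hgr i).2 ⟨e ▸ hK, hle⟩) (not_le.2 hi)

end Pool.Agent.MP_8df504_an.C

end

section

set_option autoImplicit false

namespace Pool.Agent.MP_8df504_an.C

open Set Filter Topology MeasureTheory

/-! Clusters of heights.

`clusters`: `b 0` any positive point of `Kp true`, `sd 0 = true`; `b (i+1) = sSup (Kp (!sd i) ∩ [0, b i])`,
`a i = sInf (Kp (sd i) ∩ [b (i+1), b i])`.  The decreasing sequence `b` converges to a point of both
closed sets, so to `0`.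

`exists_clu`: apply `clusters` to `Kp σ = {h ∈ [0,δ] | pt σ h ∈ K}` (disjoint off `0` because `T` is
injective on `K` and `T (pt σ h) = T c - h`).  Write `g i = gp (sd i) (b (i+2)) (a i)` and
`γ i = (T c - a i, T c - b (i+1))`; both are gaps of `K` (for `γ i` use `cover`; a point of `K` between
two points `pt σ h`, `pt σ h'` is `pt σ h''` with `h''` between).  `pi (g i)` is a gap inside
`[T c - a i, T c - b (i+2)]`, with heights `q1 < q2`.  If both are in `[a (i+1), b (i+1)]` then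
`gp (sd (i+1)) q1 q2` is a gap with the same partner (`pi_eq_of_ends`), contradiction with the
injectivity of `pi`.  Hence `pi (g i) = γ i` or `γ (i+1)`.  If `pi (g i) = γ (i+1)` once, then for all
later `i` (injectivity), and `r (g i) < 2` for large `i` (`finite_big_r`, the `g i` are distinct)
gives `len (γ i) ≤ len (γ (i+1))`, impossible as `0 < len (γ i) ≤ b i → 0`.  So `pi (g i) = γ i`.
With `ℓ i = a i - b (i+1)` and `r (g i) ≤ 1 + ε` (`ε ≤ 1/2`, `i` large):
`ℓ (i+1) ≤ b (i+1) - b (i+2) ≤ ε ℓ i ≤ 2 ε (ℓ i - ℓ (i+1))`; telescoping and `b → 0` give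
`b (i+1) ≤ 2 ε ℓ i`. -/

lemma cluex_nonpos (d e : ℕ → ℝ) (N : ℕ) (h1 : ∀ i, N ≤ i → d i ≤ d (i + 1))
    (h2 : ∀ j, d j ≤ e j) (he : Tendsto e atTop (𝓝 0)) {i : ℕ} (hi : N ≤ i) : d i ≤ 0 := by
  have key : ∀ j, i ≤ j → d i ≤ d j := by
    intro j hj
    induction j, hj using Nat.le_induction with
    | base => exact le_rfl
    | succ k hk ih => exact ih.trans (h1 k (hi.trans hk))
  exact ge_of_tendsto he (eventually_atTop.2 ⟨i, fun j hj => (key j hj).trans (h2 j)⟩)

/-- heights of the points of `K` on side `σ` -/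
def cluex_Kp {S : Sys} (H : Ht S) (σ : Bool) : Set ℝ :=
  {h | h ∈ Icc 0 H.δ ∧ pt H.c H.sp H.sm σ h ∈ S.P.K}

lemma cluex_sp {S : Sys} (H : Ht S) : 0 < H.sp := S.L.m_pos.trans_le H.sp_lo

lemma cluex_sm {S : Sys} (H : Ht S) : 0 < H.sm := S.L.m_pos.trans_le H.sm_lo

lemma cluex_closed {S : Sys} (H : Ht S) (σ : Bool) : IsClosed (cluex_Kp H σ) := by
  have hc : Continuous fun h => pt H.c H.sp H.sm σ h := by
    unfold pt
    split_ifs <;> fun_prop
  exact isClosed_Icc.inter (S.P.closedK.preimage hc)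

lemma cluex_mem {S : Sys} (H : Ht S) {σ : Bool} {h : ℝ} (hh : h ∈ cluex_Kp H σ) :
    S.P.T H.c - h ∈ S.P.K := by
  rw [← H.val σ h hh.1.1 hh.1.2]
  exact S.P.mapsK hh.2

lemma cluex_dis {S : Sys} (H : Ht S) {h : ℝ} (h1 : h ∈ cluex_Kp H true)
    (h2 : h ∈ cluex_Kp H false) : h = 0 := by
  have e := S.P.inj h1.2 h2.2 (by rw [H.val _ h h1.1.1 h1.1.2, H.val _ h h1.1.1 h1.1.2])
  simp only [pt, if_true, Bool.false_eq_true, if_false] at e
  have p1 := div_nonneg h1.1.1 (cluex_sp H).le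
  have p2 := div_nonneg h1.1.1 (cluex_sm H).le
  have p3 : h / H.sp = 0 := by linarith
  rcases div_eq_zero_iff.1 p3 with c | c
  · exact c
  · exact absurd c (cluex_sp H).ne'

lemma cluex_gap {S : Sys} (H : Ht S) {σ : Bool} {h h' : ℝ} (hh : h ∈ cluex_Kp H σ)
    (hh' : h' ∈ cluex_Kp H σ) (hlt : h < h') (hno : ∀ k ∈ cluex_Kp H σ, ¬ (h < k ∧ k < h')) :
    gp H.c H.sp H.sm σ h h' ∈ Gap S.P.K := by
  have sp := cluex_sp H
  have sm := cluex_sm H
  cases σ with
  | true =>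
    have e : gp H.c H.sp H.sm true h h' = (H.c + h / H.sp, H.c + h' / H.sp) := by
      simp [gp, pt]
    rw [e]
    refine ⟨by simpa [pt] using hh.2, by simpa [pt] using hh'.2, ?_, fun z hz hc => ?_⟩
    · have := div_lt_div_of_pos_right hlt sp
      simp only
      linarith
    · have c1 : h < (z - H.c) * H.sp := by
        rw [← div_lt_iff₀ sp]; linarith [hc.1]
      have c2 : (z - H.c) * H.sp < h' := by
        rw [← lt_div_iff₀ sp]; linarith [hc.2]
      refine hno ((z - H.c) * H.sp) ⟨⟨by linarith [hh.1.1], by linarith [hh'.1.2]⟩, ?_⟩ ⟨c1, c2⟩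
      have : pt H.c H.sp H.sm true ((z - H.c) * H.sp) = z := by
        simp only [pt, if_true]; field_simp; ring
      rwa [this]
  | false =>
    have e : gp H.c H.sp H.sm false h h' = (H.c - h' / H.sm, H.c - h / H.sm) := by
      simp [gp, pt]
    rw [e]
    refine ⟨by simpa [pt] using hh'.2, by simpa [pt] using hh.2, ?_, fun z hz hc => ?_⟩
    · have := div_lt_div_of_pos_right hlt sm
      simp only
      linarith
    · have c1 : h < (H.c - z) * H.sm := by
        rw [← div_lt_iff₀ sm]; linarith [hc.2]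
      have c2 : (H.c - z) * H.sm < h' := by
        rw [← lt_div_iff₀ sm]; linarith [hc.1]
      refine hno ((H.c - z) * H.sm) ⟨⟨by linarith [hh.1.1], by linarith [hh'.1.2]⟩, ?_⟩ ⟨c1, c2⟩
      have : pt H.c H.sp H.sm false ((H.c - z) * H.sm) = z := by
        simp only [pt, Bool.false_eq_true, if_false]; field_simp; ring
      rwa [this]

lemma cluex_ends {S : Sys} (H : Ht S) (σ : Bool) {h h' : ℝ} (h0 : 0 ≤ h) (hlt : h < h')
    (h1 : h' ≤ H.δ) :
    (S.P.T (gp H.c H.sp H.sm σ h h').1 = S.P.T H.c - h' ∧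
      S.P.T (gp H.c H.sp H.sm σ h h').2 = S.P.T H.c - h) ∨
    (S.P.T (gp H.c H.sp H.sm σ h h').1 = S.P.T H.c - h ∧
      S.P.T (gp H.c H.sp H.sm σ h h').2 = S.P.T H.c - h') := by
  have v1 := H.val σ h h0 (hlt.le.trans h1)
  have v2 := H.val σ h' (h0.trans hlt.le) h1
  cases σ with
  | true => right; simpa [gp] using ⟨v1, v2⟩
  | false => left; simpa [gp] using ⟨v2, v1⟩

lemma cluex_mm {S : Sys} (H : Ht S) (σ : Bool) {h h' : ℝ} (h0 : 0 ≤ h) (hlt : h < h')
    (h1 : h' ≤ H.δ) :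
    min (S.P.T (gp H.c H.sp H.sm σ h h').1) (S.P.T (gp H.c H.sp H.sm σ h h').2) =
      S.P.T H.c - h' ∧
    max (S.P.T (gp H.c H.sp H.sm σ h h').1) (S.P.T (gp H.c H.sp H.sm σ h h').2) =
      S.P.T H.c - h ∧
    img S.P.T (gp H.c H.sp H.sm σ h h') = h' - h := by
  unfold img
  rcases cluex_ends H σ h0 hlt h1 with ⟨e1, e2⟩ | ⟨e1, e2⟩ <;> rw [e1, e2]
  · refine ⟨min_eq_left (by linarith), max_eq_right (by linarith), ?_⟩
    rw [abs_of_pos (by linarith)]; ring
  · refine ⟨min_eq_right (by linarith), max_eq_left (by linarith), ?_⟩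
    rw [abs_of_neg (by linarith)]; ring

lemma Sys.exists_clu (S : Sys) (H : Ht S) : Nonempty (Clu S) := by
  obtain ⟨a, b, sd, hsd, hb, hba, hab, ha', hb', hcov, hlim⟩ :=
    clusters (cluex_Kp H) H.δ (cluex_closed H) (fun _ _ hh => hh.1)
      (fun _ h1 h2 => cluex_dis H h1 h2) (fun σ ε hε => by
        obtain ⟨h, h1, h2, h3⟩ := H.acc σ (min ε H.δ) (lt_min hε H.δ_pos)
        exact ⟨h, ⟨⟨h1.le, (h2.trans_le (min_le_right _ _)).le⟩, h3⟩, h1,
          h2.trans_le (min_le_left _ _)⟩)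
  have banti : StrictAnti b := strictAnti_nat_of_succ_lt fun i => (hba i).trans_le (hab i)
  have aanti : StrictAnti a := strictAnti_nat_of_succ_lt fun i => (hab (i + 1)).trans_lt (hba i)
  have hlt : ∀ i, b (i + 2) < a i := fun i => (banti (by omega : i + 1 < i + 2)).trans (hba i)
  have ab0 : ∀ i, a i ≤ b 0 := fun i => (hab i).trans (banti.antitone (Nat.zero_le i))
  have aδ : ∀ i, a i ≤ H.δ := fun i => (ha' i).1.2
  have lo : ∀ {i j : ℕ} {k : ℝ}, k < a i → a j ≤ k → i < j := by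
    intro i j k h1 h2
    exact aanti.lt_iff_gt.1 (h2.trans_lt h1)
  have hi : ∀ {i j : ℕ} {k : ℝ}, b i < k → k ≤ b j → j < i := by
    intro i j k h1 h2
    exact banti.lt_iff_gt.1 (h1.trans_le h2)
  have hsd2 : ∀ i, sd (i + 2) = sd i := fun i => by rw [hsd, hsd, Bool.not_not]
  set g : ℕ → ℝ × ℝ := fun i => gp H.c H.sp H.sm (sd i) (b (i + 2)) (a i) with hg
  set γ : ℕ → ℝ × ℝ := fun i => (S.P.T H.c - a i, S.P.T H.c - b (i + 1)) with hγ
  have gG : ∀ i, g i ∈ Gap S.P.K := by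
    intro i
    refine cluex_gap H (hsd2 i ▸ hb' (i + 2)) (ha' i) (hlt i) fun k hk hc => ?_
    obtain ⟨j, e, j1, j2⟩ := hcov _ k hk ((hb _).trans hc.1) (hc.2.le.trans (ab0 i))
    have l1 := lo hc.2 j1
    have l2 := hi hc.1 j2
    obtain rfl : j = i + 1 := by omega
    rw [hsd] at e
    exact absurd e (by simp)
  have hU : ∀ z ∈ S.P.K, 0 < S.P.T H.c - z → S.P.T H.c - z ≤ b 0 →
      ∃ j, S.P.T H.c - z ∈ cluex_Kp H (sd j) ∧ a j ≤ S.P.T H.c - z ∧ S.P.T H.c - z ≤ b j := by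
    intro z hz h1 h2
    have h3 : S.P.T H.c - z ≤ H.δ := h2.trans (hb' 0).1.2
    obtain ⟨σ, hσ⟩ := H.cover _ h1.le h3 (by simpa using hz)
    obtain ⟨j, e, j1, j2⟩ := hcov σ _ ⟨⟨h1.le, h3⟩, hσ⟩ h1 h2
    exact ⟨j, e ▸ ⟨⟨h1.le, h3⟩, hσ⟩, j1, j2⟩
  have γG : ∀ i, γ i ∈ Gap S.P.K := by
    intro i
    refine ⟨cluex_mem H (ha' i), cluex_mem H (hb' (i + 1)), ?_, fun z hz hc => ?_⟩
    · have := hba i
      simp only [hγ]
      linarith
    · have c1 : S.P.T H.c - z < a i := by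
        have := hc.1
        simp only [hγ] at this
        linarith
      have c2 : b (i + 1) < S.P.T H.c - z := by
        have := hc.2
        simp only [hγ] at this
        linarith
      obtain ⟨j, -, j1, j2⟩ := hU z hz ((hb _).trans c2) (c1.le.trans (ab0 i))
      have l1 := lo c1 j1
      have l2 := hi c2 j2
      omega
  have gmm := fun i => cluex_mm H (sd i) (hb (i + 2)).le (hlt i) (aδ i)
  have ginj : Function.Injective g := by
    intro i j e
    have e1 := (gmm i).2.1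
    have e2 := (gmm j).2.1
    change max (S.P.T (g i).1) (S.P.T (g i).2) = _ at e1
    change max (S.P.T (g j).1) (S.P.T (g j).2) = _ at e2
    rw [e, e2] at e1
    have := banti.injective (sub_right_injective e1)
    omega
  have gimg : ∀ i, img S.P.T (g i) = a i - b (i + 2) := fun i => (gmm i).2.2
  have two : ∀ i, S.pi (g i) = γ i ∨ S.pi (g i) = γ (i + 1) := by
    intro i
    by_contra hc
    push Not at hc
    have pG := S.pi_mem (gG i)
    have cv := S.ok.cov _ (gG i)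
    have c1 : S.P.T H.c - a i ≤ (S.pi (g i)).1 := (gmm i).1 ▸ cv.1
    have c2 : (S.pi (g i)).2 ≤ S.P.T H.c - b (i + 2) := (gmm i).2.1 ▸ cv.2
    have c3 := pG.2.2.1
    have d1 : S.P.T H.c - b (i + 1) ≤ (S.pi (g i)).1 := by
      rcases Gap.sep pG (γG i) hc.1 with c | c
      · simp only [hγ] at c
        linarith
      · exact c
    have d2 : (S.pi (g i)).2 ≤ S.P.T H.c - a (i + 1) := by
      rcases Gap.sep pG (γG (i + 1)) hc.2 with c | c
      · exact c
      · simp only [hγ] at c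
        linarith
    have hin : ∀ z ∈ S.P.K, a (i + 1) ≤ S.P.T H.c - z → S.P.T H.c - z ≤ b (i + 1) →
        S.P.T H.c - z ∈ cluex_Kp H (sd (i + 1)) := by
      intro z hz z1 z2
      obtain ⟨j, m, j1, j2⟩ := hU z hz (((hb _).trans (hba (i + 1))).trans_le z1)
        (z2.trans (banti.antitone (Nat.zero_le _)))
      have l1 := lo (z2.trans_lt (hba i)) j1
      have l2 := hi ((hba (i + 1)).trans_le z1) j2
      obtain rfl : j = i + 1 := by omega
      exact m
    have q1 := hin _ pG.2.1 (by linarith) (by linarith)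
    have q2 := hin _ pG.1 (by linarith) (by linarith)
    have qlt : S.P.T H.c - (S.pi (g i)).2 < S.P.T H.c - (S.pi (g i)).1 := by linarith
    have fG := cluex_gap H q1 q2 qlt fun k hk hc' =>
      pG.2.2.2 _ (cluex_mem H hk) ⟨by linarith [hc'.2], by linarith [hc'.1]⟩
    have fe := S.pi_eq_of_ends fG pG (by
      rcases cluex_ends H (sd (i + 1)) q1.1.1 qlt q2.1.2 with ⟨e1, e2⟩ | ⟨e1, e2⟩
      · left; rw [e1, e2]; constructor <;> ring
      · right; rw [e1, e2]; constructor <;> ring)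
    have e := S.ok.bij.injOn fG (gG i) fe
    have e3 := (cluex_mm H (sd (i + 1)) q1.1.1 qlt q2.1.2).2.2
    rw [e, gimg] at e3
    linarith [hba i, hba (i + 1)]
  have small : ∀ ε > 0, ∃ N, ∀ i, N ≤ i → S.r (g i) < 1 + ε := by
    intro ε hε
    have f := (S.finite_big_r hε).preimage (f := g) ginj.injOn
    obtain ⟨N, hN⟩ := f.bddAbove
    refine ⟨N + 1, fun i hi => ?_⟩
    by_contra hc
    have := hN (show i ∈ g ⁻¹' _ from ⟨gG i, not_lt.1 hc⟩)
    omega
  have γlen : ∀ i, len (γ i) = a i - b (i + 1) := fun i => by simp only [len, hγ]; ring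
  have one : ∀ i, S.pi (g i) = γ i := by
    intro i
    by_contra hc
    have all : ∀ j, i ≤ j → S.pi (g j) = γ (j + 1) := by
      intro j hj
      induction j, hj using Nat.le_induction with
      | base => exact (two i).resolve_left hc
      | succ k _ ih =>
        refine (two (k + 1)).resolve_left fun e => ?_
        have := ginj (S.ok.bij.injOn (gG k) (gG (k + 1)) (ih.trans e.symm))
        omega
    obtain ⟨N, hN⟩ := small 1 one_pos
    have := cluex_nonpos (fun j => a j - b (j + 1)) b (max N i) (fun j hj => by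
      have r1 := hN j ((le_max_left _ _).trans hj)
      unfold Sys.r at r1
      rw [all j ((le_max_right _ _).trans hj), gimg, γlen,
        div_lt_iff₀ (sub_pos.2 (hba (j + 1)))] at r1
      have := hab (j + 1)
      change a j - b (j + 1) ≤ a (j + 1) - b (j + 2)
      change a j - b (j + 2) < (1 + 1) * (a (j + 1) - b (j + 2)) at r1
      linarith) (fun j => by linarith [hab j, hb (j + 1)]) hlim (le_refl _)
    linarith [hba (max N i)]
  refine ⟨{ H with
    a := a, b := b, sd := sd, sd_succ := hsd, b_pos := hb, ba := hba, ab := hab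
    b_le := fun i => (hb' i).1.2, gap := gG, pi_eq := one, ratio := fun ε hε => ?_ }⟩
  obtain ⟨N, hN⟩ := small (min (ε / 2) (1 / 2)) (lt_min (by linarith) (by norm_num))
  set η := min (ε / 2) (1 / 2) with hη
  have η1 : η ≤ ε / 2 := min_le_left _ _
  have η2 : η ≤ 1 / 2 := min_le_right _ _
  have η0 : 0 < η := lt_min (by linarith) (by norm_num)
  refine eventually_atTop.2 ⟨N, fun i hi => ?_⟩
  have := cluex_nonpos (fun j => b (j + 1) - 2 * η * (a j - b (j + 1))) b N (fun j hj => by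
      have r1 := hN j hj
      unfold Sys.r at r1
      have l0 := sub_pos.2 (hba j)
      rw [one j, gimg, γlen, div_lt_iff₀ l0] at r1
      have t1 := hab (j + 1)
      change b (j + 1) - 2 * η * (a j - b (j + 1)) ≤ b (j + 2) - 2 * η * (a (j + 1) - b (j + 2))
      have t2 : b (j + 1) - b (j + 2) ≤ η * (a j - b (j + 1)) := by linarith
      have t3 : η * (a j - b (j + 1)) ≤ 1 / 2 * (a j - b (j + 1)) :=
        mul_le_mul_of_nonneg_right η2 l0.le
      have t4 : a (j + 1) - b (j + 2) ≤ 1 / 2 * (a j - b (j + 1)) := by linarith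
      have t5 := mul_le_mul_of_nonneg_left t4 η0.le
      linarith) (fun j => by
      have l0 := sub_pos.2 (hba j)
      have := mul_pos η0 l0
      linarith [hba j, hab j]) hlim hi
  have l0 := sub_pos.2 (hba i)
  have t := mul_le_mul_of_nonneg_right η1 l0.le
  linarith

end Pool.Agent.MP_8df504_an.C

end

section

set_option autoImplicit false

namespace Pool.Agent.MP_8df504_an.C

open Set Filter Topology MeasureTheory

/-! Nested cycles and a cycle of new gaps.

Hints.  `maps_I`: a point of `[a i, b i]` outside `K` is in a gap inside `[a i, b i]`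
(`exists_gap_around`, `gap_between`).  `same_idx`: the intervals are disjoint modulo `p`.
`onto`: `z = T w` (`surjK`), `w ∈ [a l, b l]`, so `l + 1 ≡ i + 1`.  `nested`: induction with `onto`
for `C'` and `maps` for `C`, applied to the points `a' (i+1)`, `b' (i+1)`.
`new_cycle`: `T^[p]` maps `[a 0, b 0]` into itself, so it has a fixed point `z` (intermediate value
theorem).  `C'.p` does not divide `C.p`: the point `z0` lies in `[a' i, b' i] ⊆ [a i, b i]` with
`0 < i < C'.p`, so `C.p ∣ i`.  If `T^[i] z ∈ [a' l, b' l]` then `T^[i + p] z = T^[i] z` lies in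
`[a' (l+p), b' (l+p)]`, so `C'.p ∣ C.p`.  Hence `T^[i] z ∉ K`; let `g i` be the gap around
`T^[i] z` (`g p = g 0` by `Gap.eq_of_mem`).  `Cov`: `T^[i+1] z` is between `T (g i).1` and
`T (g i).2` (`gap_between`), which are in `K`, so outside the open gap `g (i+1)`. -/

namespace Cyc

variable {P : Pre}

lemma mt2_congr (C : Cyc P) {i l : ℕ} (h : i % C.p = l % C.p) : C.a i = C.a l ∧ C.b i = C.b l := by
  have ha : Function.Periodic C.a C.p := C.a_per
  have hb : Function.Periodic C.b C.p := C.b_per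
  exact ⟨by rw [← ha.map_mod_nat i, h, ha.map_mod_nat], by rw [← hb.map_mod_nat i, h, hb.map_mod_nat]⟩

lemma maps_I (C : Cyc P) (i : ℕ) :
    MapsTo P.T (Icc (C.a i) (C.b i)) (Icc (C.a (i + 1)) (C.b (i + 1))) := by
  intro y hy
  by_cases hK : y ∈ P.K
  · exact C.maps i y hK hy.1 hy.2
  · obtain ⟨g, hg, h1, h2, h3, h4⟩ :=
      exists_gap_around P.cpt (C.a_mem i) (C.b_mem i) hy.1 hy.2 hK
    have h5 := hg.2.2.1.le
    exact uIcc_subset_Icc (C.maps i _ hg.1 h1 (h5.trans h4)) (C.maps i _ hg.2.1 (h1.trans h5) h4)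
      (P.gap_between hg ⟨h2.le, h3.le⟩)

lemma mt2_iter (C : Cyc P) (l i : ℕ) :
    MapsTo P.T^[i] (Icc (C.a l) (C.b l)) (Icc (C.a (l + i)) (C.b (l + i))) := by
  induction i with
  | zero => exact mapsTo_id _
  | succ i ih =>
    intro y hy
    rw [Function.iterate_succ_apply']
    exact C.maps_I (l + i) (ih hy)

lemma same_idx (C : Cyc P) {i l : ℕ} {z : ℝ} (h1 : z ∈ Icc (C.a i) (C.b i))
    (h2 : z ∈ Icc (C.a l) (C.b l)) : i % C.p = l % C.p := by
  by_contra hne
  obtain ⟨e1, e2⟩ := C.mt2_congr (Nat.mod_mod i C.p)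
  obtain ⟨e3, e4⟩ := C.mt2_congr (Nat.mod_mod l C.p)
  have := C.disj _ _ (Nat.mod_lt i C.p_pos) (Nat.mod_lt l C.p_pos) hne
  rw [e1, e2, e3, e4] at this
  rcases this with c | c <;> linarith [h1.1, h1.2, h2.1, h2.2]

lemma onto (C : Cyc P) (i : ℕ) {z : ℝ} (hz : z ∈ P.K)
    (h : z ∈ Icc (C.a (i + 1)) (C.b (i + 1))) :
    ∃ w ∈ P.K, w ∈ Icc (C.a i) (C.b i) ∧ P.T w = z := by
  obtain ⟨w, hw, rfl⟩ := P.surjK hz
  obtain ⟨l, -, hl⟩ := C.cover w hw
  have h1 : l + 1 ≡ i + 1 [MOD C.p] := C.same_idx (C.maps l w hw hl.1 hl.2) h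
  obtain ⟨e1, e2⟩ := C.mt2_congr (Nat.ModEq.add_right_cancel' 1 h1)
  exact ⟨w, hw, ⟨e1 ▸ hl.1, e2 ▸ hl.2⟩, rfl⟩

lemma nested (C C' : Cyc P) (h1 : C.a 0 ≤ C'.a 0) (h2 : C'.b 0 ≤ C.b 0) (i : ℕ) :
    C.a i ≤ C'.a i ∧ C'.b i ≤ C.b i := by
  induction i with
  | zero => exact ⟨h1, h2⟩
  | succ i ih =>
    have key : ∀ z ∈ P.K, z ∈ Icc (C'.a (i + 1)) (C'.b (i + 1)) →
        C.a (i + 1) ≤ z ∧ z ≤ C.b (i + 1) := fun z hz h => by
      obtain ⟨w, hw, hw', rfl⟩ := C'.onto i hz h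
      exact C.maps i w hw (ih.1.trans hw'.1) (hw'.2.trans ih.2)
    exact ⟨(key _ (C'.a_mem _) ⟨le_rfl, C'.ab _⟩).1, (key _ (C'.b_mem _) ⟨C'.ab _, le_rfl⟩).2⟩

lemma new_cycle (C C' : Cyc P) (h1 : C.a 0 ≤ C'.a 0) (h2 : C'.b 0 ≤ C.b 0) {z0 : ℝ}
    (hz : z0 ∈ P.K) (hz1 : z0 ∈ Icc (C.a 0) (C.b 0)) (hz2 : z0 ∉ Icc (C'.a 0) (C'.b 0)) :
    ∃ g : ℕ → ℝ × ℝ, g C.p = g 0 ∧ ∀ i < C.p, g i ∈ Gap P.K ∧ Inner (C.a i) (C.b i) (g i) ∧
      (∀ l, ¬ Inner (C'.a l) (C'.b l) (g i)) ∧ Cov P.T (g i) (g (i + 1)) := by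
  have hm := C.mt2_iter 0 C.p
  rw [C.a_per, C.b_per] at hm
  obtain ⟨z, hzI, hfix⟩ :=
    exists_mem_Icc_isFixedPt_of_mapsTo (P.cont.iterate C.p).continuousOn (C.ab 0) hm
  have hnd : ¬ C'.p ∣ C.p := fun hd => by
    obtain ⟨i, hi, hi'⟩ := C'.cover z0 hz
    obtain ⟨n1, n2⟩ := C.nested C' h1 h2 i
    have h3 := C.same_idx ⟨n1.trans hi'.1, hi'.2.trans n2⟩ hz1
    rw [Nat.zero_mod] at h3
    have h4 : i = 0 := Nat.eq_zero_of_dvd_of_lt (hd.trans (Nat.dvd_of_mod_eq_zero h3)) hi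
    exact hz2 (h4 ▸ hi')
  have hper : ∀ i, P.T^[C.p] (P.T^[i] z) = P.T^[i] z := fun i => by
    rw [← Function.iterate_add_apply, add_comm, Function.iterate_add_apply, hfix.eq]
  have hout : ∀ i l, P.T^[i] z ∉ Icc (C'.a l) (C'.b l) := fun i l h => by
    have h3 := C'.mt2_iter l C.p h
    rw [hper] at h3
    have h4 : l + 0 ≡ l + C.p [MOD C'.p] := C'.same_idx h h3
    exact hnd ((Nat.modEq_zero_iff_dvd).1 (Nat.ModEq.add_left_cancel' l h4).symm)
  have hK : ∀ i, P.T^[i] z ∉ P.K := fun i h => by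
    obtain ⟨l, -, hl⟩ := C'.cover _ h
    exact hout i l hl
  have hI : ∀ i, P.T^[i] z ∈ Icc (C.a i) (C.b i) := fun i => by
    simpa using C.mt2_iter 0 i hzI
  choose g hg g1 g2 g3 g4 using fun i =>
    exists_gap_around P.cpt (C.a_mem i) (C.b_mem i) (hI i).1 (hI i).2 (hK i)
  refine ⟨g, Gap.eq_of_mem (hg _) (hg _) ⟨g2 _, g3 _⟩ (hfix.eq.symm ▸ ⟨g2 0, g3 0⟩),
    fun i _ => ⟨hg i, ⟨g1 i, g4 i⟩, fun l h => hout i l ⟨h.1.trans (g2 i).le, (g3 i).le.trans h.2⟩,
      ?_⟩⟩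
  have h3 := P.gap_between (hg i) (y := P.T^[i] z) ⟨(g2 i).le, (g3 i).le⟩
  have h4 := g2 (i + 1)
  have h5 := g3 (i + 1)
  rw [Function.iterate_succ_apply'] at h4 h5
  have k1 := P.mapsK (hg i).1
  have k2 := P.mapsK (hg i).2.1
  have k3 : min (P.T (g i).1) (P.T (g i).2) ∈ P.K := by
    rcases min_choice (P.T (g i).1) (P.T (g i).2) with e | e <;> rwa [e]
  have k4 : max (P.T (g i).1) (P.T (g i).2) ∈ P.K := by
    rcases max_choice (P.T (g i).1) (P.T (g i).2) with e | e <;> rwa [e]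
  exact ⟨(Gap.le_or_ge (hg (i + 1)) k3).resolve_right (not_le.2 (h3.1.trans_lt h5)),
    (Gap.le_or_ge (hg (i + 1)) k4).resolve_left (not_le.2 (h4.trans_le h3.2))⟩

end Cyc

end Pool.Agent.MP_8df504_an.C

end

section

set_option autoImplicit false

namespace Pool.Agent.MP_8df504_an.C

open Set Filter Topology MeasureTheory

/-! The Martens-Tresser type contradiction.

`seq_MT`: `Γ` converges to `Γ∞ > Γ j ≥ 1`, `τ j = Γ (j+1) / Γ j → 1`.  The `β` are bounded above, so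
the second alternative fails for large `j`; some `β` occurs infinitely often; `β > 0`; in the limit
`β Γ∞ ≤ 1`, but `β Γ∞ > β Γ j ≥ 1`.

`step_MT`: `Λ = ∏ i<p |sl (g i).1| = ∏ img (g i) / len (g i) = ∏ img (g i) / len (g (i+1))` (cyclic,
`g p = g 0`), each factor `≥ 1` (`Cov.len_le`).  `O ⊆ O'` (`nested`), `τ = ∏ (O' \ O) r`, the `g i`
are distinct elements of `O' \ O` (`same_idx`).  If `pi (g i) = g (i+1)` for all `i < p` then
`Λ = ∏ r (g i) ≤ τ`.  Otherwise for some `i` the segment `T (g i)` contains the two different gaps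
`pi (g i)`, `g (i+1)` (`Gap.sep`), so `len (g (i+1)) ≤ img (1 - 1 / r (g i)) ≤ img (1 - 1/τ)`.

`no_cycles`: choose cycles `C j` for `j ≥ j0`, outer sets `O j`, `Γ j = ∏ (O j) r ≤ G`.  The gap
`e (j+2)` is long, inner at level `j`, outer at level `j+1` (it is a flank of `[u (j+1), v (j+1)]`:
one end is in that interval and the other is not; use `same_idx` and periodicity), so
`Γ j < Γ (j+1)`; its outer end is the point `z0` for `new_cycle`. -/

lemma seq_MT (Γ : ℕ → ℝ) (G : ℝ) (Φ : Finset ℝ) (h1 : ∀ j, 1 ≤ Γ j) (hG : ∀ j, Γ j ≤ G)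
    (hm : ∀ j, Γ j < Γ (j + 1))
    (h : ∀ j, ∃ β ∈ Φ, 1 ≤ β * Γ j ∧ (β * Γ j ≤ Γ (j + 1) / Γ j ∨
      Γ (j + 1) / Γ j ≤ β * Γ j * (Γ (j + 1) / Γ j - 1))) : False := by
  have hmono : Monotone Γ := monotone_nat_of_le_succ fun j => (hm j).le
  have hbdd : BddAbove (range Γ) := ⟨G, by rintro _ ⟨j, rfl⟩; exact hG j⟩
  have hlim : Tendsto Γ atTop (𝓝 (⨆ j, Γ j)) := tendsto_atTop_ciSup hmono hbdd
  have hlt : ∀ j, Γ j < ⨆ j, Γ j := fun j => (hm j).trans_le (le_ciSup hbdd (j + 1))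
  generalize ⨆ j, Γ j = L at hlim hlt
  have hL : 0 < L := by linarith [h1 0, hlt 0]
  have hτ : Tendsto (fun j => Γ (j + 1) / Γ j) atTop (𝓝 1) := by
    have := ((tendsto_add_atTop_iff_nat 1).2 hlim).div hlim hL.ne'
    rwa [div_self hL.ne'] at this
  have key : ∀ β ∈ Φ, ∀ᶠ j in atTop, ¬ (1 ≤ β * Γ j ∧ (β * Γ j ≤ Γ (j + 1) / Γ j ∨
      Γ (j + 1) / Γ j ≤ β * Γ j * (Γ (j + 1) / Γ j - 1))) := by
    intro β _
    by_cases hβ : β * L ≤ 1
    · refine Eventually.of_forall fun j hj => ?_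
      have h2 : 0 < β := by
        by_contra hc
        have := mul_nonpos_of_nonpos_of_nonneg (not_lt.1 hc) (zero_le_one.trans (h1 j))
        linarith [hj.1]
      have := mul_lt_mul_of_pos_left (hlt j) h2
      linarith [hj.1]
    · have h2 := hlim.const_mul β
      have h3 := h2.mul (hτ.sub_const 1)
      rw [sub_self, mul_zero] at h3
      filter_upwards [hτ.eventually_lt h2 (not_le.1 hβ), h3.eventually_lt hτ zero_lt_one]
        with j e1 e2 hj
      rcases hj.2 with e | e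
      · exact absurd e (not_le.2 e1)
      · exact absurd e (not_le.2 e2)
  obtain ⟨j, hj⟩ := ((Filter.eventually_all_finset Φ).2 key).exists
  obtain ⟨β, hβ, e⟩ := h j
  exact hj β hβ e

lemma mt3a_sub {ι : Type} {F F' : Finset ι} {f : ι → ℝ} (h : F ⊆ F') (h1 : ∀ i ∈ F', 1 ≤ f i) :
    ∏ i ∈ F, f i ≤ ∏ i ∈ F', f i :=
  Finset.prod_le_prod_of_subset_of_one_le h (fun i hi => zero_le_one.trans (h1 i (h hi)))
    fun i hi _ => h1 i hi

lemma Sys.step_MT (S : Sys) (C C' : Cyc S.P) (h1 : C.a 0 ≤ C'.a 0) (h2 : C'.b 0 ≤ C.b 0)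
    {O O' : Finset (ℝ × ℝ)} (hO : C.IsOuter O) (hO' : C'.IsOuter O') (g : ℕ → ℝ × ℝ)
    (hp : g C.p = g 0)
    (hg : ∀ i < C.p, g i ∈ Gap S.P.K ∧ Inner (C.a i) (C.b i) (g i) ∧
      (∀ l, ¬ Inner (C'.a l) (C'.b l) (g i)) ∧ Cov S.P.T (g i) (g (i + 1)))
    {Λ τ : ℝ} (hΛ : Λ = ∏ i ∈ Finset.range C.p, |S.L.sl (g i).1|)
    (hτ : τ = (∏ g ∈ O', S.r g) / ∏ g ∈ O, S.r g) :
    1 ≤ Λ ∧ (Λ ≤ τ ∨ τ ≤ Λ * (τ - 1)) := by
  classical
  have hp0 : 0 < C.p := C.p_pos
  have hgap : ∀ i ≤ C.p, g i ∈ Gap S.P.K := fun i hi => by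
    rcases hi.eq_or_lt with e | e
    · rw [e, hp]
      exact (hg 0 hp0).1
    · exact (hg i e).1
  have hlen : ∀ i ≤ C.p, 0 < len (g i) := fun i hi => Gap.len_pos (hgap i hi)
  have hcyc : ∏ i ∈ Finset.range C.p, len (g (i + 1)) = ∏ i ∈ Finset.range C.p, len (g i) := by
    have e := Finset.prod_range_succ' (fun i => len (g i)) C.p
    rw [Finset.prod_range_succ, hp] at e
    exact (mul_right_cancel₀ (hlen 0 hp0.le).ne' e).symm
  have hΛ' : Λ = ∏ i ∈ Finset.range C.p, img S.P.T (g i) / len (g (i + 1)) := by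
    rw [Finset.prod_div_distrib, hcyc, ← Finset.prod_div_distrib, hΛ]
    refine Finset.prod_congr rfl fun i hi => ?_
    have hi' := (Finset.mem_range.1 hi).le
    rw [S.img_gap (hgap i hi'), mul_div_cancel_right₀ _ (hlen i hi').ne']
  have hq : ∀ i ∈ Finset.range C.p, 1 ≤ img S.P.T (g i) / len (g (i + 1)) := fun i hi => by
    have hi' := Finset.mem_range.1 hi
    rw [one_le_div (hlen (i + 1) hi')]
    exact (hg i hi').2.2.2.len_le
  have hsub : O ⊆ O' := fun γ hγ => by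
    obtain ⟨e1, e2⟩ := (hO γ).1 hγ
    refine (hO' γ).2 ⟨e1, fun i hi => e2 i ?_⟩
    obtain ⟨e3, e4⟩ := Cyc.nested C C' h1 h2 i
    exact ⟨e3.trans hi.1, hi.2.trans e4⟩
  have hr : ∀ γ ∈ O', 1 ≤ S.r γ := fun γ hγ => S.one_le_r ((hO' γ).1 hγ).1
  have hτ' : τ = ∏ γ ∈ O' \ O, S.r γ := by
    rw [hτ, ← Finset.prod_sdiff hsub, mul_div_cancel_right₀]
    exact (Finset.prod_pos fun γ hγ => zero_lt_one.trans_le (hr γ (hsub hγ))).ne'
  have hmem : ∀ i < C.p, g i ∈ O' \ O := fun i hi =>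
    Finset.mem_sdiff.2 ⟨(hO' _).2 ⟨(hg i hi).1, (hg i hi).2.2.1⟩,
      fun h => ((hO _).1 h).2 i (hg i hi).2.1⟩
  have hinj : InjOn g (Finset.range C.p : Set ℕ) := fun i hi l hl e => by
    have hi' : i < C.p := by simpa using hi
    have hl' : l < C.p := by simpa using hl
    have e1 := (hg i hi').2.1
    have e2 := (hg l hl').2.1
    have e3 := (hg i hi').1.2.2.1
    rw [← e] at e2
    have := C.same_idx (z := (g i).1) ⟨e1.1, e3.le.trans e1.2⟩ ⟨e2.1, e3.le.trans e2.2⟩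
    rwa [Nat.mod_eq_of_lt hi', Nat.mod_eq_of_lt hl'] at this
  have hle : ∀ F : Finset (ℝ × ℝ), F ⊆ O' \ O → ∏ γ ∈ F, S.r γ ≤ τ := fun F hF => by
    rw [hτ']
    exact mt3a_sub hF fun γ hγ => hr γ (Finset.mem_sdiff.1 hγ).1
  refine ⟨hΛ' ▸ Finset.one_le_prod hq, ?_⟩
  by_cases hall : ∀ i < C.p, S.pi (g i) = g (i + 1)
  · left
    refine le_trans (le_of_eq ?_) (hle ((Finset.range C.p).image g) fun γ hγ => ?_)
    · rw [Finset.prod_image hinj, hΛ']
      refine Finset.prod_congr rfl fun i hi => ?_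
      rw [Sys.r, hall i (Finset.mem_range.1 hi)]
    · obtain ⟨i, hi, rfl⟩ := Finset.mem_image.1 hγ
      exact hmem i (Finset.mem_range.1 hi)
  · right
    push Not at hall
    obtain ⟨i, hi, hne⟩ := hall
    have e1 : S.r (g i) ≤ τ := by
      have := hle {g i} (Finset.singleton_subset_iff.2 (hmem i hi))
      rwa [Finset.prod_singleton] at this
    have e2 : img S.P.T (g i) / len (g (i + 1)) ≤ Λ := by
      have := mt3a_sub (Finset.singleton_subset_iff.2 (Finset.mem_range.2 hi)) hq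
      rwa [Finset.prod_singleton, ← hΛ'] at this
    have e3 : 1 ≤ τ := (S.one_le_r (hgap i hi.le)).trans e1
    have hA := Gap.len_pos (S.pi_mem (hgap i hi.le))
    have hB := hlen (i + 1) hi
    rw [Sys.r, div_le_iff₀ hA] at e1
    rw [div_le_iff₀ hB] at e2
    have e4 : len (S.pi (g i)) + len (g (i + 1)) ≤ img S.P.T (g i) := by
      have c1 := S.ok.cov _ (hgap i hi.le)
      have c2 := (hg i hi).2.2.2
      have c3 := Gap.sep (S.pi_mem (hgap i hi.le)) (hgap (i + 1) hi) hne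
      unfold len img
      rw [← max_sub_min_eq_abs]
      rcases c3 with c | c <;> linarith [c1.1, c1.2, c2.1, c2.2]
    refine le_of_mul_le_mul_right ?_ hB
    have e5 := mul_le_mul_of_nonneg_left e4 (zero_le_one.trans e3)
    have e6 := mul_le_mul_of_nonneg_left e2 (sub_nonneg.2 e3)
    nlinarith

end Pool.Agent.MP_8df504_an.C

end

section

set_option autoImplicit false

namespace Pool.Agent.MP_8df504_an.C

open Set Filter Topology MeasureTheory

/-! From a recurrent orbit with frequently bounded gain to `Raw`.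

`gaps_image_mono`: a map that is strictly increasing on `A` transports the edges.
`gain_closure`: let `A ⊆ closure S` be finite.  Choose `φ n z ∈ S` with `φ n z → z` for `z ∈ A`
(`mem_closure_iff_seq_limit`).  For large `n`, `φ n` is strictly increasing on `A`, and the map
`ψ n (T z) = T (φ n z)` (use `Function.invFunOn T A`) is strictly increasing on `A.image T`.  So
`Pt T (φ n A) = ∏ g ∈ gaps A, |T (φ n g.2) - T (φ n g.1)| → Pt T A` and
`Dl (T (φ n A)) = ∏ γ ∈ gaps (T A), (ψ n γ.2 - ψ n γ.1) → Dl (T A)`; pass to the limit.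
`fold_bound`: induction on `k`.  `k = 0`: `T` is affine on `[p,q]` with slope `σ`; the edge from `p`
(`exists_edge_from`) gives `c ≤ |σ|`.  Step: take `b ∈ B ∩ (p,q)`, `p'` the largest point of `A` that
is `≤ b`, `q'` the least point of `A` that is `> b`; `(p',q')` is an edge.
`raw_of_orbit`: `K = closure (range x)`.  `Gain T (range x) G` by `mono_gain`.  For orbit points
`a < a'`, `three_point` and `fold_bound` on `A = (orb x n) ∩ [a,a']` (its edges are edges of
`orb x n`) with `X = 2 G |T a' - T a|` give `c (a' - a) ≤ (2 card B + 1) X`; this passes to the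
closure, so `T` is injective on `K`.  Dense tails: `x 0 ∈ closure (x '' Ici N)` and continuity. -/

lemma gaps_image_mono {A : Finset ℝ} {φ : ℝ → ℝ} (h : StrictMonoOn φ (A : Set ℝ)) :
    gaps (A.image φ) = (gaps A).image (Prod.map φ φ) ∧
      InjOn (Prod.map φ φ) (gaps A : Set (ℝ × ℝ)) := by
  refine ⟨?_, fun g hg g' hg' e => ?_⟩
  · ext γ
    simp only [Finset.mem_image, mem_gaps, Gap, Finset.coe_image, mem_ofPred_eq]
    constructor
    · rintro ⟨⟨a, ha, e1⟩, ⟨b, hb, e2⟩, h1, h2⟩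
      refine ⟨(a, b), ⟨ha, hb, (h.lt_iff_lt ha hb).1 (by rwa [e1, e2]), fun z hz hc => ?_⟩,
        Prod.ext e1 e2⟩
      exact h2 _ ⟨z, hz, rfl⟩ ⟨e1 ▸ h ha hz hc.1, e2 ▸ h hz hb hc.2⟩
    · rintro ⟨g, ⟨ha, hb, h1, h2⟩, rfl⟩
      refine ⟨⟨_, ha, rfl⟩, ⟨_, hb, rfl⟩, h ha hb h1, ?_⟩
      rintro _ ⟨z, hz, rfl⟩ hc
      exact h2 z hz ⟨(h.lt_iff_lt ha hz).1 hc.1, (h.lt_iff_lt hz hb).1 hc.2⟩
  · have h1 := mem_gaps.1 hg
    have h2 := mem_gaps.1 hg'
    exact Prod.ext (h.injOn h1.1 h2.1 (congrArg Prod.fst e))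
      (h.injOn h1.2.1 h2.2.1 (congrArg Prod.snd e))

lemma clos_lim {A : Finset ℝ} {φ : ℕ → ℝ → ℝ}
    (h : ∀ z ∈ A, Tendsto (fun n => φ n z) atTop (𝓝 z)) {F : ℝ × ℝ → ℝ} (hF : Continuous F) :
    Tendsto (fun n => ∏ g ∈ gaps (A.image (φ n)), F g) atTop (𝓝 (∏ g ∈ gaps A, F g)) := by
  have h1 : ∀ᶠ n in atTop, ∀ a ∈ A, ∀ b ∈ A, a < b → φ n a < φ n b :=
    (A.eventually_all).2 fun a ha => (A.eventually_all).2 fun b hb => by
      by_cases hab : a < b
      · exact ((h a ha).eventually_lt (h b hb) hab).mono fun _ h2 _ => h2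
      · exact Eventually.of_forall fun _ h2 => absurd h2 hab
  refine Tendsto.congr' (f₁ := fun n => ∏ g ∈ gaps A, F (Prod.map (φ n) (φ n) g))
    (h1.mono fun n hn => ?_) (tendsto_finset_prod _ fun g hg => (hF.tendsto g).comp ?_)
  · have h2 := gaps_image_mono (A := A) (φ := φ n) fun a ha b hb => hn a ha b hb
    simp only [h2.1, Finset.prod_image h2.2]
  · exact (h _ (mem_gaps.1 hg).1).prodMk_nhds (h _ (mem_gaps.1 hg).2.1)

lemma gain_closure {T : ℝ → ℝ} (hT : Continuous T) {S : Set ℝ} {G : ℝ}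
    (hinj : InjOn T (closure S)) (hG : Gain T S G) : Gain T (closure S) G := by
  intro A hA
  choose! φ h1 h2 using fun z (hz : z ∈ A) => mem_closure_iff_seq_limit.1 (hA hz)
  have hl : ∀ z ∈ A, Function.invFunOn T A (T z) = z := fun z hz =>
    (hinj.mono hA).leftInvOn_invFunOn hz
  have a1 := clos_lim (φ := fun n z => φ z n) h2 (F := img T) (by unfold img; fun_prop)
  have a2 := clos_lim (A := A.image T) (φ := fun n w => T (φ (Function.invFunOn T A w) n))
    (fun w hw => by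
      obtain ⟨z, hz, rfl⟩ := Finset.mem_image.1 hw
      rw [hl z hz]
      exact (hT.tendsto z).comp (h2 z hz)) (F := len) (by unfold len; fun_prop)
  refine le_of_tendsto_of_tendsto' a1 (a2.const_mul G) fun n => ?_
  have e : (A.image T).image (fun w => T (φ (Function.invFunOn T A w) n)) =
      (A.image fun z => φ z n).image T := by
    rw [Finset.image_image, Finset.image_image]
    exact Finset.image_congr fun z hz => by simp only [Function.comp_apply, hl z hz]
  rw [e]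
  refine hG _ fun y hy => ?_
  obtain ⟨z, hz, rfl⟩ := Finset.mem_image.1 hy
  exact h1 z hz n

end Pool.Agent.MP_8df504_an.C

end

section

set_option autoImplicit false

namespace Pool.Agent.MP_8df504_an.C

open Set Filter Topology MeasureTheory

/-! From a recurrent orbit with frequently bounded gain to `Raw`.

`gaps_image_mono`: a map that is strictly increasing on `A` transports the edges.
`gain_closure`: let `A ⊆ closure S` be finite.  Choose `φ n z ∈ S` with `φ n z → z` for `z ∈ A`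
(`mem_closure_iff_seq_limit`).  For large `n`, `φ n` is strictly increasing on `A`, and the map
`ψ n (T z) = T (φ n z)` (use `Function.invFunOn T A`) is strictly increasing on `A.image T`.  So
`Pt T (φ n A) = ∏ g ∈ gaps A, |T (φ n g.2) - T (φ n g.1)| → Pt T A` and
`Dl (T (φ n A)) = ∏ γ ∈ gaps (T A), (ψ n γ.2 - ψ n γ.1) → Dl (T A)`; pass to the limit.
`fold_bound`: induction on `k`.  `k = 0`: `T` is affine on `[p,q]` with slope `σ`; the edge from `p`
(`exists_edge_from`) gives `c ≤ |σ|`.  Step: take `b ∈ B ∩ (p,q)`, `p'` the largest point of `A` that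
is `≤ b`, `q'` the least point of `A` that is `> b`; `(p',q')` is an edge.
`raw_of_orbit`: `K = closure (range x)`.  `Gain T (range x) G` by `mono_gain`.  For orbit points
`a < a'`, `three_point` and `fold_bound` on `A = (orb x n) ∩ [a,a']` (its edges are edges of
`orb x n`) with `X = 2 G |T a' - T a|` give `c (a' - a) ≤ (2 card B + 1) X`; this passes to the
closure, so `T` is injective on `K`.  Dense tails: `x 0 ∈ closure (x '' Ici N)` and continuity. -/

lemma gt0a_base {T : ℝ → ℝ} {lo hi c X : ℝ} {B A : Finset ℝ} (hPL : PLz T lo hi B)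
    (hsub : ∀ a ∈ A, a ∈ Icc lo hi) (he : ∀ e ∈ gaps A, c * len e ≤ img T e)
    (hX : ∀ p ∈ A, ∀ q ∈ A, |T q - T p| ≤ X) {p q : ℝ} (hp : p ∈ A) (hq : q ∈ A) (hpq : p ≤ q)
    (hB : NoB B p q) : c * (q - p) ≤ X := by
  rcases hpq.eq_or_lt with rfl | hlt
  · simpa using hX p hp p hp
  obtain ⟨σ, hσ⟩ := hPL p q (hsub p hp).1 hlt (hsub q hq).2 hB
  obtain ⟨g, hg, h1, h2⟩ := exists_edge_from hp hq hlt
  have h3 := he g hg
  have h4 : p < g.2 := h1 ▸ (mem_gaps.1 hg).2.2.1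
  rw [len, img, h1, hσ g.2 ⟨h4.le, h2⟩, add_sub_cancel_left, abs_mul,
    abs_of_pos (sub_pos.2 h4)] at h3
  have h5 := hX p hp q hq
  rw [hσ q ⟨hlt.le, le_rfl⟩, add_sub_cancel_left, abs_mul, abs_of_pos (sub_pos.2 hlt)] at h5
  exact (mul_le_mul_of_nonneg_right (le_of_mul_le_mul_right h3 (sub_pos.2 h4))
    (sub_pos.2 hlt).le).trans h5

lemma fold_bound {T : ℝ → ℝ} {lo hi c X : ℝ} {B A : Finset ℝ} (hPL : PLz T lo hi B)
    (hsub : ∀ a ∈ A, a ∈ Icc lo hi) (hc : 0 < c) (he : ∀ e ∈ gaps A, c * len e ≤ img T e)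
    (hX : ∀ p ∈ A, ∀ q ∈ A, |T q - T p| ≤ X) (k : ℕ) :
    ∀ p ∈ A, ∀ q ∈ A, p ≤ q → (B.filter (fun b => p < b ∧ b < q)).card ≤ k →
      c * (q - p) ≤ (2 * k + 1) * X := by
  have _ := hc
  induction k with
  | zero =>
    intro p hp q hq hpq hk
    rw [Nat.le_zero, Finset.card_eq_zero, Finset.filter_eq_empty_iff] at hk
    simpa using gt0a_base hPL hsub he hX hp hq hpq fun b hb => hk hb
  | succ k ih =>
    intro p hp q hq hpq hk
    have hX0 : 0 ≤ X := (abs_nonneg _).trans (hX p hp p hp)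
    rcases (B.filter (fun b => p < b ∧ b < q)).eq_empty_or_nonempty with h0 | h0
    · have := ih p hp q hq hpq (by rw [h0]; exact Nat.zero_le _)
      push_cast
      linarith
    obtain ⟨b, hb, hbm⟩ := Finset.exists_min_image _ id h0
    have hb' := Finset.mem_filter.1 hb
    obtain ⟨p', hp', hpm⟩ := (A.filter (fun z => z ≤ b)).exists_max_image id
      ⟨p, Finset.mem_filter.2 ⟨hp, hb'.2.1.le⟩⟩
    obtain ⟨q', hq', hqm⟩ := (A.filter (fun z => b < z)).exists_min_image id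
      ⟨q, Finset.mem_filter.2 ⟨hq, hb'.2.2⟩⟩
    rw [Finset.mem_filter] at hp' hq'
    have h1 : p ≤ p' := hpm p (Finset.mem_filter.2 ⟨hp, hb'.2.1.le⟩)
    have h2 : q' ≤ q := hqm q (Finset.mem_filter.2 ⟨hq, hb'.2.2⟩)
    have h3 : c * (p' - p) ≤ X := gt0a_base hPL hsub he hX hp hp'.1 h1 fun z hz hz' =>
      absurd (hbm z (Finset.mem_filter.2 ⟨hz, hz'.1, hz'.2.trans_le (hp'.2.trans hb'.2.2.le)⟩))
        (not_le.2 (hz'.2.trans_le hp'.2))
    have h4 : c * (q' - p') ≤ X := (he (p', q') (mem_gaps.2 ⟨hp'.1, hq'.1, hp'.2.trans_lt hq'.2,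
      fun z hz hz' => by
        rcases le_or_gt z b with e | e
        · exact absurd (hpm z (Finset.mem_filter.2 ⟨hz, e⟩)) (not_le.2 hz'.1)
        · exact absurd (hqm z (Finset.mem_filter.2 ⟨hz, e⟩)) (not_le.2 hz'.2)⟩)).trans
      (hX p' hp'.1 q' hq'.1)
    have h5 := ih q' hq'.1 q hq h2 (by
      have : B.filter (fun z => q' < z ∧ z < q) ⊆ (B.filter (fun b => p < b ∧ b < q)).erase b := by
        intro z hz
        rw [Finset.mem_filter] at hz
        have := hq'.2.trans hz.2.1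
        exact Finset.mem_erase.2 ⟨this.ne', Finset.mem_filter.2 ⟨hz.1, hb'.2.1.trans this, hz.2.2⟩⟩
      have h6 := Finset.card_le_card this
      rw [Finset.card_erase_of_mem hb] at h6
      omega)
    push_cast
    linarith

lemma gt0a_orb {x : ℕ → ℝ} {A : Finset ℝ} (h : (A : Set ℝ) ⊆ range x) :
    ∀ᶠ n in atTop, A ⊆ orb x n := by
  have : ∀ a ∈ A, ∀ᶠ n in atTop, a ∈ orb x n := fun a ha => by
    obtain ⟨m, rfl⟩ := h ha
    filter_upwards [eventually_gt_atTop m] with n hn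
    exact Finset.mem_image_of_mem x (Finset.mem_range.2 hn)
  filter_upwards [(Finset.eventually_all A).2 this] with n hn a ha using hn a ha

lemma gt0a_sub (x : ℕ → ℝ) (n : ℕ) : (orb x n : Set ℝ) ⊆ range x := fun a ha => by
  obtain ⟨m, -, rfl⟩ := Finset.mem_image.1 ha
  exact mem_range_self m

lemma raw_of_orbit {T : ℝ → ℝ} (hT : Continuous T) {B : Finset ℝ} (hPL : PLz T 0 1 B)
    {x : ℕ → ℝ} (hx : ∀ n, x (n + 1) = T (x n)) (hI : ∀ n, x n ∈ Icc (0 : ℝ) 1)
    (hinj : Function.Injective x) (hrec : ∀ N, x 0 ∈ closure (x '' Ici N)) {G c : ℝ} (hc : 0 < c)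
    (h : ∃ᶠ n in atTop, Pt T (orb x n) ≤ G * Dl ((orb x n).image T) ∧
      ∀ e ∈ gaps (orb x n), c * len e ≤ img T e) : Nonempty Raw := by
  have hTi : InjOn T (range x) := by
    rintro _ ⟨n, rfl⟩ _ ⟨m, rfl⟩ e
    rw [← hx, ← hx] at e
    rw [Nat.succ_injective (hinj e)]
  have hG : Gain T (range x) G := fun A hA => by
    obtain ⟨n, h1, h2⟩ := (h.and_eventually (gt0a_orb hA)).exists
    have h3 := mono_gain h2 (hTi.mono (gt0a_sub x n))
    refine le_of_mul_le_mul_right (h3.trans ?_) (Dl_pos ((orb x n).image T))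
    rw [mul_right_comm]
    exact mul_le_mul_of_nonneg_right h1.1 (Dl_pos _).le
  have key : ∀ a ∈ range x, ∀ a' ∈ range x, a ≤ a' →
      c * (a' - a) ≤ (2 * B.card + 1) * (2 * G * |T a' - T a|) := by
    intro a ha a' ha' hle
    obtain ⟨n, h1, h2⟩ := (h.and_eventually (gt0a_orb (A := {a, a'}) (by
      rw [Finset.coe_pair]
      exact pair_subset ha ha'))).exists
    have m1 : a ∈ orb x n := h2 (by simp)
    have m2 : a' ∈ orb x n := h2 (by simp)
    refine fold_bound (A := (orb x n).filter fun z => a ≤ z ∧ z ≤ a') hPL (fun z hz => ?_) hc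
      (fun e he => h1.2 e ?_) (fun p hp q hq => ?_) B.card a
      (Finset.mem_filter.2 ⟨m1, le_rfl, hle⟩) a' (Finset.mem_filter.2 ⟨m2, hle, le_rfl⟩) hle
      (Finset.card_filter_le _ _)
    · obtain ⟨m, rfl⟩ := gt0a_sub x n (Finset.mem_filter.1 hz).1
      exact hI m
    · obtain ⟨e1, e2, e3, e4⟩ := mem_gaps.1 he
      have e5 := Finset.mem_filter.1 e1
      have e6 := Finset.mem_filter.1 e2
      exact mem_gaps.2 ⟨e5.1, e6.1, e3, fun z hz hz' => e4 z (Finset.mem_filter.2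
        ⟨hz, e5.2.1.trans hz'.1.le, hz'.2.le.trans e6.2.2⟩) hz'⟩
    · rw [Finset.mem_filter] at hp hq
      have e1 := (three_point hTi hG ha (gt0a_sub x n hp.1) ha' hp.2.1 hp.2.2).1
      have e2 := (three_point hTi hG ha (gt0a_sub x n hq.1) ha' hq.2.1 hq.2.2).1
      have e3 := abs_sub_le (T q) (T a) (T p)
      rw [abs_sub_comm (T a) (T p)] at e3
      linarith
  have key2 : ∀ a ∈ range x, ∀ a' ∈ range x,
      c * |a' - a| ≤ (2 * B.card + 1) * (2 * G * |T a' - T a|) := by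
    intro a ha a' ha'
    rcases le_total a a' with e | e
    · rw [abs_of_nonneg (sub_nonneg.2 e)]
      exact key a ha a' ha' e
    · rw [abs_sub_comm, abs_of_nonneg (sub_nonneg.2 e), abs_sub_comm]
      exact key a' ha' a ha e
  have key3 : ∀ a' ∈ closure (range x), ∀ a ∈ closure (range x),
      c * |a' - a| ≤ (2 * B.card + 1) * (2 * G * |T a' - T a|) := by
    intro a' ha'
    refine closure_minimal (t := {a | c * |a' - a| ≤ (2 * B.card + 1) * (2 * G * |T a' - T a|)})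
      (fun a ha => ?_) (isClosed_le (by fun_prop) (by fun_prop))
    exact closure_minimal (t := {a' | c * |a' - a| ≤ (2 * B.card + 1) * (2 * G * |T a' - T a|)})
      (key2 a ha) (isClosed_le (by fun_prop) (by fun_prop)) ha'
  have hK : InjOn T (closure (range x)) := fun a ha a' ha' e => by
    have h1 := key3 a ha a' ha'
    rw [e, sub_self, abs_zero, mul_zero, mul_zero] at h1
    exact sub_eq_zero.1 (abs_nonpos_iff.1 (nonpos_of_mul_nonpos_right h1 hc))
  have hsub : closure (range x) ⊆ Icc 0 1 :=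
    closure_minimal (range_subset_iff.2 hI) isClosed_Icc
  refine ⟨⟨T, hT, closure (range x), isCompact_Icc.of_isClosed_subset isClosed_closure hsub, hsub,
    B, hPL, hK, x, hx, fun n => subset_closure (mem_range_self n), hinj, fun N => ?_, G,
    gain_closure hT hK hG⟩⟩
  refine closure_minimal (range_subset_iff.2 fun n => ?_) isClosed_closure
  induction n with
  | zero => exact hrec N
  | succ n ih =>
    rw [hx]
    refine map_mem_closure hT ih ?_
    rintro _ ⟨m, hm, rfl⟩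
    exact ⟨m + 1, le_trans hm (Nat.le_succ m), hx m⟩

end Pool.Agent.MP_8df504_an.C

end
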