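import Pool.Agent.Mg.F8df504.G78a617

section

set_option autoImplicit false

namespace Pool.Agent.MP_8df504_an.C

open Set Filter Topology MeasureTheory

/-! Slope data.

Hints.  For `y ∈ [lo,hi)` let `nb y` be the least element of `B` above `y` and
`sl y = (T (nb y) - T y) / (nb y - y)`; for other `y` put `sl y = sl lo`.  With `pb y` the largest
element of `B` that is `≤ y` one has `NoB B (pb y) (nb y)` and `sl y = sl (pb y)`, so `|sl|` takes
values in the finite set `Sl = image (fun b => |sl b|) (B.erase hi)`; `m`, `M` are its min, max.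
`lip_of_pieces`: induction on the number of break points strictly between `u` and `v`. -/

lemma lip_of_pieces {T : ℝ → ℝ} {lo hi M : ℝ} {B : Finset ℝ}
    (h : ∀ u v, lo ≤ u → u < v → v ≤ hi → NoB B u v → |T v - T u| ≤ M * (v - u)) :
    LipOn T lo hi M := by
  induction B using Finset.induction_on with
  | empty =>
    intro u hu v hv
    rcases lt_trichotomy u v with huv | rfl | huv
    · rw [abs_sub_comm, abs_sub_comm u, abs_of_pos (sub_pos.2 huv)]
      exact h u v hu.1 huv hv.2 fun b hb => by simp at hb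
    · simp
    · rw [abs_of_pos (sub_pos.2 huv)]
      exact h v u hv.1 huv hu.2 fun b hb => by simp at hb
  | insert b B _ ih =>
    refine ih fun u v hu huv hv hB => ?_
    by_cases hb : u < b ∧ b < v
    · have h1 := h u b hu hb.1 (hb.2.le.trans hv) (Finset.forall_mem_insert _ _ _ |>.2
        ⟨fun h' => lt_irrefl _ h'.2, fun c hc h' => hB c hc ⟨h'.1, h'.2.trans hb.2⟩⟩)
      have h2 := h b v (hu.trans hb.1.le) hb.2 hv (Finset.forall_mem_insert _ _ _ |>.2
        ⟨fun h' => lt_irrefl _ h'.1, fun c hc h' => hB c hc ⟨hb.1.trans h'.1, h'.2⟩⟩)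
      have h3 := abs_sub_le (T v) (T b) (T u)
      linarith
    · exact h u v hu huv hv (Finset.forall_mem_insert _ _ _ |>.2 ⟨hb, hB⟩)

lemma slopes_next (P : Pre) {y : ℝ} (h : y < P.hi) :
    ∃ b, y < b ∧ b ≤ P.hi ∧ b ∈ P.B ∧ ∀ c ∈ P.B, y < c → b ≤ c := by
  obtain ⟨b, hb, h'⟩ := (P.B.filter (y < ·)).exists_min_image id
    ⟨_, Finset.mem_filter.2 ⟨P.hi_B, h⟩⟩
  obtain ⟨h1, h2⟩ := Finset.mem_filter.1 hb
  exact ⟨b, h2, (P.sub (P.B_sub b h1)).2, h1, fun c hc hy => h' c (Finset.mem_filter.2 ⟨hc, hy⟩)⟩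

lemma slopes_prev (P : Pre) {y : ℝ} (h : P.lo ≤ y) :
    ∃ b, b ≤ y ∧ P.lo ≤ b ∧ b ∈ P.B ∧ ∀ c ∈ P.B, c ≤ y → c ≤ b := by
  obtain ⟨b, hb, h'⟩ := (P.B.filter (· ≤ y)).exists_max_image id
    ⟨_, Finset.mem_filter.2 ⟨P.lo_B, h⟩⟩
  obtain ⟨h1, h2⟩ := Finset.mem_filter.1 hb
  exact ⟨b, h2, (P.sub (P.B_sub b h1)).1, h1, fun c hc hy => h' c (Finset.mem_filter.2 ⟨hc, hy⟩)⟩

lemma slopes_ex (P : Pre) (y : ℝ) : ∃ σ : ℝ, σ ≠ 0 ∧ (P.lo ≤ y → ∀ v, y < v → v ≤ P.hi →
    NoB P.B y v → ∀ z ∈ Icc y v, P.T z = P.T y + σ * (z - y)) := by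
  by_cases h : P.lo ≤ y ∧ y < P.hi
  · obtain ⟨b, h1, h2, h3, h4⟩ := slopes_next P h.2
    obtain ⟨σ, h5, h6⟩ := P.aff y b h.1 h1 h2 fun c hc h' => (h4 c hc h'.1).not_gt h'.2
    exact ⟨σ, h5, fun _ v _ _ hB z hz =>
      h6 z ⟨hz.1, hz.2.trans (not_lt.1 fun h' => hB b h3 ⟨h1, h'⟩)⟩⟩
  · exact ⟨1, one_ne_zero, fun h1 v h2 h3 => absurd ⟨h1, h2.trans_le h3⟩ h⟩

lemma Pre.exists_slp (P : Pre) : Nonempty (Slp P) := by
  classical
  choose s h0 hs using slopes_ex P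
  have heq : ∀ u v, P.lo ≤ u → u < v → v ≤ P.hi → NoB P.B u v →
      ∀ y, u ≤ y → y < v → s y = s u := by
    intro u v hu huv hv hB y h1 h2
    have e1 := hs u hu v huv hv hB v ⟨huv.le, le_rfl⟩
    have e2 := hs u hu v huv hv hB y ⟨h1, h2.le⟩
    have e3 := hs y (hu.trans h1) v h2 hv (fun c hc h' => hB c hc ⟨h1.trans_lt h'.1, h'.2⟩) v
      ⟨h2.le, le_rfl⟩
    refine mul_right_cancel₀ (sub_pos.2 h2).ne' ?_
    linarith
  let sl : ℝ → ℝ := fun y => if P.lo ≤ y ∧ y < P.hi then s y else s P.lo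
  have hsl : ∀ y, P.lo ≤ y → y < P.hi → sl y = s y := fun y h1 h2 => if_pos ⟨h1, h2⟩
  have hmem : ∀ y, |sl y| ∈ P.B.image fun b => |s b| := by
    intro y
    by_cases h : P.lo ≤ y ∧ y < P.hi
    · obtain ⟨b, h1, h2, -, h4⟩ := slopes_next P h.2
      obtain ⟨a, g1, g2, g3, g4⟩ := slopes_prev P h.1
      refine Finset.mem_image.2 ⟨a, g3, ?_⟩
      rw [hsl y h.1 h.2, heq a b g2 (g1.trans_lt h1) h2 (fun c hc h' => ?_) y g1 h1]
      rcases le_or_gt c y with h5 | h5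
      · exact (g4 c hc h5).not_gt h'.1
      · exact (h4 c hc h5).not_gt h'.2
    · exact Finset.mem_image.2 ⟨_, P.lo_B, by simp only [sl, if_neg h]⟩
  have hpos : ∀ t ∈ P.B.image fun b => |s b|, 0 < t := by
    intro t ht
    obtain ⟨b, -, rfl⟩ := Finset.mem_image.1 ht
    exact abs_pos.2 (h0 b)
  have hne : (P.B.image fun b => |s b|).Nonempty := ⟨_, hmem 0⟩
  refine ⟨⟨_, Finset.max' _ hne, sl, _, hpos _ (Finset.min'_mem _ hne), fun y => Finset.min'_le _ _ (hmem y),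
    fun y => Finset.le_max' _ _ (hmem y), hmem, hpos, fun u v hu huv hv hB => ?_,
    fun u v hu huv hv hB y h1 h2 => ?_, lip_of_pieces (B := P.B) fun u v hu huv hv hB => ?_⟩⟩
  · rw [hsl u hu (huv.trans_le hv)]
    exact hs u hu v huv hv hB
  · rw [hsl u hu (huv.trans_le hv), hsl y (hu.trans h1) (h2.trans_le hv)]
    exact heq u v hu huv hv hB y h1 h2
  · rw [hs u hu v huv hv hB v ⟨huv.le, le_rfl⟩, add_sub_cancel_left, abs_mul,
      abs_of_pos (sub_pos.2 huv), ← hsl u hu (huv.trans_le hv)]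
    exact mul_le_mul_of_nonneg_right (Finset.le_max' _ _ (hmem u)) (sub_pos.2 huv).le

end Pool.Agent.MP_8df504_an.C

end

section

set_option autoImplicit false

namespace Pool.Agent.MP_8df504_an.C

open Set Filter Topology MeasureTheory

/-! Basic facts on `BL`.

Hints.  `exists_piece`: `x ∈ [0,1]`, take the largest index with `a j ≤ x`.  `cyl_succ` is the
basic recursion.  `cyl_ord`, `cyl_aff`: induction on `n` generalizing `ω`, with `cyl_succ` and
`aff`; `T` maps the closure of `Cyl (n+1) ω` into the closure of `Cyl n (sh ω 1)`.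
`pp`: let `γ0, γ1, γ2` be `gam p` of `ω`, `sh ω p`, `sh ω (2p)` (nonzero by `gam_ne`).  Pick
`y ≠ x` in the nonempty set `Cyl (3p) ω` (it is `IsOpen`), `y1 = T^[p] y`, `y2 = T^[p] y1`; by
`cyl_aff`, `y1 - x = γ0 (y - x)`, `y2 - x = γ1 (y1 - x)`, and `T^[p]` has slope `γ0, γ1, γ2` on the
segments from `x` to `y, y1, y2` (the closure of an order-connected set is order-connected).  Two of
these points on the same side of `x` have the same slope; a sign check gives `γ1 γ2 > 0`.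
`σ = γ1 γ2 = gam (2p) (sh ω p)` is the slope of `T^[2p]` on the closure of `J = Cyl (2p) (sh ω p)`.
`σ < 1` gives `HasAttr` (`q = x`, `q' = y1`); `σ = 1` makes `T^[2p]` the identity on `J`, which
contains `T^[p] y*` for `y* ∈ Cyl (3p) ω ∩ Lam`: contradiction with the definition of `Lam`. -/

namespace BL

variable (D : BL)

lemma a_mem (j : Fin (D.m + 1)) : D.a j ∈ Icc (0 : ℝ) 1 := by
  exact ⟨D.a0 ▸ D.mono.monotone (Fin.zero_le j), D.a1 ▸ D.mono.monotone (Fin.le_last j)⟩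

lemma piece_sub (j : Fin D.m) : D.Piece j ⊆ Ioo 0 1 := by
  exact fun x hx => ⟨(D.a_mem _).1.trans_lt hx.1, hx.2.trans_le (D.a_mem _).2⟩

lemma blbase_B (j : Fin (D.m + 1)) : D.a j ∈ D.B :=
  Finset.mem_image_of_mem _ (Finset.mem_univ j)

lemma blbase_idx {x : ℝ} (h0 : 0 ≤ x) (h1 : x < 1) :
    ∃ j : Fin D.m, D.a j.castSucc ≤ x ∧ x < D.a j.succ := by
  obtain ⟨i, hi, hm⟩ := (Finset.univ.filter fun i => D.a i ≤ x).exists_max_image id
    ⟨0, Finset.mem_filter.2 ⟨Finset.mem_univ _, D.a0 ▸ h0⟩⟩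
  have h2 := (Finset.mem_filter.1 hi).2
  have h3 : i ≠ Fin.last D.m := fun h => by
    rw [h, D.a1] at h2
    exact h2.not_gt h1
  obtain ⟨j, rfl⟩ := Fin.exists_castSucc_eq.2 h3
  refine ⟨j, h2, not_le.1 fun h => ?_⟩
  exact (hm _ (Finset.mem_filter.2 ⟨Finset.mem_univ _, h⟩)).not_gt Fin.castSucc_lt_succ

lemma blbase_zero (ω : ℕ → Fin D.m) : D.Cyl 0 ω = univ :=
  eq_univ_of_forall fun _ i hi => absurd hi (Nat.not_lt_zero i)

lemma exists_piece {x : ℝ} (hx : x ∈ Icc (0 : ℝ) 1) (hB : x ∉ D.B) : ∃ j, x ∈ D.Piece j := by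
  have h1 : x ≠ 1 := fun h => hB (h ▸ D.a1 ▸ D.blbase_B _)
  obtain ⟨j, h2, h3⟩ := D.blbase_idx hx.1 (lt_of_le_of_ne hx.2 h1)
  exact ⟨j, lt_of_le_of_ne h2 fun h => hB (h ▸ D.blbase_B _), h3⟩

lemma piece_unique {x : ℝ} {j j' : Fin D.m} (h : x ∈ D.Piece j) (h' : x ∈ D.Piece j') :
    j = j' := by
  have h1 : j.castSucc < j'.succ := D.mono.lt_iff_lt.1 (h.1.trans h'.2)
  have h2 : j'.castSucc < j.succ := D.mono.lt_iff_lt.1 (h'.1.trans h.2)
  exact le_antisymm (Fin.castSucc_lt_succ_iff.1 h1) (Fin.castSucc_lt_succ_iff.1 h2)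

lemma not_mem_B {x : ℝ} {j : Fin D.m} (h : x ∈ D.Piece j) : x ∉ D.B := by
  intro hx
  obtain ⟨i, -, rfl⟩ := Finset.mem_image.1 hx
  have h1 := D.mono.lt_iff_lt.1 h.1
  have h2 := D.mono.lt_iff_lt.1 h.2
  rw [Fin.lt_def] at h1 h2
  simp only [Fin.val_castSucc, Fin.val_succ] at h1 h2
  omega

/-- a break-free segment lies in one closed piece -/
lemma seg_piece {u v : ℝ} (hu : 0 ≤ u) (huv : u < v) (hv : v ≤ 1) (h : NoB D.B u v) :
    ∃ j : Fin D.m, D.a j.castSucc ≤ u ∧ v ≤ D.a j.succ := by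
  obtain ⟨j, h2, h3⟩ := D.blbase_idx hu (huv.trans_le hv)
  exact ⟨j, h2, not_lt.1 fun h4 => h _ (D.blbase_B _) ⟨h3, h4⟩⟩

lemma plz : PLz D.T 0 1 D.B := by
  intro u v hu huv hv h
  obtain ⟨j, h1, h2⟩ := D.seg_piece hu huv hv h
  refine ⟨D.c j, fun y hy => ?_⟩
  rw [D.aff j y ⟨h1.trans hy.1, hy.2.trans h2⟩, D.aff j u ⟨h1, huv.le.trans h2⟩]
  ring

lemma slopeAt {x : ℝ} {j : Fin D.m} (h : x ∈ D.Piece j) : SlopeAt D.T 1 D.B x |D.c j| := by
  intro _ v hv _ hn
  have h2 : v ≤ D.a j.succ := not_lt.1 fun h4 => hn _ (D.blbase_B _) ⟨h.2, h4⟩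
  rw [D.aff j v ⟨(h.1.trans hv).le, h2⟩, D.aff j x ⟨h.1.le, h.2.le⟩,
    show D.c j * v + D.d j - (D.c j * x + D.d j) = D.c j * (v - x) by ring, abs_mul,
    abs_of_pos (sub_pos.2 hv)]

lemma exists_bounds : ∃ m M : ℝ, 0 < m ∧ m ≤ M ∧ LipOn D.T 0 1 M ∧
    ∀ j, D.c j ≠ 0 → m ≤ |D.c j| ∧ |D.c j| ≤ M := by
  have hM : ∀ j, |D.c j| ≤ 1 + ∑ j, |D.c j| := fun j => by
    have := Finset.single_le_sum (f := fun j => |D.c j|) (fun j _ => abs_nonneg _)
      (Finset.mem_univ j)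
    linarith
  have h0 : (0 : ℝ) ≤ ∑ j, |D.c j| := Finset.sum_nonneg fun j _ => abs_nonneg _
  have h1 : ∀ᶠ m in 𝓝[>] (0 : ℝ), ∀ j, D.c j ≠ 0 → m ≤ |D.c j| := by
    refine eventually_all.2 fun j => ?_
    by_cases hj : D.c j = 0
    · exact Eventually.of_forall fun m h => absurd hj h
    · filter_upwards [Ioc_mem_nhdsGT (abs_pos.2 hj)] with m hm _ using hm.2
  obtain ⟨m, h2, h3⟩ := (h1.and (Ioc_mem_nhdsGT (zero_lt_one' ℝ))).exists
  refine ⟨m, 1 + ∑ j, |D.c j|, h3.1, by linarith [h3.2], ?_, fun j hj => ⟨h2 j hj, hM j⟩⟩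
  refine lip_of_pieces (B := D.B) fun u v hu huv hv h => ?_
  obtain ⟨j, a1, a2⟩ := D.seg_piece hu huv hv h
  rw [D.aff j v ⟨a1.trans huv.le, a2⟩, D.aff j u ⟨a1, huv.le.trans a2⟩,
    show D.c j * v + D.d j - (D.c j * u + D.d j) = D.c j * (v - u) by ring, abs_mul,
    abs_of_pos (sub_pos.2 huv)]
  exact mul_le_mul_of_nonneg_right (hM j) (sub_pos.2 huv).le

lemma neu_open : IsOpen D.Neu := by
  refine isOpen_iff_mem_nhds.2 ?_
  rintro x ⟨p, hp, h⟩
  exact h.eventually_nhds.mono fun y hy => ⟨p, hp, hy⟩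

lemma lam_meas : MeasurableSet D.Lam := by
  have e : D.Lam = ⋂ i : ℕ, D.T^[i] ⁻¹' (D.Neuᶜ ∩ ⋃ j, ⋃ _ : D.c j ≠ 0, D.Piece j) := by
    ext x
    simp [Lam]
  rw [e]
  refine MeasurableSet.iInter fun i => (D.cont.iterate i).measurable ?_
  exact D.neu_open.measurableSet.compl.inter
    (isOpen_iUnion fun j => isOpen_iUnion fun _ => isOpen_Ioo).measurableSet

lemma lam_maps : MapsTo D.T D.Lam D.Lam := by
  intro x hx i
  rw [← Function.iterate_succ_apply]
  exact hx _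

lemma lam_sub : D.Lam ⊆ Ioo 0 1 := by
  intro x hx
  obtain ⟨j, -, h⟩ := (hx 0).2
  exact D.piece_sub j h

lemma exists_itin {x : ℝ} (hx : x ∈ D.Lam) : ∃ ω : ℕ → Fin D.m, ∀ n, x ∈ D.Cyl n ω := by
  choose ω h1 h2 using fun i => (hx i).2
  exact ⟨ω, fun n i _ => h2 i⟩

lemma cyl_succ (n : ℕ) (ω : ℕ → Fin D.m) :
    D.Cyl (n + 1) ω = D.Piece (ω 0) ∩ D.T ⁻¹' D.Cyl n (sh ω 1) := by
  ext x
  refine ⟨fun h => ⟨h 0 n.succ_pos, fun i hi => h (i + 1) (by omega)⟩, fun h i hi => ?_⟩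
  rcases i with _ | i
  · exact h.1
  · exact h.2 i (by omega)

lemma cyl_add {n k : ℕ} {ω : ℕ → Fin D.m} {x : ℝ} (h : x ∈ D.Cyl (n + k) ω) :
    x ∈ D.Cyl n ω ∧ D.T^[n] x ∈ D.Cyl k (sh ω n) := by
  refine ⟨fun i hi => h i (by omega), fun i hi => ?_⟩
  rw [← Function.iterate_add_apply]
  exact h (i + n) (by omega)

lemma gam_add (n k : ℕ) (ω : ℕ → Fin D.m) : D.gam (n + k) ω = D.gam n ω * D.gam k (sh ω n) := by
  rw [gam, Finset.prod_range_add]
  simp only [gam, sh, add_comm n]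

lemma cyl_open (n : ℕ) (ω : ℕ → Fin D.m) : IsOpen (D.Cyl n ω) := by
  induction n generalizing ω with
  | zero =>
    rw [D.blbase_zero]
    exact isOpen_univ
  | succ n ih =>
    rw [D.cyl_succ]
    exact isOpen_Ioo.inter ((ih _).preimage D.cont)

lemma cyl_ord (n : ℕ) (ω : ℕ → Fin D.m) : (D.Cyl n ω).OrdConnected := by
  induction n generalizing ω with
  | zero =>
    rw [D.blbase_zero]
    exact ordConnected_univ
  | succ n ih =>
    rw [D.cyl_succ]
    refine ⟨fun x hx y hy z hz => ?_⟩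
    have hz' : z ∈ D.Piece (ω 0) := ⟨hx.1.1.trans_le hz.1, hz.2.trans_lt hy.1.2⟩
    refine ⟨hz', (ih _).uIcc_subset hx.2 hy.2 ?_⟩
    rw [D.aff _ x ⟨hx.1.1.le, hx.1.2.le⟩, D.aff _ y ⟨hy.1.1.le, hy.1.2.le⟩,
      D.aff _ z ⟨hz'.1.le, hz'.2.le⟩, mem_uIcc]
    rcases le_total 0 (D.c (ω 0)) with h | h
    · exact Or.inl ⟨by nlinarith [hz.1], by nlinarith [hz.2]⟩
    · exact Or.inr ⟨by nlinarith [hz.2], by nlinarith [hz.1]⟩

lemma cyl_aff {n : ℕ} {ω : ℕ → Fin D.m} {x y : ℝ} (hx : x ∈ closure (D.Cyl n ω))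
    (hy : y ∈ closure (D.Cyl n ω)) : D.T^[n] y - D.T^[n] x = D.gam n ω * (y - x) := by
  induction n generalizing ω x y with
  | zero => simp [gam]
  | succ n ih =>
    rw [D.cyl_succ] at hx hy
    have a : ∀ {z}, z ∈ closure (D.Piece (ω 0) ∩ D.T ⁻¹' D.Cyl n (sh ω 1)) →
        D.T z = D.c (ω 0) * z + D.d (ω 0) ∧ D.T z ∈ closure (D.Cyl n (sh ω 1)) := fun hz =>
      ⟨D.aff _ _ (closure_minimal (fun w hw => Ioo_subset_Icc_self hw.1) isClosed_Icc hz),
        map_mem_closure D.cont hz fun w hw => hw.2⟩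
    have e : D.gam (n + 1) ω = D.gam n (sh ω 1) * D.c (ω 0) := by
      simp only [gam, sh, Finset.prod_range_succ']
    rw [Function.iterate_succ_apply, Function.iterate_succ_apply, ih (a hx).2 (a hy).2, (a hx).1,
      (a hy).1, e]
    ring

lemma c_ne {n : ℕ} {ω : ℕ → Fin D.m} (h : (D.Cyl n ω ∩ D.Lam).Nonempty) {i : ℕ} (hi : i < n) :
    D.c (ω i) ≠ 0 := by
  obtain ⟨x, h1, h2⟩ := h
  obtain ⟨j, h3, h4⟩ := (h2 i).2
  rwa [D.piece_unique (h1 i hi) h4]

end BL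

end Pool.Agent.MP_8df504_an.C

end

section

set_option autoImplicit false

namespace Pool.Agent.MP_8df504_an.C

open Set Filter Topology MeasureTheory

/-! A common period on `Neu`; local affinity of iterates; wandering intervals.

`iter_aff_of_noB`: induct on `n`; near a point of `[0,1]` outside `B`, `T` is affine
(`exists_piece`).
`neu_period`: let `P` be a common period of all periodic points of `B`.  Let `x ∈ Neu`,
`T^[p] = id` near `x`, `[α,β]` the largest segment around `x` on which `T^[p] = id` (`⊆ [0,1]`,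
closed).  The orbit of `α` meets `B`: otherwise `T^[p]` is affine near `α` and the identity on the
right of `α`, so on a neighbourhood.  As `α` is periodic it is on the orbit of a periodic point of
`B`, so `T^[P] α = α`, and `T^[P] β = β`.  `f = T^[P]` is continuous and injective on `[α,β]`
(`T^[p P] = id` there), so increasing, maps `[α,β]` to itself and `f^[p] = id`; if `x < f x` then
`f^[k] x` increases strictly: contradiction; same for `f x < x`.

`germ_aff`: one-sided version: for `z ∈ [0,1]` and a side there is a small segment at `z` that is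
break-free or outside `[0,1]`; induct on `n`, shrinking `q''` towards `q`; images of the segment are
in `[0,1]`.
`wander`: with `q, q', p, σ` from `HasAttr`, take `q''` from `germ_aff` with `n = p`.  `T^[p]` maps
`uIcc q q''` into itself, so `T^[i] y = T^[i] q + κ i (y - q)` for all `i` with
`κ (i + p) = σ κ i`, `κ i ≠ 0` (`κ p = σ`, and `T^[p]` is injective on the segment).  Shrink `q''` so
that `|κ i| |q'' - q|` is less than half the distance between different points of the finite orbit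
of `q`.  The set of the ratios `κ j / κ i` has no accumulation point in `(0,∞)` (they are
`σ^a * κ j0 / κ i0`, `a ∈ ℤ`, `i0, j0 < p`), so for small `η` a ratio in `(1-η, 1/(1-η))` is `1`.
`U = {q + t (q'' - q) | 1 - η < t < 1}`.  If `T^[i] y = T^[j] y'` then `T^[i] q = T^[j] q`,
`κ i = κ j`, `y = y'`; if `i < j` then `T^[i] = T^[j]` on the segment, so `κ (i + l) = κ (j + l)`
for all `l`, and `κ i = κ (i + p (j-i)) = σ^(j-i) κ i`: contradiction. -/

/-- a finite set stays away from `z`, apart from `z` itself -/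
lemma wu_sep (B : Finset ℝ) (z : ℝ) : ∃ ε : ℝ, 0 < ε ∧ ∀ b ∈ B, b ≠ z → ε ≤ |b - z| := by
  classical
  induction B using Finset.induction_on with
  | empty => exact ⟨1, one_pos, by simp⟩
  | insert b B _ ih =>
    obtain ⟨ε, hε, h⟩ := ih
    by_cases hb : b = z
    · refine ⟨ε, hε, fun x hx hxz => ?_⟩
      rcases Finset.mem_insert.1 hx with rfl | hx
      · exact absurd hb hxz
      · exact h x hx hxz
    · refine ⟨min ε |b - z|, lt_min hε (abs_pos.2 (sub_ne_zero.2 hb)), fun x hx hxz => ?_⟩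
      rcases Finset.mem_insert.1 hx with rfl | hx
      · exact min_le_right _ _
      · exact (min_le_left _ _).trans (h x hx hxz)

lemma wu_pow (T : ℝ → ℝ) (q v σ : ℝ) (p : ℕ) (hσ0 : 0 < σ) (hσ1 : σ < 1)
    (hA : ∀ t ∈ Icc (0 : ℝ) 1, T^[p] (q + t * v) = q + σ * t * v) (a : ℕ) :
    ∀ t ∈ Icc (0 : ℝ) 1, T^[p * a] (q + t * v) = q + σ ^ a * t * v := by
  induction a with
  | zero => intro t _; simp
  | succ a ih =>
    intro t ht
    have hm : σ * t ∈ Icc (0 : ℝ) 1 := ⟨mul_nonneg hσ0.le ht.1, by nlinarith [ht.1, ht.2]⟩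
    rw [Nat.mul_succ, Function.iterate_add_apply, hA t ht, ih _ hm]
    ring

lemma wu_mem {σ t : ℝ} (hσ0 : 0 < σ) (hσ1 : σ < 1) (a : ℕ) (ht : t ∈ Icc (0 : ℝ) 1) :
    σ ^ a * t ∈ Icc (0 : ℝ) 1 := by
  have h1 : 0 < σ ^ a := pow_pos hσ0 a
  have h2 : σ ^ a ≤ 1 := pow_le_one₀ hσ0.le hσ1.le
  exact ⟨mul_nonneg h1.le ht.1, by nlinarith [ht.1, ht.2]⟩

/-- the slopes `κ (k % p) * σ ^ (k / p)` do not accumulate at `1` -/
lemma wu_disc (κ : ℕ → ℝ) (σ : ℝ) (p : ℕ) (hp : 1 ≤ p) (hσ0 : 0 < σ) (hσ1 : σ < 1) :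
    ∃ η : ℝ, 0 < η ∧ η ≤ 1 / 2 ∧
      ∀ k : ℕ, |κ (k % p) * σ ^ (k / p) - 1| < η → κ (k % p) * σ ^ (k / p) = 1 := by
  classical
  obtain ⟨M, hM0, hM⟩ : ∃ M : ℝ, 0 < M ∧ ∀ r < p, |κ r| ≤ M := by
    refine ⟨∑ r ∈ Finset.range p, |κ r| + 1, by positivity, fun r hr => ?_⟩
    have := Finset.single_le_sum (f := fun r => |κ r|) (fun r _ => abs_nonneg (κ r))
      (Finset.mem_range.2 hr)
    linarith
  obtain ⟨N, hN⟩ := exists_pow_lt_of_lt_one (show 0 < 1 / (2 * M) by positivity) hσ1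
  obtain ⟨ε, hε, h⟩ :=
    wu_sep ((Finset.range (p * N)).image (fun k => κ (k % p) * σ ^ (k / p))) 1
  refine ⟨min ε (1 / 2), lt_min hε (by norm_num), min_le_right _ _, fun k hk => ?_⟩
  by_contra hne
  by_cases hkN : k < p * N
  · have := h _ (Finset.mem_image.2 ⟨k, Finset.mem_range.2 hkN, rfl⟩) hne
    have h2 := min_le_left ε (1 / 2)
    linarith
  · have hle : N ≤ k / p := by
      rw [Nat.le_div_iff_mul_le (by omega)]
      rw [Nat.mul_comm]; omega
    have h1 : σ ^ (k / p) ≤ σ ^ N := pow_le_pow_of_le_one hσ0.le hσ1.le hle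
    have h2 : |κ (k % p)| ≤ M := hM _ (Nat.mod_lt _ (by omega))
    have h3 : 0 < σ ^ (k / p) := pow_pos hσ0 _
    have h4 : κ (k % p) * σ ^ (k / p) ≤ M * σ ^ (k / p) :=
      mul_le_mul_of_nonneg_right ((le_abs_self _).trans h2) h3.le
    have h5 : M * σ ^ (k / p) < M * (1 / (2 * M)) := mul_lt_mul_of_pos_left (h1.trans_lt hN) hM0
    have h6 : M * (1 / (2 * M)) = 1 / 2 := by field_simp
    have h7 := min_le_right ε (1 / 2)
    have h8 := neg_abs_le (κ (k % p) * σ ^ (k / p) - 1)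
    linarith

lemma wu_core (T : ℝ → ℝ) (q v σ : ℝ) (p : ℕ) (hp : 1 ≤ p) (hv : v ≠ 0) (hσ0 : 0 < σ)
    (hσ1 : σ < 1) (κ : ℕ → ℝ)
    (hA : ∀ t ∈ Icc (0 : ℝ) 1, T^[p] (q + t * v) = q + σ * t * v)
    (hB : ∀ i ≤ p, ∀ t ∈ Icc (0 : ℝ) 1, T^[i] (q + t * v) = T^[i] q + κ i * (t * v)) :
    ∃ η : ℝ, 0 < η ∧ η < 1 ∧ ∀ (i j : ℕ), ∀ t ∈ Ioo (1 - η) 1, ∀ t' ∈ Ioo (1 - η) 1,
      T^[i] (q + t * v) = T^[j] (q + t' * v) → i = j ∧ t = t' := by
  have hP := wu_pow T q v σ p hσ0 hσ1 hA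
  have hK : ∀ k : ℕ, ∀ t ∈ Icc (0 : ℝ) 1,
      T^[k] (q + t * v) = T^[k % p] q + κ (k % p) * σ ^ (k / p) * t * v := by
    intro k t ht
    have e : T^[k] (q + t * v) = T^[k % p] (T^[p * (k / p)] (q + t * v)) := by
      rw [← Function.iterate_add_apply, Nat.mod_add_div]
    rw [e, hP _ t ht, hB _ (Nat.mod_lt _ (by omega)).le _ (wu_mem hσ0 hσ1 _ ht)]
    ring
  obtain ⟨η, hη0, hη1, hη⟩ := wu_disc κ σ p hp hσ0 hσ1
  have key : ∀ (i k : ℕ), ∀ t ∈ Ioo (1 - η / 2) 1, ∀ t' ∈ Ioo (1 - η / 2) 1,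
      T^[i] (q + t * v) = T^[i + k] (q + t' * v) → k = 0 ∧ t = t' := by
    intro i k t ht t' ht' h
    have ht0 : t ∈ Icc (0 : ℝ) 1 := ⟨by linarith [ht.1], ht.2.le⟩
    have ht0' : t' ∈ Icc (0 : ℝ) 1 := ⟨by linarith [ht'.1], ht'.2.le⟩
    have hred : ∀ a : ℕ, i ≤ p * a →
        q + σ ^ a * t * v = T^[k] (q + σ ^ a * t' * v) := by
      intro a ha
      rw [← hP a t ht0, ← hP a t' ht0', ← Function.iterate_add_apply]
      have e1 : p * a = (p * a - i) + i := by omega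
      have e2 : k + p * a = (p * a - i) + (i + k) := by omega
      rw [e2, Function.iterate_add_apply, ← h, ← Function.iterate_add_apply, ← e1]
    have hi : i ≤ p * i := Nat.le_mul_of_pos_left i (by omega)
    have h0 := hred i hi
    have h1 := hred (i + 1) (by rw [Nat.mul_succ]; omega)
    rw [hK k _ (wu_mem hσ0 hσ1 _ ht0')] at h0 h1
    set K : ℝ := κ (k % p) * σ ^ (k / p) with hKdef
    have hs : 0 < σ ^ i := pow_pos hσ0 i
    have e3 : (σ ^ i * (1 - σ) * v) * (t - K * t') = 0 := by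
      rw [pow_succ] at h1
      linear_combination h0 - h1
    have e4 : t = K * t' := by
      rcases mul_eq_zero.1 e3 with h | h
      · exact absurd h (mul_ne_zero (mul_ne_zero hs.ne' (by linarith)) hv)
      · linarith
    have htp : 3 / 4 < t' := by linarith [ht'.1]
    have e5 : |K - 1| < η := by
      rw [abs_lt]
      constructor
      · by_contra hc
        push Not at hc
        nlinarith [ht.1, ht.2, ht'.1, ht'.2]
      · by_contra hc
        push Not at hc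
        nlinarith [ht.1, ht.2, ht'.1, ht'.2]
    have e6 : K = 1 := hη k e5
    have e7 : t = t' := by rw [e4, e6, one_mul]
    refine ⟨?_, e7⟩
    by_contra hk
    have hq : T^[k % p] q = q := by
      rw [e6, e7] at h0
      linarith
    have hfix : T^[k] (q + 1 * v) = q + 1 * v := by
      rw [hK k 1 ⟨zero_le_one, le_rfl⟩, hq, ← hKdef, e6]
      ring
    have hfix2 : T^[p * k] (q + 1 * v) = q + 1 * v := by
      rw [Nat.mul_comm, Function.iterate_mul]
      exact Function.iterate_fixed hfix p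
    rw [hP k 1 ⟨zero_le_one, le_rfl⟩] at hfix2
    have h8 : σ ^ k < 1 := pow_lt_one₀ hσ0.le hσ1 hk
    have h9 : (1 - σ ^ k) * v = 0 := by linarith
    rcases mul_eq_zero.1 h9 with h | h
    · linarith
    · exact hv h
  refine ⟨η / 2, by linarith, by linarith, fun i j t ht t' ht' h => ?_⟩
  rcases le_total i j with hij | hij
  · obtain ⟨k, rfl⟩ := Nat.exists_eq_add_of_le hij
    obtain ⟨h1, h2⟩ := key i k t ht t' ht' h
    exact ⟨by omega, h2⟩
  · obtain ⟨k, rfl⟩ := Nat.exists_eq_add_of_le hij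
    obtain ⟨h1, h2⟩ := key j k t' ht' t ht h.symm
    exact ⟨by omega, h2.symm⟩

lemma wu_par {q q' y : ℝ} (hy : y ∈ uIcc q q') :
    ∃ t ∈ Icc (0 : ℝ) 1, y = q + t * (q' - q) := by
  rw [← segment_eq_uIcc, segment_eq_image'] at hy
  obtain ⟨t, ht, rfl⟩ := hy
  exact ⟨t, ht, by simp⟩

lemma wu_par' (q q' : ℝ) {t : ℝ} (ht : t ∈ Icc (0 : ℝ) 1) : q + t * (q' - q) ∈ uIcc q q' := by
  rw [← segment_eq_uIcc, segment_eq_image']
  exact ⟨t, ht, by simp⟩

namespace BL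

variable (D : BL)

/-- one-sided local affinity of `T` -/
lemma wu_loc {z w τ : ℝ} (hz : z ∈ Icc (0 : ℝ) 1) (hτ : 0 < τ)
    (hw : z + τ * w ∈ Icc (0 : ℝ) 1) :
    ∃ τ' : ℝ, 0 < τ' ∧ τ' ≤ τ ∧ ∃ c : ℝ, ∀ t ∈ Icc (0 : ℝ) τ',
      D.T (z + t * w) = D.T z + c * (t * w) := by
  obtain ⟨ε, hε, h⟩ := wu_sep D.B z
  rcases lt_trichotomy w 0 with hw0 | hw0 | hw0
  · have hw1 : 0 < -w := by linarith
    set τ' : ℝ := min τ (ε / (-w)) with hτ'
    have h1 : 0 < τ' := lt_min hτ (div_pos hε hw1)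
    have h2 : τ' ≤ τ := min_le_left _ _
    have h3 : τ' * (-w) ≤ ε := (le_div_iff₀ hw1).1 (min_le_right _ _)
    have h4 : 0 < τ' * (-w) := mul_pos h1 hw1
    have h5 : τ' * (-w) ≤ τ * (-w) := mul_le_mul_of_nonneg_right h2 hw1.le
    obtain ⟨c, hc⟩ := D.plz (z + τ' * w) z (by linarith [hw.1]) (by linarith) hz.2 (by
      intro b hb hb'
      have := h b hb hb'.2.ne
      rw [abs_of_neg (by linarith [hb'.2])] at this
      linarith [hb'.1])
    refine ⟨τ', h1, h2, c, fun t ht => ?_⟩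
    have h6 : 0 ≤ t * (-w) := mul_nonneg ht.1 hw1.le
    have h7 : t * (-w) ≤ τ' * (-w) := mul_le_mul_of_nonneg_right ht.2 hw1.le
    have e1 := hc (z + t * w) ⟨by linarith, by linarith⟩
    have e2 := hc z ⟨by linarith, le_rfl⟩
    linear_combination e1 - e2
  · exact ⟨τ, hτ, le_rfl, 0, fun t _ => by simp [hw0]⟩
  · set τ' : ℝ := min τ (ε / w) with hτ'
    have h1 : 0 < τ' := lt_min hτ (div_pos hε hw0)
    have h2 : τ' ≤ τ := min_le_left _ _
    have h3 : τ' * w ≤ ε := (le_div_iff₀ hw0).1 (min_le_right _ _)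
    have h4 : 0 < τ' * w := mul_pos h1 hw0
    have h5 : τ' * w ≤ τ * w := mul_le_mul_of_nonneg_right h2 hw0.le
    obtain ⟨c, hc⟩ := D.plz z (z + τ' * w) hz.1 (by linarith) (by linarith [hw.2]) (by
      intro b hb hb'
      have := h b hb hb'.1.ne'
      rw [abs_of_pos (by linarith [hb'.1])] at this
      linarith [hb'.2])
    refine ⟨τ', h1, h2, c, fun t ht => ?_⟩
    have h6 : 0 ≤ t * w := mul_nonneg ht.1 hw0.le
    have h7 : t * w ≤ τ' * w := mul_le_mul_of_nonneg_right ht.2 hw0.le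
    have e1 := hc (z + t * w) ⟨by linarith, by linarith⟩
    linear_combination e1

lemma wu_iter_mem {x : ℝ} (hx : x ∈ Icc (0 : ℝ) 1) (n : ℕ) : D.T^[n] x ∈ Icc (0 : ℝ) 1 := by
  cases n with
  | zero => simpa using hx
  | succ n => rw [Function.iterate_succ_apply']; exact D.maps _

lemma wu_germ {q v : ℝ} (hq : q ∈ Icc (0 : ℝ) 1) (hq' : q + v ∈ Icc (0 : ℝ) 1) (n : ℕ) :
    ∃ τ : ℝ, 0 < τ ∧ τ ≤ 1 ∧ ∃ κ : ℕ → ℝ, ∀ i ≤ n, ∀ t ∈ Icc (0 : ℝ) τ,
      D.T^[i] (q + t * v) = D.T^[i] q + κ i * (t * v) := by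
  induction n with
  | zero =>
    refine ⟨1, one_pos, le_rfl, fun _ => 1, fun i hi t _ => ?_⟩
    obtain rfl : i = 0 := by omega
    simp
  | succ n ih =>
    obtain ⟨τ, h0, h1, κ, h⟩ := ih
    have hm : q + τ * v ∈ Icc (0 : ℝ) 1 := by
      constructor <;> nlinarith [hq.1, hq.2, hq'.1, hq'.2]
    have hm2 : D.T^[n] q + τ * (κ n * v) ∈ Icc (0 : ℝ) 1 := by
      have e := h n le_rfl τ ⟨h0.le, le_rfl⟩
      have := D.wu_iter_mem hm n
      rw [e] at this
      convert this using 2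
      ring
    obtain ⟨τ', g0, g1, c, hc⟩ := D.wu_loc (D.wu_iter_mem hq n) h0 hm2
    refine ⟨τ', g0, g1.trans h1, fun i => if i ≤ n then κ i else c * κ n, fun i hi t ht => ?_⟩
    have ht' : t ∈ Icc (0 : ℝ) τ := ⟨ht.1, ht.2.trans g1⟩
    by_cases hin : i ≤ n
    · simp only [hin, if_true]
      exact h i hin t ht'
    · obtain rfl : i = n + 1 := by omega
      simp only [hin, if_false]
      rw [Function.iterate_succ_apply', Function.iterate_succ_apply', h n le_rfl t ht']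
      have e := hc t ht
      have e2 : D.T^[n] q + κ n * (t * v) = D.T^[n] q + t * (κ n * v) := by ring
      rw [e2, e]
      ring

lemma germ_aff {q q' : ℝ} (hq : q ∈ Icc (0 : ℝ) 1) (hq' : q' ∈ Icc (0 : ℝ) 1) (hne : q ≠ q')
    (n : ℕ) : ∃ q'' ∈ uIcc q q', q'' ≠ q ∧ ∃ κ : ℕ → ℝ,
      ∀ i ≤ n, ∀ y ∈ uIcc q q'', D.T^[i] y = D.T^[i] q + κ i * (y - q) := by
  obtain ⟨τ, h0, h1, κ, h⟩ := D.wu_germ (v := q' - q) hq (by simpa using hq') n
  refine ⟨q + τ * (q' - q), wu_par' q q' ⟨h0.le, h1⟩, ?_, κ, fun i hi y hy => ?_⟩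
  · intro e
    have : τ * (q' - q) = 0 := by linarith
    rcases mul_eq_zero.1 this with h | h
    · exact h0.ne' h
    · exact hne (by linarith)
  · obtain ⟨t, ht, rfl⟩ := wu_par hy
    have hm : t * τ ∈ Icc (0 : ℝ) τ := ⟨mul_nonneg ht.1 h0.le, by nlinarith [ht.2]⟩
    have e := h i hi _ hm
    have e2 : q + t * (q + τ * (q' - q) - q) = q + t * τ * (q' - q) := by ring
    rw [e2, e]
    ring

lemma wander (h : HasAttr D.T) : ∃ α β : ℝ, 0 ≤ α ∧ α < β ∧ β ≤ 1 ∧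
    ∀ (i j : ℕ), ∀ y ∈ Ioo α β, ∀ y' ∈ Ioo α β, D.T^[i] y = D.T^[j] y' → i = j ∧ y = y' := by
  obtain ⟨p, hp, q, hq, q', hq', hne, σ, hσ0, hσ1, hA⟩ := h
  obtain ⟨r, hr, hrq, κ, hB⟩ := D.germ_aff hq hq' hne p
  have hsub : uIcc q r ⊆ uIcc q q' := uIcc_subset_uIcc left_mem_uIcc hr
  have hsub2 : uIcc q q' ⊆ Icc (0 : ℝ) 1 := uIcc_subset_Icc hq hq'
  have hv : r - q ≠ 0 := sub_ne_zero.2 hrq
  obtain ⟨η, h0, h1, hη⟩ := wu_core D.T q (r - q) σ p hp hv hσ0 hσ1 κ
    (fun t ht => by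
      rw [hA _ (hsub (wu_par' q r ht))]
      ring)
    (fun i hi t ht => by
      rw [hB i hi _ (wu_par' q r ht)]
      ring)
  have m1 : q + (1 - η) * (r - q) ∈ Icc (0 : ℝ) 1 :=
    hsub2 (hsub (wu_par' q r ⟨by linarith, by linarith⟩))
  have m2 : r ∈ Icc (0 : ℝ) 1 := hsub2 hr
  have fin : ∀ α β : ℝ, (∀ y ∈ Ioo α β, (y - q) / (r - q) ∈ Ioo (1 - η) 1) →
      ∀ (i j : ℕ), ∀ y ∈ Ioo α β, ∀ y' ∈ Ioo α β,
        D.T^[i] y = D.T^[j] y' → i = j ∧ y = y' := by
    intro α β hαβ i j y hy y' hy' e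
    have e1 : q + (y - q) / (r - q) * (r - q) = y := by field_simp; ring
    have e2 : q + (y' - q) / (r - q) * (r - q) = y' := by field_simp; ring
    obtain ⟨g1, g2⟩ := hη i j _ (hαβ y hy) _ (hαβ y' hy') (by rw [e1, e2]; exact e)
    refine ⟨g1, ?_⟩
    rw [← e1, ← e2, g2]
  rcases lt_or_gt_of_ne hv with hv0 | hv0
  · refine ⟨r, q + (1 - η) * (r - q), m2.1, by nlinarith, m1.2, fin _ _ fun y hy => ?_⟩
    constructor
    · rw [lt_div_iff_of_neg hv0]
      linarith [hy.2]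
    · rw [div_lt_iff_of_neg hv0]
      linarith [hy.1]
  · refine ⟨q + (1 - η) * (r - q), r, m1.1, by nlinarith, m2.2, fin _ _ fun y hy => ?_⟩
    constructor
    · rw [lt_div_iff₀ hv0]
      linarith [hy.1]
    · rw [div_lt_iff₀ hv0]
      linarith [hy.2]

end BL

end Pool.Agent.MP_8df504_an.C

end

section

set_option autoImplicit false

namespace Pool.Agent.MP_8df504_an.C

open Set Filter Topology MeasureTheory

/-! Basic facts on `BL`.

Hints.  `exists_piece`: `x ∈ [0,1]`, take the largest index with `a j ≤ x`.  `cyl_succ` is the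
basic recursion.  `cyl_ord`, `cyl_aff`: induction on `n` generalizing `ω`, with `cyl_succ` and
`aff`; `T` maps the closure of `Cyl (n+1) ω` into the closure of `Cyl n (sh ω 1)`.
`pp`: let `γ0, γ1, γ2` be `gam p` of `ω`, `sh ω p`, `sh ω (2p)` (nonzero by `gam_ne`).  Pick
`y ≠ x` in the nonempty set `Cyl (3p) ω` (it is `IsOpen`), `y1 = T^[p] y`, `y2 = T^[p] y1`; by
`cyl_aff`, `y1 - x = γ0 (y - x)`, `y2 - x = γ1 (y1 - x)`, and `T^[p]` has slope `γ0, γ1, γ2` on the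
segments from `x` to `y, y1, y2` (the closure of an order-connected set is order-connected).  Two of
these points on the same side of `x` have the same slope; a sign check gives `γ1 γ2 > 0`.
`σ = γ1 γ2 = gam (2p) (sh ω p)` is the slope of `T^[2p]` on the closure of `J = Cyl (2p) (sh ω p)`.
`σ < 1` gives `HasAttr` (`q = x`, `q' = y1`); `σ = 1` makes `T^[2p]` the identity on `J`, which
contains `T^[p] y*` for `y* ∈ Cyl (3p) ω ∩ Lam`: contradiction with the definition of `Lam`. -/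

namespace BL

variable (D : BL)

lemma pp_seg {n : ℕ} {ω : ℕ → Fin D.m} {x y : ℝ} (hx : x ∈ closure (D.Cyl n ω))
    (hy : y ∈ closure (D.Cyl n ω)) : uIcc x y ⊆ closure (D.Cyl n ω) :=
  (D.cyl_ord n ω).isPreconnected.closure.ordConnected.uIcc_subset hx hy

lemma pp_same {n : ℕ} {α β : ℕ → Fin D.m} {x u v : ℝ} (hα : x ∈ closure (D.Cyl n α))
    (hβ : x ∈ closure (D.Cyl n β)) (hu : u ∈ closure (D.Cyl n α)) (hv : v ∈ closure (D.Cyl n β))
    (h : 0 < (u - x) * (v - x)) : D.gam n α = D.gam n β := by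
  have key : ∀ w, w ≠ x → w ∈ uIcc x u → w ∈ uIcc x v → D.gam n α = D.gam n β := by
    intro w hw h1 h2
    have e1 := D.cyl_aff hα (D.pp_seg hα hu h1)
    have e2 := D.cyl_aff hβ (D.pp_seg hβ hv h2)
    exact mul_right_cancel₀ (sub_ne_zero.2 hw) (e1.symm.trans e2)
  rcases pos_and_pos_or_neg_and_neg_of_mul_pos h with ⟨h1, h2⟩ | ⟨h1, h2⟩
  · refine key (min u v) (ne_of_gt (lt_min (by linarith) (by linarith))) ?_ ?_
    · exact mem_uIcc_of_le (le_min (by linarith) (by linarith)) (min_le_left _ _)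
    · exact mem_uIcc_of_le (le_min (by linarith) (by linarith)) (min_le_right _ _)
  · refine key (max u v) (ne_of_lt (max_lt (by linarith) (by linarith))) ?_ ?_
    · exact mem_uIcc_of_ge (le_max_left _ _) (max_le (by linarith) (by linarith))
    · exact mem_uIcc_of_ge (le_max_right _ _) (max_le (by linarith) (by linarith))

lemma pp_add {n k : ℕ} {ω : ℕ → Fin D.m} {x : ℝ} (h : x ∈ closure (D.Cyl (n + k) ω)) :
    x ∈ closure (D.Cyl n ω) ∧ D.T^[n] x ∈ closure (D.Cyl k (sh ω n)) :=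
  ⟨closure_mono (fun _ hy => (D.cyl_add hy).1) h,
    map_mem_closure (D.cont.iterate n) h fun _ hy => (D.cyl_add hy).2⟩

lemma pp (h : ¬ HasAttr D.T) {x : ℝ} {p : ℕ} (hp : 1 ≤ p) (hx : D.T^[p] x = x)
    {ω : ℕ → Fin D.m} (hc : x ∈ closure (D.Cyl (3 * p) ω ∩ D.Lam)) :
    1 < |D.gam (2 * p) (sh ω p)| := by
  rw [show 3 * p = p + (p + p) by ring] at hc
  rw [two_mul]
  obtain ⟨z, hzA, hzL⟩ : (D.Cyl (p + (p + p)) ω ∩ D.Lam).Nonempty := closure_nonempty_iff.1 ⟨x, hc⟩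
  have hg : D.gam (p + (p + p)) ω ≠ 0 :=
    Finset.prod_ne_zero_iff.2 fun i hi => D.c_ne ⟨z, hzA, hzL⟩ (Finset.mem_range.1 hi)
  obtain ⟨y, hyA, hyx⟩ :=
    (infinite_of_mem_nhds z ((D.cyl_open _ ω).mem_nhds hzA)).nontrivial.exists_ne x
  obtain ⟨x0, xJ⟩ := D.pp_add (closure_mono inter_subset_left hc)
  rw [hx] at xJ
  obtain ⟨x1, x2⟩ := D.pp_add xJ
  rw [hx] at x2
  obtain ⟨y0, yJ⟩ := D.pp_add (subset_closure hyA)
  obtain ⟨y1, y2⟩ := D.pp_add yJ
  have e0 := D.cyl_aff x0 y0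
  have e1 := D.cyl_aff x1 y1
  rw [hx] at e0 e1
  rw [D.gam_add, D.gam_add] at hg
  have g0 := left_ne_zero_of_mul hg
  have g1 := left_ne_zero_of_mul (right_ne_zero_of_mul hg)
  have ha : 0 < (y - x) ^ 2 := by
    have := sub_ne_zero.2 hyx
    positivity
  have hσ : 0 < D.gam (p + p) (sh ω p) := by
    rw [D.gam_add]
    rcases g1.lt_or_gt with c1 | c1
    · rcases g0.lt_or_gt with c0 | c0
      · have := D.pp_same x0 x2 y0 y2 (by
          rw [e1, e0]
          have := mul_pos (mul_pos_of_neg_of_neg c1 c0) ha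
          nlinarith)
        exact mul_pos_of_neg_of_neg c1 (this ▸ c0)
      · have := D.pp_same x0 x1 y0 y1 (by
          rw [e0]
          have := mul_pos c0 ha
          nlinarith)
        linarith
    · have := D.pp_same x1 x2 y1 y2 (by
        rw [e1, e0]
        have := mul_pos (mul_pos c1 (sq_pos_of_ne_zero g0)) ha
        nlinarith)
      exact mul_pos c1 (this ▸ c1)
  have hx2 : D.T^[p + p] x = x := by rw [Function.iterate_add_apply, hx, hx]
  have hI : ∀ w, D.T^[p] w ∈ Icc (0 : ℝ) 1 := fun w => by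
    obtain ⟨k, rfl⟩ := Nat.exists_eq_add_of_le' hp
    rw [Function.iterate_succ_apply']
    exact D.maps _
  rw [abs_of_pos hσ]
  rcases lt_trichotomy (D.gam (p + p) (sh ω p)) 1 with c | c | c
  · refine absurd ⟨p + p, by omega, x, hx ▸ hI x, D.T^[p] y, hI y, fun e => ?_, _, hσ, c,
      fun w hw => ?_⟩ h
    · rw [← e, sub_self] at e0
      exact mul_ne_zero g0 (sub_ne_zero.2 hyx) e0.symm
    · have := D.cyl_aff xJ (D.pp_seg xJ yJ hw)
      rw [hx2] at this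
      linarith
  · refine absurd ⟨p + p, by omega, ?_⟩ (hzL p).1
    filter_upwards [(D.cyl_open _ _).mem_nhds (D.cyl_add hzA).2] with w hw
    have := D.cyl_aff xJ (subset_closure hw)
    rw [hx2, c] at this
    linarith
  · exact c

end BL

end Pool.Agent.MP_8df504_an.C

end

section

set_option autoImplicit false

namespace Pool.Agent.MP_8df504_an.C

open Set Filter Topology MeasureTheory

/-! Krylov-Bogolyubov on the symbolic extension.

Hints.  For `n ≥ 1` take `x n ∈ Cyl n ω ∩ Lam` with `|gam n ω| < 4` and its itinerary `w n`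
(`exists_itin`; it agrees with `ω` below `n` by `piece_unique`).  On the compact metrizable space
`E = Icc 0 1 × (ℕ → Fin m)` let `F` be the continuous map `(x, ω) ↦ (T x, sh ω 1)` and `μ n` the
average of the Dirac masses at `F^[i] (x n, w n)`, `i < n`.  `ProbabilityMeasure E` is compact; take
the limit `μ` along `hyperfilter ℕ` (or a cluster point).  Invariance: for bounded continuous `φ`,
`∫ φ ∘ F dμ n - ∫ φ dμ n → 0` (`ext_of_forall_integral_eq_of_IsFiniteMeasure` or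
`FiniteMeasure.ext_of_forall_integral_eq`).  The sets
`Y k = {z | z.1 ∈ closure (Cyl k z.2 ∩ Lam)}` are closed (finite union over the first `k` symbols)
and have full `μ n` measure (`T^[i] x ∈ Cyl k (sh w i) ∩ Lam`), so full `μ` measure
(`ProbabilityMeasure.limsup_measure_closed_le_of_tendsto`, or integrate the bounded continuous
function `min 1 (infDist · (Y k))`).  `z ↦ log |c (z.2 0)|` is continuous and its `μ n` integral is
`log |gam n| / n ≤ log 4 / n`.  Finally push `μ` forward to `ℝ × (ℕ → Fin m)`. -/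

section Gen

open scoped ENNReal BoundedContinuousFunction

variable {E : Type*} [MeasurableSpace E]

/-- the empirical measure of the first `n + 1` terms of a sequence -/
noncomputable def kb_emp (y : ℕ → E) (n : ℕ) : Measure E :=
  ((n + 1 : ℕ) : ℝ≥0∞)⁻¹ • ∑ i ∈ Finset.range (n + 1), Measure.dirac (y i)

lemma kb_emp_prob (y : ℕ → E) (n : ℕ) : IsProbabilityMeasure (kb_emp y n) := by
  constructor
  simp only [kb_emp, Measure.smul_apply, Measure.coe_finset_sum, Finset.sum_apply, measure_univ,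
    Finset.sum_const, Finset.card_range, nsmul_eq_mul, mul_one, smul_eq_mul]
  exact ENNReal.inv_mul_cancel (Nat.cast_ne_zero.2 n.succ_ne_zero) (ENNReal.natCast_ne_top _)

lemma kb_emp_null {y : ℕ → E} (n : ℕ) {Y : Set E} (hY : MeasurableSet Y) (h : ∀ i, y i ∈ Y) :
    kb_emp y n Yᶜ = 0 := by
  simp only [kb_emp, Measure.smul_apply, Measure.coe_finset_sum, Finset.sum_apply, smul_eq_mul]
  rw [Finset.sum_eq_zero fun i _ => ?_, mul_zero]
  rw [Measure.dirac_apply' _ hY.compl, indicator_of_notMem (not_not.2 (h i))]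

lemma kb_emp_int [MeasurableSingletonClass E] (y : ℕ → E) (n : ℕ) (φ : E → ℝ) :
    ∫ x, φ x ∂kb_emp y n = (∑ i ∈ Finset.range (n + 1), φ (y i)) / ((n : ℝ) + 1) := by
  rw [kb_emp, integral_smul_measure,
    integral_finset_sum_measure fun i _ => integrable_dirac (by simp)]
  simp only [integral_dirac, ENNReal.toReal_inv, ENNReal.toReal_natCast, smul_eq_mul]
  push_cast
  ring

lemma kb_gen [TopologicalSpace E] [T2Space E] [BorelSpace E] [HasOuterApproxClosed E]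
    {F : E → E} (hF : Continuous F) {K : Set E} (hK : IsCompact K) (z : ℕ → E)
    (hz : ∀ n i, F^[i] (z n) ∈ K) :
    ∃ μ : Measure E, IsProbabilityMeasure μ ∧ MeasurePreserving F μ μ ∧
      (∀ Y, IsClosed Y → (∀ n i, F^[i] (z n) ∈ Y) → ∀ᵐ x ∂μ, x ∈ Y) ∧
      ∀ (φ : E →ᵇ ℝ) (C : ℝ), (∀ n, ∑ i ∈ Finset.range (n + 1), φ (F^[i] (z n)) ≤ C) →
        ∫ x, φ x ∂μ ≤ 0 := by
  let ν : ℕ → ProbabilityMeasure E := fun n => ⟨kb_emp (fun i => F^[i] (z n)) n, kb_emp_prob _ _⟩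
  have hν : ∀ n, (ν n : Measure E) = kb_emp (fun i => F^[i] (z n)) n := fun n => rfl
  have hc := isCompact_setOfPred_probabilityMeasure_mass_eq_compl_isCompact_le (E := E)
    (u := fun _ => 0) (K := fun _ => K) tendsto_const_nhds (fun _ => hK) (Or.inr monotone_const)
  obtain ⟨μ, -, hμ⟩ := hc.ultrafilter_le_nhds (Ultrafilter.map ν (hyperfilter ℕ)) (by
    rw [Ultrafilter.coe_map, le_principal_iff, mem_map]
    refine univ_mem' fun n _ => le_of_eq ?_
    rw [ProbabilityMeasure.null_iff_toMeasure_null, hν]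
    exact kb_emp_null n hK.isClosed.measurableSet (hz n))
  have ht : Tendsto ν (hyperfilter ℕ) (𝓝 μ) := hμ
  have hi := ProbabilityMeasure.tendsto_iff_forall_integral_tendsto.1 ht
  have h0 : ∀ C : ℝ, Tendsto (fun n : ℕ => C / ((n : ℝ) + 1)) (hyperfilter ℕ) (𝓝 0) := fun C =>
    (tendsto_const_nhds.div_atTop (tendsto_atTop_add_const_right _ _
      tendsto_natCast_atTop_atTop)).mono_left Nat.hyperfilter_le_atTop
  refine ⟨μ, inferInstance, ⟨hF.measurable, ?_⟩, fun Y hY h => ?_, fun φ C h => ?_⟩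
  · refine ext_of_forall_integral_eq_of_IsFiniteMeasure fun φ => ?_
    rw [integral_map hF.aemeasurable φ.continuous.aestronglyMeasurable]
    have h1 := (hi (φ.compContinuous ⟨F, hF⟩)).sub (hi φ)
    refine sub_eq_zero.1 (tendsto_nhds_unique h1 (squeeze_zero_norm (fun n => ?_) (h0 (2 * ‖φ‖))))
    rw [hν, kb_emp_int, kb_emp_int, ← sub_div, ← Finset.sum_sub_distrib, norm_div,
      Real.norm_of_nonneg (by positivity : (0 : ℝ) ≤ n + 1)]
    gcongr
    have h2 := Finset.sum_range_sub (fun i => φ (F^[i] (z n))) (n + 1)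
    simp only [Function.iterate_succ_apply'] at h2
    refine le_of_eq_of_le (congrArg norm h2) ((norm_sub_le _ _).trans ?_)
    linarith [φ.norm_coe_le_norm (F (F^[n] (z n))), φ.norm_coe_le_norm (F^[0] (z n))]
  · have h1 := ProbabilityMeasure.le_liminf_measure_open_of_tendsto ht hY.isOpen_compl
    simp only [hν, kb_emp_null _ hY.measurableSet (h _), liminf_const] at h1
    exact le_antisymm h1 zero_le
  · refine le_of_tendsto_of_tendsto' (hi φ) (h0 C) fun n => ?_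
    rw [hν, kb_emp_int]
    gcongr
    exact h n

end Gen

lemma kb_iter (D : BL) (x : ℝ) (w : ℕ → Fin D.m) (i : ℕ) :
    (fun z : ℝ × (ℕ → Fin D.m) => (D.T z.1, sh z.2 1))^[i] (x, w) = (D.T^[i] x, sh w i) := by
  induction i with
  | zero => rfl
  | succ i ih =>
    rw [Function.iterate_succ_apply', ih, Function.iterate_succ_apply']
    refine Prod.ext rfl (funext fun j => ?_)
    simp only [sh]
    congr 1
    omega

lemma kb_closed (D : BL) (k : ℕ) :
    IsClosed {z : ℝ × (ℕ → Fin D.m) | z.1 ∈ closure (D.Cyl k z.2 ∩ D.Lam)} := by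
  rw [← isOpen_compl_iff, isOpen_iff_mem_nhds]
  intro z0 h0
  have h1 : ∀ᶠ z in 𝓝 z0, ∀ i ∈ Finset.range k, z.2 i = z0.2 i := by
    rw [Filter.eventually_all_finset]
    intro i _
    have h1 : IsOpen ((fun z : ℝ × (ℕ → Fin D.m) => z.2 i) ⁻¹' {z0.2 i}) :=
      (isOpen_discrete _).preimage ((continuous_apply i).comp continuous_snd)
    exact h1.mem_nhds rfl
  have h2 : ∀ᶠ z in 𝓝 z0, z.1 ∉ closure (D.Cyl k z0.2 ∩ D.Lam) :=
    (isClosed_closure.isOpen_compl.preimage continuous_fst).mem_nhds h0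
  filter_upwards [h1, h2] with z h3 h4 h5
  refine h4 (closure_mono (inter_subset_inter_left _ fun x hx i hi => ?_) h5)
  rw [← h3 i (Finset.mem_range.2 hi)]
  exact hx i hi

lemma BL.kb (D : BL) (h : ¬ D.Expd) :
    ∃ μ : Measure (ℝ × (ℕ → Fin D.m)), IsProbabilityMeasure μ ∧
      MeasurePreserving (fun z : ℝ × (ℕ → Fin D.m) => (D.T z.1, sh z.2 1)) μ μ ∧
      (∀ᵐ z ∂μ, ∀ k, z.1 ∈ closure (D.Cyl k z.2 ∩ D.Lam)) ∧
      ∫ z, Real.log |D.c (z.2 0)| ∂μ ≤ 0 := by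
  have h1 : ∀ n : ℕ, ∃ x ∈ D.Lam, ∃ w : ℕ → Fin D.m, (∀ k, x ∈ D.Cyl k w) ∧
      |D.gam (n + 1) w| < 4 := by
    intro n
    by_contra h2
    refine h ⟨n + 1, Nat.le_add_left 1 n, fun ω ⟨x, hx, hx'⟩ => le_of_not_gt fun h3 => h2 ?_⟩
    obtain ⟨w, hw⟩ := D.exists_itin hx'
    refine ⟨x, hx', w, hw, lt_of_eq_of_lt (congrArg abs (Finset.prod_congr rfl fun i hi => ?_)) h3⟩
    have h4 := Finset.mem_range.1 hi
    rw [D.piece_unique (hw (n + 1) i h4) (hx i h4)]
  choose x hx w hw hg using h1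
  have hF : Continuous fun z : ℝ × (ℕ → Fin D.m) => (D.T z.1, sh z.2 1) :=
    (D.cont.comp continuous_fst).prodMk
      (continuous_pi fun i => (continuous_apply (i + 1)).comp continuous_snd)
  have hL : ∀ n i, D.T^[i] (x n) ∈ D.Lam := fun n i => D.lam_maps.iterate i (hx n)
  obtain ⟨μ, h2, h3, h4, h5⟩ := kb_gen hF (K := Icc 0 1 ×ˢ univ)
    (isCompact_Icc.prod isCompact_univ) (fun n => (x n, w n)) fun n i => by
      rw [kb_iter]
      exact ⟨Ioo_subset_Icc_self (D.lam_sub (hL n i)), mem_univ _⟩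
  refine ⟨μ, h2, h3, ae_all_iff.2 fun k => h4 _ (kb_closed D k) fun n i => ?_, ?_⟩
  · rw [kb_iter]
    exact subset_closure ⟨(D.cyl_add (hw n (i + k))).2, hL n i⟩
  · refine h5 ((BoundedContinuousFunction.mkOfCompact ⟨fun j : Fin D.m => Real.log |D.c j|,
      continuous_of_discreteTopology⟩).compContinuous
      ⟨fun z => z.2 0, (continuous_apply 0).comp continuous_snd⟩) (Real.log 4) fun n => ?_
    have h6 : ∀ i ∈ Finset.range (n + 1), |D.c (w n i)| ≠ 0 := fun i hi =>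
      abs_ne_zero.2 (D.c_ne ⟨x n, hw n (n + 1), hx n⟩ (Finset.mem_range.1 hi))
    have h7 := hg n
    rw [BL.gam, Finset.abs_prod] at h7
    have h8 := Real.log_le_log (Finset.prod_pos fun i hi =>
      lt_of_le_of_ne (abs_nonneg _) (h6 i hi).symm) h7.le
    rw [Real.log_prod h6] at h8
    refine le_of_eq_of_le (Finset.sum_congr rfl fun i _ => ?_) h8
    rw [kb_iter]
    show Real.log |D.c (w n (0 + i))| = _
    rw [zero_add]

end Pool.Agent.MP_8df504_an.C

end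

section

set_option autoImplicit false

namespace Pool.Agent.MP_8df504_an.C

open Set Filter Topology MeasureTheory

/-! Straightening `T` on the gaps of `K`.

Hints.  `lo`, `hi` = min, max of `K`.  For `y ∈ [lo,hi]` let `p y = sSup (K ∩ Iic y)`,
`q y = sInf (K ∩ Ici y)`, `T1 y = T y` if `y ∈ K`, else the affine interpolation between
`(p y, T (p y))` and `(q y, T (q y))`; `T' y = T1 (max lo (min y hi))`.
`B' = {lo, hi} ∪ (B ∩ K) ∪` ends `p b`, `q b` for `b ∈ B ∩ [lo,hi]` (for `b ∈ K` both are `b`).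
Let `lo ≤ u < v ≤ hi` with `NoB B' u v`.  Either `(u,v)` is inside a gap of `K`, where `T'` is affine
with nonzero slope (`inj`), or no point of `B` is in `(u,v)` and every gap of `K` that meets `[u,v]`
in an interior point of the gap is free of `B`, so `T' = T` on `[u,v]` and `T` is affine there; the
slope is nonzero since otherwise `(u,v)` has at most one point of `K`, so a subinterval lies in a
break-free gap `g` where `T` is affine with `T g.1 ≠ T g.2`.
Continuity of `T'`: `lip_of_pieces` gives a Lipschitz bound on `[lo,hi]` (the slopes are bounded: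
finitely many, or bound them by a Lipschitz constant of `T` on `[0,1]`).  `Pt`, `image` only
depend on `T` on `K`. -/

/-- a piecewise affine map with both ends among the break points is Lipschitz -/
lemma gt0b_lip {T : ℝ → ℝ} {lo hi : ℝ} {B : Finset ℝ} (h : PLz T lo hi B) (hlo : lo ∈ B)
    (hhi : hi ∈ B) : ∃ M, LipOn T lo hi M := by
  obtain ⟨M, hM⟩ := ((B ×ˢ B).image
    (fun g : ℝ × ℝ => |T g.2 - T g.1| / (g.2 - g.1))).finite_toSet.bddAbove
  refine ⟨M, lip_of_pieces (B := B) fun u v hu huv hv hB => ?_⟩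
  obtain ⟨a, ha, ham⟩ := (B.filter (fun z => z ≤ u)).exists_max_image id
    ⟨lo, Finset.mem_filter.2 ⟨hlo, hu⟩⟩
  obtain ⟨b, hb, hbm⟩ := (B.filter (fun z => v ≤ z)).exists_min_image id
    ⟨hi, Finset.mem_filter.2 ⟨hhi, hv⟩⟩
  rw [Finset.mem_filter] at ha hb
  have h1 : lo ≤ a := ham lo (Finset.mem_filter.2 ⟨hlo, hu⟩)
  have h2 : b ≤ hi := hbm hi (Finset.mem_filter.2 ⟨hhi, hv⟩)
  have hab : a < b := lt_of_le_of_lt ha.2 (lt_of_lt_of_le huv hb.2)
  have hN : NoB B a b := by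
    intro c hc hh
    by_cases c1 : c ≤ u
    · exact absurd (ham c (Finset.mem_filter.2 ⟨hc, c1⟩)) (not_le.2 hh.1)
    by_cases c2 : v ≤ c
    · exact absurd (hbm c (Finset.mem_filter.2 ⟨hc, c2⟩)) (not_le.2 hh.2)
    exact hB c hc ⟨not_le.1 c1, not_le.1 c2⟩
  obtain ⟨σ, hσ⟩ := h a b h1 hab h2 hN
  have e1 := hσ u ⟨ha.2, huv.le.trans hb.2⟩
  have e2 := hσ v ⟨ha.2.trans huv.le, hb.2⟩
  have e3 := hσ b ⟨hab.le, le_rfl⟩
  have hba : 0 < b - a := sub_pos.2 hab
  have hs : |σ| ≤ M := by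
    have := hM (Finset.mem_coe.2 (Finset.mem_image.2
      ⟨(a, b), Finset.mem_product.2 ⟨ha.1, hb.1⟩, rfl⟩))
    have e4 : T b - T a = σ * (b - a) := by rw [e3]; ring
    simp only [e4, abs_mul, abs_of_pos hba] at this
    rwa [mul_div_assoc, div_self hba.ne', mul_one] at this
  have e5 : T v - T u = σ * (v - u) := by rw [e1, e2]; ring
  rw [e5, abs_mul, abs_of_pos (sub_pos.2 huv)]
  exact mul_le_mul_of_nonneg_right hs (sub_pos.2 huv).le

/-- the largest point of `K` that is `≤ y` -/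
noncomputable def gt0b_p (K : Set ℝ) (y : ℝ) : ℝ := sSup (K ∩ Iic y)

/-- the least point of `K` that is `≥ y` -/
noncomputable def gt0b_q (K : Set ℝ) (y : ℝ) : ℝ := sInf (K ∩ Ici y)

lemma gt0b_p_spec {K : Set ℝ} (hK : IsCompact K) {y z : ℝ} (hz : z ∈ K) (hzy : z ≤ y) :
    gt0b_p K y ∈ K ∧ gt0b_p K y ≤ y ∧ z ≤ gt0b_p K y := by
  have h := (hK.inter_right (isClosed_Iic (a := y))).isGreatest_sSup ⟨z, hz, hzy⟩
  exact ⟨h.1.1, h.1.2, h.2 ⟨hz, hzy⟩⟩

lemma gt0b_q_spec {K : Set ℝ} (hK : IsCompact K) {y z : ℝ} (hz : z ∈ K) (hzy : y ≤ z) :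
    gt0b_q K y ∈ K ∧ y ≤ gt0b_q K y ∧ gt0b_q K y ≤ z := by
  have h := (hK.inter_right (isClosed_Ici (a := y))).isLeast_sInf ⟨z, hz, hzy⟩
  exact ⟨h.1.1, h.1.2, h.2 ⟨hz, hzy⟩⟩

/-- affine interpolation of `T` on the gaps of `K` -/
noncomputable def gt0b_T (T : ℝ → ℝ) (K : Set ℝ) (y : ℝ) : ℝ :=
  T (gt0b_p K y) + (T (gt0b_q K y) - T (gt0b_p K y)) / (gt0b_q K y - gt0b_p K y) *
    (y - gt0b_p K y)

lemma gt0b_T_mem (T : ℝ → ℝ) {K : Set ℝ} (hK : IsCompact K) {y : ℝ} (hy : y ∈ K) :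
    gt0b_T T K y = T y := by
  have h := gt0b_p_spec hK hy le_rfl
  have e : gt0b_p K y = y := le_antisymm h.2.1 h.2.2
  simp [gt0b_T, e]

lemma gt0b_T_gap (T : ℝ → ℝ) {K : Set ℝ} (hK : IsCompact K) {a b : ℝ} (ha : a ∈ K) (hb : b ∈ K)
    (hab : a < b) (hg : ∀ z ∈ K, ¬ (a < z ∧ z < b)) {y : ℝ} (hy : y ∈ Icc a b) :
    gt0b_T T K y = T a + (T b - T a) / (b - a) * (y - a) := by
  have hba : b - a ≠ 0 := (sub_pos.2 hab).ne'
  rcases eq_or_lt_of_le hy.1 with c | c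
  · rw [← c, gt0b_T_mem T hK ha]; simp
  rcases eq_or_lt_of_le hy.2 with d | d
  · rw [d, gt0b_T_mem T hK hb]; field_simp; ring
  have h1 := gt0b_p_spec hK ha c.le
  have h2 := gt0b_q_spec hK hb d.le
  have e1 : gt0b_p K y = a := by
    by_contra hne
    exact hg _ h1.1 ⟨lt_of_le_of_ne h1.2.2 (Ne.symm hne), lt_of_le_of_lt h1.2.1 d⟩
  have e2 : gt0b_q K y = b := by
    by_contra hne
    exact hg _ h2.1 ⟨lt_of_lt_of_le c h2.2.1, lt_of_le_of_ne h2.2.2 hne⟩
  rw [gt0b_T, e1, e2]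

lemma gt0b_T_aff (T : ℝ → ℝ) {K : Set ℝ} (hK : IsCompact K) {a b σ : ℝ} (ha : a ∈ K) (hb : b ∈ K)
    (hσ : ∀ y ∈ Icc a b, T y = T a + σ * (y - a)) {y : ℝ} (hy : y ∈ Icc a b) :
    gt0b_T T K y = T y := by
  have h1 := gt0b_p_spec hK ha hy.1
  have h2 := gt0b_q_spec hK hb hy.2
  by_cases e : gt0b_q K y - gt0b_p K y = 0
  · have e' : gt0b_p K y = y := by linarith [h1.2.1, h2.2.1]
    exact gt0b_T_mem T hK (e' ▸ h1.1)
  · have e1 := hσ _ ⟨h1.2.2, h1.2.1.trans hy.2⟩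
    have e2 := hσ _ ⟨hy.1.trans h2.2.1, h2.2.2⟩
    have e3 : T (gt0b_q K y) - T (gt0b_p K y) = σ * (gt0b_q K y - gt0b_p K y) := by
      rw [e1, e2]; ring
    rw [gt0b_T, e3, mul_div_assoc, div_self e, mul_one, e1, hσ y hy]
    ring

open Classical in
/-- the new break points -/
noncomputable def gt0b_B (K : Set ℝ) (lo hi : ℝ) (B : Finset ℝ) : Finset ℝ :=
  insert lo (insert hi (((B.filter (fun b => lo ≤ b ∧ b ≤ hi)).image (gt0b_p K)) ∪
    ((B.filter (fun b => lo ≤ b ∧ b ≤ hi)).image (gt0b_q K))))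

lemma gt0b_B_sub {K : Set ℝ} (hK : IsCompact K) {lo hi : ℝ} (hlo : lo ∈ K) (hhi : hi ∈ K)
    (B : Finset ℝ) : ∀ b ∈ gt0b_B K lo hi B, b ∈ K := by
  intro b hb
  simp only [gt0b_B, Finset.mem_insert, Finset.mem_union, Finset.mem_image,
    Finset.mem_filter] at hb
  rcases hb with rfl | rfl | ⟨c, hc, rfl⟩ | ⟨c, hc, rfl⟩
  · exact hlo
  · exact hhi
  · exact (gt0b_p_spec hK hlo hc.2.1).1
  · exact (gt0b_q_spec hK hhi hc.2.2).1

lemma gt0b_aff (R : Raw) {lo hi : ℝ} (hlo : lo ∈ R.K) (hhi : hi ∈ R.K)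
    {u v : ℝ} (hu : lo ≤ u) (huv : u < v) (hv : v ≤ hi) (hB : NoB (gt0b_B R.K lo hi R.B) u v) :
    ∃ σ : ℝ, σ ≠ 0 ∧ ∀ y ∈ Icc u v, gt0b_T R.T R.K y = gt0b_T R.T R.K u + σ * (y - u) := by
  have hK := R.cpt
  by_cases hz : ∃ z ∈ R.K, u < z ∧ z < v
  · obtain ⟨z, hz, huz, hzv⟩ := hz
    have h1 := gt0b_p_spec hK hlo hu
    have h2 := gt0b_q_spec hK hhi hv
    have hab : gt0b_p R.K u < gt0b_q R.K v := lt_of_le_of_lt h1.2.1 (lt_of_lt_of_le huv h2.2.1)
    have hN : NoB R.B (gt0b_p R.K u) (gt0b_q R.K v) := by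
      intro c hc hh
      have hc' : lo ≤ c ∧ c ≤ hi := ⟨h1.2.2.trans hh.1.le, hh.2.le.trans h2.2.2⟩
      rcases le_total c z with d | d
      · have h3 := gt0b_q_spec hK hz d
        have hm : gt0b_q R.K c ∈ gt0b_B R.K lo hi R.B := by
          simp only [gt0b_B, Finset.mem_insert, Finset.mem_union, Finset.mem_image,
            Finset.mem_filter]
          exact Or.inr (Or.inr (Or.inr ⟨c, ⟨hc, hc'⟩, rfl⟩))
        have h4 : gt0b_q R.K c ≤ u := by
          by_contra hn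
          exact hB _ hm ⟨not_le.1 hn, lt_of_le_of_lt h3.2.2 hzv⟩
        have h5 := (gt0b_p_spec hK h3.1 h4).2.2
        linarith [hh.1, h3.2.1]
      · have h3 := gt0b_p_spec hK hz d
        have hm : gt0b_p R.K c ∈ gt0b_B R.K lo hi R.B := by
          simp only [gt0b_B, Finset.mem_insert, Finset.mem_union, Finset.mem_image,
            Finset.mem_filter]
          exact Or.inr (Or.inr (Or.inl ⟨c, ⟨hc, hc'⟩, rfl⟩))
        have h4 : v ≤ gt0b_p R.K c := by
          by_contra hn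
          exact hB _ hm ⟨lt_of_lt_of_le huz h3.2.2, not_le.1 hn⟩
        have h5 := (gt0b_q_spec hK h3.1 h4).2.2
        linarith [hh.2, h3.2.1]
    obtain ⟨σ, hσ⟩ := R.pl _ _ (R.sub h1.1).1 hab (R.sub h2.1).2 hN
    refine ⟨σ, fun h0 => ?_, fun y hy => ?_⟩
    · have e := hσ _ ⟨hab.le, le_rfl⟩
      rw [h0, zero_mul, add_zero] at e
      exact hab.ne' (R.inj h2.1 h1.1 e)
    · have hy' : y ∈ Icc (gt0b_p R.K u) (gt0b_q R.K v) := ⟨h1.2.1.trans hy.1, hy.2.trans h2.2.1⟩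
      have hu' : u ∈ Icc (gt0b_p R.K u) (gt0b_q R.K v) := ⟨h1.2.1, huv.le.trans h2.2.1⟩
      rw [gt0b_T_aff R.T hK h1.1 h2.1 hσ hy', gt0b_T_aff R.T hK h1.1 h2.1 hσ hu', hσ y hy',
        hσ u hu']
      ring
  · push Not at hz
    have hm : (u + v) / 2 ∉ R.K := fun h => by
      have := hz _ h (by linarith)
      linarith
    obtain ⟨g, hg, -, hg1, hg2, -⟩ := exists_gap_around hK hlo hhi (y := (u + v) / 2)
      (by linarith) (by linarith) hm
    have h1 : g.1 ≤ u := by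
      by_contra hn
      have := hz _ hg.1 (not_le.1 hn)
      linarith
    have h2 : v ≤ g.2 := hz _ hg.2.1 (by linarith)
    refine ⟨(R.T g.2 - R.T g.1) / (g.2 - g.1), ?_, fun y hy => ?_⟩
    · refine div_ne_zero (sub_ne_zero.2 fun e => ?_) (sub_pos.2 hg.2.2.1).ne'
      exact hg.2.2.1.ne' (R.inj hg.2.1 hg.1 e)
    · rw [gt0b_T_gap R.T hK hg.1 hg.2.1 hg.2.2.1 hg.2.2.2 ⟨h1.trans hy.1, hy.2.trans h2⟩,
        gt0b_T_gap R.T hK hg.1 hg.2.1 hg.2.2.1 hg.2.2.2 ⟨h1, huv.le.trans h2⟩]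
      ring

lemma Raw.exists_pre (R : Raw) : Nonempty Pre := by
  have hK := R.cpt
  obtain ⟨lo, hlo⟩ := hK.exists_isLeast ⟨_, R.x_mem 0⟩
  obtain ⟨hi, hhi⟩ := hK.exists_isGreatest ⟨_, R.x_mem 0⟩
  have hsub : R.K ⊆ Icc lo hi := fun z hz => ⟨hlo.2 hz, hhi.2 hz⟩
  have hlh : lo ≤ hi := hlo.2 hhi.1
  have hloB : lo ∈ gt0b_B R.K lo hi R.B := by simp [gt0b_B]
  have hhiB : hi ∈ gt0b_B R.K lo hi R.B := by simp [gt0b_B]
  obtain ⟨M, hM⟩ := gt0b_lip (T := gt0b_T R.T R.K) (B := gt0b_B R.K lo hi R.B)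
    (fun u v hu huv hv hB => by
      obtain ⟨σ, -, h⟩ := gt0b_aff R hlo.1 hhi.1 hu huv hv hB
      exact ⟨σ, h⟩) hloB hhiB
  have hc : ContinuousOn (gt0b_T R.T R.K) (Icc lo hi) := by
    refine (LipschitzOnWith.of_dist_le_mul (K := Real.toNNReal M) fun a ha b hb => ?_).continuousOn
    rw [Real.dist_eq, Real.dist_eq]
    exact (hM a ha b hb).trans
      (mul_le_mul_of_nonneg_right (Real.le_coe_toNNReal M) (abs_nonneg _))
  have hcl : ∀ y ∈ Icc lo hi, max lo (min y hi) = y := fun y hy => by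
    rw [min_eq_left hy.2, max_eq_right hy.1]
  have hK' : ∀ y ∈ R.K, gt0b_T R.T R.K (max lo (min y hi)) = R.T y := fun y hy => by
    rw [hcl y (hsub hy), gt0b_T_mem R.T hK hy]
  refine ⟨{ T := fun y => gt0b_T R.T R.K (max lo (min y hi))
            cont := hc.comp_continuous (by fun_prop) fun y =>
              ⟨le_max_left _ _, max_le hlh (min_le_right _ _)⟩
            K := R.K
            cpt := hK
            lo := lo
            hi := hi
            lo_mem := hlo.1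
            hi_mem := hhi.1
            sub := hsub
            B := gt0b_B R.K lo hi R.B
            lo_B := hloB
            hi_B := hhiB
            B_sub := gt0b_B_sub hK hlo.1 hhi.1 R.B
            aff := fun u v hu huv hv hB => ?_
            inj := fun a ha b hb e => R.inj ha hb (by rw [← hK' a ha, ← hK' b hb]; exact e)
            x := R.x
            x_succ := fun n => by rw [hK' _ (R.x_mem n)]; exact R.x_succ n
            x_mem := R.x_mem
            x_inj := R.x_inj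
            dense := R.dense
            G := R.G
            gain := fun A hA => ?_ }⟩
  · obtain ⟨σ, h0, h⟩ := gt0b_aff R hlo.1 hhi.1 hu huv hv hB
    refine ⟨σ, h0, fun y hy => ?_⟩
    rw [hcl y ⟨hu.trans hy.1, hy.2.trans hv⟩, hcl u ⟨hu, huv.le.trans hv⟩]
    exact h y hy
  · have e1 : Pt (fun y => gt0b_T R.T R.K (max lo (min y hi))) A = Pt R.T A := by
      refine Finset.prod_congr rfl fun g hg => ?_
      have hg' := mem_gaps.1 hg
      simp only [img]
      rw [hK' _ (hA hg'.1), hK' _ (hA hg'.2.1)]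
    have e2 : A.image (fun y => gt0b_T R.T R.K (max lo (min y hi))) = A.image R.T :=
      Finset.image_congr fun y hy => hK' y (hA hy)
    rw [e1, e2]
    exact R.gain A hA

end Pool.Agent.MP_8df504_an.C

end
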