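import Mathlib
import Pool.Agent.MP_8df504_an.Defs
import Pool.Agent.MP_8df504_an.ClassDefs

section

set_option autoImplicit false

namespace Pool.Agent.MP_8df504_an.C

open Set Filter Topology MeasureTheory

/-! ## gaps and products over gaps -/

/-- consecutive pairs of points of `S` -/
def Gap (S : Set ℝ) : Set (ℝ × ℝ) :=
  {g | g.1 ∈ S ∧ g.2 ∈ S ∧ g.1 < g.2 ∧ ∀ z ∈ S, ¬ (g.1 < z ∧ z < g.2)}

open Classical in
/-- consecutive pairs (edges) of a finite set -/
noncomputable def gaps (A : Finset ℝ) : Finset (ℝ × ℝ) :=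
  (A ×ˢ A).filter (fun g => g ∈ Gap (A : Set ℝ))

def len (g : ℝ × ℝ) : ℝ := g.2 - g.1

def img (T : ℝ → ℝ) (g : ℝ × ℝ) : ℝ := |T g.2 - T g.1|

noncomputable def Pt (T : ℝ → ℝ) (A : Finset ℝ) : ℝ := ∏ g ∈ gaps A, img T g

noncomputable def Dl (A : Finset ℝ) : ℝ := ∏ g ∈ gaps A, len g

noncomputable def rho (O : Finset ℝ) (y : ℝ) : ℝ := Dl (insert y O) / Dl O

/-- the segment between `T g.1` and `T g.2` contains `γ` -/
def Cov (T : ℝ → ℝ) (g γ : ℝ × ℝ) : Prop :=
  min (T g.1) (T g.2) ≤ γ.1 ∧ γ.2 ≤ max (T g.1) (T g.2)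

/-- no break point strictly between `u` and `v` -/
def NoB (B : Finset ℝ) (u v : ℝ) : Prop := ∀ b ∈ B, ¬ (u < b ∧ b < v)

def Inner (u v : ℝ) (g : ℝ × ℝ) : Prop := u ≤ g.1 ∧ g.2 ≤ v

/-- `s` is the absolute slope of `T` at `a` (no condition if `a` is a break point) -/
def SlopeAt (T : ℝ → ℝ) (hi : ℝ) (B : Finset ℝ) (a s : ℝ) : Prop :=
  a ∉ B → ∀ v, a < v → v ≤ hi → NoB B a v → |T v - T a| = s * (v - a)

def LipOn (T : ℝ → ℝ) (lo hi M : ℝ) : Prop :=
  ∀ u ∈ Icc lo hi, ∀ v ∈ Icc lo hi, |T u - T v| ≤ M * |u - v|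

/-- `T` is affine on every break-free segment of `[lo,hi]` (slope `0` allowed) -/
def PLz (T : ℝ → ℝ) (lo hi : ℝ) (B : Finset ℝ) : Prop :=
  ∀ u v, lo ≤ u → u < v → v ≤ hi → NoB B u v → ∃ σ : ℝ, ∀ y ∈ Icc u v, T y = T u + σ * (y - u)

noncomputable def cC (m M : ℝ) (B : Finset ℝ) : ℝ := (M / m) ^ B.card / m

/-- the first `n` points of a sequence -/
noncomputable def orb (x : ℕ → ℝ) (n : ℕ) : Finset ℝ := (Finset.range n).image x

/-- the points `y 1, ..., y (n-1)` -/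
noncomputable def mid (y : ℕ → ℝ) (n : ℕ) : Finset ℝ := (Finset.Ioo 0 n).image y

/-- bounded gain on finite subsets of `S` -/
def Gain (T : ℝ → ℝ) (S : Set ℝ) (G : ℝ) : Prop :=
  ∀ A : Finset ℝ, (A : Set ℝ) ⊆ S → Pt T A ≤ G * Dl (A.image T)

/-! ## compact transitive sets with bounded gain -/

structure Raw where
  T : ℝ → ℝ
  cont : Continuous T
  K : Set ℝ
  cpt : IsCompact K
  sub : K ⊆ Icc 0 1
  B : Finset ℝ
  pl : PLz T 0 1 B
  inj : InjOn T K
  x : ℕ → ℝ
  x_succ : ∀ n, x (n + 1) = T (x n)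
  x_mem : ∀ n, x n ∈ K
  x_inj : Function.Injective x
  dense : ∀ N, K ⊆ closure (x '' Ici N)
  G : ℝ
  gain : Gain T K G

structure Pre where
  T : ℝ → ℝ
  cont : Continuous T
  K : Set ℝ
  cpt : IsCompact K
  lo : ℝ
  hi : ℝ
  lo_mem : lo ∈ K
  hi_mem : hi ∈ K
  sub : K ⊆ Icc lo hi
  B : Finset ℝ
  lo_B : lo ∈ B
  hi_B : hi ∈ B
  B_sub : ∀ b ∈ B, b ∈ K
  aff : ∀ u v, lo ≤ u → u < v → v ≤ hi → NoB B u v →
    ∃ σ : ℝ, σ ≠ 0 ∧ ∀ y ∈ Icc u v, T y = T u + σ * (y - u)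
  inj : InjOn T K
  x : ℕ → ℝ
  x_succ : ∀ n, x (n + 1) = T (x n)
  x_mem : ∀ n, x n ∈ K
  x_inj : Function.Injective x
  dense : ∀ N, K ⊆ closure (x '' Ici N)
  G : ℝ
  gain : Gain T K G

/-- slope data: `sl y` is the slope to the right of `y` -/
structure Slp (P : Pre) where
  m : ℝ
  M : ℝ
  sl : ℝ → ℝ
  Sl : Finset ℝ
  m_pos : 0 < m
  sl_lo : ∀ y, m ≤ |sl y|
  sl_hi : ∀ y, |sl y| ≤ M
  sl_mem : ∀ y, |sl y| ∈ Sl
  Sl_pos : ∀ t ∈ Sl, 0 < t
  sl_aff : ∀ u v, P.lo ≤ u → u < v → v ≤ P.hi → NoB P.B u v →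
    ∀ y ∈ Icc u v, P.T y = P.T u + sl u * (y - u)
  sl_eq : ∀ u v, P.lo ≤ u → u < v → v ≤ P.hi → NoB P.B u v →
    ∀ y, u ≤ y → y < v → sl y = sl u
  lip : LipOn P.T P.lo P.hi M

/-- a matching of the gaps of `K` -/
structure PiOK (P : Pre) (pi : ℝ × ℝ → ℝ × ℝ) : Prop where
  bij : BijOn pi (Gap P.K) (Gap P.K)
  cov : ∀ g ∈ Gap P.K, Cov P.T g (pi g)
  prod : ∀ F : Finset (ℝ × ℝ), (∀ g ∈ F, g ∈ Gap P.K) → ∏ g ∈ F, img P.T g / len (pi g) ≤ P.G

structure Sys where
  P : Pre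
  L : Slp P
  pi : ℝ × ℝ → ℝ × ℝ
  ok : PiOK P pi

noncomputable def Sys.r (S : Sys) (g : ℝ × ℝ) : ℝ := img S.P.T g / len (S.pi g)

def Sys.Long (S : Sys) (g : ℝ × ℝ) : Prop := 1 < S.r g

/-- closed segment of a pair -/
def cl (g : ℝ × ℝ) : Set ℝ := Icc g.1 g.2

/-- `y` follows the `pi`-orbit of the gap `f` -/
def Sys.Fol (S : Sys) (f : ℝ × ℝ) (y : ℝ) : Prop := ∀ k : ℕ, S.P.T^[k] y ∈ cl (S.pi^[k] f)

def Pre.TwoSided (P : Pre) (c : ℝ) : Prop :=
  c ∈ P.K ∧ (∀ ε > 0, ∃ z ∈ P.K, c < z ∧ z < c + ε) ∧ (∀ ε > 0, ∃ z ∈ P.K, c - ε < z ∧ z < c)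

def Pre.TwoMax (P : Pre) (c : ℝ) : Prop :=
  P.TwoSided c ∧ ∃ δ > 0, ∀ y, |y - c| < δ → y ≠ c → P.T y < P.T c

def Pre.TwoMin (P : Pre) (c : ℝ) : Prop :=
  P.TwoSided c ∧ ∃ δ > 0, ∀ y, |y - c| < δ → y ≠ c → P.T c < P.T y

/-- the point of height `h` on side `σ` of `c` -/
noncomputable def pt (c sp sm : ℝ) (σ : Bool) (h : ℝ) : ℝ :=
  if σ = true then c + h / sp else c - h / sm

/-- the pair of points of heights `h < h'` on side `σ`, in increasing order -/
noncomputable def gp (c sp sm : ℝ) (σ : Bool) (h h' : ℝ) : ℝ × ℝ :=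
  if σ = true then (pt c sp sm σ h, pt c sp sm σ h') else (pt c sp sm σ h', pt c sp sm σ h)

/-- heights near a two-sided maximum -/
structure Ht (S : Sys) where
  c : ℝ
  sp : ℝ
  sm : ℝ
  δ : ℝ
  δ_pos : 0 < δ
  sp_lo : S.L.m ≤ sp
  sp_hi : sp ≤ S.L.M
  sm_lo : S.L.m ≤ sm
  sm_hi : sm ≤ S.L.M
  c_mem : c ∈ S.P.K
  val : ∀ σ h, 0 ≤ h → h ≤ δ → S.P.T (pt c sp sm σ h) = S.P.T c - h
  acc : ∀ σ, ∀ ε > 0, ∃ h, 0 < h ∧ h < ε ∧ pt c sp sm σ h ∈ S.P.K
  cover : ∀ h, 0 ≤ h → h ≤ δ → S.P.T c - h ∈ S.P.K → ∃ σ, pt c sp sm σ h ∈ S.P.K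

/-- alternating clusters `[a i, b i]` of heights -/
structure Clu (S : Sys) extends Ht S where
  a : ℕ → ℝ
  b : ℕ → ℝ
  sd : ℕ → Bool
  sd_succ : ∀ i, sd (i + 1) = !(sd i)
  b_pos : ∀ i, 0 < b i
  ba : ∀ i, b (i + 1) < a i
  ab : ∀ i, a i ≤ b i
  b_le : ∀ i, b i ≤ δ
  gap : ∀ i, gp c sp sm (sd i) (b (i + 2)) (a i) ∈ Gap S.P.K
  pi_eq : ∀ i, S.pi (gp c sp sm (sd i) (b (i + 2)) (a i)) = (S.P.T c - a i, S.P.T c - b (i + 1))
  ratio : ∀ ε > 0, ∀ᶠ i in atTop, b (i + 1) ≤ ε * (a i - b (i + 1))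

/-- nested levels `H j = [u j, v j]` flanked by the gaps `e (j+1)` (small) and `e j` (big) -/
structure Lev (S : Sys) where
  e : ℕ → ℝ × ℝ
  u : ℕ → ℝ
  v : ℕ → ℝ
  c1 : ℝ
  c1_pos : 0 < c1
  gap : ∀ j, e j ∈ Gap S.P.K
  long : ∀ j, S.Long (e j)
  uv : ∀ j, u j < v j
  flank : ∀ j, ((e (j + 1)).2 = u j ∧ (e j).1 = v j) ∨ ((e j).2 = u j ∧ (e (j + 1)).1 = v j)
  nest : ∀ j, u j ≤ u (j + 1) ∧ v (j + 1) ≤ v j
  inner : ∀ j, Inner (u j) (v j) (e (j + 2))
  small : ∀ ε > 0, ∀ᶠ j in atTop, v j - u j ≤ ε * len (e (j + 1))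
  s4 : ∀ j, ∀ y ∈ cl (e j), S.P.T y ∈ cl (S.pi (e j)) →
    y ≤ u j - c1 * len (e (j + 1)) ∨ v j + c1 * len (e (j + 1)) ≤ y
  s5 : ∀ j, ∀ y ∈ cl (e (j + 1)), S.P.T y ∈ cl (S.pi (e (j + 1))) →
    y ≤ u j - c1 * (v j - u j) ∨ v j + c1 * (v j - u j) ≤ y

/-- two points on either side of `[u,v]` whose orbits never come `D`-close to `[u,v]` -/
def Pre.Esc (P : Pre) (u v D : ℝ) : Prop :=
  ∃ yL yR : ℝ, yL ≤ u ∧ v ≤ yR ∧ (∀ z ∈ P.K, yL < z → z < yR → u ≤ z ∧ z ≤ v) ∧
    (∀ k : ℕ, P.T^[k] yL ∉ Ioo (u - D) (v + D)) ∧ (∀ k : ℕ, P.T^[k] yR ∉ Ioo (u - D) (v + D))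

/-- `[u,v]` returns as a whole to a neighbourhood `(α,β)` that contains no new point of `K` -/
def Pre.Ret (P : Pre) (u v : ℝ) : Prop :=
  ∃ (α β : ℝ) (r : ℕ), 1 ≤ r ∧ α < u ∧ v < β ∧ (∀ z ∈ P.K, α < z → z < β → u ≤ z ∧ z ≤ v) ∧
    (∀ w ∈ Icc u v, P.T^[r] w ∈ Ioo α β) ∧
    (∀ i, 0 < i → i < r → ∀ w ∈ Icc u v, P.T^[i] w ∉ Ioo α β)

/-- a cycle of disjoint intervals covering `K` -/
structure Cyc (P : Pre) where
  p : ℕ
  a : ℕ → ℝ
  b : ℕ → ℝ
  p_pos : 1 ≤ p
  a_per : ∀ i, a (i + p) = a i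
  b_per : ∀ i, b (i + p) = b i
  a_mem : ∀ i, a i ∈ P.K
  b_mem : ∀ i, b i ∈ P.K
  ab : ∀ i, a i ≤ b i
  disj : ∀ i l, i < p → l < p → i ≠ l → b i < a l ∨ b l < a i
  cover : ∀ z ∈ P.K, ∃ i < p, a i ≤ z ∧ z ≤ b i
  maps : ∀ i, ∀ z ∈ P.K, a i ≤ z → z ≤ b i → a (i + 1) ≤ P.T z ∧ P.T z ≤ b (i + 1)

/-- `O` is the set of gaps that are not inside an interval of the cycle -/
def Cyc.IsOuter {P : Pre} (C : Cyc P) (O : Finset (ℝ × ℝ)) : Prop :=
  ∀ g, g ∈ O ↔ g ∈ Gap P.K ∧ ∀ i, ¬ Inner (C.a i) (C.b i) g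

/-! ## broken-linear maps with explicit data -/

structure BL where
  T : ℝ → ℝ
  cont : Continuous T
  maps : ∀ x, T x ∈ Icc (0 : ℝ) 1
  m : ℕ
  a : Fin (m + 1) → ℝ
  mono : StrictMono a
  a0 : a 0 = 0
  a1 : a (Fin.last m) = 1
  c : Fin m → ℝ
  d : Fin m → ℝ
  aff : ∀ j : Fin m, ∀ x ∈ Icc (a j.castSucc) (a j.succ), T x = c j * x + d j

noncomputable def BL.B (D : BL) : Finset ℝ := Finset.univ.image D.a

def BL.Piece (D : BL) (j : Fin D.m) : Set ℝ := Ioo (D.a j.castSucc) (D.a j.succ)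

/-- points near which some iterate is the identity -/
def BL.Neu (D : BL) : Set ℝ := {x | ∃ p : ℕ, 1 ≤ p ∧ ∀ᶠ y in 𝓝 x, D.T^[p] y = y}

/-- points whose orbit avoids `Neu`, the break points and the flat pieces -/
def BL.Lam (D : BL) : Set ℝ :=
  {x | ∀ i : ℕ, D.T^[i] x ∉ D.Neu ∧ ∃ j, D.c j ≠ 0 ∧ D.T^[i] x ∈ D.Piece j}

def BL.Cyl (D : BL) (n : ℕ) (ω : ℕ → Fin D.m) : Set ℝ := {x | ∀ i < n, D.T^[i] x ∈ D.Piece (ω i)}

noncomputable def BL.gam (D : BL) (n : ℕ) (ω : ℕ → Fin D.m) : ℝ :=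
  ∏ i ∈ Finset.range n, D.c (ω i)

def sh {ι : Type} (ω : ℕ → ι) (k : ℕ) : ℕ → ι := fun i => ω (i + k)

/-- some iterate expands by a factor `4` on all cylinders that meet `Lam` -/
def BL.Expd (D : BL) : Prop :=
  ∃ n : ℕ, 1 ≤ n ∧ ∀ ω, (D.Cyl n ω ∩ D.Lam).Nonempty → 4 ≤ |D.gam n ω|

end Pool.Agent.MP_8df504_an.C

end

section

set_option autoImplicit false

namespace Pool.Agent.MP_8df504_an.C

open Set Filter Topology MeasureTheory

/-! Elementary facts on gaps (all proved here). -/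

lemma mem_gaps {A : Finset ℝ} {g : ℝ × ℝ} : g ∈ gaps A ↔ g ∈ Gap (A : Set ℝ) := by
  unfold gaps
  simp only [Finset.mem_filter, Finset.mem_product]
  exact ⟨fun h => h.2, fun h => ⟨⟨h.1, h.2.1⟩, h⟩⟩

lemma Gap.len_pos {S : Set ℝ} {g : ℝ × ℝ} (h : g ∈ Gap S) : 0 < len g := sub_pos.2 h.2.2.1

lemma img_nonneg (T : ℝ → ℝ) (g : ℝ × ℝ) : 0 ≤ img T g := abs_nonneg _

lemma Gap.eq_of_fst {S : Set ℝ} {g g' : ℝ × ℝ} (h : g ∈ Gap S) (h' : g' ∈ Gap S)
    (e : g.1 = g'.1) : g = g' := by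
  refine Prod.ext e ?_
  rcases lt_trichotomy g.2 g'.2 with c | c | c
  · exact absurd ⟨e ▸ h.2.2.1, c⟩ (h'.2.2.2 _ h.2.1)
  · exact c
  · exact absurd ⟨e ▸ h'.2.2.1, c⟩ (h.2.2.2 _ h'.2.1)

lemma Gap.eq_of_snd {S : Set ℝ} {g g' : ℝ × ℝ} (h : g ∈ Gap S) (h' : g' ∈ Gap S)
    (e : g.2 = g'.2) : g = g' := by
  refine Prod.ext ?_ e
  rcases lt_trichotomy g.1 g'.1 with c | c | c
  · exact absurd ⟨c, e ▸ h'.2.2.1⟩ (h.2.2.2 _ h'.1)
  · exact c
  · exact absurd ⟨c, e ▸ h.2.2.1⟩ (h'.2.2.2 _ h.1)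

/-- two different gaps have disjoint interiors -/
lemma Gap.sep {S : Set ℝ} {g g' : ℝ × ℝ} (h : g ∈ Gap S) (h' : g' ∈ Gap S) (hne : g ≠ g') :
    g.2 ≤ g'.1 ∨ g'.2 ≤ g.1 := by
  by_contra hc
  push Not at hc
  rcases lt_trichotomy g.1 g'.1 with c | c | c
  · exact h.2.2.2 _ h'.1 ⟨c, hc.1⟩
  · exact hne (Gap.eq_of_fst h h' c)
  · exact h'.2.2.2 _ h.1 ⟨c, hc.2⟩

lemma Gap.eq_of_mem {S : Set ℝ} {g g' : ℝ × ℝ} (h : g ∈ Gap S) (h' : g' ∈ Gap S) {y : ℝ}
    (hy : g.1 < y ∧ y < g.2) (hy' : g'.1 < y ∧ y < g'.2) : g = g' := by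
  by_contra hne
  rcases Gap.sep h h' hne with c | c <;> linarith [hy.1, hy.2, hy'.1, hy'.2]

/-- a gap contained in a gap is that gap -/
lemma Gap.eq_of_sub {S : Set ℝ} {g g' : ℝ × ℝ} (h : g ∈ Gap S) (h' : g' ∈ Gap S)
    (h1 : g'.1 ≤ g.1) (h2 : g.2 ≤ g'.2) : g = g' := by
  have := h.2.2.1
  exact Gap.eq_of_mem h h' (y := (g.1 + g.2) / 2) ⟨by linarith, by linarith⟩
    ⟨by linarith, by linarith⟩

lemma Gap.le_or_ge {S : Set ℝ} {g : ℝ × ℝ} (h : g ∈ Gap S) {z : ℝ} (hz : z ∈ S) :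
    z ≤ g.1 ∨ g.2 ≤ z := by
  by_contra hc
  push Not at hc
  exact h.2.2.2 z hz hc

lemma Cov.len_le {T : ℝ → ℝ} {g γ : ℝ × ℝ} (h : Cov T g γ) : len γ ≤ img T g := by
  unfold len img
  have h1 := h.1
  have h2 := h.2
  rw [← max_sub_min_eq_abs]
  linarith

lemma Dl_pos (A : Finset ℝ) : 0 < Dl A :=
  Finset.prod_pos fun _ hg => Gap.len_pos (mem_gaps.1 hg)

lemma rho_pos (O : Finset ℝ) (y : ℝ) : 0 < rho O y := div_pos (Dl_pos _) (Dl_pos _)

lemma Pt_nonneg (T : ℝ → ℝ) (A : Finset ℝ) : 0 ≤ Pt T A :=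
  Finset.prod_nonneg fun g _ => img_nonneg T g

lemma Pt_id (A : Finset ℝ) : Pt id A = Dl A :=
  Finset.prod_congr rfl fun _ hg => abs_of_pos (Gap.len_pos (mem_gaps.1 hg))

lemma gaps_empty : gaps (∅ : Finset ℝ) = ∅ := by
  ext g; simp [mem_gaps, Gap]

lemma gaps_singleton (y : ℝ) : gaps ({y} : Finset ℝ) = ∅ := by
  ext g
  simp only [mem_gaps, Gap, Finset.coe_singleton, mem_singleton_iff, mem_ofPred_eq,
    Finset.notMem_empty, iff_false, not_and]
  intro h1 h2 h3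
  rw [h1, h2] at h3
  exact absurd h3 (lt_irrefl _)

/-- in a compact set, a point between two points of the set and outside it lies in a gap -/
lemma exists_gap_around {S : Set ℝ} (hS : IsCompact S) {a b y : ℝ} (ha : a ∈ S) (hb : b ∈ S)
    (hay : a ≤ y) (hyb : y ≤ b) (hy : y ∉ S) :
    ∃ g ∈ Gap S, a ≤ g.1 ∧ g.1 < y ∧ y < g.2 ∧ g.2 ≤ b := by
  obtain ⟨p, hp, hpm⟩ := (hS.inter_right (isClosed_Iic (a := y))).exists_isGreatest ⟨a, ha, hay⟩
  obtain ⟨q, hq, hqm⟩ := (hS.inter_right (isClosed_Ici (a := y))).exists_isLeast ⟨b, hb, hyb⟩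
  have h1 : p < y := lt_of_le_of_ne hp.2 fun e => hy (e ▸ hp.1)
  have h2 : y < q := lt_of_le_of_ne hq.2 fun e => hy (e ▸ hq.1)
  refine ⟨(p, q), ⟨hp.1, hq.1, h1.trans h2, fun z hz hc => ?_⟩, hpm ⟨ha, hay⟩, h1, h2,
    hqm ⟨hb, hyb⟩⟩
  rcases le_total z y with c | c
  · exact absurd (hpm ⟨hz, c⟩) (not_le.2 hc.1)
  · exact absurd (hqm ⟨hz, c⟩) (not_le.2 hc.2)

/-- the edge of a finite set that starts at a non-maximal point -/
lemma exists_edge_from {A : Finset ℝ} {a a' : ℝ} (ha : a ∈ A) (ha' : a' ∈ A) (h : a < a') :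
    ∃ g ∈ gaps A, g.1 = a ∧ g.2 ≤ a' := by
  obtain ⟨q, hq, hqm⟩ := (A.filter (fun z => a < z)).exists_min_image id
    ⟨a', Finset.mem_filter.2 ⟨ha', h⟩⟩
  rw [Finset.mem_filter] at hq
  refine ⟨(a, q), mem_gaps.2 ⟨ha, hq.1, hq.2, fun z hz hc => ?_⟩, rfl,
    hqm a' (Finset.mem_filter.2 ⟨ha', h⟩)⟩
  exact absurd (hqm z (Finset.mem_filter.2 ⟨hz, hc.1⟩)) (not_le.2 hc.2)

end Pool.Agent.MP_8df504_an.C

end

section

set_option autoImplicit false

namespace Pool.Agent.MP_8df504_an.C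

open Set Filter Topology MeasureTheory

/-! Insertion formulas, the ratio `rho`, monotonicity of the gain, three-point inequality.

Hints.  First describe `gaps (insert y A)` for `y ∉ A`: `A` empty (no gaps); `y` above all of `A`
(new edge `(max, y)`); `y` below all of `A` (new edge `(y, min)`); `y` inside an edge `g`
(replace `g` by `(g.1, y)` and `(y, g.2)`).  One of the four cases always occurs
(`insert_cases`).  With `T = id` (`Pt_id`) this gives `rho O y = 1`, `y - max`, `min - y` or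
`(y - p)(q - y)/(q - p)`.
`rho_mul_le`: if `p < y < q` use `1/rho = 1/(y-a) + 1/(b-y)` for the edge `(a,b)` around `y` with
`p ≤ a`, `b ≤ q`; if `p, q` are on the same side use `rho_le` and `|p - q| ≤ max |y-p| |y-q|`.
`mono_gain`: induct on `A' \ A`, inserting one point `y`; one needs
`Pt T A * rho (A.image T) (T y) ≤ Pt T (insert y A)`, which follows from the insertion formulas,
`rho_le` and `rho_mul_le` (`img T g > 0` by injectivity).
`three_point`: trivial if two of the points coincide or `T y` is between `T a` and `T a'`;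
otherwise write the gain inequality for `{a, y, a'}` and cancel the common factor. -/

lemma insert_cases (A : Finset ℝ) (y : ℝ) (hy : y ∉ A) :
    A = ∅ ∨ (∃ a ∈ A, (∀ z ∈ A, z ≤ a) ∧ a < y) ∨ (∃ a ∈ A, (∀ z ∈ A, a ≤ z) ∧ y < a) ∨
      ∃ g ∈ gaps A, g.1 < y ∧ y < g.2 := by
  rcases A.eq_empty_or_nonempty with h | h
  · exact Or.inl h
  right
  by_cases h1 : A.max' h < y
  · exact Or.inl ⟨A.max' h, A.max'_mem h, fun z hz => A.le_max' z hz, h1⟩
  right
  by_cases h2 : y < A.min' h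
  · exact Or.inl ⟨A.min' h, A.min'_mem h, fun z hz => A.min'_le z hz, h2⟩
  right
  obtain ⟨g, hg, -, h3, h4, -⟩ := exists_gap_around (S := (A : Set ℝ)) A.finite_toSet.isCompact
    (Finset.mem_coe.2 (A.min'_mem h)) (Finset.mem_coe.2 (A.max'_mem h)) (not_lt.1 h2)
    (not_lt.1 h1) (fun hc => hy (Finset.mem_coe.1 hc))
  exact ⟨g, mem_gaps.2 hg, h3, h4⟩

lemma fin1_mem {A : Finset ℝ} {g : ℝ × ℝ} :
    g ∈ gaps A ↔ g.1 ∈ A ∧ g.2 ∈ A ∧ g.1 < g.2 ∧ ∀ z ∈ A, ¬ (g.1 < z ∧ z < g.2) := by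
  rw [mem_gaps]
  exact Iff.rfl

lemma gaps_insert_max {A : Finset ℝ} {a y : ℝ} (ha : a ∈ A) (hmax : ∀ z ∈ A, z ≤ a) (hy : a < y) :
    (a, y) ∉ gaps A ∧ gaps (insert y A) = insert (a, y) (gaps A) := by
  refine ⟨fun hc => ?_, ?_⟩
  · exact absurd (hmax y (fin1_mem.1 hc).2.1) (not_le.2 hy)
  ext g
  rw [Finset.mem_insert, fin1_mem, fin1_mem]
  constructor
  · rintro ⟨h1, h2, h3, h4⟩
    rw [Finset.mem_insert] at h1 h2
    have h1' : g.1 ∈ A := by
      rcases h1 with h1 | h1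
      · rcases h2 with h2 | h2
        · exact absurd h3 (by rw [h1, h2]; exact lt_irrefl _)
        · have := hmax _ h2
          exact absurd h3 (by rw [h1]; exact not_lt.2 (this.trans hy.le))
      · exact h1
    rcases h2 with h2 | h2
    · left
      refine Prod.ext ?_ h2
      by_contra hne
      exact h4 a (Finset.mem_insert_of_mem ha)
        ⟨lt_of_le_of_ne (hmax _ h1') hne, by rw [h2]; exact hy⟩
    · exact Or.inr ⟨h1', h2, h3, fun z hz => h4 z (Finset.mem_insert_of_mem hz)⟩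
  · rintro (rfl | ⟨h1, h2, h3, h4⟩)
    · refine ⟨Finset.mem_insert_of_mem ha, Finset.mem_insert_self _ _, hy, fun z hz hc => ?_⟩
      rcases Finset.mem_insert.1 hz with rfl | hz
      · exact lt_irrefl _ hc.2
      · exact absurd (hmax z hz) (not_le.2 hc.1)
    · refine ⟨Finset.mem_insert_of_mem h1, Finset.mem_insert_of_mem h2, h3, fun z hz hc => ?_⟩
      rcases Finset.mem_insert.1 hz with rfl | hz
      · exact absurd ((hmax _ h2).trans hy.le) (not_le.2 hc.2)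
      · exact h4 z hz hc

lemma gaps_insert_min {A : Finset ℝ} {a y : ℝ} (ha : a ∈ A) (hmin : ∀ z ∈ A, a ≤ z) (hy : y < a) :
    (y, a) ∉ gaps A ∧ gaps (insert y A) = insert (y, a) (gaps A) := by
  refine ⟨fun hc => ?_, ?_⟩
  · exact absurd (hmin y (fin1_mem.1 hc).1) (not_le.2 hy)
  ext g
  rw [Finset.mem_insert, fin1_mem, fin1_mem]
  constructor
  · rintro ⟨h1, h2, h3, h4⟩
    rw [Finset.mem_insert] at h1 h2
    have h2' : g.2 ∈ A := by
      rcases h2 with h2 | h2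
      · rcases h1 with h1 | h1
        · exact absurd h3 (by rw [h1, h2]; exact lt_irrefl _)
        · have := hmin _ h1
          exact absurd h3 (by rw [h2]; exact not_lt.2 (hy.le.trans this))
      · exact h2
    rcases h1 with h1 | h1
    · left
      refine Prod.ext h1 ?_
      by_contra hne
      exact h4 a (Finset.mem_insert_of_mem ha)
        ⟨by rw [h1]; exact hy, lt_of_le_of_ne (hmin _ h2') (fun e => hne e.symm)⟩
    · exact Or.inr ⟨h1, h2', h3, fun z hz => h4 z (Finset.mem_insert_of_mem hz)⟩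
  · rintro (rfl | ⟨h1, h2, h3, h4⟩)
    · refine ⟨Finset.mem_insert_self _ _, Finset.mem_insert_of_mem ha, hy, fun z hz hc => ?_⟩
      rcases Finset.mem_insert.1 hz with rfl | hz
      · exact lt_irrefl _ hc.1
      · exact absurd (hmin z hz) (not_le.2 hc.2)
    · refine ⟨Finset.mem_insert_of_mem h1, Finset.mem_insert_of_mem h2, h3, fun z hz hc => ?_⟩
      rcases Finset.mem_insert.1 hz with rfl | hz
      · exact absurd (hy.le.trans (hmin _ h1)) (not_le.2 hc.1)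
      · exact h4 z hz hc

lemma gaps_insert_mid {A : Finset ℝ} {g : ℝ × ℝ} {y : ℝ} (hg : g ∈ gaps A) (h1 : g.1 < y)
    (h2 : y < g.2) :
    (g.1, y) ∉ gaps A ∧ (y, g.2) ∉ gaps A ∧ (g.1, y) ≠ (y, g.2) ∧
      gaps (insert y A) = insert (g.1, y) (insert (y, g.2) ((gaps A).erase g)) := by
  obtain ⟨g1, g2, g3, g4⟩ := fin1_mem.1 hg
  have hyA : y ∉ A := fun hc => g4 y hc ⟨h1, h2⟩
  refine ⟨fun hc => hyA (fin1_mem.1 hc).2.1, fun hc => hyA (fin1_mem.1 hc).1,
    fun hc => absurd (congrArg Prod.fst hc) h1.ne, ?_⟩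
  ext e
  rw [Finset.mem_insert, Finset.mem_insert, Finset.mem_erase, fin1_mem, fin1_mem]
  constructor
  · rintro ⟨e1, e2, e3, e4⟩
    rw [Finset.mem_insert] at e1 e2
    rcases e2 with e2 | e2
    · left
      have e1' : e.1 ∈ A := by
        rcases e1 with e1 | e1
        · exact absurd e3 (by rw [e1, e2]; exact lt_irrefl _)
        · exact e1
      refine Prod.ext ?_ e2
      rcases lt_trichotomy e.1 g.1 with c | c | c
      · exact absurd ⟨c, by rw [e2]; exact h1⟩ (e4 g.1 (Finset.mem_insert_of_mem g1))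
      · exact c
      · exact absurd ⟨c, by rw [e2] at e3; exact e3.trans h2⟩ (g4 _ e1')
    right
    rcases e1 with e1 | e1
    · left
      refine Prod.ext e1 ?_
      rcases lt_trichotomy e.2 g.2 with c | c | c
      · exact absurd ⟨by rw [e1] at e3; exact h1.trans e3, c⟩ (g4 _ e2)
      · exact c
      · exact absurd ⟨by rw [e1]; exact h2, c⟩ (e4 g.2 (Finset.mem_insert_of_mem g2))
    · right
      refine ⟨fun hc => ?_, e1, e2, e3, fun z hz => e4 z (Finset.mem_insert_of_mem hz)⟩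
      exact e4 y (Finset.mem_insert_self _ _) (by rw [hc]; exact ⟨h1, h2⟩)
  · rintro (rfl | rfl | ⟨hne, e1, e2, e3, e4⟩)
    · refine ⟨Finset.mem_insert_of_mem g1, Finset.mem_insert_self _ _, h1, fun z hz hc => ?_⟩
      rcases Finset.mem_insert.1 hz with rfl | hz
      · exact lt_irrefl _ hc.2
      · exact g4 z hz ⟨hc.1, hc.2.trans h2⟩
    · refine ⟨Finset.mem_insert_self _ _, Finset.mem_insert_of_mem g2, h2, fun z hz hc => ?_⟩
      rcases Finset.mem_insert.1 hz with rfl | hz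
      · exact lt_irrefl _ hc.1
      · exact g4 z hz ⟨h1.trans hc.1, hc.2⟩
    · refine ⟨Finset.mem_insert_of_mem e1, Finset.mem_insert_of_mem e2, e3, fun z hz hc => ?_⟩
      rcases Finset.mem_insert.1 hz with rfl | hz
      · exact hne (Gap.eq_of_mem (mem_gaps.1 (fin1_mem.2 ⟨e1, e2, e3, e4⟩)) (mem_gaps.1 hg) hc
          ⟨h1, h2⟩)
      · exact e4 z hz hc

lemma fin1_Pt_max (T : ℝ → ℝ) {A : Finset ℝ} {a y : ℝ} (ha : a ∈ A) (hmax : ∀ z ∈ A, z ≤ a)
    (hy : a < y) : Pt T (insert y A) = |T y - T a| * Pt T A := by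
  obtain ⟨h1, h2⟩ := gaps_insert_max ha hmax hy
  unfold Pt
  rw [h2, Finset.prod_insert h1]
  rfl

lemma fin1_Pt_min (T : ℝ → ℝ) {A : Finset ℝ} {a y : ℝ} (ha : a ∈ A) (hmin : ∀ z ∈ A, a ≤ z)
    (hy : y < a) : Pt T (insert y A) = |T a - T y| * Pt T A := by
  obtain ⟨h1, h2⟩ := gaps_insert_min ha hmin hy
  unfold Pt
  rw [h2, Finset.prod_insert h1]
  rfl

lemma fin1_Pt_mid (T : ℝ → ℝ) {A : Finset ℝ} {g : ℝ × ℝ} {y : ℝ} (hg : g ∈ gaps A) (h1 : g.1 < y)
    (h2 : y < g.2) :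
    ∃ Q : ℝ, 0 ≤ Q ∧ Pt T A = |T g.2 - T g.1| * Q ∧
      Pt T (insert y A) = |T y - T g.1| * |T g.2 - T y| * Q := by
  obtain ⟨a1, a2, a3, a4⟩ := gaps_insert_mid hg h1 h2
  refine ⟨∏ e ∈ (gaps A).erase g, img T e, Finset.prod_nonneg fun e _ => img_nonneg T e, ?_, ?_⟩
  · unfold Pt
    rw [← Finset.mul_prod_erase _ _ hg]
    rfl
  · unfold Pt
    rw [a4, Finset.prod_insert, Finset.prod_insert, mul_assoc]
    · rfl
    · exact fun hc => a2 (Finset.mem_of_mem_erase hc)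
    · intro hc
      rcases Finset.mem_insert.1 hc with hc | hc
      · exact a3 hc
      · exact a1 (Finset.mem_of_mem_erase hc)

lemma fin1_Pt_empty (T : ℝ → ℝ) : Pt T ∅ = 1 := by
  unfold Pt
  rw [gaps_empty, Finset.prod_empty]

lemma fin1_Pt_singleton (T : ℝ → ℝ) (y : ℝ) : Pt T {y} = 1 := by
  unfold Pt
  rw [gaps_singleton, Finset.prod_empty]

lemma fin1_Dl_empty : Dl ∅ = 1 := by
  rw [← Pt_id, fin1_Pt_empty]

lemma fin1_rho_empty (y : ℝ) : rho ∅ y = 1 := by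
  unfold rho
  rw [fin1_Dl_empty, ← Pt_id, div_one]
  exact fin1_Pt_singleton id y

lemma fin1_rho_max {O : Finset ℝ} {a y : ℝ} (ha : a ∈ O) (hmax : ∀ z ∈ O, z ≤ a) (hy : a < y) :
    rho O y = y - a := by
  unfold rho
  rw [div_eq_iff (Dl_pos O).ne', ← Pt_id, ← Pt_id, fin1_Pt_max id ha hmax hy]
  simp only [id]
  rw [abs_of_pos (sub_pos.2 hy)]

lemma fin1_rho_min {O : Finset ℝ} {a y : ℝ} (ha : a ∈ O) (hmin : ∀ z ∈ O, a ≤ z) (hy : y < a) :
    rho O y = a - y := by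
  unfold rho
  rw [div_eq_iff (Dl_pos O).ne', ← Pt_id, ← Pt_id, fin1_Pt_min id ha hmin hy]
  simp only [id]
  rw [abs_of_pos (sub_pos.2 hy)]

lemma fin1_rho_mid {O : Finset ℝ} {g : ℝ × ℝ} {y : ℝ} (hg : g ∈ gaps O) (h1 : g.1 < y)
    (h2 : y < g.2) : rho O y = (y - g.1) * (g.2 - y) / (g.2 - g.1) := by
  obtain ⟨Q, -, e1, e2⟩ := fin1_Pt_mid id hg h1 h2
  have h3 : 0 < g.2 - g.1 := by linarith
  simp only [id] at e1 e2
  rw [abs_of_pos h3, Pt_id] at e1
  rw [abs_of_pos (sub_pos.2 h1), abs_of_pos (sub_pos.2 h2), Pt_id] at e2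
  unfold rho
  rw [div_eq_div_iff (Dl_pos O).ne' h3.ne', e1, e2]
  ring

lemma fin1_Dl_insert (O : Finset ℝ) (y : ℝ) : Dl (insert y O) = rho O y * Dl O := by
  unfold rho
  rw [div_mul_cancel₀ _ (Dl_pos O).ne']

lemma rho_le {O : Finset ℝ} {y p : ℝ} (hy : y ∉ O) (hp : p ∈ O) : rho O y ≤ |y - p| := by
  rcases insert_cases O y hy with h | ⟨a, ha, hmax, hay⟩ | ⟨a, ha, hmin, hay⟩ | ⟨g, hg, h1, h2⟩
  · rw [h] at hp
    exact absurd hp (Finset.notMem_empty _)
  · rw [fin1_rho_max ha hmax hay]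
    have := hmax p hp
    exact le_trans (by linarith) (le_abs_self _)
  · rw [fin1_rho_min ha hmin hay]
    have := hmin p hp
    exact le_trans (by linarith) (neg_le_abs _)
  · rw [fin1_rho_mid hg h1 h2, div_le_iff₀ (by linarith)]
    rcases Gap.le_or_ge (mem_gaps.1 hg) (Finset.mem_coe.2 hp) with c | c
    · rw [abs_of_nonneg (by linarith)]
      exact mul_le_mul (by linarith) (by linarith) (by linarith) (by linarith)
    · rw [abs_of_nonpos (by linarith), mul_comm (y - g.1)]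
      exact mul_le_mul (by linarith) (by linarith) (by linarith) (by linarith)

lemma fin1_rho_between {O : Finset ℝ} {y p q : ℝ} (hy : y ∉ O) (hp : p ∈ O) (hq : q ∈ O)
    (h1 : p < y) (h2 : y < q) : rho O y * |p - q| ≤ |y - p| * |y - q| := by
  obtain ⟨g, hg, a1, a2, a3, a4⟩ := exists_gap_around (S := (O : Set ℝ)) O.finite_toSet.isCompact
    (Finset.mem_coe.2 hp) (Finset.mem_coe.2 hq) h1.le h2.le (fun hc => hy (Finset.mem_coe.1 hc))
  rw [fin1_rho_mid (mem_gaps.2 hg) a2 a3, abs_of_neg (by linarith : p - q < 0),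
    abs_of_pos (sub_pos.2 h1), abs_of_neg (sub_neg.2 h2), div_mul_eq_mul_div,
    div_le_iff₀ (by linarith)]
  have b1 : (y - g.1) * (y - p) * (g.2 - y) ≤ (y - g.1) * (y - p) * (q - y) :=
    mul_le_mul_of_nonneg_left (by linarith) (mul_nonneg (by linarith) (by linarith))
  have b2 : (g.2 - y) * (q - y) * (y - g.1) ≤ (g.2 - y) * (q - y) * (y - p) :=
    mul_le_mul_of_nonneg_left (by linarith) (mul_nonneg (by linarith) (by linarith))
  linarith

lemma rho_mul_le {O : Finset ℝ} {y p q : ℝ} (hy : y ∉ O) (hp : p ∈ O) (hq : q ∈ O) :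
    rho O y * |p - q| ≤ |y - p| * |y - q| := by
  have hr := (rho_pos O y).le
  have hrp := rho_le hy hp
  have hrq := rho_le hy hq
  have hpy : p ≠ y := fun e => hy (e ▸ hp)
  have hqy : q ≠ y := fun e => hy (e ▸ hq)
  have same : |p - q| ≤ |y - p| ∨ |p - q| ≤ |y - q| →
      rho O y * |p - q| ≤ |y - p| * |y - q| := by
    rintro (c | c)
    · rw [mul_comm |y - p|]
      exact mul_le_mul hrq c (abs_nonneg _) (abs_nonneg _)
    · exact mul_le_mul hrp c (abs_nonneg _) (abs_nonneg _)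
  rcases lt_or_gt_of_ne hpy with c1 | c1 <;> rcases lt_or_gt_of_ne hqy with c2 | c2
  · apply same
    rw [abs_of_pos (sub_pos.2 c1), abs_of_pos (sub_pos.2 c2)]
    rcases le_total p q with c | c
    · left
      rw [abs_of_nonpos (by linarith)]
      linarith
    · right
      rw [abs_of_nonneg (by linarith)]
      linarith
  · exact fin1_rho_between hy hp hq c1 c2
  · rw [abs_sub_comm p q, mul_comm |y - p|]
    exact fin1_rho_between hy hq hp c2 c1
  · apply same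
    rw [abs_of_neg (sub_neg.2 c1), abs_of_neg (sub_neg.2 c2)]
    rcases le_total p q with c | c
    · right
      rw [abs_of_nonpos (by linarith)]
      linarith
    · left
      rw [abs_of_nonneg (by linarith)]
      linarith

lemma rho_cmp {O : Finset ℝ} {L R y y' θ₁ θ₂ : ℝ} (hO : ∀ z ∈ O, ¬ (L < z ∧ z < R))
    (hy : L < y ∧ y < R) (hy' : L < y' ∧ y' < R) (h1 : 0 ≤ θ₁ ∧ θ₁ ≤ 1) (h2 : 0 ≤ θ₂ ∧ θ₂ ≤ 1)
    (hL : θ₁ * (y' - L) ≤ y - L) (hR : θ₂ * (R - y') ≤ R - y) :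
    θ₁ * θ₂ * rho O y' ≤ rho O y := by
  have hyO : y ∉ O := fun hc => hO y hc hy
  have hlo : ∀ a ∈ O, a < y → a < y' ∧ θ₁ * (y' - a) ≤ y - a := by
    intro a ha hay
    have haL : a ≤ L := not_lt.1 fun c => hO a ha ⟨c, hay.trans hy.2⟩
    refine ⟨haL.trans_lt hy'.1, ?_⟩
    have : θ₁ * (L - a) ≤ L - a := mul_le_of_le_one_left (by linarith) h1.2
    linarith
  have hhi : ∀ a ∈ O, y < a → y' < a ∧ θ₂ * (a - y') ≤ a - y := by
    intro a ha hay
    have haR : R ≤ a := not_lt.1 fun c => hO a ha ⟨hy.1.trans hay, c⟩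
    refine ⟨hy'.2.trans_le haR, ?_⟩
    have : θ₂ * (a - R) ≤ a - R := mul_le_of_le_one_left (by linarith) h2.2
    linarith
  rcases insert_cases O y hyO with h | ⟨a, ha, hmax, hay⟩ | ⟨a, ha, hmin, hay⟩ | ⟨g, hg, c1, c2⟩
  · rw [h, fin1_rho_empty, fin1_rho_empty, mul_one]
    exact mul_le_one₀ h1.2 h2.1 h2.2
  · obtain ⟨b1, b2⟩ := hlo a ha hay
    rw [fin1_rho_max ha hmax hay, fin1_rho_max ha hmax b1]
    have : θ₂ * (θ₁ * (y' - a)) ≤ θ₁ * (y' - a) :=
      mul_le_of_le_one_left (mul_nonneg h1.1 (by linarith)) h2.2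
    linarith
  · obtain ⟨b1, b2⟩ := hhi a ha hay
    rw [fin1_rho_min ha hmin hay, fin1_rho_min ha hmin b1]
    have : θ₁ * (θ₂ * (a - y')) ≤ θ₂ * (a - y') :=
      mul_le_of_le_one_left (mul_nonneg h2.1 (by linarith)) h1.2
    linarith
  · obtain ⟨b1, b2⟩ := hlo g.1 (fin1_mem.1 hg).1 c1
    obtain ⟨b3, b4⟩ := hhi g.2 (fin1_mem.1 hg).2.1 c2
    rw [fin1_rho_mid hg c1 c2, fin1_rho_mid hg b1 b3, ← mul_div_assoc]
    refine div_le_div_of_nonneg_right ?_ (by linarith)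
    have : θ₁ * (y' - g.1) * (θ₂ * (g.2 - y')) ≤ (y - g.1) * (g.2 - y) :=
      mul_le_mul b2 b4 (mul_nonneg h2.1 (by linarith)) (by linarith)
    linarith

lemma fin1_step {T : ℝ → ℝ} {A : Finset ℝ} {y : ℝ} (hy : y ∉ A)
    (hinj : InjOn T ((insert y A : Finset ℝ) : Set ℝ)) :
    Pt T A * rho (A.image T) (T y) ≤ Pt T (insert y A) := by
  have hTy : T y ∉ A.image T := by
    intro hc
    obtain ⟨z, hz, e⟩ := Finset.mem_image.1 hc
    have := hinj (Finset.mem_coe.2 (Finset.mem_insert_of_mem hz))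
      (Finset.mem_coe.2 (Finset.mem_insert_self _ _)) e
    exact hy (this ▸ hz)
  rcases insert_cases A y hy with h | ⟨a, ha, hmax, hay⟩ | ⟨a, ha, hmin, hay⟩ | ⟨g, hg, h1, h2⟩
  · subst h
    rw [Finset.image_empty, fin1_rho_empty, fin1_Pt_empty, mul_one]
    exact (fin1_Pt_singleton T y).ge
  · rw [fin1_Pt_max T ha hmax hay, mul_comm]
    exact mul_le_mul_of_nonneg_right (rho_le hTy (Finset.mem_image_of_mem T ha)) (Pt_nonneg _ _)
  · rw [fin1_Pt_min T ha hmin hay, mul_comm, abs_sub_comm]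
    exact mul_le_mul_of_nonneg_right (rho_le hTy (Finset.mem_image_of_mem T ha)) (Pt_nonneg _ _)
  · obtain ⟨Q, hQ, e1, e2⟩ := fin1_Pt_mid T hg h1 h2
    have := rho_mul_le hTy (Finset.mem_image_of_mem T (fin1_mem.1 hg).1)
      (Finset.mem_image_of_mem T (fin1_mem.1 hg).2.1)
    rw [abs_sub_comm (T g.1), abs_sub_comm (T y) (T g.2)] at this
    rw [e1, e2]
    have := mul_le_mul_of_nonneg_right this hQ
    linarith

lemma mono_gain {T : ℝ → ℝ} {A A' : Finset ℝ} (h : A ⊆ A') (hinj : InjOn T (A' : Set ℝ)) :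
    Pt T A * Dl (A'.image T) ≤ Pt T A' * Dl (A.image T) := by
  have key : ∀ D : Finset ℝ, InjOn T ((A ∪ D : Finset ℝ) : Set ℝ) →
      Pt T A / Dl (A.image T) ≤ Pt T (A ∪ D) / Dl ((A ∪ D).image T) := by
    intro D
    induction D using Finset.induction_on with
    | empty => intro _; rw [Finset.union_empty]
    | insert y D _ ih =>
      intro hD
      rw [Finset.union_insert] at hD ⊢
      have ih' := ih (hD.mono (Finset.coe_subset.2 (Finset.subset_insert _ _)))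
      by_cases hy : y ∈ A ∪ D
      · rw [Finset.insert_eq_of_mem hy]
        exact ih'
      · refine ih'.trans ?_
        rw [Finset.image_insert, fin1_Dl_insert, div_le_div_iff₀ (Dl_pos _)
          (mul_pos (rho_pos _ _) (Dl_pos _)), ← mul_assoc]
        exact mul_le_mul_of_nonneg_right (fin1_step hy hD) (Dl_pos _).le
  have e : A ∪ A' = A' := Finset.union_eq_right.2 h
  have := key A' (by rw [e]; exact hinj)
  rw [e, div_le_div_iff₀ (Dl_pos _) (Dl_pos _)] at this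
  exact this

lemma Dl_image_le {T : ℝ → ℝ} {A : Finset ℝ} (hinj : InjOn T (A : Set ℝ)) :
    Dl (A.image T) ≤ Pt T A := by
  have := mono_gain (Finset.empty_subset A) hinj
  rwa [Finset.image_empty, fin1_Pt_empty, fin1_Dl_empty, one_mul, mul_one] at this

lemma Gain.one_le {T : ℝ → ℝ} {S : Set ℝ} {G : ℝ} (h : Gain T S G) : 1 ≤ G := by
  have := h ∅ (by simp)
  rwa [Finset.image_empty, fin1_Pt_empty, fin1_Dl_empty, mul_one] at this

lemma three_point {T : ℝ → ℝ} {S : Set ℝ} {G : ℝ} (hinj : InjOn T S) (hG : Gain T S G)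
    {a y a' : ℝ} (ha : a ∈ S) (hy : y ∈ S) (ha' : a' ∈ S) (h1 : a ≤ y) (h2 : y ≤ a') :
    |T y - T a| ≤ G * |T a' - T a| ∧ |T a' - T y| ≤ G * |T a' - T a| := by
  have hG1 := hG.one_le
  have hG0 : 0 ≤ G := zero_le_one.trans hG1
  have triv : |T a' - T a| ≤ G * |T a' - T a| := le_mul_of_one_le_left (abs_nonneg _) hG1
  rcases h1.eq_or_lt with rfl | h1
  · refine ⟨?_, triv⟩
    rw [sub_self, abs_zero]
    positivity
  rcases h2.eq_or_lt with rfl | h2
  · refine ⟨triv, ?_⟩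
    rw [sub_self, abs_zero]
    positivity
  have haa : a < a' := h1.trans h2
  have hmax : ∀ z ∈ ({a} : Finset ℝ), z ≤ a := fun z hz => (Finset.mem_singleton.1 hz).le
  set A : Finset ℝ := insert a' {a} with hA
  have haA : a ∈ A := Finset.mem_insert_of_mem (Finset.mem_singleton_self a)
  have haA' : a' ∈ A := Finset.mem_insert_self _ _
  have hAS : (A : Set ℝ) ⊆ S := by
    intro z hz
    rcases Finset.mem_insert.1 (Finset.mem_coe.1 hz) with rfl | hz
    · exact ha'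
    · rw [Finset.mem_singleton.1 hz]; exact ha
  have hyS : ((insert y A : Finset ℝ) : Set ℝ) ⊆ S := by
    intro z hz
    rcases Finset.mem_insert.1 (Finset.mem_coe.1 hz) with rfl | hz
    · exact hy
    · exact hAS (Finset.mem_coe.2 hz)
  have hg : (a, a') ∈ gaps A := by
    rw [hA, (gaps_insert_max (Finset.mem_singleton_self a) hmax haa).2]
    exact Finset.mem_insert_self _ _
  have hP : Pt T A = |T a' - T a| := by
    rw [hA, fin1_Pt_max T (Finset.mem_singleton_self a) hmax haa, fin1_Pt_singleton, mul_one]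
  have n1 : 0 < |T y - T a| := abs_pos.2 (sub_ne_zero.2 fun e => h1.ne' (hinj hy ha e))
  have n2 : 0 < |T a' - T y| := abs_pos.2 (sub_ne_zero.2 fun e => h2.ne' (hinj ha' hy e))
  have n3 : 0 < |T a' - T a| := abs_pos.2 (sub_ne_zero.2 fun e => haa.ne' (hinj ha' ha e))
  obtain ⟨Q, -, e1, e2⟩ := fin1_Pt_mid T hg h1 h2
  simp only at e1 e2
  have hQ : Q = 1 := by
    rw [hP] at e1
    exact (mul_eq_left₀ n3.ne').1 e1.symm
  have hTy : T y ∉ A.image T := by
    intro hc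
    obtain ⟨z, hz, e⟩ := Finset.mem_image.1 hc
    have hzy := hinj (hAS (Finset.mem_coe.2 hz)) hy e
    exact (fin1_mem.1 hg).2.2.2 z hz (by rw [hzy]; exact ⟨h1, h2⟩)
  have hD : Dl (A.image T) ≤ |T a' - T a| := hP ▸ Dl_image_le (hinj.mono hAS)
  have main := hG _ hyS
  rw [e2, hQ, mul_one, Finset.image_insert, fin1_Dl_insert] at main
  have r1 := rho_le hTy (Finset.mem_image_of_mem T haA)
  have r2 := rho_le hTy (Finset.mem_image_of_mem T haA')
  rw [abs_sub_comm] at r2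
  have m1 := mul_le_mul_of_nonneg_left (mul_le_mul r1 hD (Dl_pos _).le n1.le) hG0
  have m2 := mul_le_mul_of_nonneg_left (mul_le_mul r2 hD (Dl_pos _).le n2.le) hG0
  constructor
  · refine le_of_mul_le_mul_right ?_ n2
    linarith
  · refine le_of_mul_le_mul_left ?_ n1
    linarith

end Pool.Agent.MP_8df504_an.C

end

section

set_option autoImplicit false

namespace Pool.Agent.MP_8df504_an.C

open Set Filter Topology MeasureTheory

/-! Basic facts on `Pre`.

Hints.  `mapsK`, `surjK`: density of the tails, continuity, compactness.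
`gap_aff`: `B ⊆ K`, so a gap of `K` is break-free.  `mapsI`: a point of `[lo,hi]` outside `K` is in
a gap (`exists_gap_around`) on which `T` is affine.
`noconv`: if `x (k + j d) → y` then `x (k + i + j d) → T^[i] y`; every `x n` is in the closure of
every tail, and the intersection of these closures is inside the finite set `{T^[i] y | i < d}`
(a point at positive distance from that finite set is eventually avoided by the sequence, and `x`
is injective); so `range x` is finite, contradiction.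
`nowhere`: if `[u,v] ⊆ K`, let `J` be the connected component of `u` in `K` (or the interval
between the inf and sup of the points joined to `u` inside `K`).  Two orbit points
`x k`, `x (k+d)` lie in `(u,v)`; `T^[d] '' J` is a connected subset of `K` meeting `J`, so inside
`J`; `T^[d]` is continuous and injective on the interval `J`, hence strictly monotone or antitone
(`ContinuousOn.strictMonoOn_of_injOn_Icc'`), `T^[2d]` is increasing, so `j ↦ x (k + j (2d))` is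
monotone and bounded, contradiction with `noconv`.
`sum_len_le`: disjoint open intervals in `[lo,hi]` (Lebesgue measure, or induction on the max).
`gap_infinite`: if there are finitely many gaps, `perfect` and `exists_gap_between` give ever
shorter gaps. -/

namespace Pre

variable (P : Pre)

lemma x_iter (k n : ℕ) : P.T^[n] (P.x k) = P.x (k + n) := by
  induction n with
  | zero => rfl
  | succ n ih => rw [Function.iterate_succ_apply', ih, ← P.x_succ, add_assoc]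

lemma mapsK : MapsTo P.T P.K P.K := by
  intro z hz
  have h1 := image_closure_subset_closure_image P.cont (mem_image_of_mem P.T (P.dense 0 hz))
  refine closure_minimal ?_ P.cpt.isClosed h1
  rintro _ ⟨_, ⟨n, -, rfl⟩, rfl⟩
  rw [← P.x_succ]
  exact P.x_mem _

lemma surjK : SurjOn P.T P.K P.K := by
  intro z hz
  refine closure_minimal ?_ (P.cpt.image P.cont).isClosed (P.dense 1 hz)
  rintro _ ⟨n, hn, rfl⟩
  obtain ⟨m, rfl⟩ := Nat.exists_eq_add_of_le' (mem_Ici.1 hn)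
  exact ⟨P.x m, P.x_mem m, (P.x_succ m).symm⟩

lemma iter_inj (n : ℕ) : InjOn P.T^[n] P.K := by
  induction n with
  | zero => exact injOn_id _
  | succ n ih =>
    rw [Function.iterate_succ]
    exact ih.comp P.inj P.mapsK

lemma lo_lt_hi : P.lo < P.hi := by
  by_contra h
  have h0 := P.sub (P.x_mem 0)
  have h1 := P.sub (P.x_mem 1)
  have h2 : P.x 0 = P.x 1 := by linarith [h0.1, h0.2, h1.1, h1.2, not_lt.1 h]
  exact zero_ne_one (P.x_inj h2)

lemma noconv (k d : ℕ) (hd : 1 ≤ d) (y : ℝ) :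
    ¬ Tendsto (fun j : ℕ => P.x (k + j * d)) atTop (𝓝 y) := by
  intro h
  have h1 : ∀ i, Tendsto (fun j : ℕ => P.x (k + j * d + i)) atTop (𝓝 (P.T^[i] y)) := fun i => by
    simpa only [Function.comp_def, P.x_iter] using ((P.cont.iterate i).tendsto y).comp h
  refine (infinite_range_of_injective P.x_inj)
    (((finite_lt_nat d).image fun i => P.T^[i] y).subset ?_)
  rintro z ⟨n, rfl⟩
  by_contra hz
  have h2 : ∀ i, i < d → ∃ U ∈ 𝓝 (P.x n), ∀ᶠ j in atTop, P.x (k + j * d + i) ∉ U := by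
    intro i hi
    obtain ⟨U, hU, V, hV, hUV⟩ := Filter.disjoint_iff.1
      (disjoint_nhds_nhds.2 fun e : P.x n = P.T^[i] y => hz ⟨i, hi, e.symm⟩)
    exact ⟨U, hU, ((h1 i).eventually_mem hV).mono fun j hj hj' => Set.disjoint_left.1 hUV hj' hj⟩
  choose! U hU hV using h2
  obtain ⟨J, hJ⟩ := eventually_atTop.1 ((eventually_all_finite (finite_lt_nat d)).2 hV)
  obtain ⟨_, h3, m, hm, rfl⟩ := mem_closure_iff_nhds.1 (P.dense (k + J * d) (P.x_mem n)) _
    ((biInter_mem (finite_lt_nat d)).2 hU)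
  obtain ⟨l, rfl⟩ := Nat.exists_eq_add_of_le (mem_Ici.1 hm)
  have h4 : l % d < d := Nat.mod_lt _ hd
  refine hJ (J + l / d) (Nat.le_add_right _ _) (l % d) h4 ?_
  have h5 : k + (J + l / d) * d + l % d = k + J * d + l := by
    rw [add_mul, ← add_assoc, add_assoc (k + J * d), Nat.div_add_mod']
  rw [h5]
  exact mem_iInter₂.1 h3 _ h4

/-- orbit points of arbitrarily large index, different from `z`, near any `z ∈ K` -/
lemma visit {z : ℝ} (hz : z ∈ P.K) {ε : ℝ} (hε : 0 < ε) (N : ℕ) :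
    ∃ n, N ≤ n ∧ P.x n ≠ z ∧ |P.x n - z| < ε := by
  obtain ⟨M, hM⟩ : ∃ M, ∀ n, M ≤ n → P.x n ≠ z := by
    by_cases h : ∃ m, P.x m = z
    · obtain ⟨m, rfl⟩ := h
      exact ⟨m + 1, fun n hn e => by have := P.x_inj e; omega⟩
    · exact ⟨0, fun n _ e => h ⟨n, e⟩⟩
  obtain ⟨_, ⟨n, hn, rfl⟩, h⟩ := Metric.mem_closure_iff.1 (P.dense (max N M) hz) ε hε
  rw [dist_comm, Real.dist_eq] at h
  exact ⟨n, (le_max_left _ _).trans hn, hM n ((le_max_right _ _).trans hn), h⟩

lemma basic1_mono {J : Set ℝ} (hJ : J ⊆ P.K) {k d : ℕ} (hd : 1 ≤ d) (hk : P.x k ∈ J)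
    (hm : MapsTo P.T^[d] J J) (hmono : MonotoneOn P.T^[d] J) : False := by
  have h1 : ∀ j, P.x (k + (j + 1) * d) = P.T^[d] (P.x (k + j * d)) := fun j => by
    rw [P.x_iter, add_mul, one_mul, add_assoc]
  have h2 : ∀ j, P.x (k + j * d) ∈ J := fun j => by
    induction j with
    | zero => simpa using hk
    | succ j ih => rw [h1]; exact hm ih
  rcases le_total (P.x (k + 0 * d)) (P.x (k + (0 + 1) * d)) with h | h
  · have h3 : ∀ j, P.x (k + j * d) ≤ P.x (k + (j + 1) * d) := fun j => by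
      induction j with
      | zero => exact h
      | succ j ih => rw [h1 (j + 1), h1 j]; exact hmono (h2 _) (h1 j ▸ h2 _) (h1 j ▸ ih)
    refine P.noconv k d hd _ (tendsto_atTop_ciSup (monotone_nat_of_le_succ h3) ⟨P.hi, ?_⟩)
    rintro _ ⟨j, rfl⟩
    exact (P.sub (hJ (h2 j))).2
  · have h3 : ∀ j, P.x (k + (j + 1) * d) ≤ P.x (k + j * d) := fun j => by
      induction j with
      | zero => exact h
      | succ j ih => rw [h1 (j + 1), h1 j]; exact hmono (h1 j ▸ h2 _) (h2 _) (h1 j ▸ ih)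
    refine P.noconv k d hd _ (tendsto_atTop_ciInf (antitone_nat_of_succ_le h3) ⟨P.lo, ?_⟩)
    rintro _ ⟨j, rfl⟩
    exact (P.sub (hJ (h2 j))).1

lemma nowhere {u v : ℝ} (h : u < v) : ∃ y, u < y ∧ y < v ∧ y ∉ P.K := by
  by_contra hc
  have h1 : Ioo u v ⊆ P.K := fun y hy => by_contra fun e => hc ⟨y, hy.1, hy.2, e⟩
  have hw : (u + v) / 2 ∈ Ioo u v := ⟨by linarith, by linarith⟩
  have h2 : ∀ N, ∃ n, N ≤ n ∧ P.x n ∈ Ioo u v := fun N => by
    obtain ⟨n, h3, -, h4⟩ := P.visit (h1 hw) (ε := (v - u) / 2) (by linarith) N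
    rw [abs_lt] at h4
    exact ⟨n, h3, by linarith [h4.1], by linarith [h4.2]⟩
  obtain ⟨k, -, hk⟩ := h2 0
  obtain ⟨k', hkk, hk'⟩ := h2 (k + 1)
  obtain ⟨d, rfl⟩ := Nat.exists_eq_add_of_le (Nat.le_of_succ_le hkk)
  set J := connectedComponentIn P.K (P.x k) with hJ
  have hJK : J ⊆ P.K := connectedComponentIn_subset _ _
  have hxJ : P.x k ∈ J := mem_connectedComponentIn (P.x_mem k)
  have hpre : IsPreconnected J := isPreconnected_connectedComponentIn
  have h3 : P.x (k + d) ∈ J := isPreconnected_Ioo.subset_connectedComponentIn hk h1 hk'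
  have h4 : MapsTo P.T^[d] J J := by
    rw [mapsTo_iff_image_subset]
    refine ((hpre.image _ (P.cont.iterate d).continuousOn).subset_connectedComponentIn
      (x := P.x (k + d)) ⟨_, hxJ, P.x_iter k d⟩ ?_).trans (connectedComponentIn_eq h3).ge
    exact ((P.mapsK.iterate d).mono_left hJK).image_subset
  have h5 : IsClosed J := closure_subset_iff_isClosed.1
    (hpre.closure.subset_connectedComponentIn (subset_closure hxJ)
      (closure_minimal hJK P.cpt.isClosed))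
  have h6 := eq_Icc_of_connected_compact ⟨⟨_, hxJ⟩, hpre⟩ (P.cpt.of_isClosed_subset h5 hJK)
  have h7 : StrictMonoOn P.T^[d] J ∨ StrictAntiOn P.T^[d] J := by
    have h8 := (P.iter_inj d).mono hJK
    rw [h6] at h8 hxJ ⊢
    exact ContinuousOn.strictMonoOn_of_injOn_Icc' (hxJ.1.trans hxJ.2)
      (P.cont.iterate d).continuousOn h8
  rcases h7 with h7 | h7
  · exact P.basic1_mono hJK (by omega) hxJ h4 h7.monotoneOn
  · refine P.basic1_mono (d := d + d) hJK (by omega) hxJ ?_ ?_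
    · rw [Function.iterate_add]
      exact h4.comp h4
    · rw [Function.iterate_add]
      exact fun a ha b hb hab => h7.antitoneOn (h4 hb) (h4 ha) (h7.antitoneOn ha hb hab)

/-- the inverse of `T` on `K` is uniformly continuous -/
lemma inv_cont {ε : ℝ} (hε : 0 < ε) :
    ∃ η > 0, ∀ z ∈ P.K, ∀ w ∈ P.K, |P.T z - P.T w| ≤ η → |z - w| < ε := by
  have hT := P.cont
  have h1 : IsCompact ((P.K ×ˢ P.K) ∩ {p : ℝ × ℝ | ε ≤ |p.1 - p.2|}) :=
    (P.cpt.prod P.cpt).inter_right (isClosed_le continuous_const (by fun_prop))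
  obtain ⟨η, h2, h3⟩ := h1.exists_forall_le' (f := fun p => |P.T p.1 - P.T p.2|) (a := 0)
    (by fun_prop) fun p hp => abs_pos.2 fun e => by
      have h4 : ε ≤ |p.1 - p.2| := hp.2
      rw [P.inj hp.1.1 hp.1.2 (sub_eq_zero.1 e), sub_self, abs_zero] at h4
      linarith
  refine ⟨η / 2, by linarith, fun z hz w hw h => by_contra fun e => ?_⟩
  have := h3 (z, w) ⟨⟨hz, hw⟩, not_lt.1 e⟩
  linarith

end Pre

end Pool.Agent.MP_8df504_an.C

end

section

set_option autoImplicit false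

namespace Pool.Agent.MP_8df504_an.C

open Set Filter Topology MeasureTheory

/-! Basic facts on `Pre`.

Hints.  `mapsK`, `surjK`: density of the tails, continuity, compactness.
`gap_aff`: `B ⊆ K`, so a gap of `K` is break-free.  `mapsI`: a point of `[lo,hi]` outside `K` is in
a gap (`exists_gap_around`) on which `T` is affine.
`noconv`: if `x (k + j d) → y` then `x (k + i + j d) → T^[i] y`; every `x n` is in the closure of
every tail, and the intersection of these closures is inside the finite set `{T^[i] y | i < d}`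
(a point at positive distance from that finite set is eventually avoided by the sequence, and `x`
is injective); so `range x` is finite, contradiction.
`nowhere`: if `[u,v] ⊆ K`, let `J` be the connected component of `u` in `K` (or the interval
between the inf and sup of the points joined to `u` inside `K`).  Two orbit points
`x k`, `x (k+d)` lie in `(u,v)`; `T^[d] '' J` is a connected subset of `K` meeting `J`, so inside
`J`; `T^[d]` is continuous and injective on the interval `J`, hence strictly monotone or antitone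
(`ContinuousOn.strictMonoOn_of_injOn_Icc'`), `T^[2d]` is increasing, so `j ↦ x (k + j (2d))` is
monotone and bounded, contradiction with `noconv`.
`sum_len_le`: disjoint open intervals in `[lo,hi]` (Lebesgue measure, or induction on the max).
`gap_infinite`: if there are finitely many gaps, `perfect` and `exists_gap_between` give ever
shorter gaps. -/

namespace Pre

variable (P : Pre)

lemma one_le_G : 1 ≤ P.G := P.gain.one_le

lemma closedK : IsClosed P.K := P.cpt.isClosed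

lemma gap_noB {g : ℝ × ℝ} (hg : g ∈ Gap P.K) : NoB P.B g.1 g.2 := by
  exact fun b hb => hg.2.2.2 b (P.B_sub b hb)

lemma gap_sub {g : ℝ × ℝ} (hg : g ∈ Gap P.K) : P.lo ≤ g.1 ∧ g.2 ≤ P.hi := by
  exact ⟨(P.sub hg.1).1, (P.sub hg.2.1).2⟩

/-- on a gap, `T y` is between the images of the end points -/
lemma gap_between {g : ℝ × ℝ} (hg : g ∈ Gap P.K) {y : ℝ} (hy : y ∈ cl g) :
    P.T y ∈ uIcc (P.T g.1) (P.T g.2) := by
  obtain ⟨σ, -, h⟩ := P.aff g.1 g.2 (P.gap_sub hg).1 hg.2.2.1 (P.gap_sub hg).2 (P.gap_noB hg)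
  have h1 := h y hy
  have h2 := h g.2 ⟨hg.2.2.1.le, le_rfl⟩
  have a1 : 0 ≤ y - g.1 := sub_nonneg.2 hy.1
  have a2 : 0 ≤ g.2 - y := sub_nonneg.2 hy.2
  rw [mem_uIcc]
  rcases le_total 0 σ with c | c
  · left
    constructor <;> nlinarith [mul_nonneg c a1, mul_nonneg c a2]
  · right
    have c' : 0 ≤ -σ := neg_nonneg.2 c
    constructor <;> nlinarith [mul_nonneg c' a1, mul_nonneg c' a2]

lemma mapsI : MapsTo P.T (Icc P.lo P.hi) (Icc P.lo P.hi) := by
  intro y hy
  by_cases hK : y ∈ P.K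
  · exact P.sub (P.mapsK hK)
  · obtain ⟨g, hg, -, h1, h2, -⟩ := exists_gap_around P.cpt P.lo_mem P.hi_mem hy.1 hy.2 hK
    exact uIcc_subset_Icc (P.sub (P.mapsK hg.1)) (P.sub (P.mapsK hg.2.1))
      (P.gap_between hg ⟨h1.le, h2.le⟩)

lemma exists_gap_between {a a' : ℝ} (ha : a ∈ P.K) (ha' : a' ∈ P.K) (h : a < a') :
    ∃ g ∈ Gap P.K, a ≤ g.1 ∧ g.2 ≤ a' := by
  obtain ⟨y, h1, h2, hy⟩ := P.nowhere h
  obtain ⟨g, hg, b1, -, -, b2⟩ := exists_gap_around P.cpt ha ha' h1.le h2.le hy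
  exact ⟨g, hg, b1, b2⟩

/-- the left end of a gap is accumulated from the left -/
lemma acc_left {g : ℝ × ℝ} (hg : g ∈ Gap P.K) {ε : ℝ} (hε : 0 < ε) (N : ℕ) :
    ∃ n, N ≤ n ∧ g.1 - ε < P.x n ∧ P.x n < g.1 := by
  obtain ⟨n, hn, hne, hd⟩ := P.visit hg.1 (lt_min hε (Gap.len_pos hg)) N
  rw [lt_min_iff, abs_lt, abs_lt] at hd
  refine ⟨n, hn, by linarith [hd.1.1], ?_⟩
  rcases Gap.le_or_ge hg (P.x_mem n) with c | c
  · exact lt_of_le_of_ne c hne
  · have := hd.2.2
    unfold len at this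
    linarith

lemma acc_right {g : ℝ × ℝ} (hg : g ∈ Gap P.K) {ε : ℝ} (hε : 0 < ε) (N : ℕ) :
    ∃ n, N ≤ n ∧ g.2 < P.x n ∧ P.x n < g.2 + ε := by
  obtain ⟨n, hn, hne, hd⟩ := P.visit hg.2.1 (lt_min hε (Gap.len_pos hg)) N
  rw [lt_min_iff, abs_lt, abs_lt] at hd
  refine ⟨n, hn, ?_, by linarith [hd.1.2]⟩
  rcases Gap.le_or_ge hg (P.x_mem n) with c | c
  · have := hd.2.1
    unfold len at this
    linarith
  · exact lt_of_le_of_ne c hne.symm

lemma sum_len_le (F : Finset (ℝ × ℝ)) (hF : ∀ g ∈ F, g ∈ Gap P.K) :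
    ∑ g ∈ F, len g ≤ P.hi - P.lo := by
  classical
  have key : ∀ F : Finset (ℝ × ℝ), ∀ b : ℝ, P.lo ≤ b → (∀ g ∈ F, g ∈ Gap P.K ∧ g.2 ≤ b) →
      ∑ g ∈ F, len g ≤ b - P.lo := by
    intro F
    refine Finset.induction_on_max_value (Prod.fst : ℝ × ℝ → ℝ) F ?_ ?_
    · intro b hb _
      simpa using hb
    · intro a s ha hm ih b _ h
      have hA := h a (Finset.mem_insert_self _ _)
      rw [Finset.sum_insert ha]
      have := ih a.1 (P.gap_sub hA.1).1 fun g hg => by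
        have hG := (h g (Finset.mem_insert_of_mem hg)).1
        refine ⟨hG, ?_⟩
        rcases Gap.sep hG hA.1 (fun e => ha (e ▸ hg)) with c | c
        · exact c
        · exact absurd ((c.trans (hm g hg)).trans_lt hA.1.2.2.1) (lt_irrefl _)
      have e : len a = a.2 - a.1 := rfl
      linarith [hA.2]
  exact key F P.hi P.lo_lt_hi.le fun g hg => ⟨hF g hg, (P.gap_sub (hF g hg)).2⟩

lemma finite_big {δ : ℝ} (hδ : 0 < δ) : {g | g ∈ Gap P.K ∧ δ ≤ len g}.Finite := by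
  by_contra hinf
  obtain ⟨n, hn⟩ := exists_nat_gt ((P.hi - P.lo) / δ)
  obtain ⟨F, hF, hc⟩ := Set.Infinite.exists_subset_card_eq hinf n
  have h1 := P.sum_len_le F fun g hg => (hF hg).1
  have h2 : F.card • δ ≤ ∑ g ∈ F, len g := Finset.card_nsmul_le_sum F len δ fun g hg => (hF hg).2
  rw [hc, nsmul_eq_mul] at h2
  rw [div_lt_iff₀ hδ] at hn
  linarith

lemma gap_infinite : (Gap P.K).Infinite := by
  intro hfin
  obtain ⟨g0, hg0, -⟩ := P.exists_gap_between P.lo_mem P.hi_mem P.lo_lt_hi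
  obtain ⟨g, hg, hmin⟩ := Set.exists_min_image _ len hfin ⟨g0, hg0⟩
  obtain ⟨n, -, hne, hd⟩ := P.visit P.lo_mem (Gap.len_pos hg) 0
  have h1 : P.lo < P.x n := lt_of_le_of_ne (P.sub (P.x_mem n)).1 hne.symm
  obtain ⟨g', hg', b1, b2⟩ := P.exists_gap_between P.lo_mem (P.x_mem n) h1
  have := hmin g' hg'
  have e : len g' = g'.2 - g'.1 := rfl
  rw [abs_lt] at hd
  linarith [hd.2]

end Pre

end Pool.Agent.MP_8df504_an.C

end

section

set_option autoImplicit false

namespace Pool.Agent.MP_8df504_an.C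

open Set Filter Topology MeasureTheory

/-! Removing forward invariant parts on which the integral is positive.

Hints.  `restrict_preserving`: `E ⊆ F ⁻¹' E` with equal finite measures, so `F ⁻¹' E =ᵐ E`; use
`MeasurePreserving.restrict_preimage` and `Measure.restrict_congr_set`; the same a.e. equality holds
for complements.  `remove_pos`: `k p * ∫ (E p) ψ = ∫ (E p) ∑ i<k p, ψ (F^[l p + i] z)`, which is
`≥ 0`, and `> 0` if `μ (E p) ≠ 0` (`integral_pos_iff_support_of_nonneg_ae`).  Sum over `p`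
(`hasSum_integral_iUnion` or `integral_iUnion`); `∫ ψ = ∫ (⋃ E) ψ + ∫ (⋃ E)ᶜ ψ`. -/

lemma restrict_preserving {X : Type} [MeasurableSpace X] (μ : Measure X) [IsFiniteMeasure μ]
    {F : X → X} (hF : MeasurePreserving F μ μ) {E : Set X} (hE : MeasurableSet E)
    (hm : MapsTo F E E) :
    MeasurePreserving F (μ.restrict E) (μ.restrict E) ∧
      MeasurePreserving F (μ.restrict Eᶜ) (μ.restrict Eᶜ) := by
  have h1 : E =ᵐ[μ] F ⁻¹' E :=
    ae_eq_of_subset_of_measure_ge (fun x hx => hm hx) (hF.measure_preimage hE.nullMeasurableSet).le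
      hE.nullMeasurableSet (measure_ne_top _ _)
  have h2 : (Eᶜ : Set X) =ᵐ[μ] F ⁻¹' Eᶜ := by
    rw [preimage_compl]
    exact h1.compl
  constructor
  · have := hF.restrict_preimage hE
    rwa [← Measure.restrict_congr_set h1] at this
  · have := hF.restrict_preimage hE.compl
    rwa [← Measure.restrict_congr_set h2] at this

private lemma nper_one {X : Type} [MeasurableSpace X] (ν : Measure X)
    {F : X → X} (hF : MeasurePreserving F ν ν) {ψ : X → ℝ} (hψ : Integrable ψ ν) (k l : ℕ)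
    (hpos : ∀ᵐ z ∂ν, 0 < ∑ i ∈ Finset.range k, ψ (F^[l + i] z)) (hν : ν ≠ 0) :
    0 < ∫ z, ψ z ∂ν := by
  have hi : ∀ n, Integrable (fun z => ψ (F^[n] z)) ν := fun n =>
    (hF.iterate n).integrable_comp_of_integrable hψ
  have he : ∀ n, ∫ z, ψ (F^[n] z) ∂ν = ∫ z, ψ z ∂ν := fun n => by
    have h1 := integral_map (μ := ν) (hF.iterate n).measurable.aemeasurable
      (f := ψ) (by rw [(hF.iterate n).map_eq]; exact hψ.aestronglyMeasurable)
    rw [(hF.iterate n).map_eq] at h1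
    exact h1.symm
  have hs : ∫ z, ∑ i ∈ Finset.range k, ψ (F^[l + i] z) ∂ν = k * ∫ z, ψ z ∂ν := by
    rw [integral_finsetSum _ fun i _ => hi _]
    simp [he]
  have hp : 0 < ∫ z, ∑ i ∈ Finset.range k, ψ (F^[l + i] z) ∂ν := by
    rw [integral_pos_iff_support_of_nonneg_ae (hpos.mono fun z hz => hz.le)
      (integrable_finsetSum _ fun i _ => hi _), pos_iff_ne_zero]
    intro h0
    have h1 : ∀ᵐ z ∂ν, False := by
      filter_upwards [hpos, measure_eq_zero_iff_ae_notMem.1 h0] with z a1 a2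
      exact a2 a1.ne'
    exact hν (ae_eq_bot.1 (eventually_false_iff_eq_bot.1 h1))
  rw [hs] at hp
  exact pos_of_mul_pos_left (mul_comm (k : ℝ) _ ▸ hp) (Nat.cast_nonneg k)

lemma remove_pos {X : Type} [MeasurableSpace X] (μ : Measure X) [IsProbabilityMeasure μ]
    {F : X → X} (hF : MeasurePreserving F μ μ) {ψ : X → ℝ} (hψ : Integrable ψ μ)
    (hint : ∫ z, ψ z ∂μ ≤ 0) (E : ℕ → Set X) (hE : ∀ p, MeasurableSet (E p))
    (hd : Pairwise (fun p q => Disjoint (E p) (E q))) (hm : ∀ p, MapsTo F (E p) (E p))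
    (k l : ℕ → ℕ)
    (hpos : ∀ p, ∀ᵐ z ∂μ, z ∈ E p → 0 < ∑ i ∈ Finset.range (k p), ψ (F^[l p + i] z)) :
    μ (⋃ p, E p)ᶜ ≠ 0 ∧ ∫ z in (⋃ p, E p)ᶜ, ψ z ∂μ ≤ 0 := by
  have h1 : ∀ p, μ (E p) ≠ 0 → 0 < ∫ z in E p, ψ z ∂μ := fun p hp =>
    nper_one _ (restrict_preserving μ hF (hE p) (hm p)).1 hψ.restrict (k p) (l p)
      ((ae_restrict_iff' (hE p)).2 (hpos p)) fun h => hp (Measure.restrict_eq_zero.1 h)
  have h2 : ∀ p, 0 ≤ ∫ z in E p, ψ z ∂μ := fun p => by
    by_cases hp : μ (E p) = 0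
    · rw [Measure.restrict_eq_zero.2 hp, integral_zero_measure]
    · exact (h1 p hp).le
  have h3 := hasSum_integral_iUnion hE hd hψ.integrableOn
  have h4 := integral_add_compl (MeasurableSet.iUnion hE) hψ
  have h5 := h3.nonneg h2
  refine ⟨fun h0 => ?_, by linarith⟩
  have h6 : ∃ p, μ (E p) ≠ 0 := by
    by_contra hc
    push Not at hc
    have h7 := measure_add_measure_compl (μ := μ) (MeasurableSet.iUnion hE)
    rw [h0, measure_iUnion_null hc, measure_univ] at h7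
    simp at h7
  obtain ⟨p, hp⟩ := h6
  have h8 := le_hasSum h3 p fun q _ => h2 q
  rw [Measure.restrict_eq_zero.2 h0, integral_zero_measure] at h4
  linarith [h1 p hp]

end Pool.Agent.MP_8df504_an.C

end

section

set_option autoImplicit false

namespace Pool.Agent.MP_8df504_an.C

open Set Filter Topology MeasureTheory

/-! Infinitely many long gaps give a two-sided turning point; reflection; heights.

`exists_turn`: the left ends of infinitely many long gaps accumulate at some `z ∈ K` and their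
lengths tend to `0` (`finite_big`), so every neighbourhood of `z` contains (the closure of) a long
gap.  `T` is affine with
nonzero slope on `[z, z+δ]` (if `z < hi`) and on `[z-δ, z]` (if `lo < z`).  Suppose not
(`TwoMax z` or `TwoMin z`).  Then there is an interval `N` (`[z-δ,z+δ]` if the slopes have the same
sign, `[z,z+δ]` or `[z-δ,z]` if `K` does not accumulate at `z` from the other side) on which `T` is
strictly monotone or antitone and which contains `K ∩ (z-δ', z+δ')`.  With `inv_cont`, for a gap `g`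
close to `z` any point of `K` strictly between `T g.1` and `T g.2` is `T y` with `y ∈ K ∩ N`
(`surjK`), hence `y` strictly between `g.1` and `g.2`: impossible; so `g` is not long
(`not_long_of_no_point`).

`exists_neg`: `T' y = - T (-y)`, `K' = -K`, `lo' = -hi`, `B' = B.image (-·)`, `x' = -x`; the edges of
`A.image (-·)` are the pairs `(-g.2, -g.1)`.

`exists_ht`: `sp = |sl c|`, `sm = |sl (c - δ₀)|` for a small `δ₀` with no break point in
`(c - δ₀, c)` and in `(c, c+δ₀)`; the signs of the slopes come from `TwoMax`.  `cover` from `surjK`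
and `inv_cont`. -/

lemma neg_mem_img {A : Finset ℝ} {y : ℝ} : y ∈ A.image (fun z => -z) ↔ -y ∈ A := by
  rw [Finset.mem_image]
  exact ⟨fun ⟨z, hz, e⟩ => by rwa [← e, neg_neg], fun h => ⟨-y, h, neg_neg y⟩⟩

lemma neg_gaps {A : Finset ℝ} {g : ℝ × ℝ} :
    (-g.2, -g.1) ∈ gaps (A.image fun z => -z) ↔ g ∈ gaps A := by
  simp only [mem_gaps, Gap, Finset.mem_coe, mem_ofPred_eq, neg_mem_img, neg_neg, neg_lt_neg_iff]
  constructor
  · rintro ⟨h1, h2, h3, h4⟩
    exact ⟨h2, h1, h3, fun z hz hc => h4 (-z) (by rwa [neg_neg]) ⟨by linarith [hc.2],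
      by linarith [hc.1]⟩⟩
  · rintro ⟨h1, h2, h3, h4⟩
    exact ⟨h2, h1, h3, fun z hz hc => h4 (-z) hz ⟨by linarith [hc.2], by linarith [hc.1]⟩⟩

lemma neg_Pt (T : ℝ → ℝ) (A : Finset ℝ) :
    Pt (fun y => -T (-y)) A = Pt T (A.image fun z => -z) := by
  refine Finset.prod_nbij' (fun g => (-g.2, -g.1)) (fun g => (-g.2, -g.1))
    (fun g hg => neg_gaps.2 hg) (fun g hg => neg_gaps.1 (by simpa using hg))
    (fun g _ => by simp) (fun g _ => by simp) fun g _ => ?_
  simp only [img]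
  congr 1
  ring

lemma neg_Dl (A : Finset ℝ) : Dl (A.image fun z => -z) = Dl A := by
  rw [← Pt_id, ← neg_Pt, ← Pt_id]
  congr 1
  ext y
  simp

lemma Pre.exists_neg (P : Pre) {c : ℝ} (h : P.TwoMin c) : ∃ P' : Pre, P'.TwoMax (-c) := by
  refine ⟨{
    T := fun y => -P.T (-y)
    cont := (P.cont.comp continuous_neg).neg
    K := {y | -y ∈ P.K}
    cpt := P.cpt.neg
    lo := -P.hi
    hi := -P.lo
    lo_mem := by simpa using P.hi_mem
    hi_mem := by simpa using P.lo_mem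
    sub := fun y hy => ⟨by linarith [(P.sub hy).2], by linarith [(P.sub hy).1]⟩
    B := P.B.image fun z => -z
    lo_B := neg_mem_img.2 (by simpa using P.hi_B)
    hi_B := neg_mem_img.2 (by simpa using P.lo_B)
    B_sub := fun b hb => P.B_sub _ (neg_mem_img.1 hb)
    aff := fun u v h1 h2 h3 h4 => ?_
    inj := fun u hu v hv e => neg_injective (P.inj hu hv (neg_injective e))
    x := fun n => -P.x n
    x_succ := fun n => by rw [neg_neg, P.x_succ]
    x_mem := fun n => by simpa using P.x_mem n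
    x_inj := fun n m e => P.x_inj (neg_injective e)
    dense := fun N y hy => ?_
    G := P.G
    gain := fun A hA => ?_ }, ⟨by simpa using h.1.1, fun ε hε => ?_, fun ε hε => ?_⟩, ?_⟩
  · obtain ⟨σ, h5, h6⟩ := P.aff (-v) (-u) (by linarith) (by linarith) (by linarith)
      fun b hb hc => h4 (-b) (neg_mem_img.2 (by rwa [neg_neg])) ⟨by linarith [hc.2], by linarith [hc.1]⟩
    refine ⟨σ, h5, fun y hy => ?_⟩
    rw [h6 (-y) ⟨by linarith [hy.2], by linarith [hy.1]⟩, h6 (-u) ⟨by linarith, le_rfl⟩]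
    ring
  · have h1 := map_mem_closure (t := (fun n => -P.x n) '' Ici N) continuous_neg (P.dense N hy)
      fun z ⟨n, hn, e⟩ => ⟨n, hn, by rw [← e]⟩
    rwa [neg_neg] at h1
  · have h1 := P.gain (A.image fun z => -z) fun y hy => by
      have h2 := hA (neg_mem_img.1 hy)
      simpa using h2
    have h2 : A.image (fun y => -P.T (-y)) = ((A.image fun z => -z).image P.T).image fun z => -z := by
      rw [Finset.image_image, Finset.image_image]
      rfl
    rwa [neg_Pt, h2, neg_Dl]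
  · obtain ⟨z, h1, h2, h3⟩ := h.1.2.2 ε hε
    exact ⟨-z, by simpa using h1, by linarith, by linarith⟩
  · obtain ⟨z, h1, h2, h3⟩ := h.1.2.1 ε hε
    exact ⟨-z, by simpa using h1, by linarith, by linarith⟩
  · obtain ⟨δ, h1, h2⟩ := h.2
    refine ⟨δ, h1, fun y h3 h4 => ?_⟩
    have h5 := h2 (-y) (by rwa [← abs_neg, neg_sub, sub_neg_eq_add, add_comm, ← sub_neg_eq_add])
      fun e => h4 (by rw [← e, neg_neg])
    show -P.T (-y) < -P.T (- -c)
    rw [neg_neg]
    linarith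

end Pool.Agent.MP_8df504_an.C

end

section

set_option autoImplicit false

namespace Pool.Agent.MP_8df504_an.C

open Set Filter Topology MeasureTheory

/-! Basic facts on `Sys`.

Hints.  On a gap `g`, `T y = T g.1 + sl g.1 * (y - g.1)` (`sl_aff`, `gap_noB`, `gap_sub`).
`slopeAt_gap`: if `y < g.2` use `sl_eq` on `g`; if `y = g.2 ∉ B` then `NoB B g.1 v`.
`pull_cl`, `pull_op`: solve the affine equation.
`tail_prod`: let `Γ` be the supremum of the finite products (bounded by `G`), choose `F` with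
product `> Γ/(1+δ)`.  `finite_big_r`: `(1+ε)^n ≤ G`.
`expand_K`: for `a < a'` in `K`, show by induction on the number `k` of points of `B` strictly
between `p < q` (`p, q ∈ K ∩ [a,a']`) that `m (q - p) ≤ (k+1) * 2 G |T a' - T a|`, using
`three_point` (`|T q - T p| ≤ |T q - T a| + |T p - T a|`) and `B ⊆ K`.
`distortion`: induct on `r` keeping track of the number of `i < r` with `T^[i] '' Z ∩ B` nonempty,
which is at most `B.card` by disjointness; the segment between `T^[i] y` and `T^[i] w` lies in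
`T^[i] '' Z` (intermediate value theorem); if it contains no point of `B` the slope on it is
`sl (T^[i] y)` (use `sl_aff`, `sl_eq`; when `T^[i] y` is the right end of the segment, it is not in
`B`, so it is `< hi` and the segment extends a little to the right without meeting `B`). -/

namespace Sys

variable (S : Sys)

lemma m_le_M : S.L.m ≤ S.L.M := (S.L.sl_lo 0).trans (S.L.sl_hi 0)

lemma pi_mem {g : ℝ × ℝ} (hg : g ∈ Gap S.P.K) : S.pi g ∈ Gap S.P.K := S.ok.bij.mapsTo hg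

lemma pi_iter_mem {g : ℝ × ℝ} (hg : g ∈ Gap S.P.K) (k : ℕ) : S.pi^[k] g ∈ Gap S.P.K :=
  S.ok.bij.mapsTo.iterate k hg

lemma pi_iter_inj (k : ℕ) : InjOn S.pi^[k] (Gap S.P.K) := by
  exact (S.ok.bij.iterate k).injOn

lemma gap_aff {g : ℝ × ℝ} (hg : g ∈ Gap S.P.K) {y : ℝ} (hy : y ∈ cl g) :
    S.P.T y = S.P.T g.1 + S.L.sl g.1 * (y - g.1) := by
  exact S.L.sl_aff g.1 g.2 (S.P.gap_sub hg).1 hg.2.2.1 (S.P.gap_sub hg).2 (S.P.gap_noB hg) y hy

lemma img_gap {g : ℝ × ℝ} (hg : g ∈ Gap S.P.K) : img S.P.T g = |S.L.sl g.1| * len g := by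
  have h := S.gap_aff hg (y := g.2) ⟨hg.2.2.1.le, le_rfl⟩
  have hl : 0 < g.2 - g.1 := sub_pos.2 hg.2.2.1
  unfold img len
  rw [h, add_sub_cancel_left, abs_mul, abs_of_pos hl]

lemma slopeAt_self {y : ℝ} (hy : S.P.lo ≤ y) : SlopeAt S.P.T S.P.hi S.P.B y |S.L.sl y| := by
  intro _ v hv hvh hB
  have h := S.L.sl_aff y v hy hv hvh hB v ⟨hv.le, le_rfl⟩
  rw [h, add_sub_cancel_left, abs_mul, abs_of_pos (sub_pos.2 hv)]

lemma slopeAt_gap {g : ℝ × ℝ} (hg : g ∈ Gap S.P.K) {y : ℝ} (hy : y ∈ cl g) :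
    SlopeAt S.P.T S.P.hi S.P.B y |S.L.sl g.1| := by
  intro hyB v hv hvh hB
  have hlo := (S.P.gap_sub hg).1
  have hN : NoB S.P.B g.1 v := by
    intro b hb hc
    rcases lt_trichotomy b y with c | c | c
    · exact S.P.gap_noB hg b hb ⟨hc.1, c.trans_le hy.2⟩
    · exact hyB (c ▸ hb)
    · exact hB b hb ⟨c, hc.2⟩
  have e : S.L.sl y = S.L.sl g.1 := S.L.sl_eq g.1 v hlo (hy.1.trans_lt hv) hvh hN y hy.1 hv
  rw [← e]
  exact S.slopeAt_self (hlo.trans hy.1) hyB v hv hvh hB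

lemma one_le_r {g : ℝ × ℝ} (hg : g ∈ Gap S.P.K) : 1 ≤ S.r g := by
  unfold Sys.r
  rw [le_div_iff₀ (Gap.len_pos (S.pi_mem hg)), one_mul]
  exact (S.ok.cov g hg).len_le

lemma r_le_G {g : ℝ × ℝ} (hg : g ∈ Gap S.P.K) : S.r g ≤ S.P.G := by
  have h := S.ok.prod {g} (by simpa using hg)
  rw [Finset.prod_singleton] at h
  exact h

lemma prod_r_le (F : Finset (ℝ × ℝ)) (hF : ∀ g ∈ F, g ∈ Gap S.P.K) :
    ∏ g ∈ F, S.r g ≤ S.P.G := S.ok.prod F hF

/-- a gap that is not long is mapped exactly onto its partner -/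
lemma exact_ends {g : ℝ × ℝ} (hg : g ∈ Gap S.P.K) (h : ¬ S.Long g) :
    (S.P.T g.1 = (S.pi g).1 ∧ S.P.T g.2 = (S.pi g).2) ∨
      (S.P.T g.1 = (S.pi g).2 ∧ S.P.T g.2 = (S.pi g).1) := by
  have h1 : S.r g ≤ 1 := not_lt.1 h
  unfold Sys.r at h1
  rw [div_le_one (Gap.len_pos (S.pi_mem hg))] at h1
  obtain ⟨c1, c2⟩ := S.ok.cov g hg
  unfold img len at h1
  rcases le_total (S.P.T g.1) (S.P.T g.2) with c | c
  · rw [min_eq_left c] at c1
    rw [max_eq_right c] at c2
    rw [abs_of_nonneg (sub_nonneg.2 c)] at h1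
    exact Or.inl ⟨by linarith, by linarith⟩
  · rw [min_eq_right c] at c1
    rw [max_eq_left c] at c2
    rw [abs_of_nonpos (sub_nonpos.2 c)] at h1
    exact Or.inr ⟨by linarith, by linarith⟩

/-- if no point of `K` is strictly between the images of the ends, the gap is not long -/
lemma not_long_of_no_point {g : ℝ × ℝ} (hg : g ∈ Gap S.P.K)
    (h : ∀ z ∈ S.P.K, ¬ (min (S.P.T g.1) (S.P.T g.2) < z ∧ z < max (S.P.T g.1) (S.P.T g.2))) :
    ¬ S.Long g := by
  obtain ⟨c1, c2⟩ := S.ok.cov g hg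
  have hγ := S.pi_mem hg
  have hlt := hγ.2.2.1
  have e1 : (S.pi g).1 ≤ min (S.P.T g.1) (S.P.T g.2) := by
    by_contra hc
    exact h _ hγ.1 ⟨not_le.1 hc, hlt.trans_le c2⟩
  have e2 : max (S.P.T g.1) (S.P.T g.2) ≤ (S.pi g).2 := by
    by_contra hc
    exact h _ hγ.2.1 ⟨c1.trans_lt hlt, not_le.1 hc⟩
  unfold Sys.Long Sys.r
  rw [not_lt, div_le_one (Gap.len_pos hγ)]
  unfold img len
  rw [← max_sub_min_eq_abs]
  linarith

/-- a gap whose ends are mapped to the ends of a gap `γ` has partner `γ` -/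
lemma pi_eq_of_ends {g γ : ℝ × ℝ} (hg : g ∈ Gap S.P.K) (hγ : γ ∈ Gap S.P.K)
    (h : (S.P.T g.1 = γ.1 ∧ S.P.T g.2 = γ.2) ∨ (S.P.T g.1 = γ.2 ∧ S.P.T g.2 = γ.1)) :
    S.pi g = γ := by
  obtain ⟨c1, c2⟩ := S.ok.cov g hg
  have hlt := hγ.2.2.1
  refine Gap.eq_of_sub (S.pi_mem hg) hγ ?_ ?_
  · rcases h with ⟨a, b⟩ | ⟨a, b⟩
    · rw [a, b, min_eq_left hlt.le] at c1
      exact c1
    · rw [a, b, min_eq_right hlt.le] at c1
      exact c1
  · rcases h with ⟨a, b⟩ | ⟨a, b⟩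
    · rw [a, b, max_eq_right hlt.le] at c2
      exact c2
    · rw [a, b, max_eq_left hlt.le] at c2
      exact c2

lemma pull_cl {g : ℝ × ℝ} (hg : g ∈ Gap S.P.K) {z : ℝ} (hz : z ∈ cl (S.pi g)) :
    ∃ y ∈ cl g, S.P.T y = z := by
  obtain ⟨c1, c2⟩ := S.ok.cov g hg
  have hz' : z ∈ uIcc (S.P.T g.1) (S.P.T g.2) := ⟨c1.trans hz.1, hz.2.trans c2⟩
  obtain ⟨y, hy, e⟩ := intermediate_value_uIcc (S.P.cont.continuousOn) hz'
  rw [uIcc_of_le hg.2.2.1.le] at hy
  exact ⟨y, hy, e⟩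

lemma pull_op {g : ℝ × ℝ} (hg : g ∈ Gap S.P.K) {z : ℝ} (hz : z ∈ Ioo (S.pi g).1 (S.pi g).2) :
    ∃ y ∈ Ioo g.1 g.2, S.P.T y = z := by
  obtain ⟨c1, c2⟩ := S.ok.cov g hg
  rcases le_total (S.P.T g.1) (S.P.T g.2) with c | c
  · rw [min_eq_left c] at c1
    rw [max_eq_right c] at c2
    exact intermediate_value_Ioo hg.2.2.1.le S.P.cont.continuousOn
      ⟨c1.trans_lt hz.1, hz.2.trans_le c2⟩
  · rw [min_eq_right c] at c1
    rw [max_eq_left c] at c2
    exact intermediate_value_Ioo' hg.2.2.1.le S.P.cont.continuousOn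
      ⟨c1.trans_lt hz.1, hz.2.trans_le c2⟩

lemma prod_sl_chain {f : ℝ × ℝ} (hf : f ∈ Gap S.P.K) (k : ℕ) :
    (∏ i ∈ Finset.range k, |S.L.sl (S.pi^[i] f).1|) * len f =
      (∏ i ∈ Finset.range k, S.r (S.pi^[i] f)) * len (S.pi^[k] f) := by
  induction k with
  | zero => simp
  | succ k ih =>
    have hk := S.pi_iter_mem hf k
    have h1 := S.img_gap hk
    have h2 : S.r (S.pi^[k] f) * len (S.pi^[k + 1] f) = img S.P.T (S.pi^[k] f) := by
      rw [Function.iterate_succ_apply']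
      unfold Sys.r
      exact div_mul_cancel₀ _ (Gap.len_pos (S.pi_mem hk)).ne'
    rw [Finset.prod_range_succ, Finset.prod_range_succ, mul_assoc _ (S.r _), h2, h1]
    linear_combination |S.L.sl (S.pi^[k] f).1| * ih

/-- along a chain of distinct gaps the product of the ratios is at most `G` -/
lemma prod_r_chain_le {f : ℝ × ℝ} (hf : f ∈ Gap S.P.K) (k : ℕ)
    (h : ∀ i, 0 < i → i < k → S.pi^[i] f ≠ f) :
    ∏ i ∈ Finset.range k, S.r (S.pi^[i] f) ≤ S.P.G := by
  classical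
  have key : ∀ i j, i < j → j < k → S.pi^[i] f ≠ S.pi^[j] f := by
    intro i j hij hjk e
    obtain ⟨d, rfl⟩ := Nat.exists_eq_add_of_lt hij
    rw [add_assoc, Function.iterate_add_apply] at e
    exact h (d + 1) (by omega) (by omega)
      (S.pi_iter_inj i hf (S.pi_iter_mem hf (d + 1)) e).symm
  have hinj : InjOn (fun i => S.pi^[i] f) (Finset.range k : Set ℕ) := by
    intro i hi j hj e
    rw [Finset.coe_range] at hi hj
    rcases lt_trichotomy i j with c | c | c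
    · exact absurd e (key i j c hj)
    · exact c
    · exact absurd e.symm (key j i c hi)
  have h2 := S.prod_r_le ((Finset.range k).image fun i => S.pi^[i] f) (by
    intro g hg
    obtain ⟨i, _, rfl⟩ := Finset.mem_image.1 hg
    exact S.pi_iter_mem hf i)
  rw [Finset.prod_image hinj] at h2
  exact h2

lemma finite_big_r {ε : ℝ} (hε : 0 < ε) : {g | g ∈ Gap S.P.K ∧ 1 + ε ≤ S.r g}.Finite := by
  by_contra hc
  obtain ⟨n, hn⟩ := pow_unbounded_of_one_lt S.P.G (show (1 : ℝ) < 1 + ε by linarith)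
  obtain ⟨F, hF, hcard⟩ := Set.Infinite.exists_subset_card_eq hc n
  have h1 := S.prod_r_le F fun g hg => (hF hg).1
  have h2 : ∏ _g ∈ F, (1 + ε) ≤ ∏ g ∈ F, S.r g :=
    Finset.prod_le_prod (fun _ _ => by linarith) fun g hg => (hF hg).2
  rw [Finset.prod_const, hcard] at h2
  linarith

lemma tail_prod {δ : ℝ} (hδ : 0 < δ) :
    ∃ F : Finset (ℝ × ℝ), ∀ F' : Finset (ℝ × ℝ), (∀ g ∈ F', g ∈ Gap S.P.K) → Disjoint F' F →
      ∏ g ∈ F', S.r g ≤ 1 + δ := by
  classical
  by_contra hc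
  push Not at hc
  have key : ∀ n : ℕ, ∃ F : Finset (ℝ × ℝ), (∀ g ∈ F, g ∈ Gap S.P.K) ∧
      (1 + δ) ^ n ≤ ∏ g ∈ F, S.r g := by
    intro n
    induction n with
    | zero => exact ⟨∅, by simp, by simp⟩
    | succ n ih =>
      obtain ⟨F, hF, hle⟩ := ih
      obtain ⟨F', hF', hd, hlt⟩ := hc F
      refine ⟨F' ∪ F, fun g hg => ?_, ?_⟩
      · rcases Finset.mem_union.1 hg with c | c
        · exact hF' g c
        · exact hF g c
      · rw [Finset.prod_union hd, pow_succ']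
        exact mul_le_mul hlt.le hle (by positivity) (by linarith)
  obtain ⟨n, hn⟩ := pow_unbounded_of_one_lt S.P.G (show (1 : ℝ) < 1 + δ by linarith)
  obtain ⟨F, hF, hle⟩ := key n
  have := S.prod_r_le F hF
  linarith

end Sys

end Pool.Agent.MP_8df504_an.C

end

section

set_option autoImplicit false

namespace Pool.Agent.MP_8df504_an.C

open Set Filter Topology MeasureTheory

/-! Infinitely many long gaps give a two-sided turning point; reflection; heights.

`exists_turn`: the left ends of infinitely many long gaps accumulate at some `z ∈ K` and their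
lengths tend to `0` (`finite_big`), so every neighbourhood of `z` contains (the closure of) a long
gap.  `T` is affine with
nonzero slope on `[z, z+δ]` (if `z < hi`) and on `[z-δ, z]` (if `lo < z`).  Suppose not
(`TwoMax z` or `TwoMin z`).  Then there is an interval `N` (`[z-δ,z+δ]` if the slopes have the same
sign, `[z,z+δ]` or `[z-δ,z]` if `K` does not accumulate at `z` from the other side) on which `T` is
strictly monotone or antitone and which contains `K ∩ (z-δ', z+δ')`.  With `inv_cont`, for a gap `g`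
close to `z` any point of `K` strictly between `T g.1` and `T g.2` is `T y` with `y ∈ K ∩ N`
(`surjK`), hence `y` strictly between `g.1` and `g.2`: impossible; so `g` is not long
(`not_long_of_no_point`).

`exists_neg`: `T' y = - T (-y)`, `K' = -K`, `lo' = -hi`, `B' = B.image (-·)`, `x' = -x`; the edges of
`A.image (-·)` are the pairs `(-g.2, -g.1)`.

`exists_ht`: `sp = |sl c|`, `sm = |sl (c - δ₀)|` for a small `δ₀` with no break point in
`(c - δ₀, c)` and in `(c, c+δ₀)`; the signs of the slopes come from `TwoMax`.  `cover` from `surjK`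
and `inv_cont`. -/

lemma Sys.exists_ht (S : Sys) {c : ℝ} (h : S.P.TwoMax c) : Nonempty (Ht S) := by
  obtain ⟨⟨hc, hR, hL⟩, δ0, hδ0, hmax⟩ := h
  have hchi : c < S.P.hi := by
    obtain ⟨z, hz, h1, -⟩ := hR 1 one_pos
    exact h1.trans_le (S.P.sub hz).2
  have hloc : S.P.lo < c := by
    obtain ⟨z, hz, -, h1⟩ := hL 1 one_pos
    exact (S.P.sub hz).1.trans_lt h1
  obtain ⟨d, hd0, hdδ, hdB⟩ : ∃ d : ℝ, 0 < d ∧ d < δ0 ∧ ∀ b ∈ S.P.B, b ≠ c → d ≤ |b - c| := by
    have h1 : ∀ᶠ d in 𝓝[>] (0 : ℝ), ∀ b ∈ S.P.B, b ≠ c → d ≤ |b - c| := by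
      refine (Finset.eventually_all S.P.B).2 fun b _ => ?_
      by_cases hb : b = c
      · exact Eventually.of_forall fun d h => absurd hb h
      · have hpos : 0 < |b - c| := abs_pos.2 (sub_ne_zero.2 hb)
        exact (eventually_nhdsWithin_of_eventually_nhds (ge_mem_nhds hpos)).mono fun d hd _ => hd
    have h2 : ∀ᶠ d in 𝓝[>] (0 : ℝ), d < δ0 :=
      eventually_nhdsWithin_of_eventually_nhds (gt_mem_nhds hδ0)
    have h3 : ∀ᶠ d in 𝓝[>] (0 : ℝ), 0 < d := self_mem_nhdsWithin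
    obtain ⟨d, h4, h5, h6⟩ := (h3.and (h2.and h1)).exists
    exact ⟨d, h4, h5, h6⟩
  have hhi : c + d ≤ S.P.hi := by
    have := hdB _ S.P.hi_B hchi.ne'
    rw [abs_of_pos (sub_pos.2 hchi)] at this
    linarith
  have hlo : S.P.lo ≤ c - d := by
    have := hdB _ S.P.lo_B hloc.ne
    rw [abs_of_neg (sub_neg.2 hloc)] at this
    linarith
  have hnR : NoB S.P.B c (c + d) := by
    rintro b hb ⟨h1, h2⟩
    have := hdB b hb h1.ne'
    rw [abs_of_pos (sub_pos.2 h1)] at this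
    linarith
  have hnL : NoB S.P.B (c - d) c := by
    rintro b hb ⟨h1, h2⟩
    have := hdB b hb h2.ne
    rw [abs_of_neg (sub_neg.2 h2)] at this
    linarith
  have aR := S.L.sl_aff c (c + d) hloc.le (by linarith) hhi hnR
  have aL := S.L.sl_aff (c - d) c hlo (by linarith) hchi.le hnL
  have hm := S.L.m_pos
  have s1 : S.L.sl c < 0 := by
    have h1 := aR (c + d) ⟨by linarith, le_rfl⟩
    have h2 := hmax (c + d) (by rw [add_sub_cancel_left, abs_of_pos hd0]; exact hdδ) (by linarith)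
    rw [add_sub_cancel_left] at h1
    by_contra h3
    have := mul_nonneg (not_lt.1 h3) hd0.le
    linarith
  have aLc := aL c ⟨by linarith, le_rfl⟩
  have s2 : 0 < S.L.sl (c - d) := by
    have h2 := hmax (c - d) (by rw [sub_sub_cancel_left, abs_neg, abs_of_pos hd0]; exact hdδ)
      (by linarith)
    rw [sub_sub_cancel] at aLc
    by_contra h3
    have := mul_nonneg (neg_nonneg.2 (not_lt.1 h3)) hd0.le
    linarith
  have hsp : S.L.m ≤ |S.L.sl c| := S.L.sl_lo c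
  have hsm : S.L.m ≤ |S.L.sl (c - d)| := S.L.sl_lo (c - d)
  have vR : ∀ y ∈ Icc c (c + d), S.P.T y = S.P.T c - |S.L.sl c| * (y - c) := by
    intro y hy
    rw [aR y hy, abs_of_neg s1]
    ring
  have vL : ∀ y ∈ Icc (c - d) c, S.P.T y = S.P.T c - |S.L.sl (c - d)| * (c - y) := by
    intro y hy
    rw [aL y hy, aLc, abs_of_pos s2]
    ring
  have hspM : |S.L.sl c| ≤ S.L.M := S.L.sl_hi c
  have hsmM : |S.L.sl (c - d)| ≤ S.L.M := S.L.sl_hi (c - d)
  generalize |S.L.sl c| = sp at hsp vR hspM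
  generalize |S.L.sl (c - d)| = sm at hsm vL hsmM
  have hsp0 : 0 < sp := hm.trans_le hsp
  have hsm0 : 0 < sm := hm.trans_le hsm
  obtain ⟨η, hη, hinv⟩ := S.P.inv_cont hd0
  refine ⟨⟨c, sp, sm, min η (S.L.m * d), lt_min hη (mul_pos hm hd0), hsp, hspM, hsm, hsmM, hc,
    ?_, ?_, ?_⟩⟩
  · intro σ h h0 h1
    have h2 : h ≤ S.L.m * d := h1.trans (min_le_right _ _)
    cases σ
    · have h3 : h / sm ≤ d := by
        rw [div_le_iff₀ hsm0]
        nlinarith
      have h4 : 0 ≤ h / sm := by positivity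
      simp only [pt, Bool.false_eq_true, if_false]
      rw [vL _ ⟨by linarith, by linarith⟩]
      field_simp
      ring
    · have h3 : h / sp ≤ d := by
        rw [div_le_iff₀ hsp0]
        nlinarith
      have h4 : 0 ≤ h / sp := by positivity
      simp only [pt, if_true]
      rw [vR _ ⟨by linarith, by linarith⟩]
      field_simp
      ring
  · intro σ ε hε
    cases σ
    · obtain ⟨z, hz, h1, h2⟩ := hL (ε / sm) (by positivity)
      refine ⟨(c - z) * sm, mul_pos (by linarith) hsm0, ?_, ?_⟩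
      · rw [← lt_div_iff₀ hsm0]
        linarith
      · simp only [pt, Bool.false_eq_true, if_false]
        rwa [mul_div_cancel_right₀ _ hsm0.ne', sub_sub_cancel]
    · obtain ⟨z, hz, h1, h2⟩ := hR (ε / sp) (by positivity)
      refine ⟨(z - c) * sp, mul_pos (by linarith) hsp0, ?_, ?_⟩
      · rw [← lt_div_iff₀ hsp0]
        linarith
      · simp only [pt, if_true]
        rwa [mul_div_cancel_right₀ _ hsp0.ne', add_sub_cancel]
  · intro h h0 h1 hK
    obtain ⟨y, hy, hTy⟩ := S.P.surjK hK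
    have h2 : |y - c| < d := by
      refine hinv y hy c hc ?_
      rw [hTy, sub_sub_cancel_left, abs_neg, abs_of_nonneg h0]
      exact h1.trans (min_le_left _ _)
    rw [abs_lt] at h2
    rcases le_total c y with h3 | h3
    · refine ⟨true, ?_⟩
      have h4 := vR y ⟨h3, by linarith⟩
      have h5 : h = (y - c) * sp := by linarith
      simp only [pt, if_true]
      rwa [h5, mul_div_cancel_right₀ _ hsp0.ne', add_sub_cancel]
    · refine ⟨false, ?_⟩
      have h4 := vL y ⟨by linarith, h3⟩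
      have h5 : h = (c - y) * sm := by linarith
      simp only [pt, Bool.false_eq_true, if_false]
      rwa [h5, mul_div_cancel_right₀ _ hsm0.ne', sub_sub_cancel]

end Pool.Agent.MP_8df504_an.C

end
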