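import Pool.Agent.Mg.F8df504.G624e1e
import Pool.Agent.Mg.F8df504.G78a617
import Pool.Agent.MP_8df504_an.Proofs
import Pool.Agent.MP_019006_gt.Kingman

section

set_option autoImplicit false

namespace Pool.Agent.MP_8df504_an.C

open Set Filter Topology MeasureTheory

/-! Lasota-Yorke type growth lemma.  No measurability of `E` is needed (outer measure).

`vol_affine`: on `J`, `f y = f x0 + γ (y - x0)`; `Real.volume_preimage_mul_left`,
`measure_preimage_add` hold for all sets.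
`jac`: `Lam ⊆ ⋃ j (c j ≠ 0), Piece j`.
`growth`: the cylinders `Cyl n ω` only depend on the restriction of `ω` to `Fin n`; the finitely many
that meet `Lam` are disjoint bounded intervals `(α,β)` (`cyl_open`, `cyl_ord`), of length
`≥ ℓ > 0`, and cover `Lam`.  `M0 = 1 / (2 ℓ)`.  Prove by induction on `k` (for all `u ≤ v`) the bound
with `(1/2)^k + M0 (1 - (1/2)^k) (v - u)`: on a cylinder `Z` meeting `[u,v]`, `S = T^[n]` maps
`Z ∩ [u,v]` (of length `ℓ Z`) affinely into a segment of length `|γ| ℓ Z`, `|γ| ≥ 4`, `S Lam ⊆ Lam`;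
the contribution is `≤ ((1/2)^k / 4 + M0 (1 - (1/2)^k) ℓ Z) vol E`; `∑ ℓ Z ≤ v - u`; at most two `Z`
contain `u` or `v`, the other ones are inside `(u,v)`, so `1 ≤ ℓ Z / ℓ`.
`unif`: `i = n k + l`, `l < n`, apply `growth` on `[0,1]` to `Lam ∩ T^[l] ⁻¹' E`, iterate `jac`.
`gap_delta`: `A = Lam ∩ E`; at a density point (`Besicovitch.ae_tendsto_measure_inter_div`) there is
`[u,v]`, `u < v`, with `vol (A ∩ [u,v]) ≥ (v-u)/2`; `A ⊆ T^[n k] ⁻¹' A`; let `k → ∞` in `growth`. -/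

lemma vol_affine {f : ℝ → ℝ} {J : Set ℝ} {γ x0 y0 : ℝ} (hγ : γ ≠ 0)
    (h : ∀ y ∈ J, f y = y0 + γ * (y - x0)) (E : Set ℝ) :
    volume (J ∩ f ⁻¹' E) ≤ ENNReal.ofReal (1 / |γ|) * volume (f '' J ∩ E) := by
  have h1 : J ∩ f ⁻¹' E ⊆ (γ * ·) ⁻¹' ((fun z => (y0 - γ * x0) + z) ⁻¹' (f '' J ∩ E)) := by
    rintro y ⟨hy, hE⟩
    have e : y0 - γ * x0 + γ * y = f y := by rw [h y hy]; ring
    simp only [mem_preimage, e]
    exact ⟨⟨y, hy, rfl⟩, hE⟩
  refine (measure_mono h1).trans ?_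
  rw [Real.volume_preimage_mul_left hγ, measure_preimage_add, abs_inv, one_div]

/-- a bounded interval lies in a segment whose length is its measure -/
lemma gl_seg {W : Set ℝ} {u v : ℝ} (hW : W.OrdConnected) (hne : W.Nonempty) (hs : W ⊆ Icc u v) :
    ∃ p, W ⊆ Icc p (p + volume.real W) := by
  have hb : BddBelow W := ⟨u, fun x hx => (hs hx).1⟩
  have ha : BddAbove W := ⟨v, fun x hx => (hs hx).2⟩
  have h1 : Ioo (sInf W) (sSup W) ⊆ W :=
    IsConnected.Ioo_csInf_csSup_subset ⟨hne, hW.isPreconnected⟩ hb ha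
  have h2 : volume W ≠ ⊤ := ((measure_mono hs).trans_lt (by simp)).ne
  have h3 : volume.real (Ioo (sInf W) (sSup W)) ≤ volume.real W := measureReal_mono h1 h2
  have h4 : sInf W ≤ sSup W := (csInf_le hb hne.some_mem).trans (le_csSup ha hne.some_mem)
  rw [Real.volume_real_Ioo_of_le h4] at h3
  exact ⟨sInf W, fun x hx => ⟨csInf_le hb hx, (le_csSup ha hx).trans (by linarith)⟩⟩

/-- the affine image of a segment -/
lemma gl_img {S : ℝ → ℝ} {W : Set ℝ} {p L γ x0 y0 : ℝ} (hW : W ⊆ Icc p (p + L))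
    (h : ∀ y ∈ W, S y = y0 + γ * (y - x0)) : ∃ q, S '' W ⊆ Icc q (q + |γ| * L) := by
  rcases le_total 0 γ with hγ | hγ
  · refine ⟨y0 + γ * (p - x0), ?_⟩
    rintro _ ⟨y, hy, rfl⟩
    rw [h y hy, abs_of_nonneg hγ]
    have h1 := (hW hy).1
    have h2 := (hW hy).2
    constructor <;> nlinarith
  · refine ⟨y0 + γ * (p + L - x0), ?_⟩
    rintro _ ⟨y, hy, rfl⟩
    rw [h y hy, abs_of_nonpos hγ]
    have h1 := (hW hy).1
    have h2 := (hW hy).2
    constructor <;> nlinarith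

open Classical in
lemma gl_one {ι : Type} (I : Finset ι) (Z : ι → Set ℝ) (hd : (I : Set ι).PairwiseDisjoint Z)
    (u : ℝ) : ∑ i ∈ I, (if u ∈ Z i then (1 : ℝ) else 0) ≤ 1 := by
  rw [Finset.sum_boole]
  have h : (I.filter fun i => u ∈ Z i).card ≤ 1 := by
    refine Finset.card_le_one.2 fun a ha b hb => ?_
    rw [Finset.mem_filter] at ha hb
    by_contra hne
    exact Set.disjoint_left.1 (hd ha.1 hb.1 hne) ha.2 hb.2
  exact_mod_cast h

lemma gl_sum {ι : Type} (I : Finset ι) (Z : ι → Set ℝ) (hd : (I : Set ι).PairwiseDisjoint Z)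
    (ho : ∀ i ∈ I, IsOpen (Z i)) {u v : ℝ} (huv : u ≤ v) :
    ∑ i ∈ I, volume.real (Z i ∩ Icc u v) ≤ v - u := by
  have hd' : (I : Set ι).PairwiseDisjoint fun i => Z i ∩ Icc u v :=
    hd.mono fun i => inter_subset_left
  rw [← measureReal_biUnion_finset hd' (fun i hi => (ho i hi).measurableSet.inter measurableSet_Icc)
    (fun i _ => ((measure_mono inter_subset_right).trans_lt (by simp)).ne),
    ← Real.volume_real_Icc_of_le huv]
  exact measureReal_mono (iUnion₂_subset fun i _ => inter_subset_right) (by simp)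

open Classical in
lemma gl_count {ι : Type} (I : Finset ι) (Z : ι → Set ℝ) (hd : (I : Set ι).PairwiseDisjoint Z)
    (ho : ∀ i ∈ I, IsOpen (Z i)) (hc : ∀ i ∈ I, (Z i).OrdConnected) {l : ℝ} (hl : 0 < l)
    (hZ : ∀ i ∈ I, l ≤ volume.real (Z i)) {u v : ℝ} (huv : u ≤ v)
    (hne : ∀ i ∈ I, (Z i ∩ Icc u v).Nonempty) : ∑ _i ∈ I, (1 : ℝ) ≤ 2 + (v - u) / l := by
  have h1 : ∀ i ∈ I, (1 : ℝ) ≤ (if u ∈ Z i then (1 : ℝ) else 0) + (if v ∈ Z i then (1 : ℝ) else 0)
      + volume.real (Z i ∩ Icc u v) / l := by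
    intro i hi
    have h0 : 0 ≤ volume.real (Z i ∩ Icc u v) / l := by positivity
    by_cases hu : u ∈ Z i
    · rw [if_pos hu]
      split_ifs <;> linarith
    by_cases hv : v ∈ Z i
    · rw [if_neg hu, if_pos hv]
      linarith
    rw [if_neg hu, if_neg hv]
    obtain ⟨x, hx, hxu, hxv⟩ := hne i hi
    have hs : Z i ⊆ Icc u v := by
      intro y hy
      constructor
      · by_contra hlt
        exact hu ((hc i hi).out hy hx ⟨(not_le.1 hlt).le, hxu⟩)
      · by_contra hlt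
        exact hv ((hc i hi).out hx hy ⟨hxv, (not_le.1 hlt).le⟩)
    rw [inter_eq_left.2 hs, zero_add, zero_add, le_div_iff₀ hl, one_mul]
    exact hZ i hi
  refine (Finset.sum_le_sum h1).trans ?_
  rw [Finset.sum_add_distrib, Finset.sum_add_distrib, ← Finset.sum_div]
  have h2 := gl_one I Z hd u
  have h3 := gl_one I Z hd v
  have h4 := div_le_div_of_nonneg_right (gl_sum I Z hd ho huv) hl.le
  linarith

lemma gl_step {S : ℝ → ℝ} {L F E W : Set ℝ} {u v γ a b : ℝ} (hm : MapsTo S L L)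
    (hW : W.OrdConnected) (hne : W.Nonempty) (hs : W ⊆ Icc u v) (hγ : 4 ≤ |γ|)
    (haff : ∀ x ∈ W, ∀ y ∈ W, S y - S x = γ * (y - x)) (ha : 0 ≤ a)
    (ih : ∀ u v : ℝ, u ≤ v → volume (Icc u v ∩ L ∩ F) ≤
      ENNReal.ofReal (a + b * (v - u)) * volume E) :
    volume (W ∩ L ∩ S ⁻¹' F) ≤ ENNReal.ofReal (a / 4 + b * volume.real W) * volume E := by
  obtain ⟨p, hp⟩ := gl_seg hW hne hs
  obtain ⟨x0, hx0⟩ := hne
  have h1 : ∀ y ∈ W, S y = S x0 + γ * (y - x0) := fun y hy => by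
    rw [← haff x0 hx0 y hy]; ring
  obtain ⟨q, hq⟩ := gl_img hp h1
  have hγ0 : 0 < |γ| := by linarith
  have h2 : W ∩ L ∩ S ⁻¹' F ⊆ W ∩ S ⁻¹' (L ∩ F) := fun y hy => ⟨hy.1.1, hm hy.1.2, hy.2⟩
  have h0 : 0 ≤ |γ| * volume.real W := by positivity
  have h3 : S '' W ∩ (L ∩ F) ⊆ Icc q (q + |γ| * volume.real W) ∩ L ∩ F :=
    fun y hy => ⟨⟨hq hy.1, hy.2.1⟩, hy.2.2⟩
  refine (measure_mono h2).trans ((vol_affine (abs_pos.1 hγ0) h1 _).trans ?_)
  refine (mul_le_mul_right ((measure_mono h3).trans (ih _ _ (by linarith))) _).trans ?_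
  rw [← mul_assoc, ← ENNReal.ofReal_mul (by positivity)]
  refine mul_le_mul_left (ENNReal.ofReal_le_ofReal ?_) _
  have e : 1 / |γ| * (a + b * (q + |γ| * volume.real W - q)) = a / |γ| + b * volume.real W := by
    field_simp
    ring
  rw [e]
  have h4 : a / |γ| ≤ a / 4 := div_le_div_of_nonneg_left ha (by norm_num) hγ
  linarith

lemma gl_abs {ι : Type} (I : Finset ι) (Z : ι → Set ℝ) (γ : ι → ℝ) {S : ℝ → ℝ} {L : Set ℝ}
    (hd : (I : Set ι).PairwiseDisjoint Z) (ho : ∀ i ∈ I, IsOpen (Z i))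
    (hc : ∀ i ∈ I, (Z i).OrdConnected) {l : ℝ} (hl : 0 < l)
    (hZ : ∀ i ∈ I, l ≤ volume.real (Z i)) (hm : MapsTo S L L) (hcov : ∀ x ∈ L, ∃ i ∈ I, x ∈ Z i)
    (hγ : ∀ i ∈ I, 4 ≤ |γ i|) (haff : ∀ i ∈ I, ∀ x ∈ Z i, ∀ y ∈ Z i, S y - S x = γ i * (y - x))
    (E : Set ℝ) (k : ℕ) : ∀ u v : ℝ, u ≤ v → volume (Icc u v ∩ L ∩ S^[k] ⁻¹' E) ≤
      ENNReal.ofReal ((1 / 2) ^ k + 1 / (2 * l) * (1 - (1 / 2) ^ k) * (v - u)) * volume E := by
  classical
  induction k with
  | zero =>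
    intro u v _
    simp only [Function.iterate_zero, preimage_id_eq, id_eq, pow_zero, sub_self, mul_zero,
      zero_mul, add_zero, ENNReal.ofReal_one, one_mul]
    exact measure_mono inter_subset_right
  | succ k ih =>
    intro u v huv
    set J := I.filter fun i => (Z i ∩ Icc u v).Nonempty with hJ
    have hJI : ∀ i ∈ J, i ∈ I := fun i hi => (Finset.mem_filter.1 hi).1
    have hdJ : (J : Set ι).PairwiseDisjoint Z := hd.subset fun i hi => hJI i hi
    set a : ℝ := (1 / 2) ^ k with ha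
    have ha0 : 0 ≤ a := by positivity
    have ha1 : a ≤ 1 := pow_le_one₀ (by norm_num) (by norm_num)
    set b : ℝ := 1 / (2 * l) * (1 - a) with hb
    have hb0 : 0 ≤ b := mul_nonneg (by positivity) (by linarith)
    have h1 : Icc u v ∩ L ∩ S^[k + 1] ⁻¹' E ⊆
        ⋃ i ∈ J, (Z i ∩ Icc u v) ∩ L ∩ S ⁻¹' (S^[k] ⁻¹' E) := by
      rintro x ⟨⟨hx1, hx2⟩, hx3⟩
      obtain ⟨i, hi, hxi⟩ := hcov x hx2
      exact mem_iUnion₂.2 ⟨i, Finset.mem_filter.2 ⟨hi, x, hxi, hx1⟩, ⟨⟨hxi, hx1⟩, hx2⟩, hx3⟩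
    refine (measure_mono h1).trans ((measure_biUnion_finset_le _ _).trans ?_)
    have h2 : ∀ i ∈ J, volume ((Z i ∩ Icc u v) ∩ L ∩ S ⁻¹' (S^[k] ⁻¹' E)) ≤
        ENNReal.ofReal (a / 4 + b * volume.real (Z i ∩ Icc u v)) * volume E := fun i hi =>
      gl_step hm ((hc i (hJI i hi)).inter ordConnected_Icc) (Finset.mem_filter.1 hi).2
        inter_subset_right (hγ i (hJI i hi))
        (fun x hx y hy => haff i (hJI i hi) x hx.1 y hy.1) ha0 ih
    refine (Finset.sum_le_sum h2).trans ?_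
    rw [← Finset.sum_mul, ← ENNReal.ofReal_sum_of_nonneg fun i _ => by positivity]
    refine mul_le_mul_left (ENNReal.ofReal_le_ofReal ?_) _
    have h3 := gl_count J Z hdJ (fun i hi => ho i (hJI i hi)) (fun i hi => hc i (hJI i hi)) hl
      (fun i hi => hZ i (hJI i hi)) huv fun i hi => (Finset.mem_filter.1 hi).2
    have h4 := gl_sum J Z hdJ (fun i hi => ho i (hJI i hi)) huv
    have e1 : ∑ i ∈ J, (a / 4 + b * volume.real (Z i ∩ Icc u v)) =
        a / 4 * ∑ _i ∈ J, (1 : ℝ) + b * ∑ i ∈ J, volume.real (Z i ∩ Icc u v) := by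
      rw [Finset.mul_sum, Finset.mul_sum, ← Finset.sum_add_distrib]
      simp only [mul_one]
    have e2 : (1 / 2 : ℝ) ^ (k + 1) + 1 / (2 * l) * (1 - (1 / 2) ^ (k + 1)) * (v - u) =
        a / 4 * (2 + (v - u) / l) + b * (v - u) := by
      rw [pow_succ, ← ha, hb]
      field_simp
      ring
    rw [e1, e2]
    exact add_le_add (mul_le_mul_of_nonneg_left h3 (by positivity))
      (mul_le_mul_of_nonneg_left h4 hb0)

namespace BL

variable (D : BL)

lemma jac : ∃ J : NNReal, ∀ E : Set ℝ, volume (D.Lam ∩ D.T ⁻¹' E) ≤ J * volume E := by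
  classical
  refine ⟨∑ j : Fin D.m, Real.toNNReal (1 / |D.c j|), fun E => ?_⟩
  have h1 : D.Lam ∩ D.T ⁻¹' E ⊆
      ⋃ j ∈ Finset.univ.filter (fun j => D.c j ≠ 0), D.Piece j ∩ D.T ⁻¹' E := by
    rintro x ⟨hx, hE⟩
    obtain ⟨j, hj, hxj⟩ := (hx 0).2
    exact mem_iUnion₂.2 ⟨j, by simp [hj], hxj, hE⟩
  refine (measure_mono h1).trans ((measure_biUnion_finset_le _ _).trans ?_)
  have h2 : ∀ j ∈ Finset.univ.filter (fun j => D.c j ≠ 0), volume (D.Piece j ∩ D.T ⁻¹' E) ≤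
      ENNReal.ofReal (1 / |D.c j|) * volume E := by
    intro j hj
    have h3 : ∀ y ∈ D.Piece j, D.T y = D.d j + D.c j * (y - 0) := fun y hy => by
      rw [D.aff j y (Ioo_subset_Icc_self hy)]; ring
    exact (vol_affine (Finset.mem_filter.1 hj).2 h3 E).trans
      (mul_le_mul_right (measure_mono inter_subset_right) _)
  refine (Finset.sum_le_sum h2).trans ?_
  rw [← Finset.sum_mul, ENNReal.ofNNReal_finsetSum]
  exact mul_le_mul_left (Finset.sum_le_sum_of_subset (Finset.filter_subset _ _)) _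

lemma gl_cyl_congr {n : ℕ} {ω ω' : ℕ → Fin D.m} (h : ∀ i < n, ω i = ω' i) :
    D.Cyl n ω = D.Cyl n ω' := by
  ext x
  exact forall₂_congr fun i hi => by rw [h i hi]

lemma growth {n : ℕ} (hn : 1 ≤ n)
    (h : ∀ ω, (D.Cyl n ω ∩ D.Lam).Nonempty → 4 ≤ |D.gam n ω|) :
    ∃ M0 : ℝ, 0 < M0 ∧ ∀ (k : ℕ) (u v : ℝ) (E : Set ℝ), u ≤ v →
      volume (Icc u v ∩ D.Lam ∩ D.T^[n * k] ⁻¹' E) ≤
        ENNReal.ofReal ((1 / 2) ^ k + M0 * (v - u)) * volume E := by
  classical
  let ex : (Fin n → Fin D.m) → ℕ → Fin D.m := fun w i => w ⟨i % n, Nat.mod_lt i hn⟩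
  have hex : ∀ w (i : Fin n), ex w i = w i := fun w i => by
    simp only [ex, Nat.mod_eq_of_lt i.2]
  let Z : (Fin n → Fin D.m) → Set ℝ := fun w => D.Cyl n (ex w)
  let I : Finset (Fin n → Fin D.m) := Finset.univ.filter fun w => (Z w ∩ D.Lam).Nonempty
  have hI : ∀ w ∈ I, (Z w ∩ D.Lam).Nonempty := fun w hw => (Finset.mem_filter.1 hw).2
  have hpos : ∀ w ∈ I, 0 < volume.real (Z w) := by
    intro w hw
    have h1 : Z w ⊆ Ioo 0 1 := fun x hx => D.piece_sub _ (hx 0 hn)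
    refine ENNReal.toReal_pos ?_ ((measure_mono h1).trans_lt (by simp)).ne
    exact ((D.cyl_open n _).measure_pos volume ((hI w hw).mono inter_subset_left)).ne'
  obtain ⟨l, hl, hZ⟩ : ∃ l : ℝ, 0 < l ∧ ∀ w ∈ I, l ≤ volume.real (Z w) := by
    rcases I.eq_empty_or_nonempty with h0 | h0
    · exact ⟨1, one_pos, fun w hw => by simp [h0] at hw⟩
    · obtain ⟨w, hw, hmin⟩ := I.exists_min_image (fun w => volume.real (Z w)) h0
      exact ⟨_, hpos w hw, hmin⟩
  have hd : (I : Set (Fin n → Fin D.m)).PairwiseDisjoint Z := by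
    intro w _ w' _ hne
    refine Set.disjoint_left.2 fun x hx hx' => hne (funext fun i => ?_)
    rw [← hex w i, ← hex w' i]
    exact D.piece_unique (hx i i.2) (hx' i i.2)
  have hcov : ∀ x ∈ D.Lam, ∃ w ∈ I, x ∈ Z w := by
    intro x hx
    obtain ⟨ω, hω⟩ := D.exists_itin hx
    have h1 : x ∈ Z fun i => ω i := by
      have h2 : Z (fun i => ω i) = D.Cyl n ω :=
        D.gl_cyl_congr fun i hi => hex (fun i => ω i) ⟨i, hi⟩
      rw [h2]
      exact hω n
    exact ⟨fun i => ω i, Finset.mem_filter.2 ⟨Finset.mem_univ _, x, h1, hx⟩, h1⟩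
  refine ⟨1 / (2 * l), by positivity, fun k u v E huv => ?_⟩
  have key := gl_abs I Z (fun w => D.gam n (ex w)) hd (fun w _ => D.cyl_open n _)
    (fun w _ => D.cyl_ord n _) hl hZ (D.lam_maps.iterate n) hcov (fun w hw => h _ (hI w hw))
    (fun w _ x hx y hy => D.cyl_aff (subset_closure hx) (subset_closure hy)) E k u v huv
  rw [Function.iterate_mul]
  refine key.trans (mul_le_mul_left (ENNReal.ofReal_le_ofReal ?_) _)
  have h1 : (0 : ℝ) ≤ 1 / (2 * l) * (1 / 2) ^ k * (v - u) :=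
    mul_nonneg (by positivity) (by linarith)
  nlinarith

end BL

end Pool.Agent.MP_8df504_an.C

end

section

set_option autoImplicit false

namespace Pool.Agent.MP_8df504_an.C

open Set Filter Topology MeasureTheory

/-! Lasota-Yorke type growth lemma.  No measurability of `E` is needed (outer measure).

`vol_affine`: on `J`, `f y = f x0 + γ (y - x0)`; `Real.volume_preimage_mul_left`,
`measure_preimage_add` hold for all sets.
`jac`: `Lam ⊆ ⋃ j (c j ≠ 0), Piece j`.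
`growth`: the cylinders `Cyl n ω` only depend on the restriction of `ω` to `Fin n`; the finitely many
that meet `Lam` are disjoint bounded intervals `(α,β)` (`cyl_open`, `cyl_ord`), of length
`≥ ℓ > 0`, and cover `Lam`.  `M0 = 1 / (2 ℓ)`.  Prove by induction on `k` (for all `u ≤ v`) the bound
with `(1/2)^k + M0 (1 - (1/2)^k) (v - u)`: on a cylinder `Z` meeting `[u,v]`, `S = T^[n]` maps
`Z ∩ [u,v]` (of length `ℓ Z`) affinely into a segment of length `|γ| ℓ Z`, `|γ| ≥ 4`, `S Lam ⊆ Lam`;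
the contribution is `≤ ((1/2)^k / 4 + M0 (1 - (1/2)^k) ℓ Z) vol E`; `∑ ℓ Z ≤ v - u`; at most two `Z`
contain `u` or `v`, the other ones are inside `(u,v)`, so `1 ≤ ℓ Z / ℓ`.
`unif`: `i = n k + l`, `l < n`, apply `growth` on `[0,1]` to `Lam ∩ T^[l] ⁻¹' E`, iterate `jac`.
`gap_delta`: `A = Lam ∩ E`; at a density point (`Besicovitch.ae_tendsto_measure_inter_div`) there is
`[u,v]`, `u < v`, with `vol (A ∩ [u,v]) ≥ (v-u)/2`; `A ⊆ T^[n k] ⁻¹' A`; let `k → ∞` in `growth`. -/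

namespace BL

variable (D : BL)

lemma gl2_jac : ∃ J : NNReal, 1 ≤ J ∧
    ∀ (l : ℕ) (E : Set ℝ), volume (D.Lam ∩ D.T^[l] ⁻¹' E) ≤ (J ^ l : NNReal) * volume E := by
  obtain ⟨J, hJ⟩ := D.jac
  refine ⟨max J 1, le_max_right _ _, fun l E => ?_⟩
  induction l with
  | zero => simpa using measure_mono inter_subset_right
  | succ l ih =>
    have h1 : D.Lam ∩ D.T^[l + 1] ⁻¹' E ⊆ D.Lam ∩ D.T ⁻¹' (D.Lam ∩ D.T^[l] ⁻¹' E) :=
      fun x hx => ⟨hx.1, D.lam_maps hx.1, hx.2⟩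
    refine ((measure_mono h1).trans (hJ _)).trans ?_
    rw [pow_succ', ENNReal.coe_mul, mul_assoc]
    exact mul_le_mul' (ENNReal.coe_le_coe.2 (le_max_left _ _)) ih

lemma unif (h : D.Expd) :
    ∃ M1 : NNReal, ∀ (i : ℕ) (E : Set ℝ), volume (D.Lam ∩ D.T^[i] ⁻¹' E) ≤ M1 * volume E := by
  obtain ⟨n, hn, h⟩ := h
  obtain ⟨M0, -, hM⟩ := D.growth hn h
  obtain ⟨J, hJ1, hJ⟩ := D.gl2_jac
  refine ⟨(1 + M0).toNNReal * J ^ n, fun i E => ?_⟩
  have h1 : D.Lam ∩ D.T^[i] ⁻¹' E ⊆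
      Icc 0 1 ∩ D.Lam ∩ D.T^[n * (i / n)] ⁻¹' (D.Lam ∩ D.T^[i % n] ⁻¹' E) := fun x hx => by
    refine ⟨⟨Ioo_subset_Icc_self (D.lam_sub hx.1), hx.1⟩, D.lam_maps.iterate _ hx.1, ?_⟩
    rw [mem_preimage, ← Function.iterate_add_apply, Nat.mod_add_div]
    exact hx.2
  refine ((measure_mono h1).trans (hM _ 0 1 _ zero_le_one)).trans ?_
  rw [ENNReal.coe_mul, mul_assoc]
  refine mul_le_mul' (ENNReal.ofReal_le_ofReal ?_) ((hJ _ E).trans (mul_le_mul' ?_ le_rfl))
  · have h2 : ((1 : ℝ) / 2) ^ (i / n) ≤ 1 := pow_le_one₀ (by norm_num) (by norm_num)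
    linarith
  · exact ENNReal.coe_le_coe.2 (pow_le_pow_right₀ hJ1 (Nat.mod_lt i hn).le)

lemma gap_delta (h : D.Expd) : ∃ δ : ENNReal, 0 < δ ∧
    ∀ E : Set ℝ, MapsTo D.T E E → volume (D.Lam ∩ E) = 0 ∨ δ ≤ volume (D.Lam ∩ E) := by
  obtain ⟨n, hn, h⟩ := h
  obtain ⟨M0, h0, hM⟩ := D.growth hn h
  refine ⟨ENNReal.ofReal (1 / (2 * M0)), ENNReal.ofReal_pos.2 (by positivity), fun E hE => ?_⟩
  rw [or_iff_not_imp_left]
  intro hne
  have hA : MapsTo D.T (D.Lam ∩ E) (D.Lam ∩ E) := D.lam_maps.inter_inter hE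
  have hsub : D.Lam ∩ E ⊆ D.Lam := inter_subset_left
  generalize D.Lam ∩ E = A at hne hA hsub
  have hfin : volume A ≠ ⊤ :=
    ((measure_mono (hsub.trans D.lam_sub)).trans_lt measure_Ioo_lt_top).ne
  have : (ae (volume.restrict A)).NeBot := ae_neBot.2 fun e => hne (by
    rw [← Measure.restrict_apply_univ, e]; rfl)
  obtain ⟨x, hx⟩ := (Besicovitch.ae_tendsto_measure_inter_div volume A).exists
  obtain ⟨r, h1, hr⟩ := ((hx.eventually (lt_mem_nhds (ENNReal.one_half_lt_one))).and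
    self_mem_nhdsWithin).exists
  have hr0 : 0 < r := hr
  rw [Real.volume_closedBall, ENNReal.lt_div_iff_mul_lt (Or.inl (by simpa using hr0))
    (Or.inl ENNReal.ofReal_ne_top), Real.closedBall_eq_Icc] at h1
  have h2 : ENNReal.ofReal r ≤ volume (A ∩ Icc (x - r) (x + r)) := by
    refine le_of_eq_of_le ?_ h1.le
    rw [ENNReal.ofReal_mul zero_le_two, ENNReal.ofReal_ofNat, ← mul_assoc,
      ENNReal.inv_mul_cancel two_ne_zero ENNReal.ofNat_ne_top, one_mul]
  have h3 : ∀ k : ℕ, r ≤ ((1 / 2) ^ k + M0 * (x + r - (x - r))) * (volume A).toReal := fun k => by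
    have h4 := (h2.trans (measure_mono fun y hy =>
      (⟨⟨hy.2, hsub hy.1⟩, hA.iterate (n * k) hy.1⟩ :
        y ∈ Icc (x - r) (x + r) ∩ D.Lam ∩ D.T^[n * k] ⁻¹' A))).trans
      (hM k _ _ A (by linarith))
    have h5 : 0 ≤ (1 / 2 : ℝ) ^ k + M0 * (x + r - (x - r)) :=
      add_nonneg (by positivity) (mul_nonneg h0.le (by linarith))
    rwa [← ENNReal.ofReal_toReal hfin, ← ENNReal.ofReal_mul h5,
      ENNReal.ofReal_le_ofReal_iff (mul_nonneg h5 ENNReal.toReal_nonneg)] at h4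
  have h6 := ge_of_tendsto' (((tendsto_pow_atTop_nhds_zero_of_lt_one (r := (1 / 2 : ℝ))
    (by norm_num) (by norm_num)).add_const _).mul_const _) h3
  rw [ENNReal.ofReal_le_iff_le_toReal hfin, div_le_iff₀ (by positivity)]
  nlinarith

end BL

end Pool.Agent.MP_8df504_an.C

end

section

set_option autoImplicit false

namespace Pool.Agent.MP_8df504_an.C

open Set Filter Topology MeasureTheory

/-! Elementary facts on the averages `ergAvg`.

Hints.  `N * ergAvg T R x N = ∑ i ∈ Icc 1 N, χ (T^[i] x)` and the sums for `x` and `T x` differ by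
at most `1`.  `avg_periodic`: with `k = ` number of `i ∈ Icc 1 P` with `T^[i] x ∈ R`, the sum up to
`N` differs from `k N / P` by at most `P`; `avg_dvd` follows from `Nat.card_multiples` or
`Nat.Ioc_filter_dvd_card_eq_div`.  `exists_osc`: `S = ⋃ j, [9^j, 3 * 9^j)`, use `no_limit` from
`Pool.Agent.MP_8df504_an.Proofs` with `c = 1`. -/

lemma avg_ind (R : Set ℝ) (y : ℝ) : 0 ≤ R.indicator (fun _ => (1 : ℝ)) y ∧
    R.indicator (fun _ => (1 : ℝ)) y ≤ 1 :=
  ⟨indicator_nonneg (fun _ _ => zero_le_one) _, indicator_le_self' (fun _ _ => zero_le_one) _⟩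

lemma avg_sum (χ : ℕ → ℝ) (h0 : ∀ i, 0 ≤ χ i) (h1 : ∀ i, χ i ≤ 1) (N : ℕ) :
    0 ≤ ∑ i ∈ Finset.Icc 1 N, χ i ∧ ∑ i ∈ Finset.Icc 1 N, χ i ≤ N :=
  ⟨Finset.sum_nonneg fun i _ => h0 i,
    (Finset.sum_le_card_nsmul _ _ 1 fun i _ => h1 i).trans (by simp)⟩

lemma avg_bdd {D : ℕ → ℝ} {C : ℝ} (h : ∀ N, |D N| ≤ C) :
    Tendsto (fun N : ℕ => 1 / (N : ℝ) * D N) atTop (𝓝 0) := by
  refine squeeze_zero_norm (fun N => ?_) (tendsto_const_div_atTop_nhds_zero_nat C)
  rw [Real.norm_eq_abs, abs_mul, abs_of_nonneg (by positivity), one_div_mul_eq_div]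
  exact div_le_div_of_nonneg_right (h N) (Nat.cast_nonneg N)

lemma avg_per (χ : ℕ → ℝ) (h0 : ∀ i, 0 ≤ χ i) (h1 : ∀ i, χ i ≤ 1) {P : ℕ} (hP : 1 ≤ P)
    (hper : ∀ i, 1 ≤ i → χ (i + P) = χ i) :
    Tendsto (fun N : ℕ => 1 / (N : ℝ) * ∑ i ∈ Finset.Icc 1 N, χ i) atTop
      (𝓝 ((∑ i ∈ Finset.Icc 1 P, χ i) / P)) := by
  have hP0 : (0 : ℝ) < P := by exact_mod_cast hP
  obtain ⟨c, hc⟩ : ∃ c, c = (∑ i ∈ Finset.Icc 1 P, χ i) / P := ⟨_, rfl⟩
  have hc0 : 0 ≤ c := hc ▸ div_nonneg (avg_sum χ h0 h1 P).1 hP0.le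
  have hc1 : c ≤ 1 := hc ▸ (div_le_one hP0).2 (avg_sum χ h0 h1 P).2
  have h2 : Function.Periodic (fun N : ℕ => ∑ i ∈ Finset.Icc 1 N, χ i - N * c) P := by
    intro N
    induction N with
    | zero =>
      simp only [zero_add, hc]
      field_simp
      simp
    | succ N ih =>
      simp only at ih ⊢
      rw [Nat.add_right_comm, Finset.sum_Icc_succ_top (by omega),
        Finset.sum_Icc_succ_top (by omega), Nat.add_right_comm N, hper _ (by omega)]
      push_cast at ih ⊢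
      linarith
  have h3 := avg_bdd (D := fun N : ℕ => ∑ i ∈ Finset.Icc 1 N, χ i - N * c) (C := P) fun N => by
    rw [← h2.map_mod_nat N]
    have h4 := avg_sum χ h0 h1 (N % P)
    have h5 : ((N % P : ℕ) : ℝ) ≤ P := by exact_mod_cast (Nat.mod_lt N hP).le
    have h6 : (0 : ℝ) ≤ ((N % P : ℕ) : ℝ) := Nat.cast_nonneg _
    rw [abs_le]
    constructor <;> nlinarith
  have h4 := h3.add_const c
  rw [zero_add] at h4
  rw [← hc]
  refine h4.congr' ?_
  filter_upwards [eventually_gt_atTop 0] with N hN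
  have : (N : ℝ) ≠ 0 := by positivity
  field_simp
  ring

lemma avg_mem (T : ℝ → ℝ) (R : Set ℝ) (x : ℝ) (N : ℕ) : ergAvg T R x N ∈ Icc (0 : ℝ) 1 := by
  have h := avg_sum _ (fun i => (avg_ind R (T^[i] x)).1) (fun i => (avg_ind R (T^[i] x)).2) N
  refine ⟨mul_nonneg (by positivity) h.1, ?_⟩
  unfold ergAvg
  rw [one_div_mul_eq_div]
  exact div_le_one_of_le₀ h.2 (Nat.cast_nonneg N)

lemma avg_diff (T : ℝ → ℝ) (R : Set ℝ) (x : ℝ) :
    Tendsto (fun N => ergAvg T R (T x) N - ergAvg T R x N) atTop (𝓝 0) := by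
  have h : ∀ N, ∑ i ∈ Finset.Icc 1 N, R.indicator (fun _ => (1 : ℝ)) (T^[i] (T x)) -
      ∑ i ∈ Finset.Icc 1 N, R.indicator (fun _ => (1 : ℝ)) (T^[i] x) =
      R.indicator (fun _ => (1 : ℝ)) (T^[N + 1] x) - R.indicator (fun _ => (1 : ℝ)) (T x) := by
    intro N
    induction N with
    | zero => simp
    | succ N ih =>
      rw [Finset.sum_Icc_succ_top (by omega), Finset.sum_Icc_succ_top (by omega),
        Function.iterate_succ_apply T (N + 1)]
      linarith
  refine (avg_bdd (C := 1) (D := fun N => R.indicator (fun _ => (1 : ℝ)) (T^[N + 1] x) -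
    R.indicator (fun _ => (1 : ℝ)) (T x)) fun N => ?_).congr fun N => ?_
  · have h1 := avg_ind R (T^[N + 1] x)
    have h2 := avg_ind R (T x)
    rw [abs_le]
    constructor <;> linarith [h1.1, h1.2, h2.1, h2.2]
  · rw [← h, mul_sub]
    rfl

lemma avg_shift (T : ℝ → ℝ) (R : Set ℝ) (x : ℝ) (i : ℕ) (L : ℝ) :
    Tendsto (ergAvg T R (T^[i] x)) atTop (𝓝 L) ↔ Tendsto (ergAvg T R x) atTop (𝓝 L) := by
  induction i with
  | zero => rfl
  | succ i ih =>
    rw [Function.iterate_succ_apply', ← ih]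
    have h := avg_diff T R (T^[i] x)
    constructor
    · intro h1
      simpa using h1.sub h
    · intro h1
      simpa using h.add h1

lemma avg_congr {T T' : ℝ → ℝ} {R R' : Set ℝ} {x x' : ℝ}
    (h : ∀ i : ℕ, 1 ≤ i → (T^[i] x ∈ R ↔ T'^[i] x' ∈ R')) : ergAvg T R x = ergAvg T' R' x' := by
  funext N
  unfold ergAvg
  congr 1
  refine Finset.sum_congr rfl fun i hi => ?_
  have h1 := h i (Finset.mem_Icc.1 hi).1
  by_cases h2 : T^[i] x ∈ R
  · rw [indicator_of_mem h2, indicator_of_mem (h1.1 h2)]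
  · rw [indicator_of_notMem h2, indicator_of_notMem fun h3 => h2 (h1.2 h3)]

lemma avg_periodic (T : ℝ → ℝ) (R : Set ℝ) {x : ℝ} {P : ℕ} (hP : 1 ≤ P) (hx : T^[P] x = x) :
    ∃ k : ℕ, k ≤ P ∧ Tendsto (ergAvg T R x) atTop (𝓝 ((k : ℝ) / P)) := by
  classical
  refine ⟨((Finset.Icc 1 P).filter fun i => T^[i] x ∈ R).card,
    (Finset.card_filter_le _ _).trans (by simp), ?_⟩
  have h := avg_per _ (fun i => (avg_ind R (T^[i] x)).1) (fun i => (avg_ind R (T^[i] x)).2) hP
    fun i _ => by rw [Function.iterate_add_apply, hx]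
  have h1 : ∑ i ∈ Finset.Icc 1 P, R.indicator (fun _ => (1 : ℝ)) (T^[i] x) =
      (((Finset.Icc 1 P).filter fun i => T^[i] x ∈ R).card : ℝ) := by
    simp only [indicator_apply, Finset.sum_boole]
  rw [h1] at h
  exact h

lemma avg_dvd {T : ℝ → ℝ} {R : Set ℝ} {x : ℝ} {k : ℕ} (hk : 1 ≤ k)
    (h : ∀ i : ℕ, 1 ≤ i → (T^[i] x ∈ R ↔ k ∣ i)) :
    Tendsto (ergAvg T R x) atTop (𝓝 (1 / (k : ℝ))) := by
  have h0 : ∀ i, 1 ≤ i → R.indicator (fun _ => (1 : ℝ)) (T^[i] x) = if k ∣ i then 1 else 0 := by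
    intro i hi
    split_ifs with h1
    · exact indicator_of_mem ((h i hi).2 h1) _
    · exact indicator_of_notMem (fun h2 => h1 ((h i hi).1 h2)) _
  have h1 := avg_per _ (fun i => (avg_ind R (T^[i] x)).1) (fun i => (avg_ind R (T^[i] x)).2) hk
    fun i hi => by rw [h0 i hi, h0 _ (by omega)]; simp only [Nat.dvd_add_self_right]
  have h2 : ∑ i ∈ Finset.Icc 1 k, R.indicator (fun _ => (1 : ℝ)) (T^[i] x) = 1 := by
    rw [Finset.sum_eq_single k, h0 k hk, if_pos dvd_rfl]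
    · intro i hi hne
      rw [Finset.mem_Icc] at hi
      rw [h0 i hi.1, if_neg fun h3 => hne (le_antisymm hi.2 (Nat.le_of_dvd hi.1 h3))]
    · intro h3
      exact absurd (Finset.mem_Icc.2 ⟨hk, le_rfl⟩) h3
  rw [h2] at h1
  exact h1

lemma avg_zero {T : ℝ → ℝ} {R : Set ℝ} {x : ℝ} (h : ∀ i : ℕ, 1 ≤ i → T^[i] x ∉ R) :
    Tendsto (ergAvg T R x) atTop (𝓝 0) := by
  have h1 : ergAvg T R x = fun _ => 0 := by
    funext N
    unfold ergAvg
    rw [Finset.sum_eq_zero, mul_zero]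
    intro i hi
    exact indicator_of_notMem (h i (Finset.mem_Icc.1 hi).1) _
  rw [h1]
  exact tendsto_const_nhds

lemma avg_meas {T : ℝ → ℝ} (hT : Measurable T) {R : Set ℝ} (hR : MeasurableSet R) (N : ℕ) :
    Measurable (fun x => ergAvg T R x N) := by
  unfold ergAvg
  exact (Finset.measurable_sum _ fun i _ =>
    (measurable_const.indicator hR).comp (hT.iterate i)).const_mul _

lemma exists_osc : ∃ S : Set ℕ, ∀ (T : ℝ → ℝ) (R : Set ℝ) (x : ℝ),
    (∀ i : ℕ, 1 ≤ i → (T^[i] x ∈ R ↔ i ∈ S)) →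
      ¬ ∃ L, Tendsto (ergAvg T R x) atTop (𝓝 L) := by
  refine ⟨{i | ∃ j, 9 ^ j ≤ i ∧ i < 3 * 9 ^ j}, fun T R x h => ?_⟩
  refine no_limit _ (fun i => (avg_ind R (T^[i] x)).1) (fun i => (avg_ind R (T^[i] x)).2) 1
    (fun j i h1 h2 => ?_) fun j i h1 h2 => ?_
  · exact indicator_of_mem ((h i (by omega)).2 ⟨j, by omega, by omega⟩) _
  · refine indicator_of_notMem (fun h3 => ?_) _
    obtain ⟨l, h4, h5⟩ := (h i (by omega)).1 h3
    rcases le_or_gt l j with h6 | h6
    · have := Nat.pow_le_pow_right (by norm_num : 0 < 9) h6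
      omega
    · have := Nat.pow_le_pow_right (by norm_num : 0 < 9) (Nat.succ_le_of_lt h6)
      simp only [Nat.succ_eq_add_one] at this
      omega

end Pool.Agent.MP_8df504_an.C

end

section

set_option autoImplicit false

namespace Pool.Agent.MP_8df504_an.C

open Set Filter Topology MeasureTheory

/-! An invariant measure dominated by Lebesgue measure, and convergence on `Lam`.

`exists_inv`: `μ N E = (1/(N+1)) ∑ i<N+1, μ0 (T^[i] ⁻¹' E)`; define `ν E` for measurable `E` as the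
limit of `μ N E` along `hyperfilter ℕ` in the compact space `ENNReal` (`Ultrafilter.lim`,
`Ultrafilter.le_nhds_lim` applied to the mapped ultrafilter).  It is finitely additive, bounded by
`M1 * lam E`, hence countably additive (the `lam`-measure of the tails tends to `0`); use
`Measure.ofMeasurable`.  `|μ N (T ⁻¹' E) - μ N E| ≤ μ0 univ / (N+1)` gives invariance.
`conv_meas`: `Pool.Agent.MP_019006_gt.Kingman.kingman` for the additive sums
`f n x = ∑ i ∈ Icc 1 n, χ (T^[i] x)`; the set of points where the averages do not converge is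
measurable (`measurableSet_exists_tendsto`) and invariant (`avg_shift`).
`null_visit`: `unif`.  `conv_Lam`: replace `R` by a measurable `R'` with `R =ᵐ R'`, use `null_visit`
and `avg_congr`; `μ0 = volume.restrict Lam`, `lam = volume.restrict (Icc 0 1)`. -/

lemma exists_inv {X : Type} [MeasurableSpace X] {T : X → X} (hT : Measurable T)
    (μ0 lam : Measure X) [IsFiniteMeasure μ0] [IsFiniteMeasure lam] (M1 : NNReal)
    (h : ∀ (i : ℕ) (E : Set X), MeasurableSet E → μ0 (T^[i] ⁻¹' E) ≤ M1 * lam E) :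
    ∃ ν : Measure X, IsFiniteMeasure ν ∧ MeasurePreserving T ν ν ∧
      ∀ E, MeasurableSet E → T ⁻¹' E = E → ν E = μ0 E := by
  let μ : ℕ → Measure X := fun N =>
    ((N + 1 : ℕ) : ENNReal)⁻¹ • ∑ i ∈ Finset.range (N + 1), μ0.map T^[i]
  have hμ : ∀ N E, MeasurableSet E → μ N E =
      ((N + 1 : ℕ) : ENNReal)⁻¹ * ∑ i ∈ Finset.range (N + 1), μ0 (T^[i] ⁻¹' E) := by
    intro N E hE
    simp only [μ, Measure.smul_apply, smul_eq_mul, Measure.finsetSum_apply]
    congr 1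
    exact Finset.sum_congr rfl fun i _ => Measure.map_apply (hT.iterate i) hE
  have hc : ∀ (N : ℕ) (a : ENNReal),
      ((N + 1 : ℕ) : ENNReal)⁻¹ * ∑ _i ∈ Finset.range (N + 1), a = a := by
    intro N a
    rw [Finset.sum_const, Finset.card_range, nsmul_eq_mul, ← mul_assoc,
      ENNReal.inv_mul_cancel (by simp) (by simp), one_mul]
  have hb : ∀ N E, MeasurableSet E → μ N E ≤ M1 * lam E := by
    intro N E hE
    rw [hμ N E hE, ← hc N (M1 * lam E)]
    exact mul_le_mul_right (Finset.sum_le_sum fun i _ => h i E hE) _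
  have hex : ∀ E, ∃ l, Tendsto (fun N => μ N E) (hyperfilter ℕ) (𝓝 l) := fun E =>
    ⟨_, ((hyperfilter ℕ).map fun N => μ N E).le_nhds_lim⟩
  choose L hL using hex
  have hLb : ∀ E, MeasurableSet E → L E ≤ M1 * lam E := fun E hE =>
    le_of_tendsto' (hL E) fun N => hb N E hE
  have hU : ∀ ⦃f : ℕ → Set X⦄, (∀ i, MeasurableSet (f i)) →
      Pairwise (Function.onFun Disjoint f) → L (⋃ i, f i) = ∑' i, L (f i) := by
    intro f hf hd
    apply le_antisymm
    · have h1 : Tendsto (fun n => ∑' i, L (f i) + M1 * lam (⋃ i ≥ n, f i)) atTop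
          (𝓝 (∑' i, L (f i) + M1 * 0)) :=
        tendsto_const_nhds.add (ENNReal.Tendsto.const_mul
          (tendsto_measure_biUnion_Ici_zero_of_pairwise_disjoint
            (fun i => (hf i).nullMeasurableSet) hd) (Or.inr ENNReal.coe_ne_top))
      rw [mul_zero, add_zero] at h1
      refine ge_of_tendsto' h1 fun n => ?_
      refine le_trans ?_ (add_le_add (ENNReal.sum_le_tsum (Finset.range n))
        (hLb _ (MeasurableSet.biUnion (Set.to_countable _) fun i _ => hf i)))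
      refine le_of_tendsto_of_tendsto' (hL _)
        ((tendsto_finsetSum _ fun i _ => hL (f i)).add (hL _)) fun N => ?_
      refine le_trans (measure_mono ?_) ((measure_union_le _ _).trans
        (add_le_add (measure_biUnion_finset_le _ _) le_rfl))
      intro x hx
      obtain ⟨i, hi⟩ := mem_iUnion.1 hx
      rcases lt_or_ge i n with h2 | h2
      · exact Or.inl (mem_biUnion (Finset.mem_range.2 h2) hi)
      · exact Or.inr (mem_biUnion h2 hi)
    · refine ENNReal.tsum_le_of_sum_range_le fun n => ?_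
      refine le_of_tendsto_of_tendsto' (tendsto_finsetSum _ fun i _ => hL (f i)) (hL _)
        fun N => ?_
      rw [measure_iUnion hd hf]
      exact ENNReal.sum_le_tsum _
  have h0 : L ∅ = 0 := le_antisymm (by simpa using hLb ∅ MeasurableSet.empty) zero_le
  let ν : Measure X := Measure.ofMeasurable (fun E _ => L E) h0 hU
  have hν : ∀ E, MeasurableSet E → ν E = L E := fun E hE => Measure.ofMeasurable_apply E hE
  have hz : ∀ a : ℕ → Set X,
      Tendsto (fun N : ℕ => ((N + 1 : ℕ) : ENNReal)⁻¹ * μ0 (a N)) (hyperfilter ℕ) (𝓝 0) := by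
    intro a
    have h1 : Tendsto (fun N : ℕ => ((N + 1 : ℕ) : ENNReal)⁻¹ * μ0 univ) atTop
        (𝓝 (0 * μ0 univ)) :=
      ENNReal.Tendsto.mul_const (ENNReal.tendsto_inv_nat_nhds_zero.comp (tendsto_add_atTop_nat 1))
        (Or.inr (measure_ne_top _ _))
    rw [zero_mul] at h1
    exact tendsto_of_tendsto_of_tendsto_of_le_of_le tendsto_const_nhds
      (h1.mono_left Nat.hyperfilter_le_atTop) (fun _ => zero_le)
      fun N => mul_le_mul_right (measure_mono (subset_univ _)) _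
  refine ⟨ν, ⟨?_⟩, ⟨hT, ?_⟩, fun E hE hi => ?_⟩
  · rw [hν _ MeasurableSet.univ]
    exact (hLb _ MeasurableSet.univ).trans_lt
      (ENNReal.mul_lt_top ENNReal.coe_lt_top (measure_lt_top _ _))
  · ext E hE
    rw [Measure.map_apply hT hE, hν _ (hT hE), hν _ hE]
    have h1 := (hL (T ⁻¹' E)).add (hz fun _ => T^[0] ⁻¹' E)
    have h2 := (hL E).add (hz fun N => T^[N + 1] ⁻¹' E)
    rw [add_zero] at h1 h2
    refine tendsto_nhds_unique h1 (h2.congr fun N => ?_)
    rw [hμ N E hE, hμ N _ (hT hE), ← mul_add, ← mul_add,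
      ← Finset.sum_range_succ (fun i => μ0 (T^[i] ⁻¹' E)), Finset.sum_range_succ']
    simp only [Function.iterate_succ', preimage_comp]
  · rw [hν E hE]
    refine tendsto_nhds_unique (hL E) (tendsto_const_nhds.congr fun N => ?_)
    rw [hμ N E hE, Finset.sum_congr rfl fun i _ =>
      congrArg μ0 (Function.IsFixedPt.preimage_iterate hi i), hc]

lemma conv_meas {T : ℝ → ℝ} (hT : Measurable T) (μ0 lam : Measure ℝ) [IsFiniteMeasure μ0]
    [IsFiniteMeasure lam] (M1 : NNReal)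
    (h : ∀ (i : ℕ) (E : Set ℝ), MeasurableSet E → μ0 (T^[i] ⁻¹' E) ≤ M1 * lam E)
    {R : Set ℝ} (hR : MeasurableSet R) :
    ∀ᵐ p ∂μ0, ∃ L, Tendsto (ergAvg T R p) atTop (𝓝 L) := by
  obtain ⟨ν, hν, hP, hE⟩ := exists_inv hT μ0 lam M1 h
  have h1 := Pool.Agent.MP_019006_gt.kingman ν T hP
    (fun n x => ∑ i ∈ Finset.Icc 1 n, R.indicator (fun _ => (1 : ℝ)) (T^[i] x))
    (fun n => Finset.measurable_sum _ fun i _ =>
      (measurable_const.indicator hR).comp (hT.iterate i)) 1 (fun m n x => le_of_eq ?_)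
    fun n x => ?_
  · have h2 : MeasurableSet {p | ∃ L, Tendsto (ergAvg T R p) atTop (𝓝 L)} :=
      measurableSet_exists_tendsto (f := fun N p => ergAvg T R p N) fun N => avg_meas hT hR N
    rw [ae_iff] at h1 ⊢
    refine (hE _ h2.compl ?_).symm.trans (measure_mono_null ?_ h1)
    · ext x
      exact not_congr (exists_congr fun L => avg_shift T R x 1 L)
    · rintro x hx ⟨l, hl⟩
      exact hx ⟨l, hl.congr fun n => by rw [ergAvg, one_div, div_eq_inv_mul]⟩
  · induction n with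
    | zero => simp
    | succ n ih =>
      rw [← add_assoc, Finset.sum_Icc_succ_top (by omega), Finset.sum_Icc_succ_top (by omega), ih,
        add_assoc, ← Function.iterate_add_apply, show n + 1 + m = m + n + 1 by omega]
  · refine (Finset.abs_sum_le_sum_abs _ _).trans
      ((Finset.sum_le_card_nsmul _ _ 1 fun i _ => ?_).trans (by simp))
    by_cases h2 : T^[i] x ∈ R <;> simp [h2]

lemma BL.null_visit (D : BL) (h : D.Expd) {N : Set ℝ} (hN : volume N = 0) :
    ∀ᵐ p ∂(volume.restrict D.Lam), ∀ i : ℕ, D.T^[i] p ∉ N := by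
  obtain ⟨M1, hM⟩ := D.unif h
  rw [ae_all_iff]
  intro i
  rw [ae_restrict_iff' D.lam_meas, ae_iff]
  have h1 := hM i N
  rw [hN, mul_zero, nonpos_iff_eq_zero] at h1
  refine measure_mono_null (fun x hx => ?_) h1
  simpa using hx

lemma BL.conv_Lam (D : BL) (h : D.Expd) {R : Set ℝ} (hR : NullMeasurableSet R volume) :
    ∀ᵐ p ∂(volume.restrict D.Lam), ∃ L, Tendsto (ergAvg D.T R p) atTop (𝓝 L) := by
  obtain ⟨M1, hM⟩ := D.unif h
  have hs : D.Lam ⊆ Icc 0 1 := D.lam_sub.trans Ioo_subset_Icc_self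
  have : IsFiniteMeasure (volume.restrict D.Lam) :=
    isFiniteMeasure_restrict.2 ((measure_mono hs).trans_lt measure_Icc_lt_top).ne
  obtain ⟨R', -, hR', he⟩ := hR.exists_measurable_superset_ae_eq
  have h1 := conv_meas D.cont.measurable (volume.restrict D.Lam) (volume.restrict (Icc 0 1)) M1
    (fun i E hE => by
      rw [Measure.restrict_apply' D.lam_meas, Measure.restrict_apply hE]
      refine le_trans (measure_mono fun x hx => ?_) (hM i (E ∩ Icc 0 1))
      exact ⟨hx.2, hx.1, hs (D.lam_maps.iterate i hx.2)⟩) hR'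
  have h2 := D.null_visit h (ae_iff.1 he.mem_iff)
  filter_upwards [h1, h2] with p hp hq
  rwa [avg_congr (T' := D.T) (R' := R') (x' := p) fun i _ => (not_not.1 (hq i)).symm]

end Pool.Agent.MP_8df504_an.C

end

section

set_option autoImplicit false

namespace Pool.Agent.MP_8df504_an.C

open Set Filter Topology MeasureTheory

/-! Finitely many values on `Lam`.

`finite_support`: the atoms have mass `≥ δ`, so form a finite set `F`
(`Measure.finite_const_le_meas_of_disjoint_iUnion` or a direct count).  If `κ Fᶜ ≠ 0`, let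
`t = sInf {t | δ ≤ κ (Fᶜ ∩ Iic t)}`; continuity from above and below give `δ ≤ κ (Fᶜ ∩ Iic t)` and
`κ (Fᶜ ∩ Iio t) = 0`, so `t ∈ Fᶜ` is an atom: contradiction.
`fin_Lam`: for measurable `R'` a.e. equal to `R`, `L* x = limsup (ergAvg T R' x)` is measurable
(`Measurable.limsup`, `avg_meas`) and `L* (T x) = L* x` (`avg_diff`, `avg_mem`).  Apply
`finite_support` to `κ = map L* (volume.restrict Lam)` with `gap_delta`; `null_visit`,
`avg_congr`. -/

lemma finite_support (κ : Measure ℝ) [IsFiniteMeasure κ] {δ : ENNReal} (hδ : 0 < δ)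
    (h : ∀ V, MeasurableSet V → κ V = 0 ∨ δ ≤ κ V) : ∃ F : Finset ℝ, κ (F : Set ℝ)ᶜ = 0 := by
  have hF : {t : ℝ | δ ≤ κ {t}}.Finite :=
    Measure.finite_const_le_meas_of_disjoint_iUnion κ hδ (As := fun t : ℝ => {t})
      (fun t => measurableSet_singleton t) (fun _ _ hne => disjoint_singleton.2 hne)
      (measure_ne_top _ _)
  refine ⟨hF.toFinset, measure_null_of_locally_null _ fun x hx => ?_⟩
  have h1 : κ {x} < δ := by simpa using hx
  obtain ⟨U, hU, ho, h2⟩ := Set.exists_isOpen_lt_of_lt _ _ h1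
  exact ⟨U, mem_nhdsWithin_of_mem_nhds (ho.mem_nhds (hU rfl)),
    (h U ho.measurableSet).resolve_right (not_le.2 h2)⟩

lemma BL.fin_Lam (D : BL) (h : D.Expd) {R : Set ℝ} (hR : NullMeasurableSet R volume) :
    ∃ F : Finset ℝ, ∀ᵐ p ∂(volume.restrict D.Lam),
      ∀ L, Tendsto (ergAvg D.T R p) atTop (𝓝 L) → L ∈ F := by
  obtain ⟨δ, hδ, hg⟩ := D.gap_delta h
  have hs : D.Lam ⊆ Icc 0 1 := D.lam_sub.trans Ioo_subset_Icc_self
  have : IsFiniteMeasure (volume.restrict D.Lam) :=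
    isFiniteMeasure_restrict.2 ((measure_mono hs).trans_lt measure_Icc_lt_top).ne
  obtain ⟨R', -, hR', he⟩ := hR.exists_measurable_superset_ae_eq
  let f : ℝ → ℝ := fun x => limUnder atTop fun N => ergAvg D.T R' x N
  have hf : Measurable f := (StronglyMeasurable.limUnder (l := atTop)
    (f := fun N x => ergAvg D.T R' x N)
    fun N => (avg_meas D.cont.measurable hR' N).stronglyMeasurable).measurable
  have hi : ∀ x, f (D.T x) = f x := fun x =>
    congrArg Classical.epsilon (funext fun L => propext (avg_shift D.T R' x 1 L))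
  obtain ⟨F, hF⟩ := finite_support ((volume.restrict D.Lam).map f) hδ fun V hV => by
    rw [Measure.map_apply hf hV, Measure.restrict_apply' D.lam_meas, inter_comm]
    exact hg _ fun x hx => by rwa [mem_preimage, hi]
  rw [Measure.map_apply hf F.measurableSet.compl] at hF
  have h1 : ∀ᵐ p ∂(volume.restrict D.Lam), f p ∈ (F : Set ℝ) := hF
  refine ⟨F, ?_⟩
  filter_upwards [h1, D.null_visit h (ae_iff.1 he.mem_iff)] with p hp hq L hL
  rw [avg_congr (T' := D.T) (R' := R') (x' := p) fun i _ => (not_not.1 (hq i)).symm] at hL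
  rwa [show f p = L from hL.limUnder_eq] at hp

end Pool.Agent.MP_8df504_an.C

end

section

set_option autoImplicit false

namespace Pool.Agent.MP_8df504_an.C

open Set Filter Topology MeasureTheory

/-! A common period on `Neu`; local affinity of iterates; wandering intervals.

`iter_aff_of_noB`: induct on `n`; near a point of `[0,1]` outside `B`, `T` is affine
(`exists_piece`).
`neu_period`: let `P` be a common period of all periodic points of `B`.  Let `x ∈ Neu`,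
`T^[p] = id` near `x`, `[α,β]` the largest segment around `x` on which `T^[p] = id` (`⊆ [0,1]`,
closed).  The orbit of `α` meets `B`: otherwise `T^[p]` is affine near `α` and the identity on the
right of `α`, so on a neighbourhood.  As `α` is periodic it is on the orbit of a periodic point of
`B`, so `T^[P] α = α`, and `T^[P] β = β`.  `f = T^[P]` is continuous and injective on `[α,β]`
(`T^[p P] = id` there), so increasing, maps `[α,β]` to itself and `f^[p] = id`; if `x < f x` then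
`f^[k] x` increases strictly: contradiction; same for `f x < x`.

`germ_aff`: one-sided version: for `z ∈ [0,1]` and a side there is a small segment at `z` that is
break-free or outside `[0,1]`; induct on `n`, shrinking `q''` towards `q`; images of the segment are
in `[0,1]`.
`wander`: with `q, q', p, σ` from `HasAttr`, take `q''` from `germ_aff` with `n = p`.  `T^[p]` maps
`uIcc q q''` into itself, so `T^[i] y = T^[i] q + κ i (y - q)` for all `i` with
`κ (i + p) = σ κ i`, `κ i ≠ 0` (`κ p = σ`, and `T^[p]` is injective on the segment).  Shrink `q''` so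
that `|κ i| |q'' - q|` is less than half the distance between different points of the finite orbit
of `q`.  The set of the ratios `κ j / κ i` has no accumulation point in `(0,∞)` (they are
`σ^a * κ j0 / κ i0`, `a ∈ ℤ`, `i0, j0 < p`), so for small `η` a ratio in `(1-η, 1/(1-η))` is `1`.
`U = {q + t (q'' - q) | 1 - η < t < 1}`.  If `T^[i] y = T^[j] y'` then `T^[i] q = T^[j] q`,
`κ i = κ j`, `y = y'`; if `i < j` then `T^[i] = T^[j]` on the segment, so `κ (i + l) = κ (j + l)`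
for all `l`, and `κ i = κ (i + p (j-i)) = σ^(j-i) κ i`: contradiction. -/

lemma np_fix {f : ℝ → ℝ} {α β x : ℝ} {p : ℕ} (hp : 1 ≤ p) (hf : Continuous f) (ha : f α = α)
    (hb : f β = β) (hx : x ∈ Icc α β) (h : ∀ y ∈ Icc α β, f^[p] y = y) : f x = x := by
  have hab : α ≤ β := hx.1.trans hx.2
  obtain ⟨q, rfl⟩ : ∃ q, p = q + 1 := ⟨p - 1, by omega⟩
  have hm : StrictMonoOn f (Icc α β) :=
    hf.continuousOn.strictMonoOn_of_injOn_Icc hab (by rwa [ha, hb]) fun y hy z hz e => by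
      rw [← h y hy, ← h z hz, Function.iterate_succ_apply, Function.iterate_succ_apply, e]
  have hM : MapsTo f (Icc α β) (Icc α β) := fun y hy =>
    ⟨ha ▸ hm.monotoneOn (left_mem_Icc.2 hab) hy hy.1, hb ▸ hm.monotoneOn hy (right_mem_Icc.2 hab) hy.2⟩
  rcases lt_trichotomy (f x) x with c | c | c
  · have : ∀ k, f^[k + 1] x < x := fun k => by
      induction k with
      | zero => exact c
      | succ k ih =>
        rw [Function.iterate_succ_apply']
        exact (hm (hM.iterate _ hx) hx ih).trans c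
    exact absurd (h x hx) (this q).ne
  · exact c
  · have : ∀ k, x < f^[k + 1] x := fun k => by
      induction k with
      | zero => exact c
      | succ k ih =>
        rw [Function.iterate_succ_apply']
        exact c.trans (hm hx (hM.iterate _ hx) ih)
    exact absurd (h x hx) (this q).ne'

namespace BL

variable (D : BL)

lemma iter_aff_of_noB {z : ℝ} (hz : z ∈ Icc (0 : ℝ) 1) (n : ℕ) (h : ∀ i < n, D.T^[i] z ∉ D.B) :
    ∃ κ : ℝ, ∀ᶠ y in 𝓝 z, D.T^[n] y = D.T^[n] z + κ * (y - z) := by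
  induction n with
  | zero => exact ⟨1, Eventually.of_forall fun y => by simp⟩
  | succ n ih =>
    obtain ⟨κ, hκ⟩ := ih fun i hi => h i (Nat.lt_succ_of_lt hi)
    have h1 : D.T^[n] z ∈ Icc (0 : ℝ) 1 := by
      cases n with
      | zero => exact hz
      | succ n =>
        rw [Function.iterate_succ_apply']
        exact D.maps _
    obtain ⟨j, hj⟩ := D.exists_piece h1 (h n n.lt_succ_self)
    refine ⟨D.c j * κ, ?_⟩
    filter_upwards [hκ, (D.cont.iterate n).continuousAt.eventually (isOpen_Ioo.mem_nhds hj)]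
      with y h2 h3
    rw [Function.iterate_succ_apply', Function.iterate_succ_apply',
      D.aff j _ (Ioo_subset_Icc_self h3), D.aff j _ (Ioo_subset_Icc_self hj), h2]
    ring

lemma np_mem {p : ℕ} (hp : 1 ≤ p) {y : ℝ} (h : D.T^[p] y = y) : y ∈ Icc (0 : ℝ) 1 := by
  obtain ⟨q, rfl⟩ : ∃ q, p = q + 1 := ⟨p - 1, by omega⟩
  rw [← h, Function.iterate_succ_apply']
  exact D.maps _

lemma np_end {p : ℕ} (hp : 1 ≤ p) {z : ℝ} (h1 : z ∉ interior {y | D.T^[p] y = y})
    (h2 : ∃ᶠ y in 𝓝[≠] z, D.T^[p] y = y) :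
    D.T^[p] z = z ∧ D.T^[(D.B.sup (Function.minimalPeriod D.T)).factorial] z = z := by
  have hz : D.T^[p] z = z :=
    (isClosed_eq (D.cont.iterate p) continuous_id).mem_of_frequently_of_tendsto
      (h2.filter_mono nhdsWithin_le_nhds) tendsto_id
  refine ⟨hz, ?_⟩
  have hper : z ∈ Function.periodicPts D.T := ⟨p, hp, hz⟩
  by_cases hB : ∀ i < p, D.T^[i] z ∉ D.B
  · obtain ⟨κ, hκ⟩ := D.iter_aff_of_noB (D.np_mem hp hz) p hB
    obtain ⟨y, ⟨e1, e2⟩, e3⟩ := ((h2.and_eventually (hκ.filter_mono nhdsWithin_le_nhds)).and_eventually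
      self_mem_nhdsWithin).exists
    have e4 : κ = 1 := by
      have e5 : y - z ≠ 0 := sub_ne_zero.2 e3
      refine mul_right_cancel₀ e5 ?_
      rw [e1, hz] at e2
      linarith
    refine absurd (mem_interior_iff_mem_nhds.2 (hκ.mono fun w hw => ?_)) h1
    rw [hw, hz, e4]
    ring
  · push Not at hB
    obtain ⟨i, -, hi⟩ := hB
    have e1 := Finset.le_sup (f := Function.minimalPeriod D.T) hi
    rw [Function.minimalPeriod_apply_iterate hper] at e1
    exact Function.isPeriodicPt_iff_minimalPeriod_dvd.2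
      (Nat.dvd_factorial (Function.minimalPeriod_pos_of_mem_periodicPts hper) e1)

lemma neu_period : ∃ P : ℕ, 1 ≤ P ∧ ∀ x ∈ D.Neu, D.T^[P] x = x := by
  refine ⟨_, Nat.factorial_pos (D.B.sup (Function.minimalPeriod D.T)), ?_⟩
  rintro x ⟨p, hp, hx⟩
  have hx' : x ∈ interior {y | D.T^[p] y = y} := mem_interior_iff_mem_nhds.2 hx
  have h01 := D.np_mem hp hx.self_of_nhds
  have hout : ∀ y, y ∉ Icc (0 : ℝ) 1 → y ∉ interior {y | D.T^[p] y = y} := fun y hy h =>
    hy (D.np_mem hp (interior_subset (s := {y | D.T^[p] y = y}) h))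
  have hcl := (isOpen_interior (s := {y | D.T^[p] y = y})).isClosed_compl
  obtain ⟨α, ⟨a1, a2⟩, a3⟩ := (isCompact_Icc.inter_right hcl).exists_isGreatest
    (s := Icc (-1) x ∩ (interior {y | D.T^[p] y = y})ᶜ)
    ⟨-1, ⟨le_rfl, by linarith [h01.1]⟩, hout _ fun h => by linarith [h.1]⟩
  obtain ⟨β, ⟨b1, b2⟩, b3⟩ := (isCompact_Icc.inter_right hcl).exists_isLeast
    (s := Icc x 2 ∩ (interior {y | D.T^[p] y = y})ᶜ)
    ⟨2, ⟨by linarith [h01.2], le_rfl⟩, hout _ fun h => by linarith [h.2]⟩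
  have a4 : α < x := lt_of_le_of_ne a1.2 fun e => a2 (e ▸ hx')
  have b4 : x < β := lt_of_le_of_ne b1.1 fun e => b2 (e ▸ hx')
  have hin : ∀ y ∈ Ioo α β, D.T^[p] y = y := fun y hy => by
    refine interior_subset (s := {y | D.T^[p] y = y}) (by_contra fun h => ?_)
    rcases le_total y x with c | c
    · exact absurd (a3 ⟨⟨a1.1.trans hy.1.le, c⟩, h⟩) hy.1.not_ge
    · exact absurd (b3 ⟨⟨c, hy.2.le.trans b1.2⟩, h⟩) hy.2.not_ge
  obtain ⟨a5, a6⟩ := D.np_end hp a2 ((Eventually.frequently (f := 𝓝[>] α)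
    (mem_of_superset (Ioo_mem_nhdsGT (a4.trans b4)) hin)).filter_mono (nhdsGT_le_nhdsNE α))
  obtain ⟨b5, b6⟩ := D.np_end hp b2 ((Eventually.frequently (f := 𝓝[<] β)
    (mem_of_superset (Ioo_mem_nhdsLT (a4.trans b4)) hin)).filter_mono (nhdsLT_le_nhdsNE β))
  refine np_fix hp (D.cont.iterate _) a6 b6 ⟨a4.le, b4.le⟩ fun y hy => ?_
  rw [← Function.iterate_mul, mul_comm, Function.iterate_mul]
  refine Function.iterate_fixed ?_ _
  rcases hy.1.eq_or_lt with c | c
  · rwa [← c]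
  · rcases hy.2.eq_or_lt with c' | c'
    · rwa [c']
    · exact hin y ⟨c, c'⟩

end BL

end Pool.Agent.MP_8df504_an.C

end

section

set_option autoImplicit false

namespace Pool.Agent.MP_8df504_an.C

open Set Filter Topology MeasureTheory

/-! The positive halves.

`trichotomy`: follow the orbit; if it never meets `Neu`, `B` or a flat piece, the point is in `Lam`
(`exists_piece`).  `ae_trichotomy`: the sets `N 0 = B`,
`N (i+1) = ⋃ j (c j ≠ 0), Piece j ∩ T ⁻¹' N i` are finite, so their union is null; a point outside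
whose orbit meets `B` meets a flat piece before.
`pos1`: on `Lam` use `conv_Lam` (`ae_restrict_iff'`, `lam_meas`); `Neu`: `neu_period`,
`avg_periodic`, `avg_shift`; flat piece `j`: `T (T^[i] p) = T (a j.castSucc)` and `a j.castSucc` is
eventually periodic.
`pos2`: `F` = values from `fin_Lam`, the numbers `k / P`, and for each `z` in the finite set
`B ∪ {d j}` the limit of `ergAvg T R z` when it exists (`limUnder`, `tendsto_nhds_unique`). -/

namespace BL

variable (D : BL)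

lemma posq_iter {p : ℝ} (hp : p ∈ Icc (0 : ℝ) 1) (i : ℕ) : D.T^[i] p ∈ Icc (0 : ℝ) 1 := by
  cases i with
  | zero => exact hp
  | succ i => rw [Function.iterate_succ_apply']; exact D.maps _

/-- points that reach `B` at time `i` through pieces of nonzero slope -/
def posq_S (i : ℕ) : Set ℝ :=
  {p | D.T^[i] p ∈ D.B ∧ ∀ k < i, ∃ j, D.c j ≠ 0 ∧ D.T^[k] p ∈ D.Piece j}

lemma posq_S_finite (i : ℕ) : (D.posq_S i).Finite := by
  induction i with
  | zero => exact D.B.finite_toSet.subset fun p hp => hp.1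
  | succ i ih =>
    have h1 : ∀ j : Fin D.m, {p | D.c j ≠ 0 ∧ p ∈ D.Piece j ∧ D.T p ∈ D.posq_S i}.Finite := by
      intro j
      refine Set.Finite.of_finite_image (f := D.T) (ih.subset ?_) ?_
      · rintro _ ⟨p, hp, rfl⟩
        exact hp.2.2
      · intro x hx y hy hxy
        rw [D.aff j x (Ioo_subset_Icc_self hx.2.1), D.aff j y (Ioo_subset_Icc_self hy.2.1)] at hxy
        exact mul_left_cancel₀ hx.1 (add_right_cancel hxy)
    refine (Set.finite_iUnion h1).subset fun p hp => ?_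
    obtain ⟨j, hj, hpj⟩ := hp.2 0 (Nat.succ_pos i)
    refine mem_iUnion.2 ⟨j, hj, hpj, ?_, fun k hk => ?_⟩
    · exact hp.1
    · exact hp.2 (k + 1) (Nat.succ_lt_succ hk)

lemma trichotomy {p : ℝ} (hp : p ∈ Icc (0 : ℝ) 1) :
    p ∈ D.Lam ∨ (∃ i, D.T^[i] p ∈ D.Neu) ∨ (∃ i j, D.c j = 0 ∧ D.T^[i] p ∈ D.Piece j) ∨
      ∃ i, D.T^[i] p ∈ D.B := by
  by_contra hc
  simp only [not_or, not_exists, not_and] at hc
  obtain ⟨h1, h2, h3, h4⟩ := hc
  apply h1
  intro i
  refine ⟨h2 i, ?_⟩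
  obtain ⟨j, hj⟩ := D.exists_piece (D.posq_iter hp i) (h4 i)
  exact ⟨j, fun h0 => h3 i j h0 hj, hj⟩

lemma ae_trichotomy : ∀ᵐ p ∂(volume.restrict (Icc (0 : ℝ) 1)),
    p ∈ D.Lam ∨ (∃ i, D.T^[i] p ∈ D.Neu) ∨ (∃ i j, D.c j = 0 ∧ D.T^[i] p ∈ D.Piece j) := by
  have hfin : ∀ i : ℕ, (D.posq_S i).Finite := D.posq_S_finite
  have hnull : volume (⋃ i : ℕ, D.posq_S i) = 0 :=
    measure_iUnion_null fun i => (hfin i).measure_zero volume
  have h1 : ∀ᵐ p ∂(volume : Measure ℝ), p ∉ ⋃ i : ℕ, D.posq_S i :=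
    measure_eq_zero_iff_ae_notMem.1 hnull
  filter_upwards [ae_restrict_of_ae h1, ae_restrict_mem measurableSet_Icc] with p hp1 hp
  rcases D.trichotomy hp with h | h | h | h
  · exact Or.inl h
  · exact Or.inr (Or.inl h)
  · exact Or.inr (Or.inr h)
  · classical
    by_contra hc
    simp only [not_or, not_exists, not_and] at hc
    obtain ⟨_, _, h3⟩ := hc
    apply hp1
    refine mem_iUnion.2 ⟨Nat.find h, Nat.find_spec h, fun k hk => ?_⟩
    obtain ⟨j, hj⟩ := D.exists_piece (D.posq_iter hp k) (Nat.find_min h hk)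
    exact ⟨j, fun h0 => h3 k j h0 hj, hj⟩

lemma pos1 (h : D.Expd) (hf : FlatEvPer D.T) {R : Set ℝ} (hR : NullMeasurableSet R volume) :
    ∀ᵐ p ∂(volume.restrict (Icc (0 : ℝ) 1)), ∃ L, Tendsto (ergAvg D.T R p) atTop (𝓝 L) := by
  have h1 := (ae_restrict_iff' D.lam_meas).1 (D.conv_Lam h hR)
  obtain ⟨P, hP, hper⟩ := D.neu_period
  filter_upwards [ae_restrict_of_ae h1, D.ae_trichotomy] with p hp1 hp
  rcases hp with hp | ⟨i, hi⟩ | ⟨i, j, hj, hi⟩
  · exact hp1 hp
  · obtain ⟨k, _, hk⟩ := avg_periodic D.T R hP (hper _ hi)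
    exact ⟨_, (avg_shift D.T R p i _).1 hk⟩
  · have hlt : D.a j.castSucc < D.a j.succ := D.mono Fin.castSucc_lt_succ
    have hconst : ∀ y ∈ Icc (D.a j.castSucc) (D.a j.succ), D.T y = D.d j := by
      intro y hy
      rw [D.aff j y hy, hj]; ring
    have hu : D.T (D.a j.castSucc) = D.d j := hconst _ (left_mem_Icc.2 hlt.le)
    obtain ⟨n, Q, hQ, hn⟩ := hf _ _ (D.a_mem _).1 hlt (D.a_mem _).2
      (fun y hy => by rw [hconst y hy, hu])
    have hx : D.T (D.T^[i] p) = D.d j := hconst _ (Ioo_subset_Icc_self hi)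
    have e1 : D.T^[n + 1 + i] p = D.T^[n + 1] (D.a j.castSucc) := by
      rw [Function.iterate_add_apply, Function.iterate_succ_apply, Function.iterate_succ_apply,
        hx, hu]
    have e2 : D.T^[Q] (D.T^[n + 1 + i] p) = D.T^[n + 1 + i] p := by
      rw [e1, ← Function.iterate_add_apply, show Q + (n + 1) = (n + Q) + 1 by ring,
        Function.iterate_succ_apply', hn, Function.iterate_succ_apply']
    obtain ⟨k, _, hk⟩ := avg_periodic D.T R hQ e2
    exact ⟨_, (avg_shift D.T R p _ _).1 hk⟩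

lemma pos2 (h : D.Expd) {R : Set ℝ} (hR : NullMeasurableSet R volume) :
    ∃ F : Finset ℝ, ∀ᵐ p ∂(volume.restrict (Icc (0 : ℝ) 1)),
      ∀ L, Tendsto (ergAvg D.T R p) atTop (𝓝 L) → L ∈ F := by
  classical
  obtain ⟨F0, hF0⟩ := D.fin_Lam h hR
  have h1 := (ae_restrict_iff' D.lam_meas).1 hF0
  obtain ⟨P, hP, hper⟩ := D.neu_period
  refine ⟨F0 ∪ ((Finset.range (P + 1)).image (fun k : ℕ => (k : ℝ) / P) ∪
    Finset.univ.image (fun j : Fin D.m => limUnder atTop (ergAvg D.T R (D.d j)))), ?_⟩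
  filter_upwards [ae_restrict_of_ae h1, D.ae_trichotomy] with p hp1 hp L hL
  rcases hp with hp | ⟨i, hi⟩ | ⟨i, j, hj, hi⟩
  · exact Finset.mem_union_left _ (hp1 hp L hL)
  · obtain ⟨k, hkP, hk⟩ := avg_periodic D.T R hP (hper _ hi)
    have e := tendsto_nhds_unique hL ((avg_shift D.T R p i _).1 hk)
    refine Finset.mem_union_right _ (Finset.mem_union_left _ ?_)
    exact Finset.mem_image.2 ⟨k, Finset.mem_range.2 (Nat.lt_succ_of_le hkP), e.symm⟩
  · have hx : D.T^[i + 1] p = D.d j := by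
      rw [Function.iterate_succ_apply', D.aff j _ (Ioo_subset_Icc_self hi), hj]; ring
    have h2 := (avg_shift D.T R p (i + 1) L).2 hL
    rw [hx] at h2
    refine Finset.mem_union_right _ (Finset.mem_union_right _ ?_)
    exact Finset.mem_image.2 ⟨j, Finset.mem_univ _, h2.limUnder_eq⟩

end BL

end Pool.Agent.MP_8df504_an.C

end

section

set_option autoImplicit false

namespace Pool.Agent.MP_8df504_an.C

open Set Filter Topology MeasureTheory

/-! Counterexamples from a wandering interval or a flat piece.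

`neg1`: `R = ⋃ i ∈ S, T^[i] '' Ioo α β` (images of intervals are order-connected, hence measurable).
`neg1_flat`: the orbit of `u` is injective, `R = {T^[i] u | i ∈ S}` is countable.
`neg2`: `U k = Ioo (α + (β-α)/(k+1)) (α + (β-α)/k)`, `k ≥ 1`, `R = ⋃ k≥1, ⋃ i (k ∣ i), T^[i] '' U k`.
For `y ∈ U k` the limit is `1/k` (`avg_dvd`); for `y ∈ Ioo α β` in no `U k` it is `0`; if
`T^[l] p = T^[i] y` with `y ∈ Ioo α β` use `avg_shift` twice; otherwise the orbit of `p` misses `R`.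
Choose `L`.  A finite `F` misses some `1/k` and `U k` has positive measure. -/

lemma negq_ae {P : ℝ → Prop} {a b : ℝ} (h0 : 0 ≤ a) (hab : a < b) (h1 : b ≤ 1)
    (h : ∀ᵐ p ∂(volume.restrict (Icc (0 : ℝ) 1)), P p) : ∃ y ∈ Ioo a b, P y :=
  Measure.exists_mem_of_measure_ne_zero_of_ae (μ := volume) (by simpa using hab)
    (ae_restrict_of_ae_restrict_of_subset (Ioo_subset_Icc_self.trans (Icc_subset_Icc h0 h1)) h)

lemma negq_mem {T : ℝ → ℝ} (hm : ∀ x, T x ∈ Icc (0 : ℝ) 1) {y : ℝ} (hy : y ∈ Icc (0 : ℝ) 1) :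
    ∀ i, T^[i] y ∈ Icc (0 : ℝ) 1
  | 0 => hy
  | i + 1 => by rw [Function.iterate_succ_apply']; exact hm _

lemma negq_meas {T : ℝ → ℝ} (hT : Continuous T) (i : ℕ) (a b : ℝ) :
    MeasurableSet (T^[i] '' Ioo a b) :=
  (isPreconnected_Ioo.image _ (hT.iterate i).continuousOn).ordConnected.measurableSet

lemma neg1 {T : ℝ → ℝ} (hT : Continuous T) (hm : ∀ x, T x ∈ Icc (0 : ℝ) 1) {α β : ℝ}
    (h0 : 0 ≤ α) (hαβ : α < β) (h1 : β ≤ 1)
    (hw : ∀ (i j : ℕ), ∀ y ∈ Ioo α β, ∀ y' ∈ Ioo α β, T^[i] y = T^[j] y' → i = j ∧ y = y') :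
    ∃ R : Set ℝ, MeasurableSet R ∧ R ⊆ Icc 0 1 ∧
      ¬ ∀ᵐ p ∂(volume.restrict (Icc (0 : ℝ) 1)), ∃ L, Tendsto (ergAvg T R p) atTop (𝓝 L) := by
  obtain ⟨S, hS⟩ := exists_osc
  refine ⟨⋃ i ∈ S, T^[i] '' Ioo α β, MeasurableSet.biUnion S.to_countable fun i _ =>
    negq_meas hT i α β, iUnion₂_subset fun i _ => ?_, fun h => ?_⟩
  · rintro _ ⟨y, hy, rfl⟩
    exact negq_mem hm ⟨h0.trans hy.1.le, hy.2.le.trans h1⟩ i
  obtain ⟨y, hy, hL⟩ := negq_ae h0 hαβ h1 h
  revert hL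
  refine hS T _ y fun i _ => ⟨fun hi => ?_, fun hi => mem_biUnion hi ⟨y, hy, rfl⟩⟩
  obtain ⟨j, hj, y', hy', e⟩ := mem_iUnion₂.1 hi
  exact (hw j i y' hy' y hy e).1 ▸ hj

lemma neg1_flat {T : ℝ → ℝ} (hm : ∀ x, T x ∈ Icc (0 : ℝ) 1) (h : ¬ FlatEvPer T) :
    ∃ R : Set ℝ, MeasurableSet R ∧ R ⊆ Icc 0 1 ∧
      ¬ ∀ᵐ p ∂(volume.restrict (Icc (0 : ℝ) 1)), ∃ L, Tendsto (ergAvg T R p) atTop (𝓝 L) := by
  obtain ⟨S, hS⟩ := exists_osc
  simp only [FlatEvPer, not_forall, not_exists, not_and] at h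
  obtain ⟨u, v, h0, huv, h1, hc, hn⟩ := h
  have inj : Function.Injective fun i => T^[i] u := by
    refine Function.Injective.of_lt_imp_ne fun i j hij e => hn i (j - i) (by omega) ?_
    rw [Nat.add_sub_cancel' hij.le]
    exact e.symm
  refine ⟨(fun i => T^[i] u) '' S, (S.to_countable.image _).measurableSet, ?_, fun h => ?_⟩
  · rintro _ ⟨i, -, rfl⟩
    exact negq_mem hm ⟨h0, huv.le.trans h1⟩ i
  obtain ⟨y, hy, hL⟩ := negq_ae h0 huv h1 h
  refine hS T _ y (fun i hi => ?_) hL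
  obtain ⟨i, rfl⟩ := Nat.exists_eq_add_of_le' hi
  rw [Function.iterate_succ_apply, hc y (Ioo_subset_Icc_self hy), ← Function.iterate_succ_apply]
  exact inj.mem_set_image

lemma neg2 {T : ℝ → ℝ} (hT : Continuous T) (hm : ∀ x, T x ∈ Icc (0 : ℝ) 1) {α β : ℝ}
    (h0 : 0 ≤ α) (hαβ : α < β) (h1 : β ≤ 1)
    (hw : ∀ (i j : ℕ), ∀ y ∈ Ioo α β, ∀ y' ∈ Ioo α β, T^[i] y = T^[j] y' → i = j ∧ y = y') :
    ∃ (R : Set ℝ) (L : ℝ → ℝ), MeasurableSet R ∧ R ⊆ Icc 0 1 ∧
      (∀ p, Tendsto (ergAvg T R p) atTop (𝓝 (L p))) ∧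
      ∀ F : Finset ℝ, ¬ ∀ᵐ p ∂(volume.restrict (Icc (0 : ℝ) 1)), L p ∈ F := by
  set a : ℕ → ℝ := fun k => α + (β - α) / (k + 1) with ha
  have hd := sub_pos.2 hαβ
  have anti : StrictAnti a := strictAnti_nat_of_succ_lt fun k => by
    simp only [ha, add_lt_add_iff_left]
    exact div_lt_div_of_pos_left hd (by positivity) (by push_cast; linarith)
  have lo : ∀ k, α < a k := fun k => lt_add_of_pos_right _ (by positivity)
  have hi : ∀ k, a k ≤ β := fun k => (anti.antitone (Nat.zero_le k)).trans_eq (by simp [ha])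
  have sub : ∀ k, Ioo (a (k + 1)) (a k) ⊆ Ioo α β := fun k => Ioo_subset_Ioo (lo _).le (hi k)
  set R : Set ℝ := ⋃ k : ℕ, ⋃ i ∈ {i | k + 1 ∣ i}, T^[i] '' Ioo (a (k + 1)) (a k) with hR
  have mem : ∀ y ∈ Ioo α β, ∀ i, T^[i] y ∈ R ↔ ∃ k, k + 1 ∣ i ∧ y ∈ Ioo (a (k + 1)) (a k) := by
    refine fun y hy i => ⟨fun h => ?_, fun ⟨k, h, h'⟩ =>
      mem_iUnion.2 ⟨k, mem_biUnion h ⟨y, h', rfl⟩⟩⟩
    obtain ⟨k, h⟩ := mem_iUnion.1 h
    obtain ⟨j, hj, y', hy', e⟩ := mem_iUnion₂.1 h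
    obtain ⟨rfl, rfl⟩ := hw j i y' (sub k hy') y hy e
    exact ⟨k, hj, hy'⟩
  have lim : ∀ k : ℕ, ∀ y ∈ Ioo (a (k + 1)) (a k),
      Tendsto (ergAvg T R y) atTop (𝓝 (1 / ((k + 1 : ℕ) : ℝ))) := fun k y hy => by
    refine avg_dvd (by omega) fun i _ => (mem y (sub k hy) i).trans
      ⟨fun ⟨l, h, h'⟩ => ?_, fun h => ⟨k, h, hy⟩⟩
    have e1 := anti.lt_iff_gt.1 (hy.1.trans h'.2)
    have e2 := anti.lt_iff_gt.1 (h'.1.trans hy.2)
    rwa [show k = l by omega]
  have ex0 : ∀ y ∈ Ioo α β, ∃ L, Tendsto (ergAvg T R y) atTop (𝓝 L) := fun y hy => by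
    by_cases h : ∃ k, y ∈ Ioo (a (k + 1)) (a k)
    · exact ⟨_, lim _ y h.choose_spec⟩
    · exact ⟨0, avg_zero fun i _ hi => h (((mem y hy i).1 hi).imp fun _ h => h.2)⟩
  have ex : ∀ p, ∃ L, Tendsto (ergAvg T R p) atTop (𝓝 L) := fun p => by
    by_cases h : ∃ l, T^[l] p ∈ R
    · obtain ⟨l, h⟩ := h
      obtain ⟨k, h⟩ := mem_iUnion.1 h
      obtain ⟨j, -, y, hy, e⟩ := mem_iUnion₂.1 h
      obtain ⟨L, hL⟩ := ex0 y (sub k hy)
      exact ⟨L, (avg_shift T R p l L).1 (e ▸ (avg_shift T R y j L).2 hL)⟩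
    · exact ⟨0, avg_zero fun i _ hi => h ⟨i, hi⟩⟩
  choose L hL using ex
  refine ⟨R, L, MeasurableSet.iUnion fun k => MeasurableSet.biUnion (to_countable _) fun i _ =>
    negq_meas hT i _ _, iUnion_subset fun k => iUnion₂_subset fun i _ => ?_, hL, fun F h => ?_⟩
  · rintro _ ⟨y, hy, rfl⟩
    exact negq_mem hm ⟨h0.trans (sub k hy).1.le, (sub k hy).2.le.trans h1⟩ i
  have inj : Function.Injective fun k : ℕ => 1 / ((k + 1 : ℕ) : ℝ) := fun k l e => by
    simpa using e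
  obtain ⟨k, hk⟩ := Infinite.exists_notMem_finset (F.preimage _ inj.injOn)
  obtain ⟨y, hy, hF⟩ := negq_ae (h0.trans (lo _).le) (anti k.lt_succ_self) ((hi k).trans h1) h
  rw [tendsto_nhds_unique (hL y) (lim k y hy)] at hF
  exact hk (Finset.mem_preimage.2 hF)

end Pool.Agent.MP_8df504_an.C

end
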