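import Pool.Agent.Mg.F8df504.G78a617

section

set_option autoImplicit false

namespace Pool.Agent.MP_8df504_an.C

open Set Filter Topology MeasureTheory

/-! Comparison of `Pt T A` with `Dl A` times the product of the slopes.

Hints.  `g ↦ g.1` is injective on `gaps A` (`Gap.eq_of_fst`) with image `A` minus its maximum
(`exists_edge_from`).  Call an edge `g` bad if some `b ∈ B` has `g.1 ≤ b < g.2`; different bad
edges use different `b` (`Gap.sep`), so there are at most `B.card` bad edges.  For a good edge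
`g.1 ∉ B` and `NoB B g.1 g.2`, so `img T g = s g.1 * len g` by `SlopeAt`.  For a bad edge
`img ≤ M len ≤ (M/m) s len` and (in `low`) `img ≥ c len ≥ (c/M) s len`.  The missing factors
`s (max)`, `s e.1` lie in `[m, M]`.
`T1lo`, `T1up`: `orb y n = insert (y 0) (mid y n)`, `(orb y n).image T = insert (y n) (mid y n)`,
use a function `s'` on reals with `s' (y i) = s i` for `i < n` (for instance via
`Function.invFunOn` or `Function.extend` restricted to `Fin n`), `Dl_image_le`, `up`, `low`. -/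

open Classical in
lemma fin3_bad (A B : Finset ℝ) :
    ((gaps A).filter fun g => ∃ b ∈ B, g.1 ≤ b ∧ b < g.2).card ≤ B.card := by
  refine Finset.card_le_card_of_forall_subsingleton (fun g b => g.1 ≤ b ∧ b < g.2)
    (fun g hg => (Finset.mem_filter.1 hg).2) fun b _ g hg g' hg' => ?_
  by_contra hne
  rcases Gap.sep (mem_gaps.1 (Finset.mem_filter.1 hg.1).1)
    (mem_gaps.1 (Finset.mem_filter.1 hg'.1).1) hne with c | c <;>
    linarith [hg.2.1, hg.2.2, hg'.2.1, hg'.2.2]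

lemma fin3_good {T : ℝ → ℝ} {lo hi : ℝ} {B A : Finset ℝ} {s : ℝ → ℝ}
    (hsub : ∀ a ∈ A, a ∈ Icc lo hi) (hs : ∀ a ∈ A, SlopeAt T hi B a (s a)) {g : ℝ × ℝ}
    (hg : g ∈ gaps A) (h : ¬ ∃ b ∈ B, g.1 ≤ b ∧ b < g.2) : img T g = s g.1 * len g := by
  have h1 := mem_gaps.1 hg
  exact hs g.1 h1.1 (fun hb => h ⟨_, hb, le_rfl, h1.2.2.1⟩) g.2 h1.2.2.1 (hsub g.2 h1.2.1).2
    fun b hb hc => h ⟨b, hb, hc.1.le, hc.2⟩

lemma fin3_prod {A : Finset ℝ} (hA : A.Nonempty) (s : ℝ → ℝ) :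
    ∏ a ∈ A, s a = s (A.max' hA) * ∏ g ∈ gaps A, s g.1 := by
  rw [← Finset.mul_prod_erase A s (A.max'_mem hA)]
  congr 1
  symm
  refine Finset.prod_bij (fun g _ => g.1) (fun g hg => ?_)
    (fun g hg g' hg' e => Gap.eq_of_fst (mem_gaps.1 hg) (mem_gaps.1 hg') e) (fun a ha => ?_)
    fun _ _ => rfl
  · have h1 := mem_gaps.1 hg
    exact Finset.mem_erase.2 ⟨(h1.2.2.1.trans_le (A.le_max' _ h1.2.1)).ne, h1.1⟩
  · obtain ⟨h1, h2⟩ := Finset.mem_erase.1 ha
    obtain ⟨g, hg, e, -⟩ := exists_edge_from h2 (A.max'_mem hA)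
      (lt_of_le_of_ne (A.le_max' _ h2) h1)
    exact ⟨g, hg, e⟩

open Classical in
lemma fin3_ite (A B : Finset ℝ) {F : Finset (ℝ × ℝ)} (hF : F ⊆ gaps A) (t : ℝ) (f : ℝ × ℝ → ℝ) :
    ∃ k ≤ B.card, ∏ g ∈ F, ((if ∃ b ∈ B, g.1 ≤ b ∧ b < g.2 then t else 1) * f g) =
      t ^ k * ∏ g ∈ F, f g := by
  refine ⟨_, (Finset.card_le_card (Finset.filter_subset_filter _ hF)).trans (fin3_bad A B), ?_⟩
  rw [Finset.prod_mul_distrib, Finset.prod_ite, Finset.prod_const, Finset.prod_const_one, mul_one]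

lemma fin3_up {T : ℝ → ℝ} {lo hi m M : ℝ} {B A : Finset ℝ} {s : ℝ → ℝ} (hm : 0 < m)
    (hlip : LipOn T lo hi M) (hA : A.Nonempty) (hsub : ∀ a ∈ A, a ∈ Icc lo hi)
    (hs : ∀ a ∈ A, m ≤ s a ∧ s a ≤ M ∧ SlopeAt T hi B a (s a)) {F : Finset (ℝ × ℝ)}
    (hF : F ⊆ gaps A) :
    ∏ g ∈ F, img T g ≤ (M / m) ^ B.card * ∏ g ∈ F, s g.1 * len g := by
  classical
  have hM : m ≤ M := let ⟨a, ha⟩ := hA; (hs a ha).1.trans (hs a ha).2.1
  obtain ⟨k, hk, e⟩ := fin3_ite A B hF (M / m) fun g => s g.1 * len g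
  have h0 : ∀ g ∈ F, 0 ≤ s g.1 * len g := fun g hg =>
    mul_nonneg (hm.le.trans (hs _ (mem_gaps.1 (hF hg)).1).1) (Gap.len_pos (mem_gaps.1 (hF hg))).le
  refine le_trans (Finset.prod_le_prod (fun g _ => img_nonneg T g) fun g hg => ?_)
    (e.le.trans (mul_le_mul_of_nonneg_right
      (pow_le_pow_right₀ ((one_le_div hm).2 hM) hk) (Finset.prod_nonneg h0)))
  have h1 := mem_gaps.1 (hF hg)
  have h2 := Gap.len_pos h1
  split_ifs with h
  · have h3 := hlip g.2 (hsub _ h1.2.1) g.1 (hsub _ h1.1)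
    rw [abs_of_pos (a := g.2 - g.1) h2] at h3
    refine le_trans h3 ?_
    rw [← mul_assoc]
    refine mul_le_mul_of_nonneg_right ?_ h2.le
    rw [div_mul_eq_mul_div, le_div_iff₀ hm]
    exact mul_le_mul_of_nonneg_left (hs _ h1.1).1 (hm.le.trans hM)
  · rw [one_mul, fin3_good hsub (fun a ha => (hs a ha).2.2) (hF hg) h]

lemma fin3_orb {T : ℝ → ℝ} {y : ℕ → ℝ} {n : ℕ} (hn : 1 ≤ n) (hy : ∀ i < n, y (i + 1) = T (y i)) :
    orb y n = insert (y 0) (mid y n) ∧ (orb y n).image T = insert (y n) (mid y n) := by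
  constructor
  · unfold orb mid
    rw [← Finset.image_insert]
    congr 1
    ext i
    simp only [Finset.mem_range, Finset.mem_insert, Finset.mem_Ioo]
    omega
  · ext z
    simp only [orb, mid, Finset.mem_image, Finset.mem_range, Finset.mem_insert, Finset.mem_Ioo]
    constructor
    · rintro ⟨_, ⟨i, hi, rfl⟩, rfl⟩
      rw [← hy i hi]
      rcases Nat.lt_or_ge (i + 1) n with h | h
      · exact Or.inr ⟨i + 1, ⟨by omega, h⟩, rfl⟩
      · exact Or.inl (by rw [show i + 1 = n by omega])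
    · rintro (rfl | ⟨i, hi, rfl⟩)
      · exact ⟨_, ⟨n - 1, by omega, rfl⟩, by rw [← hy _ (by omega), show n - 1 + 1 = n by omega]⟩
      · exact ⟨_, ⟨i - 1, by omega, rfl⟩, by rw [← hy _ (by omega), show i - 1 + 1 = i by omega]⟩

lemma fin3_s {y : ℕ → ℝ} {n : ℕ} (hinj : ∀ i ≤ n, ∀ j ≤ n, y i = y j → i = j) (s : ℕ → ℝ) :
    ∃ s' : ℝ → ℝ, (∀ i < n, s' (y i) = s i) ∧
      ∏ a ∈ orb y n, s' a = ∏ i ∈ Finset.range n, s i := by
  have h1 : InjOn y (Finset.range n : Set ℕ) := fun i hi j hj =>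
    hinj i (Finset.mem_range.1 hi).le j (Finset.mem_range.1 hj).le
  have h2 : ∀ i < n, s (Function.invFunOn y (Finset.range n : Set ℕ) (y i)) = s i := fun i hi => by
    rw [h1.leftInvOn_invFunOn (Finset.mem_range.2 hi)]
  refine ⟨fun a => s (Function.invFunOn y (Finset.range n : Set ℕ) a), h2, ?_⟩
  rw [orb, Finset.prod_image h1]
  exact Finset.prod_congr rfl fun i hi => h2 i (Finset.mem_range.1 hi)

lemma fin3_all {y : ℕ → ℝ} {n : ℕ} {p : ℝ → Prop} (h : ∀ i < n, p (y i)) : ∀ a ∈ orb y n, p a := by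
  intro a ha
  obtain ⟨i, hi, rfl⟩ := Finset.mem_image.1 ha
  exact h i (Finset.mem_range.1 hi)

lemma up {T : ℝ → ℝ} {lo hi m M : ℝ} {B A : Finset ℝ} {s : ℝ → ℝ} (hm : 0 < m)
    (hlip : LipOn T lo hi M) (hA : A.Nonempty) (hsub : ∀ a ∈ A, a ∈ Icc lo hi)
    (hs : ∀ a ∈ A, m ≤ s a ∧ s a ≤ M ∧ SlopeAt T hi B a (s a)) :
    Pt T A ≤ cC m M B * Dl A * ∏ a ∈ A, s a := by
  have h1 := fin3_up hm hlip hA hsub hs Finset.Subset.rfl
  have hM := hs _ (A.max'_mem hA)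
  have h2 : 0 ≤ ∏ g ∈ gaps A, s g.1 :=
    Finset.prod_nonneg fun g hg => hm.le.trans (hs _ (mem_gaps.1 hg).1).1
  have h3 : 0 ≤ (M / m) ^ B.card := pow_nonneg (div_nonneg (by linarith [hM.1, hM.2.1]) hm.le) _
  rw [Finset.prod_mul_distrib] at h1
  refine h1.trans ?_
  rw [fin3_prod hA, cC, div_mul_eq_mul_div, div_mul_eq_mul_div, le_div_iff₀ hm]
  have := mul_le_mul_of_nonneg_left hM.1 (mul_nonneg h3 (mul_nonneg h2 (Dl_pos A).le))
  unfold Dl at this ⊢
  linarith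

lemma up_edge {T : ℝ → ℝ} {lo hi m M : ℝ} {B A : Finset ℝ} {s : ℝ → ℝ} (hm : 0 < m)
    (hlip : LipOn T lo hi M) (hsub : ∀ a ∈ A, a ∈ Icc lo hi)
    (hs : ∀ a ∈ A, m ≤ s a ∧ s a ≤ M ∧ SlopeAt T hi B a (s a)) {e : ℝ × ℝ} (he : e ∈ gaps A) :
    m * len e * Pt T A ≤ img T e * (cC m M B * Dl A * ∏ a ∈ A, s a) := by
  have h0 := mem_gaps.1 he
  have hA : A.Nonempty := ⟨_, h0.1⟩
  have h1 := fin3_up hm hlip hA hsub hs (Finset.erase_subset e _)
  have hM := hs _ (A.max'_mem hA)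
  have h2 : 0 ≤ ∏ g ∈ (gaps A).erase e, s g.1 := Finset.prod_nonneg fun g hg =>
    hm.le.trans (hs _ (mem_gaps.1 (Finset.mem_of_mem_erase hg)).1).1
  have h2' : 0 ≤ ∏ g ∈ (gaps A).erase e, len g := Finset.prod_nonneg fun g hg =>
    (Gap.len_pos (mem_gaps.1 (Finset.mem_of_mem_erase hg))).le
  have h3 : 0 ≤ (M / m) ^ B.card := pow_nonneg (div_nonneg (by linarith [hM.1, hM.2.1]) hm.le) _
  have h4 := Gap.len_pos h0
  have h5 : m * m ≤ s (A.max' hA) * s e.1 :=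
    mul_le_mul hM.1 (hs _ h0.1).1 hm.le (hm.le.trans hM.1)
  rw [Finset.prod_mul_distrib] at h1
  rw [fin3_prod hA, Pt, Dl, ← Finset.mul_prod_erase _ _ he, ← Finset.mul_prod_erase _ len he,
    ← Finset.mul_prod_erase _ (fun g : ℝ × ℝ => s g.1) he, mul_left_comm]
  refine mul_le_mul_of_nonneg_left ((mul_le_mul_of_nonneg_left h1 (by positivity)).trans ?_)
    (img_nonneg T e)
  rw [cC, div_mul_eq_mul_div, div_mul_eq_mul_div, le_div_iff₀ hm]
  have := mul_le_mul_of_nonneg_left h5 (mul_nonneg h3 (mul_nonneg h2 (mul_nonneg h2' h4.le)))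
  linarith

lemma low {T : ℝ → ℝ} {lo hi m M c : ℝ} {B A : Finset ℝ} {s : ℝ → ℝ} (hm : 0 < m)
    (hA : A.Nonempty) (hsub : ∀ a ∈ A, a ∈ Icc lo hi)
    (hs : ∀ a ∈ A, m ≤ s a ∧ s a ≤ M ∧ SlopeAt T hi B a (s a)) (hc : 0 < c) (hcM : c ≤ M)
    (he : ∀ e ∈ gaps A, c * len e ≤ img T e) :
    (c / M) ^ B.card / M * Dl A * ∏ a ∈ A, s a ≤ Pt T A := by
  classical
  have hM := hs _ (A.max'_mem hA)
  have hM0 : 0 < M := hc.trans_le hcM
  obtain ⟨k, hk, e⟩ := fin3_ite A B Finset.Subset.rfl (c / M) fun g => s g.1 * len g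
  have h0 : ∀ g ∈ gaps A, 0 ≤ s g.1 * len g := fun g hg =>
    mul_nonneg (hm.le.trans (hs _ (mem_gaps.1 hg).1).1) (Gap.len_pos (mem_gaps.1 hg)).le
  have h1 : (c / M) ^ B.card * ∏ g ∈ gaps A, s g.1 * len g ≤ Pt T A := by
    refine le_trans ((mul_le_mul_of_nonneg_right (pow_le_pow_of_le_one (by positivity)
      ((div_le_one hM0).2 hcM) hk) (Finset.prod_nonneg h0)).trans e.ge)
      (Finset.prod_le_prod (fun g hg => mul_nonneg ?_ (h0 g hg)) fun g hg => ?_)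
    · split_ifs
      · positivity
      · exact zero_le_one
    have h1 := mem_gaps.1 hg
    split_ifs with h
    · refine le_trans ?_ (he g hg)
      rw [← mul_assoc]
      refine mul_le_mul_of_nonneg_right ?_ (Gap.len_pos h1).le
      rw [div_mul_eq_mul_div, div_le_iff₀ hM0]
      exact mul_le_mul_of_nonneg_left (hs _ h1.1).2.1 hc.le
    · rw [one_mul, fin3_good hsub (fun a ha => (hs a ha).2.2) hg h]
  refine le_trans ?_ h1
  have h2 : 0 ≤ ∏ g ∈ gaps A, s g.1 :=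
    Finset.prod_nonneg fun g hg => hm.le.trans (hs _ (mem_gaps.1 hg).1).1
  rw [fin3_prod hA, Finset.prod_mul_distrib, div_mul_eq_mul_div, div_mul_eq_mul_div,
    div_le_iff₀ hM0]
  have := mul_le_mul_of_nonneg_left hM.2.1
    (mul_nonneg (pow_nonneg (div_pos hc hM0).le B.card) (mul_nonneg h2 (Dl_pos A).le))
  unfold Dl at this ⊢
  linarith

lemma T1lo {T : ℝ → ℝ} {lo hi m M : ℝ} {B : Finset ℝ} {y s : ℕ → ℝ} {n : ℕ} (hm : 0 < m)
    (hlip : LipOn T lo hi M) (hn : 1 ≤ n) (hy : ∀ i < n, y (i + 1) = T (y i))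
    (hinj : ∀ i ≤ n, ∀ j ≤ n, y i = y j → i = j) (hsub : ∀ i < n, y i ∈ Icc lo hi)
    (hs : ∀ i < n, m ≤ s i ∧ s i ≤ M ∧ SlopeAt T hi B (y i) (s i)) :
    rho (mid y n) (y n) ≤ cC m M B * (∏ i ∈ Finset.range n, s i) * rho (mid y n) (y 0) := by
  obtain ⟨e1, e2⟩ := fin3_orb hn hy
  obtain ⟨s', h1, h2⟩ := fin3_s hinj s
  have hi : InjOn T (orb y n : Set ℝ) := by
    intro a ha a' ha' e
    obtain ⟨i, hi, rfl⟩ := Finset.mem_image.1 ha
    obtain ⟨j, hj, rfl⟩ := Finset.mem_image.1 ha'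
    rw [Finset.mem_range] at hi hj
    rw [← hy i hi, ← hy j hj] at e
    rw [Nat.succ_injective (hinj _ hi _ hj e)]
  have h3 := (Dl_image_le hi).trans (up (s := s') (B := B) hm hlip
    (e1 ▸ Finset.insert_nonempty _ _) (fin3_all hsub)
    (fin3_all fun i hi => (h1 i hi).symm ▸ hs i hi))
  rw [h2, e2, e1] at h3
  rw [rho, rho, ← mul_div_assoc]
  refine div_le_div_of_nonneg_right ?_ (Dl_pos _).le
  linarith

lemma T1up {T : ℝ → ℝ} {lo hi m M c G : ℝ} {B : Finset ℝ} {y s : ℕ → ℝ} {n : ℕ} (hm : 0 < m)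
    (hn : 1 ≤ n) (hy : ∀ i < n, y (i + 1) = T (y i))
    (hinj : ∀ i ≤ n, ∀ j ≤ n, y i = y j → i = j) (hsub : ∀ i < n, y i ∈ Icc lo hi)
    (hs : ∀ i < n, m ≤ s i ∧ s i ≤ M ∧ SlopeAt T hi B (y i) (s i)) (hc : 0 < c) (hcM : c ≤ M)
    (he : ∀ e ∈ gaps (orb y n), c * len e ≤ img T e)
    (hG : Pt T (orb y n) ≤ G * Dl ((orb y n).image T)) :
    (c / M) ^ B.card / M * (∏ i ∈ Finset.range n, s i) * rho (mid y n) (y 0) ≤
      G * rho (mid y n) (y n) := by
  obtain ⟨e1, e2⟩ := fin3_orb hn hy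
  obtain ⟨s', h1, h2⟩ := fin3_s hinj s
  have h3 := (low (s := s') (B := B) hm (e1 ▸ Finset.insert_nonempty _ _) (fin3_all hsub)
    (fin3_all fun i hi => (h1 i hi).symm ▸ hs i hi) hc hcM he).trans hG
  rw [h2, e2, e1] at h3
  rw [rho, rho, ← mul_div_assoc, ← mul_div_assoc]
  refine div_le_div_of_nonneg_right ?_ (Dl_pos _).le
  linarith

end Pool.Agent.MP_8df504_an.C

end

section

set_option autoImplicit false

namespace Pool.Agent.MP_8df504_an.C

open Set Filter Topology MeasureTheory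

/-! Points that follow the `pi`-orbit of a gap.

Hints.  Let `I k = {y | ∀ i ≤ k, T^[i] y ∈ cl (pi^[i] f)}`.  By induction on `k` (generalizing `f`,
peeling off the first step, or using `gap_aff` for the last step), `I k = [p k, q k]`, `T^[k]` is
affine on `I k` with slope `σ k = ∏ i<k, sl (pi^[i] f).1` and maps it onto `cl (pi^[k] f)`, so
`(q k - p k) * ∏ i<k, r (pi^[i] f) = len f` (`prod_sl_chain`).  `chain_seg` packages this.  The
following points are the intersection of the nested segments (`p` increases, `q` decreases).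
`fol_periodic`: uniqueness because `|T^[p n] y - T^[p n] y'| = s^n |y - y'| ≤ len f`; `T^[p] y`
follows `f` again, so `T^[p] y = y`; then distinguish the sign of the slope of `T^[p]` on `I p`, with
`x = p p`, `x' = q p` in the increasing case. -/

/-- an affine segment of full length inside `[u, v]` starts at one of the ends -/
private lemma ep1_ends {a σ p q u v : ℝ} (_hpq : p < q) (huv : u < v) (h1 : a ∈ Icc u v)
    (h2 : a + σ * (q - p) ∈ Icc u v) (h3 : |σ| * (q - p) = v - u) :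
    (0 < σ ∧ a = u) ∨ (σ < 0 ∧ a = v) := by
  rcases lt_trichotomy σ 0 with c | c | c
  · rw [abs_of_neg c] at h3
    exact Or.inr ⟨c, by linarith [h1.2, h2.1]⟩
  · rw [c, abs_zero, zero_mul] at h3
    linarith
  · rw [abs_of_pos c] at h3
    exact Or.inl ⟨c, by linarith [h1.1, h2.2]⟩

private lemma ep1_onto {a σ p q u v : ℝ} (hpq : p < q) (huv : u < v) (h1 : a ∈ Icc u v)
    (h2 : a + σ * (q - p) ∈ Icc u v) (h3 : |σ| * (q - p) = v - u) {z : ℝ} (hz : z ∈ Icc u v) :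
    ∃ y ∈ Icc p q, a + σ * (y - p) = z := by
  rcases ep1_ends hpq huv h1 h2 h3 with ⟨c, e⟩ | ⟨c, e⟩
  · rw [abs_of_pos c] at h3
    have e1 : σ * ((z - a) / σ) = z - a := mul_div_cancel₀ _ c.ne'
    refine ⟨p + (z - a) / σ, ⟨?_, ?_⟩, by rw [add_sub_cancel_left, e1]; ring⟩
    · have : 0 ≤ (z - a) / σ := div_nonneg (by linarith [hz.1]) c.le
      linarith
    · have : (z - a) / σ ≤ q - p := by
        rw [div_le_iff₀ c]
        linarith [hz.2]
      linarith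
  · rw [abs_of_neg c] at h3
    have e1 : σ * ((z - a) / σ) = z - a := mul_div_cancel₀ _ c.ne
    refine ⟨p + (z - a) / σ, ⟨?_, ?_⟩, by rw [add_sub_cancel_left, e1]; ring⟩
    · have : 0 ≤ (z - a) / σ := div_nonneg_of_nonpos (by linarith [hz.2]) c.le
      linarith
    · have : (z - a) / σ ≤ q - p := by
        rw [div_le_iff_of_neg c]
        linarith [hz.1]
      linarith

/-- the preimage of `[u, v]` under an affine function that takes the values `u` and `v` -/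
private lemma ep1_pre {a σ p u v y1 y2 : ℝ} (huv : u < v) (h1 : a + σ * (y1 - p) = u)
    (h2 : a + σ * (y2 - p) = v) :
    min y1 y2 < max y1 y2 ∧ |σ| * (max y1 y2 - min y1 y2) = v - u ∧
      ∀ y, y ∈ Icc (min y1 y2) (max y1 y2) ↔ a + σ * (y - p) ∈ Icc u v := by
  have e : σ * (y2 - y1) = v - u := by linarith
  rcases lt_trichotomy σ 0 with c | c | c
  · have hl : y2 < y1 := by
      by_contra hc
      have := mul_nonpos_of_nonpos_of_nonneg c.le (sub_nonneg.2 (not_lt.1 hc))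
      linarith
    rw [min_eq_right hl.le, max_eq_left hl.le, abs_of_neg c]
    refine ⟨hl, by linarith, fun y => ⟨fun hy => ⟨?_, ?_⟩, fun hy => ⟨?_, ?_⟩⟩⟩
    · nlinarith [hy.2]
    · nlinarith [hy.1]
    · by_contra hc
      nlinarith [hy.2, not_le.1 hc]
    · by_contra hc
      nlinarith [hy.1, not_le.1 hc]
  · rw [c, zero_mul] at e
    linarith
  · have hl : y1 < y2 := by
      by_contra hc
      have := mul_nonpos_of_nonneg_of_nonpos c.le (sub_nonpos.2 (not_lt.1 hc))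
      linarith
    rw [min_eq_left hl.le, max_eq_right hl.le, abs_of_pos c]
    refine ⟨hl, by linarith, fun y => ⟨fun hy => ⟨?_, ?_⟩, fun hy => ⟨?_, ?_⟩⟩⟩
    · nlinarith [hy.1]
    · nlinarith [hy.2]
    · by_contra hc
      nlinarith [hy.1, not_le.1 hc]
    · by_contra hc
      nlinarith [hy.2, not_le.1 hc]

namespace Sys

variable (S : Sys)

lemma chain_seg {f : ℝ × ℝ} (hf : f ∈ Gap S.P.K) (k : ℕ) :
    ∃ p q σ : ℝ, p < q ∧
      (∀ y, y ∈ Icc p q ↔ ∀ i ≤ k, S.P.T^[i] y ∈ cl (S.pi^[i] f)) ∧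
      (∀ y ∈ Icc p q, S.P.T^[k] y = S.P.T^[k] p + σ * (y - p)) ∧
      |σ| * (q - p) = len (S.pi^[k] f) ∧
      (q - p) * ∏ i ∈ Finset.range k, S.r (S.pi^[i] f) = len f := by
  induction k with
  | zero =>
    refine ⟨f.1, f.2, 1, hf.2.2.1, fun y => ⟨fun hy i hi => ?_, fun hy => hy 0 le_rfl⟩,
      fun y _ => by simp, by simp [len], by simp [len]⟩
    obtain rfl : i = 0 := by omega
    exact hy
  | succ k ih =>
    obtain ⟨p, q, σ, hpq, hI, hA, hL, hP⟩ := ih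
    have hg := S.pi_iter_mem hf k
    have hγ := S.pi_mem hg
    have hp : p ∈ Icc p q := ⟨le_rfl, hpq.le⟩
    have hq : q ∈ Icc p q := ⟨hpq.le, le_rfl⟩
    have hmem : ∀ y ∈ Icc p q, S.P.T^[k] y ∈ cl (S.pi^[k] f) := fun y hy => (hI y).1 hy k le_rfl
    have hA' : ∀ y ∈ Icc p q, S.P.T^[k + 1] y =
        S.P.T^[k + 1] p + (S.L.sl (S.pi^[k] f).1 * σ) * (y - p) := by
      intro y hy
      rw [Function.iterate_succ_apply', Function.iterate_succ_apply', S.gap_aff hg (hmem y hy),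
        S.gap_aff hg (hmem p hp), hA y hy]
      ring
    have hon : ∀ z ∈ cl (S.pi (S.pi^[k] f)), ∃ y ∈ Icc p q, S.P.T^[k + 1] y = z := by
      intro z hz
      obtain ⟨w, hw, e⟩ := S.pull_cl hg hz
      have h2 := hmem q hq
      rw [hA q hq] at h2
      obtain ⟨y, hy, e'⟩ := ep1_onto hpq hg.2.2.1 (hmem p hp) h2 hL hw
      refine ⟨y, hy, ?_⟩
      rw [Function.iterate_succ_apply', hA y hy, e', e]
    obtain ⟨y1, hy1, e1⟩ := hon _ ⟨le_rfl, hγ.2.2.1.le⟩
    obtain ⟨y2, hy2, e2⟩ := hon _ ⟨hγ.2.2.1.le, le_rfl⟩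
    rw [hA' y1 hy1] at e1
    rw [hA' y2 hy2] at e2
    obtain ⟨h1, h2, h3⟩ := ep1_pre hγ.2.2.1 e1 e2
    have hsub : ∀ y ∈ Icc (min y1 y2) (max y1 y2), y ∈ Icc p q := fun y hy =>
      ⟨(le_min hy1.1 hy2.1).trans hy.1, hy.2.trans (max_le hy1.2 hy2.2)⟩
    have hm : min y1 y2 ∈ Icc p q := hsub _ ⟨le_rfl, h1.le⟩
    refine ⟨min y1 y2, max y1 y2, S.L.sl (S.pi^[k] f).1 * σ, h1, fun y => ⟨fun hy i hi => ?_,
      fun hy => ?_⟩, fun y hy => ?_, ?_, ?_⟩
    · rcases Nat.lt_or_ge i (k + 1) with c | c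
      · exact (hI y).1 (hsub y hy) i (by omega)
      · obtain rfl : i = k + 1 := by omega
        rw [hA' y (hsub y hy), Function.iterate_succ_apply' S.pi]
        exact (h3 y).1 hy
    · have hy' : y ∈ Icc p q := (hI y).2 fun i hi => hy i (by omega)
      have h4 := hy (k + 1) le_rfl
      rw [hA' y hy', Function.iterate_succ_apply' S.pi] at h4
      exact (h3 y).2 h4
    · rw [hA' y (hsub y hy), hA' _ hm]
      ring
    · rw [Function.iterate_succ_apply' S.pi]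
      exact h2
    · have hr : S.r (S.pi^[k] f) * len (S.pi (S.pi^[k] f)) = img S.P.T (S.pi^[k] f) := by
        unfold Sys.r
        exact div_mul_cancel₀ _ (Gap.len_pos hγ).ne'
      rw [S.img_gap hg, ← hL] at hr
      have h2' : |S.L.sl (S.pi^[k] f).1 * σ| * (max y1 y2 - min y1 y2) =
          len (S.pi (S.pi^[k] f)) := h2
      have hne : |S.L.sl (S.pi^[k] f).1 * σ| ≠ 0 := by
        intro h0
        rw [h0, zero_mul] at h2'
        exact (Gap.len_pos hγ).ne h2'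
      have h5 : (max y1 y2 - min y1 y2) * S.r (S.pi^[k] f) = q - p := by
        refine mul_left_cancel₀ hne ?_
        rw [← mul_assoc, h2', mul_comm, hr, abs_mul, mul_assoc]
      rw [Finset.prod_range_succ, ← hP, ← h5]
      ring

lemma Fol.iter {S : Sys} {f : ℝ × ℝ} {y : ℝ} (h : S.Fol f y) (k : ℕ) :
    S.Fol (S.pi^[k] f) (S.P.T^[k] y) := by
  intro j
  rw [← Function.iterate_add_apply, ← Function.iterate_add_apply]
  exact h (j + k)

private lemma ep1_nest {f : ℝ × ℝ} (hf : f ∈ Gap S.P.K) {c : ℝ} (hc : 0 ≤ c)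
    (h : ∀ k, c * ∏ i ∈ Finset.range k, S.r (S.pi^[i] f) ≤ len f) :
    ∃ y, S.Fol f y ∧ S.Fol f (y + c) := by
  choose p q σ hpq hI _ _ hP using S.chain_seg hf
  have hcle : ∀ k, c ≤ q k - p k := by
    intro k
    have hpos : 0 < ∏ i ∈ Finset.range k, S.r (S.pi^[i] f) :=
      Finset.prod_pos fun i _ => lt_of_lt_of_le one_pos (S.one_le_r (S.pi_iter_mem hf i))
    have h1 := h k
    rw [← hP k] at h1
    exact le_of_mul_le_mul_right h1 hpos
  have hsub : ∀ k, ∀ y ∈ Icc (p (k + 1)) (q (k + 1)), y ∈ Icc (p k) (q k) := fun k y hy =>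
    (hI k y).2 fun i hi => (hI (k + 1) y).1 hy i (by omega)
  obtain ⟨y, hy⟩ := IsCompact.nonempty_iInter_of_sequence_nonempty_isCompact_isClosed
    (fun k => Icc (p k) (q k - c))
    (fun k y hy => ⟨(hsub k _ ⟨le_rfl, (hpq _).le⟩).1.trans hy.1,
      hy.2.trans (sub_le_sub_right (hsub k _ ⟨(hpq _).le, le_rfl⟩).2 c)⟩)
    (fun k => ⟨p k, le_rfl, by linarith [hcle k]⟩) isCompact_Icc (fun _ => isClosed_Icc)
  rw [mem_iInter] at hy
  refine ⟨y, fun k => (hI k _).1 ⟨(hy k).1, ?_⟩ k le_rfl, fun k => (hI k _).1 ⟨?_, ?_⟩ k le_rfl⟩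
  · linarith [(hy k).2]
  · linarith [(hy k).1]
  · linarith [(hy k).2]

lemma exists_fol {f : ℝ × ℝ} (hf : f ∈ Gap S.P.K) : ∃ y, S.Fol f y := by
  obtain ⟨y, hy, _⟩ := S.ep1_nest hf (c := 0) le_rfl fun k => by
    rw [zero_mul]
    exact (Gap.len_pos hf).le
  exact ⟨y, hy⟩

lemma fol_pull {f : ℝ × ℝ} (hf : f ∈ Gap S.P.K) (k : ℕ) {z : ℝ} (hz : S.Fol (S.pi^[k] f) z) :
    ∃ y, S.Fol f y ∧ S.P.T^[k] y = z := by
  obtain ⟨p, q, σ, hpq, hI, hA, hL, _⟩ := S.chain_seg hf k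
  have hg := S.pi_iter_mem hf k
  have hq : q ∈ Icc p q := ⟨hpq.le, le_rfl⟩
  have h2 := (hI q).1 hq k le_rfl
  rw [hA q hq] at h2
  obtain ⟨y, hy, e⟩ := ep1_onto hpq hg.2.2.1 ((hI p).1 ⟨le_rfl, hpq.le⟩ k le_rfl) h2 hL (hz 0)
  rw [← hA y hy] at e
  refine ⟨y, fun i => ?_, e⟩
  rcases le_total i k with c | c
  · exact (hI y).1 hy i c
  · obtain ⟨j, rfl⟩ := Nat.exists_eq_add_of_le' c
    rw [Function.iterate_add_apply, Function.iterate_add_apply, e]
    exact hz j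

lemma fol_nonper {f : ℝ × ℝ} (hf : f ∈ Gap S.P.K) (h : ∀ k, 0 < k → S.pi^[k] f ≠ f) :
    ∃ y y', S.Fol f y ∧ S.Fol f y' ∧ len f ≤ S.P.G * (y' - y) := by
  have hG : 0 < S.P.G := lt_of_lt_of_le one_pos ((S.one_le_r hf).trans (S.r_le_G hf))
  have hc : 0 ≤ len f / S.P.G := div_nonneg (Gap.len_pos hf).le hG.le
  have e : S.P.G * (len f / S.P.G) = len f := mul_div_cancel₀ _ hG.ne'
  obtain ⟨y, hy, hy'⟩ := S.ep1_nest hf hc fun k => by
    have h1 := mul_le_mul_of_nonneg_left (S.prod_r_chain_le hf k fun i hi _ => h i hi) hc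
    linarith
  refine ⟨y, _, hy, hy', ?_⟩
  rw [add_sub_cancel_left, e]

lemma fol_periodic {f : ℝ × ℝ} (hf : f ∈ Gap S.P.K) {p : ℕ} (hp : 1 ≤ p) (h : S.pi^[p] f = f)
    {s : ℝ} (hs : s = ∏ i ∈ Finset.range p, S.r (S.pi^[i] f)) (h1 : 1 < s) :
    (∀ y y', S.Fol f y → S.Fol f y' → y = y') ∧
    ∀ y, S.Fol f y →
      (len f ≤ (1 + s) * (y - f.1) ∧ len f ≤ (1 + s) * (f.2 - y)) ∨
      ∃ x ∈ cl f, ∃ x' ∈ cl f, S.P.T x ∈ cl (S.pi f) ∧ S.P.T x' ∈ cl (S.pi f) ∧
        s * (x - f.1) = (s - 1) * (y - f.1) ∧ s * (f.2 - x') = (s - 1) * (f.2 - y) := by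
  obtain ⟨a, b, σ, hab, hI, hA, hL, hP⟩ := S.chain_seg hf p
  rw [h] at hL
  rw [← hs] at hP
  have hσ : |σ| = s := by
    refine mul_right_cancel₀ (sub_pos.2 hab).ne' ?_
    rw [hL, ← hP, mul_comm]
  have hin : ∀ y, S.Fol f y → y ∈ Icc a b := fun y hy => (hI y).2 fun i _ => hy i
  have hnext : ∀ y, S.Fol f y → S.Fol f (S.P.T^[p] y) := by
    intro y hy
    have := hy.iter p
    rwa [h] at this
  have hpow : ∀ n : ℕ, ∀ y y', S.Fol f y → S.Fol f y' → s ^ n * |y - y'| ≤ len f := by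
    intro n
    induction n with
    | zero =>
      intro y y' hy hy'
      have h2 : y ∈ cl f := hy 0
      have h3 : y' ∈ cl f := hy' 0
      rw [pow_zero, one_mul, abs_le]
      unfold len
      constructor <;> linarith [h2.1, h2.2, h3.1, h3.2]
    | succ n ih =>
      intro y y' hy hy'
      have h2 := ih _ _ (hnext y hy) (hnext y' hy')
      have h3 : S.P.T^[p] y - S.P.T^[p] y' = σ * (y - y') := by
        rw [hA y (hin y hy), hA y' (hin y' hy')]
        ring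
      rw [h3, abs_mul, hσ, ← mul_assoc] at h2
      rwa [pow_succ]
  have huniq : ∀ y y', S.Fol f y → S.Fol f y' → y = y' := by
    intro y y' hy hy'
    by_contra hne
    have hpos : 0 < |y - y'| := abs_pos.2 (sub_ne_zero.2 hne)
    obtain ⟨n, hn⟩ := pow_unbounded_of_one_lt (len f / |y - y'|) h1
    rw [div_lt_iff₀ hpos] at hn
    linarith [hpow n y y' hy hy']
  refine ⟨huniq, fun y hy => ?_⟩
  have ha : a ∈ Icc a b := ⟨le_rfl, hab.le⟩
  have hb : b ∈ Icc a b := ⟨hab.le, le_rfl⟩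
  have hfix : S.P.T^[p] y = y := huniq _ _ (hnext y hy) hy
  rw [hA y (hin y hy)] at hfix
  have ha0 : a ∈ cl f := (hI a).1 ha 0 (by omega)
  have hb0 : b ∈ cl f := (hI b).1 hb 0 (by omega)
  have hap := (hI a).1 ha p le_rfl
  have hbp := (hI b).1 hb p le_rfl
  rw [h] at hap hbp
  rw [hA b hb] at hbp
  have hlen : len f = f.2 - f.1 := rfl
  rcases ep1_ends hab hf.2.2.1 hap hbp hL with ⟨c, e⟩ | ⟨c, e⟩
  · rw [abs_of_pos c] at hσ
    rw [hσ, e] at hfix
    refine Or.inr ⟨a, ha0, b, hb0, (hI a).1 ha 1 hp, (hI b).1 hb 1 hp, ?_, ?_⟩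
    · linarith
    · linarith
  · rw [abs_of_neg c] at hσ
    have hσ' : σ = -s := by linarith
    rw [hσ', e] at hfix
    have h2 := mul_le_mul_of_nonneg_left ha0.1 (show 0 ≤ s by linarith)
    have h3 := mul_le_mul_of_nonneg_left hb0.2 (show 0 ≤ s by linarith)
    exact Or.inl ⟨by linarith, by linarith⟩

end Sys

end Pool.Agent.MP_8df504_an.C

end

section

set_option autoImplicit false

namespace Pool.Agent.MP_8df504_an.C

open Set Filter Topology MeasureTheory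

/-! Levels from clusters, and avoidance of the inner gaps.

`exists_lev`: choose `j0` with `b (i+1) ≤ (1/4)(a i - b (i+1))` for `i ≥ j0`, put `i = j + j0`,
`e j = gp (sd i) (b (i+2)) (a i)`; `u j`, `v j` are the inner ends `pt (sd i) (b (i+2))` and
`pt (sd (i+1)) (b (i+3))` (the one on side `false` is `u j`), `c1 = 3 m / (8 M)`.  A point of
`cl (e j)` is `pt (sd i) h` with `h ∈ [b (i+2), a i]`, its image is `T c - h` (`val`), which lies in
`cl (pi (e j))` only if `b (i+1) ≤ h`.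

`outside_of_not_inner`: if `g.1 < u` then `g.1 ≤ fL.1`, `g.2 ≤ u`, and `g.2 ≠ u`, so `g.2 ≤ fL.1`.

`avoid`: fix `j` large, `fL`, `fR` the flanks, `L = fL.1`, `R = fR.2`.  Suppose `pi^[k] f` is inner
for a flank `f`; take such a pair `(f,k)` with `k` minimal, so `k ≥ 1` and `f i = pi^[i] f` is
neither inner nor a flank for `0 < i < k`; the `f i`, `i ≤ k`, are distinct.  Pull the midpoint
`y k` of `f k` back (`pull_op`) to `y i` in the open gap `f i`.  `mid y k` misses `(L,R)`.  `T1lo`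
with slopes `|sl (f i).1|` (`slopeAt_gap`), `prod_sl_chain`, `prod_r_chain_le` give
`rho (y k) ≤ C G (len (f k) / len f) rho (y 0)`, `len (f k) ≤ v - u`.  `rho_cmp` (for `f = fR`:
`θ₂ = 1`, `θ₁ = len fL / (len fL + (v-u) + len fR)`, symmetric for `f = fL`) gives a contradiction
as soon as `3 C G (v - u) < len (e (j+1))`, `v - u ≤ len (e (j+1)) ≤ len (e j)`. -/

lemma outside_of_not_inner {K : Set ℝ} {fL fR g : ℝ × ℝ} (hL : fL ∈ Gap K) (hR : fR ∈ Gap K)
    (hg : g ∈ Gap K) (h : fL.2 ≤ fR.1) (h1 : g ≠ fL) (h2 : g ≠ fR) (h3 : ¬ Inner fL.2 fR.1 g) :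
    g.2 ≤ fL.1 ∨ fR.2 ≤ g.1 := by
  have _ := h
  rcases Gap.sep hg hL h1 with a | a
  · exact Or.inl a
  · rcases Gap.sep hg hR h2 with b | b
    · exact absurd ⟨a, b⟩ h3
    · exact Or.inr b

lemma avoid_pull (S : Sys) {f : ℝ × ℝ} (hf : f ∈ Gap S.P.K) (k : ℕ) :
    ∀ z ∈ Ioo (S.pi^[k] f).1 (S.pi^[k] f).2, ∃ y, S.P.T^[k] y = z ∧
      ∀ i ≤ k, S.P.T^[i] y ∈ Ioo (S.pi^[i] f).1 (S.pi^[i] f).2 := by
  induction k with
  | zero =>
    intro z hz
    exact ⟨z, rfl, fun i hi => by rw [Nat.le_zero.1 hi]; exact hz⟩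
  | succ k ih =>
    intro z hz
    have hz' := hz
    rw [Function.iterate_succ_apply'] at hz'
    obtain ⟨z', h1, h2⟩ := S.pull_op (S.pi_iter_mem hf k) hz'
    obtain ⟨y, h3, h4⟩ := ih z' h1
    have h5 : S.P.T^[k + 1] y = z := by rw [Function.iterate_succ_apply', h3, h2]
    refine ⟨y, h5, fun i hi => ?_⟩
    rcases hi.lt_or_eq with c | c
    · exact h4 i (Nat.lt_succ_iff.1 c)
    · rw [c, h5]; exact hz

lemma avoid_core (S : Sys) {fL fR : ℝ × ℝ} (hL : fL ∈ Gap S.P.K) (hR : fR ∈ Gap S.P.K)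
    (huv : fL.2 < fR.1) (w1 : fR.1 - fL.2 ≤ len fL) (w2 : fR.1 - fL.2 ≤ len fR)
    (c1 : 3 * (cC S.L.m S.L.M S.P.B * S.P.G * (fR.1 - fL.2)) < len fL)
    (c2 : 3 * (cC S.L.m S.L.M S.P.B * S.P.G * (fR.1 - fL.2)) < len fR) (k : ℕ) :
    ∀ f, (f = fL ∨ f = fR) → ¬ Inner fL.2 fR.1 (S.pi^[k] f) := by
  have pL := hL.2.2.1
  have pR := hR.2.2.1
  have h0 : ∀ f, (f = fL ∨ f = fR) → ¬ Inner fL.2 fR.1 f := by
    rintro f (rfl | rfl) hi
    · exact absurd hi.1 (not_le.2 pL)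
    · exact absurd hi.2 (not_le.2 pR)
  induction k using Nat.strong_induction_on with
  | _ k ih =>
  intro f hf hi
  have hfg : f ∈ Gap S.P.K := by rcases hf with rfl | rfl <;> assumption
  have hk : 1 ≤ k := Nat.pos_of_ne_zero fun e => h0 f hf (by rw [e] at hi; exact hi)
  have hnf : ∀ i, 0 < i → i ≤ k → ¬ (S.pi^[i] f = fL ∨ S.pi^[i] f = fR) := fun i h1 h2 h3 => by
    refine ih (k - i) (by omega) _ h3 ?_
    rwa [← Function.iterate_add_apply, Nat.sub_add_cancel h2]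
  have hne : ∀ i, 0 < i → i ≤ k → S.pi^[i] f ≠ f := fun i h1 h2 h3 =>
    hnf i h1 h2 (by rw [h3]; exact hf)
  have hdis : ∀ i l, i < l → l ≤ k → S.pi^[i] f ≠ S.pi^[l] f := fun i l h1 h2 h3 => by
    refine hne (l - i) (by omega) (by omega) (S.pi_iter_inj i (S.pi_iter_mem hfg _) hfg ?_)
    rw [← Function.iterate_add_apply, Nat.add_sub_cancel' h1.le, h3]
  have gk := S.pi_iter_mem hfg k
  obtain ⟨y, -, hy⟩ := avoid_pull S hfg k (((S.pi^[k] f).1 + (S.pi^[k] f).2) / 2)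
    ⟨by linarith [gk.2.2.1], by linarith [gk.2.2.1]⟩
  have t1 := T1lo (T := S.P.T) (B := S.P.B) (y := fun i => S.P.T^[i] y)
    (s := fun i => |S.L.sl (S.pi^[i] f).1|) (n := k) S.L.m_pos S.L.lip hk
    (fun i _ => Function.iterate_succ_apply' _ _ _)
    (fun i h1 l h2 e => by
      have e' : S.pi^[i] f = S.pi^[l] f := Gap.eq_of_mem (S.pi_iter_mem hfg i)
        (S.pi_iter_mem hfg l) (hy i h1) (by have := hy l h2; rw [← e] at this; exact this)
      rcases lt_trichotomy i l with c | c | c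
      · exact absurd e' (hdis i l c h2)
      · exact c
      · exact absurd e'.symm (hdis l i c h1))
    (fun i h1 => by
      have a := S.P.gap_sub (S.pi_iter_mem hfg i)
      have b := hy i h1.le
      exact ⟨a.1.trans b.1.le, b.2.le.trans a.2⟩)
    fun i h1 => ⟨S.L.sl_lo _, S.L.sl_hi _,
      S.slopeAt_gap (S.pi_iter_mem hfg i) (Ioo_subset_Icc_self (hy i h1.le))⟩
  have t2 := S.prod_sl_chain hfg k
  have t3 := S.prod_r_chain_le hfg k fun i h1 h2 => hne i h1 h2.le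
  have hO : ∀ z ∈ mid (fun i => S.P.T^[i] y) k, ¬ (fL.1 < z ∧ z < fR.2) := by
    intro z hz hc
    obtain ⟨i, h1, rfl⟩ := Finset.mem_image.1 hz
    rw [Finset.mem_Ioo] at h1
    have a := hnf i h1.1 h1.2.le
    have b := hy i h1.2.le
    rcases outside_of_not_inner hL hR (S.pi_iter_mem hfg i) huv.le (fun e => a (Or.inl e))
      (fun e => a (Or.inr e)) (ih i h1.2 f hf) with c | c
    · linarith [b.2, hc.1]
    · linarith [b.1, hc.2]
  have yk := hy k le_rfl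
  have y0 : y ∈ Ioo f.1 f.2 := hy 0 (Nat.zero_le _)
  have i1 := hi.1
  have i2 := hi.2
  have hG := S.P.one_le_G
  have hm := S.L.m_pos
  have hM := hm.trans_le S.m_le_M
  have hC : 0 < cC S.L.m S.L.M S.P.B := by unfold cC; positivity
  have lk : len (S.pi^[k] f) ≤ fR.1 - fL.2 := by unfold len; linarith
  have t4 : (∏ i ∈ Finset.range k, |S.L.sl (S.pi^[i] f).1|) * len f ≤ S.P.G * (fR.1 - fL.2) := by
    rw [t2]
    exact mul_le_mul t3 lk (Gap.len_pos gk).le (by linarith)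
  have r0 := rho_pos (mid (fun i => S.P.T^[i] y) k) y
  have lf := Gap.len_pos hfg
  have fin : ∀ θ : ℝ, θ * rho (mid (fun i => S.P.T^[i] y) k) y ≤
      rho (mid (fun i => S.P.T^[i] y) k) (S.P.T^[k] y) →
      θ * len f ≤ cC S.L.m S.L.M S.P.B * S.P.G * (fR.1 - fL.2) := fun θ h => by
    have a := le_of_mul_le_mul_right (h.trans t1) r0
    calc θ * len f ≤ cC S.L.m S.L.M S.P.B * (∏ i ∈ Finset.range k, |S.L.sl (S.pi^[i] f).1|) *
          len f := mul_le_mul_of_nonneg_right a lf.le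
      _ ≤ cC S.L.m S.L.M S.P.B * (S.P.G * (fR.1 - fL.2)) := by
          rw [mul_assoc]; exact mul_le_mul_of_nonneg_left t4 hC.le
      _ = _ := by ring
  have hD : 0 < fR.2 - fL.1 := by linarith
  have key : len fL * len fR ≤
      cC S.L.m S.L.M S.P.B * S.P.G * (fR.1 - fL.2) * (fR.2 - fL.1) := by
    rcases hf with rfl | rfl
    · have a := rho_cmp hO (y := S.P.T^[k] y) (y' := y) (θ₁ := 1) (θ₂ := len fR / (fR.2 - f.1))
        ⟨by linarith [yk.1], by linarith [yk.2]⟩ ⟨y0.1, by linarith [y0.2]⟩ ⟨zero_le_one, le_rfl⟩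
        ⟨div_nonneg (Gap.len_pos hR).le hD.le, (div_le_one hD).2 (by unfold len; linarith)⟩
        (by linarith [yk.1, y0.2])
        (by
          rw [div_mul_eq_mul_div, div_le_iff₀ hD]
          exact mul_le_mul (by unfold len; linarith [yk.2]) (by linarith [y0.1])
            (by linarith [y0.2]) (by linarith [yk.2]))
      have b := fin _ a
      rw [one_mul, div_mul_eq_mul_div, div_le_iff₀ hD] at b
      linarith
    · have a := rho_cmp hO (y := S.P.T^[k] y) (y' := y) (θ₁ := len fL / (f.2 - fL.1)) (θ₂ := 1)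
        ⟨by linarith [yk.1], by linarith [yk.2]⟩ ⟨by linarith [y0.1], y0.2⟩
        ⟨div_nonneg (Gap.len_pos hL).le hD.le, (div_le_one hD).2 (by unfold len; linarith)⟩
        ⟨zero_le_one, le_rfl⟩
        (by
          rw [div_mul_eq_mul_div, div_le_iff₀ hD]
          exact mul_le_mul (by unfold len; linarith [yk.1]) (by linarith [y0.2])
            (by linarith [y0.1]) (by linarith [yk.1]))
        (by linarith [yk.2, y0.1])
      have b := fin _ a
      rw [mul_one, div_mul_eq_mul_div, div_le_iff₀ hD] at b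
      linarith
  have e : fR.2 - fL.1 = len fL + (fR.1 - fL.2) + len fR := by unfold len; ring
  have a0 := Gap.len_pos hL
  have b0 := Gap.len_pos hR
  have q0 : 0 < cC S.L.m S.L.M S.P.B * S.P.G * (fR.1 - fL.2) :=
    mul_pos (mul_pos hC (by linarith)) (by linarith)
  rw [e] at key
  generalize cC S.L.m S.L.M S.P.B * S.P.G * (fR.1 - fL.2) = q at *
  rcases le_total (len fL) (len fR) with c | c
  · nlinarith
  · nlinarith

namespace Lev

variable {S : Sys} (V : Lev S)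

lemma len_small {ε : ℝ} (hε : 0 < ε) : ∀ᶠ j in atTop, len (V.e (j + 1)) ≤ ε * len (V.e j) := by
  obtain ⟨N, hN⟩ := eventually_atTop.1 (V.small ε hε)
  filter_upwards [eventually_ge_atTop (N + 1)] with j hj
  obtain ⟨i, rfl⟩ : ∃ i, j = i + 1 := ⟨j - 1, by omega⟩
  have h1 := V.inner i
  have h2 := hN i (by omega)
  have h3 : len (V.e (i + 1 + 1)) ≤ V.v i - V.u i := by
    unfold len
    linarith [h1.1, h1.2]
  exact h3.trans h2

lemma len_tendsto : Tendsto (fun j => len (V.e j)) atTop (𝓝 0) := by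
  refine (summable_of_ratio_norm_eventually_le (r := 1 / 2) (by norm_num) ?_).tendsto_atTop_zero
  filter_upwards [V.len_small (ε := 1 / 2) (by norm_num)] with j hj
  rwa [Real.norm_of_nonneg (Gap.len_pos (V.gap _)).le,
    Real.norm_of_nonneg (Gap.len_pos (V.gap _)).le]

lemma avoid : ∀ᶠ j in atTop, ∀ f, (f = V.e j ∨ f = V.e (j + 1)) → ∀ k : ℕ,
    ¬ Inner (V.u j) (V.v j) (S.pi^[k] f) := by
  have hG := S.P.one_le_G
  have hm := S.L.m_pos
  have hM := hm.trans_le S.m_le_M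
  have hC : 0 < cC S.L.m S.L.M S.P.B := by unfold cC; positivity
  have hq : 0 < cC S.L.m S.L.M S.P.B * S.P.G := mul_pos hC (by linarith)
  filter_upwards [V.len_small one_pos, V.small 1 one_pos,
    V.small (1 / (4 * (cC S.L.m S.L.M S.P.B * S.P.G))) (by positivity)] with j h1 h2 h3 f hf k
  rw [one_mul] at h1 h2
  rw [div_mul_eq_mul_div, one_mul, le_div_iff₀ (by positivity)] at h3
  have h4 := V.uv j
  have h5 : 0 < cC S.L.m S.L.M S.P.B * S.P.G * (V.v j - V.u j) := mul_pos hq (by linarith)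
  have h6 : 3 * (cC S.L.m S.L.M S.P.B * S.P.G * (V.v j - V.u j)) < len (V.e (j + 1)) := by
    linarith
  rcases V.flank j with ⟨a, b⟩ | ⟨a, b⟩
  · rw [← a, ← b] at h2 h4 h6 ⊢
    exact avoid_core S (V.gap _) (V.gap _) h4 h2 (h2.trans h1) h6 (h6.trans_le h1) k f hf.symm
  · rw [← a, ← b] at h2 h4 h6 ⊢
    exact avoid_core S (V.gap _) (V.gap _) h4 (h2.trans h1) h2 (h6.trans_le h1) h6 k f hf

end Lev

end Pool.Agent.MP_8df504_an.C

end

section

set_option autoImplicit false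

namespace Pool.Agent.MP_8df504_an.C

open Set Filter Topology MeasureTheory

/-! Escaping points in the two flanks.

Hints.  Fix `Λ > 0`, `δ = c1 / Λ`, `F` from `tail_prod δ`, and the finite set `Bad` of gaps on the
`pi`-orbits of the `pi`-periodic gaps of `F`.  Take `j` large: `avoid`; `Λ (1+G) (v-u) ≤ len fs`
and `Λ (v-u) ≤ c1 len fs`, for the small flank `fs = e (j+1)`; `len fs ≤ len fb`, `fb = e j`;
`fs ∉ Bad` (`len_tendsto`).  `D = Λ (v-u)`.  Call `y` far if `y ∉ (u-D, v+D)`.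
(1) A point in `cl g` for a gap `g` that is not inner and not a flank is far
(`outside_of_not_inner`, `D ≤ len` of the flanks).  (2) Every point following `fb` is far (`s4`).
(3) There is `ys` following `fs` such that `T^[k] ys` is far whenever `pi^[k] fs = fs`: if `fs` is
not periodic use `fol_nonper`; otherwise take the minimal period `p`, `s = ∏ r ≤ G`
(`prod_r_chain_le`), `1 < s` (`long`, `one_le_r`), `s ≤ 1 + δ` (`tail_prod`, the gaps `pi^[i] fs`,
`i < p`, are distinct and not in `F`), and `fol_periodic` with `s5`: `c1 (v-u) ≤ δ * dist`.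
So the whole orbit of `ys` is far (`Fol.iter`, (1), (2), `avoid`).  (4) If `pi^[k] fb = fs` for some
minimal `k`, let `yb` be the pull-back of `ys` (`fol_pull`), otherwise any following point. -/

lemma ep2_small (S : Sys) {f : ℝ × ℝ} (hf : f ∈ Gap S.P.K) (hl : S.Long f) {u v D c δ : ℝ}
    (huv : u < v) (hc : 0 < c) (hδ : 0 < δ) (hfl : f.2 = u ∨ f.1 = v)
    (h1 : S.P.G * D ≤ len f) (h2 : (2 + δ) * D ≤ len f) (h3 : δ * D ≤ c)
    (h5 : ∀ y ∈ cl f, S.P.T y ∈ cl (S.pi f) → y ≤ u - c ∨ v + c ≤ y)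
    (hs : f ∈ Function.periodicPts S.pi →
      ∏ i ∈ Finset.range (Function.minimalPeriod S.pi f), S.r (S.pi^[i] f) ≤ 1 + δ) :
    ∃ y, S.Fol f y ∧ ∀ k, S.pi^[k] f = f → S.P.T^[k] y ≤ u - D ∨ v + D ≤ S.P.T^[k] y := by
  by_cases hp : f ∈ Function.periodicPts S.pi
  · have hp0 := Function.minimalPeriod_pos_of_mem_periodicPts hp
    have hs1 := hs hp
    obtain ⟨s, e⟩ : ∃ s, s = ∏ i ∈ Finset.range (Function.minimalPeriod S.pi f),
      S.r (S.pi^[i] f) := ⟨_, rfl⟩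
    have hs0 : 1 < s := by
      obtain ⟨q, hq⟩ := Nat.exists_eq_add_one.2 hp0
      have h4 : ∏ _i ∈ Finset.range q, (1 : ℝ) ≤ ∏ i ∈ Finset.range q, S.r (S.pi^[i + 1] f) :=
        Finset.prod_le_prod (fun _ _ => zero_le_one) fun i _ => S.one_le_r (S.pi_iter_mem hf _)
      rw [Finset.prod_const_one] at h4
      rw [e, hq, Finset.prod_range_succ']
      exact one_lt_mul_of_le_of_lt h4 hl
    rw [← e] at hs1
    obtain ⟨hu, hy⟩ := S.fol_periodic hf hp0 (Function.isPeriodicPt_minimalPeriod S.pi f) e hs0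
    obtain ⟨y, hf'⟩ := S.exists_fol hf
    refine ⟨y, hf', fun k hk => ?_⟩
    rw [hu (S.P.T^[k] y) y (hk ▸ hf'.iter k) hf']
    have h0 : f.1 ≤ y ∧ y ≤ f.2 := hf' 0
    rcases hy y hf' with h | ⟨x, hx, x', hx', h6, h7, h8, h9⟩
    · refine hfl.imp (fun e => ?_) fun e => ?_
      · nlinarith [h.2, h0.2]
      · nlinarith [h.1, h0.1]
    · refine hfl.imp (fun e => ?_) fun e => ?_
      · have h10 := (h5 x' hx' h7).resolve_right (by linarith [hx'.2])
        rw [e] at h9 h0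
        have h11 : δ * D ≤ δ * (u - y) := by nlinarith [h0.2]
        linarith [le_of_mul_le_mul_left h11 hδ]
      · have h10 := (h5 x hx h6).resolve_left (by linarith [hx.1])
        rw [e] at h8 h0
        have h11 : δ * D ≤ δ * (y - v) := by nlinarith [h0.1]
        linarith [le_of_mul_le_mul_left h11 hδ]
  · have hn : ∀ k, 0 < k → S.pi^[k] f ≠ f := fun k hk e => hp ⟨k, hk, e⟩
    obtain ⟨y, y', hy, hy', h⟩ := S.fol_nonper hf hn
    have h4 := le_of_mul_le_mul_left (h1.trans h) (zero_lt_one.trans_le S.P.one_le_G)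
    have h0 : f.1 ≤ y ∧ y ≤ f.2 := hy 0
    have h0' : f.1 ≤ y' ∧ y' ≤ f.2 := hy' 0
    have hk : ∀ k, S.pi^[k] f = f → k = 0 := fun k e =>
      (Nat.eq_zero_or_pos k).resolve_right fun h => hn k h e
    rcases hfl with e | e
    · refine ⟨y, hy, fun k e' => Or.inl ?_⟩
      rw [hk k e', Function.iterate_zero_apply]
      linarith [h0'.2]
    · refine ⟨y', hy', fun k e' => Or.inr ?_⟩
      rw [hk k e', Function.iterate_zero_apply]
      linarith [h0.1]

lemma ep2_pull (S : Sys) {f g : ℝ × ℝ} (hg : g ∈ Gap S.P.K) {Q : ℝ → Prop} {y : ℝ}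
    (hy : S.Fol f y) (h : ∀ k, S.pi^[k] f = f → Q (S.P.T^[k] y)) :
    ∃ z, S.Fol g z ∧ ∀ k, S.pi^[k] g = f → Q (S.P.T^[k] z) := by
  classical
  by_cases e : ∃ k, S.pi^[k] g = f
  · obtain ⟨z, hz, h1⟩ := S.fol_pull hg (Nat.find e) ((Nat.find_spec e).symm ▸ hy)
    refine ⟨z, hz, fun k hk => ?_⟩
    obtain ⟨l, rfl⟩ := Nat.exists_eq_add_of_le' (Nat.find_min' e hk)
    rw [Function.iterate_add_apply, Nat.find_spec e] at hk
    rw [Function.iterate_add_apply, h1]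
    exact h l hk
  · obtain ⟨z, hz⟩ := S.exists_fol hg
    exact ⟨z, hz, fun k hk => absurd ⟨k, hk⟩ e⟩

lemma ep2_esc (S : Sys) {fL fR : ℝ × ℝ} (hL : fL ∈ Gap S.P.K) (hR : fR ∈ Gap S.P.K) {D : ℝ}
    (huv : fL.2 ≤ fR.1) (h1 : D ≤ len fL) (h2 : D ≤ len fR)
    (h : ∀ f, f = fL ∨ f = fR → ∃ y, S.Fol f y ∧ ∀ k, ¬ Inner fL.2 fR.1 (S.pi^[k] f) ∧
      (S.pi^[k] f = fL ∨ S.pi^[k] f = fR →
        S.P.T^[k] y ≤ fL.2 - D ∨ fR.1 + D ≤ S.P.T^[k] y)) : S.P.Esc fL.2 fR.1 D := by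
  have key : ∀ f, f = fL ∨ f = fR → ∃ y ∈ cl f, ∀ k, S.P.T^[k] y ∉ Ioo (fL.2 - D) (fR.1 + D) := by
    intro f hf
    obtain ⟨y, hy, h3⟩ := h f hf
    refine ⟨y, hy 0, fun k hk => ?_⟩
    by_cases e : S.pi^[k] f = fL ∨ S.pi^[k] f = fR
    · rcases (h3 k).2 e with h4 | h4 <;> linarith [hk.1, hk.2]
    · unfold len at h1 h2
      rcases outside_of_not_inner hL hR (S.pi_iter_mem (hf.elim (· ▸ hL) (· ▸ hR)) k) huv
        (fun h => e (Or.inl h)) (fun h => e (Or.inr h)) (h3 k).1 with h4 | h4 <;>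
      linarith [hk.1, hk.2, (hy k).1, (hy k).2]
  obtain ⟨yL, h3, h4⟩ := key fL (Or.inl rfl)
  obtain ⟨yR, h5, h6⟩ := key fR (Or.inr rfl)
  exact ⟨yL, yR, h3.2, h5.1, fun z hz h7 h8 =>
    ⟨(Gap.le_or_ge hL hz).resolve_left (not_le.2 (h3.1.trans_lt h7)),
      (Gap.le_or_ge hR hz).resolve_right (not_le.2 (h8.trans_le h5.2))⟩, h4, h6⟩

lemma ep2_tail {S : Sys} (V : Lev S) {δ : ℝ} (hδ : 0 < δ) : ∀ᶠ j in atTop,
    V.e (j + 1) ∈ Function.periodicPts S.pi →
      ∏ i ∈ Finset.range (Function.minimalPeriod S.pi (V.e (j + 1))),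
        S.r (S.pi^[i] (V.e (j + 1))) ≤ 1 + δ := by
  classical
  obtain ⟨F, hF⟩ := S.tail_prod hδ
  have h1 : ∀ g ∈ F.biUnion fun g => (Finset.range (Function.minimalPeriod S.pi g)).image
      fun k => S.pi^[k] g, ∀ᶠ j in atTop, V.e (j + 1) ≠ g := fun g _ => by
    by_cases h : 0 < len g
    · exact ((tendsto_add_atTop_nat 1).eventually (V.len_tendsto.eventually_lt_const h)).mono
        fun j hj e => hj.ne (congrArg len e)
    · exact Eventually.of_forall fun j e => h (e ▸ Gap.len_pos (V.gap _))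
  filter_upwards [(Finset.eventually_all _).2 h1] with j hj hp
  have hg := V.gap (j + 1)
  generalize V.e (j + 1) = f at *
  rw [← Finset.prod_image (f := S.r) (g := fun i => S.pi^[i] f)
    (Finset.coe_range _ ▸ Function.iterate_injOn_Iio_minimalPeriod)]
  refine hF _ (fun g hg' => ?_) (Finset.disjoint_left.2 fun g hg' hgF => ?_)
  · obtain ⟨i, -, rfl⟩ := Finset.mem_image.1 hg'
    exact S.pi_iter_mem hg i
  · obtain ⟨i, hi, rfl⟩ := Finset.mem_image.1 hg'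
    refine hj f (Finset.mem_biUnion.2 ⟨_, hgF, Finset.mem_image.2
      ⟨(Function.minimalPeriod S.pi f - i) % _, Finset.mem_range.2 (Nat.mod_lt _ ?_), ?_⟩⟩) rfl
    · rw [Function.minimalPeriod_apply_iterate hp]
      exact Function.minimalPeriod_pos_of_mem_periodicPts hp
    · rw [Function.iterate_mod_minimalPeriod_eq, ← Function.iterate_add_apply,
        Nat.sub_add_cancel (Finset.mem_range.1 hi).le, Function.iterate_minimalPeriod]

lemma Lev.escape {S : Sys} (V : Lev S) {Λ : ℝ} (hΛ : 0 < Λ) :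
    ∀ᶠ j in atTop, S.P.Esc (V.u j) (V.v j) (Λ * (V.v j - V.u j)) := by
  have hc := V.c1_pos
  have hG := S.P.one_le_G
  have hδ : 0 < V.c1 / Λ := by positivity
  have hM : 0 < Λ * (S.P.G + 2 + V.c1 / Λ) := by positivity
  filter_upwards [V.avoid, ep2_tail V hδ, V.len_small one_pos, V.small _ hδ,
    V.small _ (inv_pos.2 hM)] with j h1 h2 h3 h4 h5
  have huv := V.uv j
  have hD : 0 < Λ * (V.v j - V.u j) := mul_pos hΛ (sub_pos.2 huv)
  rw [le_inv_mul_iff₀ hM, mul_right_comm] at h5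
  rw [div_mul_eq_mul_div, le_div_iff₀' hΛ] at h4
  have h6 := mul_pos hD hδ
  have h7 := mul_le_mul_of_nonneg_left hG hD.le
  obtain ⟨ys, hs, hs'⟩ := ep2_small S (D := Λ * (V.v j - V.u j)) (V.gap (j + 1)) (V.long _) huv
    (mul_pos hc (sub_pos.2 huv)) hδ ((V.flank j).imp And.left And.right) (by linarith)
    (by linarith) (le_of_eq (by field_simp)) (V.s5 j) h2
  obtain ⟨yb, hb, hb'⟩ := ep2_pull S (V.gap j)
    (Q := fun y => y ≤ V.u j - Λ * (V.v j - V.u j) ∨ V.v j + Λ * (V.v j - V.u j) ≤ y) hs hs'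
  have key : ∀ f, f = V.e (j + 1) ∨ f = V.e j → ∃ y, S.Fol f y ∧ ∀ k,
      ¬ Inner (V.u j) (V.v j) (S.pi^[k] f) ∧ (S.pi^[k] f = V.e (j + 1) ∨ S.pi^[k] f = V.e j →
        S.P.T^[k] y ≤ V.u j - Λ * (V.v j - V.u j) ∨
          V.v j + Λ * (V.v j - V.u j) ≤ S.P.T^[k] y) := by
    have h8 : ∀ y, S.Fol (V.e j) y →
        y ≤ V.u j - Λ * (V.v j - V.u j) ∨ V.v j + Λ * (V.v j - V.u j) ≤ y := fun y hy =>
      (V.s4 j y (hy 0) (hy 1)).imp (fun h => by linarith) fun h => by linarith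
    rintro f (rfl | rfl)
    · exact ⟨ys, hs, fun k => ⟨h1 _ (Or.inr rfl) k,
        fun h => h.elim (hs' k) fun e => h8 _ (e ▸ hs.iter k)⟩⟩
    · exact ⟨yb, hb, fun k => ⟨h1 _ (Or.inl rfl) k,
        fun h => h.elim (hb' k) fun e => h8 _ (e ▸ hb.iter k)⟩⟩
  have h9 : Λ * (V.v j - V.u j) ≤ len (V.e (j + 1)) := by linarith
  generalize Λ * (V.v j - V.u j) = D at key h9 ⊢
  rcases V.flank j with ⟨e1, e2⟩ | ⟨e1, e2⟩ <;> rw [← e1, ← e2] at key huv ⊢
  · exact ep2_esc S (V.gap _) (V.gap _) huv.le h9 (by linarith) key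
  · exact ep2_esc S (V.gap _) (V.gap _) huv.le (by linarith) h9 fun f hf => by
      simpa only [or_comm (a := S.pi^[_] f = V.e j)] using key f hf.symm

end Pool.Agent.MP_8df504_an.C

end

section

set_option autoImplicit false

namespace Pool.Agent.MP_8df504_an.C

open Set Filter Topology MeasureTheory

/-! Basic facts on `Sys`.

Hints.  On a gap `g`, `T y = T g.1 + sl g.1 * (y - g.1)` (`sl_aff`, `gap_noB`, `gap_sub`).
`slopeAt_gap`: if `y < g.2` use `sl_eq` on `g`; if `y = g.2 ∉ B` then `NoB B g.1 v`.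
`pull_cl`, `pull_op`: solve the affine equation.
`tail_prod`: let `Γ` be the supremum of the finite products (bounded by `G`), choose `F` with
product `> Γ/(1+δ)`.  `finite_big_r`: `(1+ε)^n ≤ G`.
`expand_K`: for `a < a'` in `K`, show by induction on the number `k` of points of `B` strictly
between `p < q` (`p, q ∈ K ∩ [a,a']`) that `m (q - p) ≤ (k+1) * 2 G |T a' - T a|`, using
`three_point` (`|T q - T p| ≤ |T q - T a| + |T p - T a|`) and `B ⊆ K`.
`distortion`: induct on `r` keeping track of the number of `i < r` with `T^[i] '' Z ∩ B` nonempty,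
which is at most `B.card` by disjointness; the segment between `T^[i] y` and `T^[i] w` lies in
`T^[i] '' Z` (intermediate value theorem); if it contains no point of `B` the slope on it is
`sl (T^[i] y)` (use `sl_aff`, `sl_eq`; when `T^[i] y` is the right end of the segment, it is not in
`B`, so it is `< hi` and the segment extends a little to the right without meeting `B`). -/

namespace Sys

variable (S : Sys)

lemma dist_fold {a a' X : ℝ}
    (hX : ∀ p ∈ S.P.K, ∀ q ∈ S.P.K, a ≤ p → p ≤ q → q ≤ a' → |S.P.T q - S.P.T p| ≤ X)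
    (hX0 : 0 ≤ X) (k : ℕ) :
    ∀ p ∈ S.P.K, ∀ q ∈ S.P.K, a ≤ p → p ≤ q → q ≤ a' →
      (S.P.B.filter (fun b => p < b ∧ b < q)).card ≤ k → S.L.m * (q - p) ≤ (k + 1) * X := by
  have base : ∀ p ∈ S.P.K, ∀ q ∈ S.P.K, a ≤ p → p ≤ q → q ≤ a' → NoB S.P.B p q →
      S.L.m * (q - p) ≤ X := by
    intro p hp q hq h1 h2 h3 hn
    rcases h2.eq_or_lt with rfl | h4
    · simpa using hX0
    · have e := S.L.sl_aff p q (S.P.sub hp).1 h4 (S.P.sub hq).2 hn q ⟨h2, le_rfl⟩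
      have e2 : |S.P.T q - S.P.T p| = |S.L.sl p| * (q - p) := by
        rw [e, add_sub_cancel_left, abs_mul, abs_of_nonneg (sub_nonneg.2 h2)]
      have e3 := hX p hp q hq h1 h2 h3
      have e4 := mul_le_mul_of_nonneg_right (S.L.sl_lo p) (sub_nonneg.2 h2)
      linarith
  induction k with
  | zero =>
    intro p hp q hq h1 h2 h3 hc
    have hn : NoB S.P.B p q := fun b hb hpq => by
      have : 0 < (S.P.B.filter (fun b => p < b ∧ b < q)).card :=
        Finset.card_pos.2 ⟨b, Finset.mem_filter.2 ⟨hb, hpq⟩⟩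
      exact absurd (this.trans_le hc) (lt_irrefl _)
    simpa using base p hp q hq h1 h2 h3 hn
  | succ k ih =>
    intro p hp q hq h1 h2 h3 hc
    by_cases hn : NoB S.P.B p q
    · have := base p hp q hq h1 h2 h3 hn
      push_cast
      nlinarith [mul_nonneg (Nat.cast_nonneg (α := ℝ) k) hX0]
    · have hne : (S.P.B.filter (fun b => p < b ∧ b < q)).Nonempty := by
        unfold NoB at hn
        push Not at hn
        obtain ⟨b, hb, h4⟩ := hn
        exact ⟨b, Finset.mem_filter.2 ⟨hb, h4⟩⟩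
      obtain ⟨b, hb, hbm⟩ := Finset.exists_min_image _ id hne
      have hb' := Finset.mem_filter.1 hb
      have hbK := S.P.B_sub b hb'.1
      have e1 := base p hp b hbK h1 hb'.2.1.le (hb'.2.2.le.trans h3) (fun c hc hpc =>
        absurd (hbm c (Finset.mem_filter.2 ⟨hc, hpc.1, hpc.2.trans hb'.2.2⟩)) (not_le.2 hpc.2))
      have e2 : (S.P.B.filter (fun c => b < c ∧ c < q)).card ≤ k := by
        have : S.P.B.filter (fun c => b < c ∧ c < q) ⊆
            (S.P.B.filter (fun b => p < b ∧ b < q)).erase b := by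
          intro c hc
          rw [Finset.mem_filter] at hc
          exact Finset.mem_erase.2 ⟨hc.2.1.ne', Finset.mem_filter.2
            ⟨hc.1, hb'.2.1.trans hc.2.1, hc.2.2⟩⟩
        have h5 := Finset.card_le_card this
        rw [Finset.card_erase_of_mem hb] at h5
        omega
      have e3 := ih b hbK q hq (h1.trans hb'.2.1.le) hb'.2.2.le h3 e2
      push_cast
      linarith

lemma expand_K : ∃ c, 0 < c ∧ c ≤ S.L.M ∧
    ∀ a ∈ S.P.K, ∀ a' ∈ S.P.K, c * |a - a'| ≤ |S.P.T a - S.P.T a'| := by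
  have hG : 1 ≤ S.P.G := S.P.one_le_G
  have hm := S.L.m_pos
  have hD : (1 : ℝ) ≤ (S.P.B.card + 1) * (2 * S.P.G) := by
    nlinarith [Nat.cast_nonneg (α := ℝ) S.P.B.card]
  have key : ∀ a ∈ S.P.K, ∀ a' ∈ S.P.K, a ≤ a' →
      S.L.m / ((S.P.B.card + 1) * (2 * S.P.G)) * |a - a'| ≤ |S.P.T a - S.P.T a'| := by
    intro a ha a' ha' h
    have h1 := S.dist_fold (a := a) (a' := a') (X := 2 * S.P.G * |S.P.T a' - S.P.T a|)
      (fun p hp q hq h1 h2 h3 => by
        have e1 := (three_point S.P.inj S.P.gain ha hp ha' h1 (h2.trans h3)).1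
        have e2 := (three_point S.P.inj S.P.gain ha hq ha' (h1.trans h2) h3).1
        have e3 := abs_sub_le (S.P.T q) (S.P.T a) (S.P.T p)
        rw [abs_sub_comm (S.P.T a)] at e3
        linarith) (by positivity) S.P.B.card a ha a' ha' le_rfl h le_rfl
        (Finset.card_filter_le _ _)
    rw [abs_sub_comm a, abs_of_nonneg (sub_nonneg.2 h), abs_sub_comm (S.P.T a),
      div_mul_eq_mul_div, div_le_iff₀ (by linarith)]
    linarith
  refine ⟨S.L.m / ((S.P.B.card + 1) * (2 * S.P.G)), div_pos hm (by linarith),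
    (div_le_self hm.le hD).trans S.m_le_M, fun a ha a' ha' => ?_⟩
  rcases le_total a a' with h | h
  · exact key a ha a' ha' h
  · rw [abs_sub_comm a, abs_sub_comm (S.P.T a)]
    exact key a' ha' a ha h

lemma dist_good {y w : ℝ} (hy : y ∈ Icc S.P.lo S.P.hi) (hw : w ∈ Icc S.P.lo S.P.hi)
    (h : ∀ b ∈ S.P.B, b ∉ uIcc y w) : |S.P.T w - S.P.T y| = |S.L.sl y| * |w - y| := by
  rcases lt_trichotomy y w with c | rfl | c
  · have hn : NoB S.P.B y w := fun b hb h1 =>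
      h b hb (mem_uIcc_of_le h1.1.le h1.2.le)
    rw [S.L.sl_aff y w hy.1 c hw.2 hn w ⟨c.le, le_rfl⟩, add_sub_cancel_left, abs_mul]
  · simp
  · have hyB : y < S.P.hi := lt_of_le_of_ne hy.2 fun e => h y (e ▸ S.P.hi_B) left_mem_uIcc
    obtain ⟨v, hv, hvm⟩ := Finset.exists_min_image (S.P.B.filter fun b => y < b) id
      ⟨S.P.hi, Finset.mem_filter.2 ⟨S.P.hi_B, hyB⟩⟩
    rw [Finset.mem_filter] at hv
    have hv2 : v ≤ S.P.hi := hvm _ (Finset.mem_filter.2 ⟨S.P.hi_B, hyB⟩)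
    have hn : NoB S.P.B w v := fun b hb h1 => by
      rcases le_or_gt b y with c1 | c1
      · exact h b hb (mem_uIcc_of_ge h1.1.le c1)
      · exact absurd (hvm b (Finset.mem_filter.2 ⟨hb, c1⟩)) (not_le.2 h1.2)
    have e1 := S.L.sl_eq w v hw.1 (c.trans hv.2) hv2 hn y c.le hv.2
    have e2 := S.L.sl_aff w v hw.1 (c.trans hv.2) hv2 hn y ⟨c.le, hv.2.le⟩
    rw [abs_sub_comm, e2, add_sub_cancel_left, abs_mul, e1, abs_sub_comm]

lemma dist_bad {y w : ℝ} (hy : y ∈ Icc S.P.lo S.P.hi) (hw : w ∈ Icc S.P.lo S.P.hi) :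
    |S.P.T w - S.P.T y| ≤ S.L.M / S.L.m * (|S.L.sl y| * |w - y|) := by
  have hm := S.L.m_pos
  have hM : 0 ≤ S.L.M := hm.le.trans S.m_le_M
  refine (S.L.lip w hw y hy).trans ?_
  calc S.L.M * |w - y| = S.L.M / S.L.m * (S.L.m * |w - y|) := by field_simp
    _ ≤ S.L.M / S.L.m * (|S.L.sl y| * |w - y|) := by
      gcongr
      exact S.L.sl_lo y

lemma distortion {y w : ℝ} (hy : y ∈ Icc S.P.lo S.P.hi) (hw : w ∈ Icc S.P.lo S.P.hi) (r : ℕ)
    (hd : ∀ i l, i < l → l < r → ∀ z ∈ uIcc y w, ∀ z' ∈ uIcc y w, S.P.T^[i] z ≠ S.P.T^[l] z') :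
    |S.P.T^[r] w - S.P.T^[r] y| ≤
      (S.L.M / S.L.m) ^ S.P.B.card * (∏ i ∈ Finset.range r, |S.L.sl (S.P.T^[i] y)|) * |w - y| := by
  classical
  have hm := S.L.m_pos
  have hq : 1 ≤ S.L.M / S.L.m := (one_le_div hm).2 S.m_le_M
  let bad : ℕ → Prop := fun i => ∃ b ∈ S.P.B, b ∈ uIcc (S.P.T^[i] y) (S.P.T^[i] w)
  have h1 : ∀ n : ℕ, |S.P.T^[n] w - S.P.T^[n] y| ≤
      (S.L.M / S.L.m) ^ ((Finset.range n).filter bad).card *
        (∏ i ∈ Finset.range n, |S.L.sl (S.P.T^[i] y)|) * |w - y| := by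
    intro n
    induction n with
    | zero => simp
    | succ n ih =>
      have hy' := S.P.mapsI.iterate n hy
      have hw' := S.P.mapsI.iterate n hw
      rw [Function.iterate_succ_apply', Function.iterate_succ_apply', Finset.prod_range_succ,
        Finset.range_add_one, Finset.filter_insert]
      have e0 := mul_le_mul_of_nonneg_left ih (abs_nonneg (S.L.sl (S.P.T^[n] y)))
      by_cases hb : bad n
      · rw [if_pos hb, Finset.card_insert_of_notMem (by simp), pow_succ]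
        refine (S.dist_bad hy' hw').trans
          ((mul_le_mul_of_nonneg_left e0 (by linarith)).trans (le_of_eq ?_))
        ring
      · rw [if_neg hb, S.dist_good hy' hw' (fun b hb1 hb2 => hb ⟨b, hb1, hb2⟩)]
        refine e0.trans (le_of_eq ?_)
        ring
  have h2 : ((Finset.range r).filter bad).card ≤ S.P.B.card := by
    have hex : ∀ i : ℕ, ∃ b : ℝ, bad i → b ∈ S.P.B ∧ ∃ z ∈ uIcc y w, S.P.T^[i] z = b := by
      intro i
      by_cases hb : bad i
      · obtain ⟨b, hb1, hb2⟩ := hb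
        exact ⟨b, fun _ => ⟨hb1,
          intermediate_value_uIcc (S.P.cont.iterate i).continuousOn hb2⟩⟩
      · exact ⟨0, fun h => absurd h hb⟩
    choose f hf using hex
    refine Finset.card_le_card_of_injOn f (fun i hi => ?_) (fun i hi l hl e => ?_)
    · exact (hf i (Finset.mem_filter.1 (Finset.mem_coe.1 hi)).2).1
    · have hi' := Finset.mem_filter.1 (Finset.mem_coe.1 hi)
      have hl' := Finset.mem_filter.1 (Finset.mem_coe.1 hl)
      obtain ⟨z, hz, ez⟩ := (hf i hi'.2).2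
      obtain ⟨z', hz', ez'⟩ := (hf l hl'.2).2
      rcases lt_trichotomy i l with c | c | c
      · exact absurd (by rw [ez, ez', e]) (hd i l c (Finset.mem_range.1 hl'.1) z hz z' hz')
      · exact c
      · exact absurd (by rw [ez, ez', e]) (hd l i c (Finset.mem_range.1 hi'.1) z' hz' z hz)
  refine (h1 r).trans ?_
  have h3 : 0 ≤ ∏ i ∈ Finset.range r, |S.L.sl (S.P.T^[i] y)| :=
    Finset.prod_nonneg fun i _ => abs_nonneg _
  gcongr

end Sys

end Pool.Agent.MP_8df504_an.C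

end

section

set_option autoImplicit false

namespace Pool.Agent.MP_8df504_an.C

open Set Filter Topology MeasureTheory

/-! From escaping points to a cycle of intervals.

`ret_of_esc`: let `c` be from `expand_K`, `C' = G M (M/c)^card B`, `Λ = 8 C' (M/m)^card B + 2`
(any larger constant works).  `X` = closure of the two orbits: closed, forward invariant, disjoint
from the interval from `u-D` to `v+D`.  `α = sSup (X ∩ [yL,u])`, `β = sInf (X ∩ [v,yR])`, `U = (α,β)` misses `X`,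
`α ≤ u - D`, `v + D ≤ β`.  Orbit points visit `[u,v]` infinitely often (`visit` at `u`; `K` has no
point in the open flanks).  Let `y = x k ∈ [u,v]`, `r ≥ 1` its first return time to `[u,v]`,
`y i = x (k+i)`; `mid y r` misses `Ioo fL.1 fR.2`; `T1up` (`slopeAt_self`) and `rho_cmp` with
`θ₁ = θ₂ = 1/2` give `∏ i<r |sl (y i)| ≤ 4 C'`.  Claim A: if `T^[r]` maps the segment `Z` from `y`
to `w` into `U` then `T^[i] Z` misses `U` for `0<i<r` (else by the intermediate value theorem some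
`T^[i] z ∈ {α,β} ⊆ X`, so `T^[r] z ∈ X`), and the `T^[i] Z`, `i<r`, are disjoint (if
`T^[i] z = T^[l] z'`, apply `T^[r-l]`).  Claim B: `T^[r] w ∈ (u - D/2, v + D/2)` for all
`w ∈ [u,v]`: otherwise take the first `w*` on the segment from `y` to `w` where this fails; `T^[r]`
maps the segment from `y` to `w*` into `[u-D/2, v+D/2] ⊆ U` and `distortion` gives
`D/2 ≤ (M/m)^card B * 4 C' * (v-u)`.

`cyc_of_ret`: `H = K ∩ [u,v]`, `a i = sInf (T^[i % r] '' H)`, `b i = sSup (...)` (compact sets).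
`[a i, b i] ⊆ T^[i % r] '' [u,v]` and these images are pairwise disjoint for different `i < r`.
`T^[r]` maps `H` into `K ∩ U ⊆ H`, so `⋃ i<r, T^[i] '' H` is closed, forward invariant, contains a
tail of `x`, hence contains `K`.  So `K ∩ [a i, b i] = T^[i % r] '' H`. -/

/-- leaving an open interval through one of its ends -/
lemma rn_cross {f : ℝ → ℝ} (hf : Continuous f) {a b y z : ℝ} (hy : f y ∈ Ioo a b)
    (hz : f z ∉ Ioo a b) : ∃ z' ∈ uIcc y z, f z' = a ∨ f z' = b := by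
  have h := intermediate_value_uIcc (a := y) (b := z) hf.continuousOn
  rcases not_and_or.1 hz with c | c
  · obtain ⟨z', h1, h2⟩ := h (mem_uIcc.2 (Or.inr ⟨not_lt.1 c, hy.1.le⟩))
    exact ⟨z', h1, Or.inl h2⟩
  · obtain ⟨z', h1, h2⟩ := h (mem_uIcc.2 (Or.inl ⟨hy.2.le, not_lt.1 c⟩))
    exact ⟨z', h1, Or.inr h2⟩

lemma rn_exit {f : ℝ → ℝ} (hf : Continuous f) {a b y w₀ : ℝ} (hy : f y ∈ Ioo a b)
    (h : ∀ w ∈ uIcc y w₀, (∀ z ∈ uIcc y w, f z ∈ Icc a b) → f w ∈ Ioo a b) : f w₀ ∈ Ioo a b := by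
  by_contra h0
  have hE : IsCompact (uIcc y w₀ ∩ f ⁻¹' (Ioo a b)ᶜ) :=
    isCompact_uIcc.inter_right (isOpen_Ioo.isClosed_compl.preimage hf)
  obtain ⟨w, hw, hmin⟩ := hE.exists_isMinOn ⟨w₀, right_mem_uIcc, h0⟩
    (f := fun z => |z - y|) (by fun_prop)
  refine hw.2 (h w hw.1 fun z hz => ?_)
  by_contra hz'
  obtain ⟨z', h1, h2⟩ := rn_cross hf hy fun c => hz' (Ioo_subset_Icc_self c)
  have hab : a ≤ b := (hy.1.trans hy.2).le
  have h3 : |w - y| ≤ |z' - y| := hmin ⟨uIcc_subset_uIcc_left hw.1 (uIcc_subset_uIcc_left hz h1),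
    fun c => by rcases h2 with e | e <;> [exact c.1.ne' e; exact c.2.ne e]⟩
  have h4 : |z - y| ≤ |z' - y| := (abs_sub_left_of_mem_uIcc hz).trans h3
  have h5 : z' = z := by
    rcases mem_uIcc.1 h1 with ⟨c1, c2⟩ | ⟨c1, c2⟩
    · rw [abs_of_nonneg (by linarith), abs_of_nonneg (by linarith)] at h4
      linarith
    · rw [abs_of_nonpos (by linarith), abs_of_nonpos (by linarith)] at h4
      linarith
  rw [h5] at h2
  rcases h2 with e | e
  · exact hz' ⟨e.ge, e ▸ hab⟩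
  · exact hz' ⟨e ▸ hab, e.le⟩

lemma rn_claimA {T : ℝ → ℝ} (hT : Continuous T) {X : Set ℝ} (hX : MapsTo T X X) {α β y w : ℝ}
    (hα : α ∈ X) (hβ : β ∈ X) (hU : ∀ z ∈ X, z ∉ Ioo α β) {r : ℕ}
    (hr : ∀ z ∈ uIcc y w, T^[r] z ∈ Ioo α β) {i : ℕ} (hi : i < r) (hy : T^[i] y ∉ Ioo α β) :
    ∀ z ∈ uIcc y w, T^[i] z ∉ Ioo α β := by
  intro z hz hc
  obtain ⟨z', h1, h2⟩ := rn_cross (hT.iterate i) hc hy
  have h3 : T^[i] z' ∈ X := by rcases h2 with e | e <;> rw [e] <;> assumption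
  refine hU _ (hX.iterate (r - i) h3) ?_
  rw [← Function.iterate_add_apply, Nat.sub_add_cancel hi.le]
  exact hr z' (uIcc_subset_uIcc hz left_mem_uIcc h1)

/-- the invariant closed set and the ends of the free interval -/
lemma rn_ends {T : ℝ → ℝ} (hT : Continuous T) {u v D yL yR : ℝ} (huv : u < v) (hD : 0 < D)
    (hL : yL ≤ u) (hR : v ≤ yR) (h1 : ∀ k : ℕ, T^[k] yL ∉ Ioo (u - D) (v + D))
    (h2 : ∀ k : ℕ, T^[k] yR ∉ Ioo (u - D) (v + D)) :
    ∃ (X : Set ℝ) (α β : ℝ), MapsTo T X X ∧ α ∈ X ∧ β ∈ X ∧ (∀ z ∈ X, z ∉ Ioo α β) ∧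
      yL ≤ α ∧ α ≤ u - D ∧ v + D ≤ β ∧ β ≤ yR := by
  set Y : Set ℝ := {z | ∃ k : ℕ, z = T^[k] yL ∨ z = T^[k] yR} with hY
  have hm : MapsTo T Y Y := by
    rintro z ⟨k, hk⟩
    refine ⟨k + 1, ?_⟩
    simp only [Function.iterate_succ_apply']
    exact hk.imp (congrArg T) (congrArg T)
  have hout : closure Y ⊆ (Ioo (u - D) (v + D))ᶜ := by
    refine closure_minimal ?_ isOpen_Ioo.isClosed_compl
    rintro z ⟨k, rfl | rfl⟩
    exacts [h1 k, h2 k]
  obtain ⟨α, hα, hαm⟩ := ((isCompact_Icc (a := yL) (b := u)).inter_left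
    (isClosed_closure (s := Y))).exists_isGreatest
    ⟨yL, subset_closure ⟨0, Or.inl rfl⟩, le_rfl, hL⟩
  obtain ⟨β, hβ, hβm⟩ := ((isCompact_Icc (a := v) (b := yR)).inter_left
    (isClosed_closure (s := Y))).exists_isLeast
    ⟨yR, subset_closure ⟨0, Or.inr rfl⟩, hR, le_rfl⟩
  refine ⟨closure Y, α, β, hm.closure hT, hα.1, hβ.1, fun z hz hc => ?_, hα.2.1, ?_, ?_, hβ.2.2⟩
  · rcases le_or_gt z u with c | c
    · exact (hαm ⟨hz, hα.2.1.trans hc.1.le, c⟩).not_gt hc.1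
    · rcases le_or_gt v z with c' | c'
      · exact (hβm ⟨hz, c', hc.2.le.trans hβ.2.2⟩).not_gt hc.2
      · exact hout hz ⟨by linarith, by linarith⟩
  · by_contra c
    exact hout hα.1 ⟨not_le.1 c, by linarith [hα.2.2]⟩
  · by_contra c
    exact hout hβ.1 ⟨by linarith [hβ.2.1], not_le.1 c⟩

/-- the product of the slopes up to the first return is bounded -/
lemma rn_prod (S : Sys) : ∃ C > 0, ∀ (fL fR : ℝ × ℝ), fL ∈ Gap S.P.K → fR ∈ Gap S.P.K →
    fL.2 < fR.1 → fR.1 - fL.2 ≤ len fL → fR.1 - fL.2 ≤ len fR → ∀ k r : ℕ, 1 ≤ r →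
    S.P.x k ∈ Icc fL.2 fR.1 → S.P.x (k + r) ∈ Icc fL.2 fR.1 →
    (∀ i, 0 < i → i < r → S.P.x (k + i) ∉ Icc fL.2 fR.1) →
    ∏ i ∈ Finset.range r, |S.L.sl (S.P.x (k + i))| ≤ C := by
  obtain ⟨c, hc, hcM, hexp⟩ := S.expand_K
  have hM : 0 < S.L.M := hc.trans_le hcM
  have hG : 0 < S.P.G := one_pos.trans_le S.P.one_le_G
  have hκ : 0 < (c / S.L.M) ^ S.P.B.card / S.L.M := by positivity
  refine ⟨4 * S.P.G / ((c / S.L.M) ^ S.P.B.card / S.L.M), by positivity,
    fun fL fR hL hR huv h1 h2 k r hr h0 h3 hmid => ?_⟩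
  have hK : ∀ z ∈ orb (fun i => S.P.x (k + i)) r, z ∈ S.P.K := fun z hz => by
    obtain ⟨i, -, rfl⟩ := Finset.mem_image.1 hz
    exact S.P.x_mem _
  have hT := T1up (T := S.P.T) (lo := S.P.lo) (hi := S.P.hi) (B := S.P.B) (G := S.P.G)
    (y := fun i => S.P.x (k + i)) (s := fun i => |S.L.sl (S.P.x (k + i))|) S.L.m_pos hr
    (fun i _ => S.P.x_succ _) (fun i _ j _ e => Nat.add_left_cancel (S.P.x_inj e))
    (fun i _ => S.P.sub (S.P.x_mem _))
    (fun i _ => ⟨S.L.sl_lo _, S.L.sl_hi _, S.slopeAt_self (S.P.sub (S.P.x_mem _)).1⟩) hc hcM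
    (fun e he => by
      have he' := mem_gaps.1 he
      have := hexp e.2 (hK _ he'.2.1) e.1 (hK _ he'.1)
      rwa [abs_of_pos (sub_pos.2 he'.2.2.1)] at this)
    (S.P.gain _ hK)
  have hl := hL.2.2.1
  have hl' := hR.2.2.1
  unfold len at h1 h2
  have hρ := rho_cmp (O := mid (fun i => S.P.x (k + i)) r) (L := fL.1) (R := fR.2)
    (y := S.P.x (k + 0)) (y' := S.P.x (k + r)) (θ₁ := 1 / 2) (θ₂ := 1 / 2) (fun z hz hc => by
      obtain ⟨i, hi, rfl⟩ := Finset.mem_image.1 hz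
      refine hmid i (Finset.mem_Ioo.1 hi).1 (Finset.mem_Ioo.1 hi).2 ⟨?_, ?_⟩
      · exact (Gap.le_or_ge hL (S.P.x_mem _)).resolve_left hc.1.not_ge
      · exact (Gap.le_or_ge hR (S.P.x_mem _)).resolve_right hc.2.not_ge)
    ⟨hl.trans_le h0.1, h0.2.trans_lt hl'⟩ ⟨hl.trans_le h3.1, h3.2.trans_lt hl'⟩
    (by norm_num) (by norm_num) (by rw [add_zero]; linarith [h0.1, h3.2])
    (by rw [add_zero]; linarith [h0.2, h3.1])
  rw [le_div_iff₀ hκ, mul_comm]
  refine le_of_mul_le_mul_right (hT.trans ?_) (rho_pos _ _)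
  nlinarith

lemma Sys.ret_of_esc (S : Sys) : ∃ Λ > 0, ∀ (fL fR : ℝ × ℝ), fL ∈ Gap S.P.K → fR ∈ Gap S.P.K →
    fL.2 < fR.1 → fR.1 - fL.2 ≤ len fL → fR.1 - fL.2 ≤ len fR →
    S.P.Esc fL.2 fR.1 (Λ * (fR.1 - fL.2)) → S.P.Ret fL.2 fR.1 := by
  classical
  obtain ⟨C, hC, hprod⟩ := rn_prod S
  have hA : 0 < (S.L.M / S.L.m) ^ S.P.B.card :=
    pow_pos (div_pos (S.L.m_pos.trans_le S.m_le_M) S.L.m_pos) _
  refine ⟨2 * ((S.L.M / S.L.m) ^ S.P.B.card * C) + 2, by positivity,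
    fun fL fR hL hR huv h1 h2 hesc => ?_⟩
  obtain ⟨yL, yR, hyL, hyR, hKs, hoL, hoR⟩ := hesc
  set D := (2 * ((S.L.M / S.L.m) ^ S.P.B.card * C) + 2) * (fR.1 - fL.2) with hD
  have hd : 0 < fR.1 - fL.2 := sub_pos.2 huv
  have hD0 : 0 < D := by positivity
  obtain ⟨X, α, β, hX, hα, hβ, hU, e1, e2, e3, e4⟩ := rn_ends S.P.cont huv hD0 hyL hyR hoL hoR
  have hKU : ∀ z ∈ S.P.K, α < z → z < β → fL.2 ≤ z ∧ z ≤ fR.1 := fun z hz c1 c2 =>
    hKs z hz (e1.trans_lt c1) (c2.trans_le e4)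
  have hvis : ∀ N, ∃ n, N ≤ n ∧ S.P.x n ∈ Icc fL.2 fR.1 := fun N => by
    obtain ⟨n, hn, -, hx⟩ := S.P.visit hL.2.1 hd N
    have hx' := abs_lt.1 hx
    unfold len at h1
    exact ⟨n, hn, (Gap.le_or_ge hL (S.P.x_mem n)).resolve_left (not_le.2 (by linarith [hx'.1])),
      by linarith [hx'.2]⟩
  obtain ⟨k, -, hk⟩ := hvis 0
  have hex : ∃ r, 1 ≤ r ∧ S.P.x (k + r) ∈ Icc fL.2 fR.1 := by
    obtain ⟨n, hn, hx⟩ := hvis (k + 1)
    exact ⟨n - k, by omega, by rwa [Nat.add_sub_cancel' (by omega)]⟩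
  obtain ⟨hr, hkr⟩ := Nat.find_spec hex
  have hmid : ∀ i, 0 < i → i < Nat.find hex → S.P.x (k + i) ∉ Icc fL.2 fR.1 :=
    fun i h0 hi hc => Nat.find_min hex hi ⟨h0, hc⟩
  generalize Nat.find hex = r at hr hkr hmid
  have hP := hprod fL fR hL hR huv h1 h2 k r hr hk hkr hmid
  have hyU : ∀ i, 0 < i → i < r → S.P.T^[i] (S.P.x k) ∉ Ioo α β := fun i h0 hi hc => by
    rw [S.P.x_iter] at hc
    exact hmid i h0 hi (hKU _ (S.P.x_mem _) hc.1 hc.2)
  have hB : ∀ w ∈ Icc fL.2 fR.1, S.P.T^[r] w ∈ Ioo α β := by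
    intro w₀ hw₀
    have hsub : Icc (fL.2 - D / 2) (fR.1 + D / 2) ⊆ Ioo α β :=
      Icc_subset_Ioo (by linarith) (by linarith)
    refine hsub (Ioo_subset_Icc_self (rn_exit (S.P.cont.iterate r) (y := S.P.x k) ?_
      fun w hw hZ => ?_))
    · rw [S.P.x_iter]
      exact ⟨by linarith [hkr.1], by linarith [hkr.2]⟩
    · have hw' : w ∈ Icc fL.2 fR.1 := uIcc_subset_Icc hk hw₀ hw
      have hdist := S.distortion (S.P.sub (S.P.x_mem k))
        ⟨(S.P.sub hL.2.1).1.trans hw'.1, hw'.2.trans (S.P.sub hR.1).2⟩ r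
        fun i l hil hl z hz z' hz' e => by
          refine rn_claimA S.P.cont hX hα hβ hU (fun z hz => hsub (hZ z hz))
            (i := r - l + i) (by omega) (hyU _ (by omega) (by omega)) z hz ?_
          rw [Function.iterate_add_apply, e, ← Function.iterate_add_apply,
            Nat.sub_add_cancel hl.le]
          exact hsub (hZ z' hz')
      simp only [S.P.x_iter] at hdist
      have h5 : |w - S.P.x k| ≤ fR.1 - fL.2 :=
        abs_le.2 ⟨by linarith [hw'.1, hk.2], by linarith [hw'.2, hk.1]⟩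
      have h6 := abs_le.1 (hdist.trans (mul_le_mul (mul_le_mul_of_nonneg_left hP hA.le) h5
        (abs_nonneg _) (by positivity)))
      have h7 : (S.L.M / S.L.m) ^ S.P.B.card * C * (fR.1 - fL.2) < D / 2 := by
        rw [hD]
        linarith
      exact ⟨by linarith [h6.1, hkr.1], by linarith [h6.2, hkr.2]⟩
  refine ⟨α, β, r, hr, by linarith, by linarith, hKU, hB, fun i h0 hi w hw => ?_⟩
  exact rn_claimA S.P.cont hX hα hβ hU (fun z hz => hB z (uIcc_subset_Icc hk hw hz)) hi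
    (hyU i h0 hi) w right_mem_uIcc

end Pool.Agent.MP_8df504_an.C

end
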