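import Pool.Agent.Mg.F8df504.G78a617
import Pool.Agent.Mg.F8df504.G8a5c1a

section

set_option autoImplicit false

namespace Pool.Agent.MP_8df504_an.C

open Set Filter Topology MeasureTheory

/-! Finitely many long gaps: the left end of a gap returns to its left.

`exact_piece` (Lemma X): on `[w,w']`, points of `K` go injectively to `K`, and each open gap `g`
goes injectively (affine, slope nonzero) onto the open gap `pi g` (`exact_ends`, `gap_aff`);
`pi` is injective.  A continuous injective map on an interval is monotone or antitone, so the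
image is the segment between `T w` and `T w'`; a gap `γ` inside the image has its midpoint equal to
`T y` with `y` in an open gap `g` inside `[w,w']`, and then `γ = pi g` (`Gap.eq_of_mem`).

`ret_left`: let `a = g0.1`.  Choose (`acc_left`, `exists_gap_between`) a gap `fL` with
`a - ε ≤ fL.1` and `fL.2 < a`; `J = [fL.2, a]`, with flanks `fL` and `g0`.  Call a gap `g` inside `J`
bad if for some `k`, `pi^[k] g` is long or a flank and `pi^[i] g` is not inside `J` for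
`0 < i ≤ k`.  Each long gap or flank `γ` comes from at most one bad `g` (if `pi^[k] g = pi^[k'] g'`,
`k ≤ k'`, then `g = pi^[k'-k] g'` by injectivity, so `k = k'`), hence finitely many bad gaps; pick
`w ∈ K`, `fL.2 ≤ w < a`, to the right of all bad gaps (no gap has right end `a`, by `acc_left`).
Pick an orbit point `y ∈ (w,a)` and its first return time `n ≥ 1` to `J` (`acc_left`).  By
induction on `j ≤ n`: `T^[j]` is injective on `[w,a]`, `T^[j] y' ∈ K ↔ y' ∈ K` there, the image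
`P j` is the segment between `T^[j] w` and `T^[j] a`, every gap inside `P j` is `pi^[j] g` with
`g` a gap inside `[w,a]` and conversely `pi^[j] g` is inside `P j`, and `P j` is disjoint from `J`
for `0 < j < n`.  (If `P j` contains a point of `J` and a point of `K` outside `J`, then it contains
a flank, which makes a gap bad.)  For `j = n` the same argument gives `P n ⊆ J`. -/

namespace Sys

variable (S : Sys)

lemma f2a_sl_ne (y : ℝ) : S.L.sl y ≠ 0 := abs_pos.1 (S.L.m_pos.trans_le (S.L.sl_lo y))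

lemma f2a_open {g : ℝ × ℝ} (hg : g ∈ Gap S.P.K) (h : ¬ S.Long g) {y : ℝ} (h1 : g.1 < y)
    (h2 : y < g.2) : (S.pi g).1 < S.P.T y ∧ S.P.T y < (S.pi g).2 := by
  have a := S.gap_aff hg (y := y) ⟨h1.le, h2.le⟩
  have b := S.gap_aff hg (y := g.2) ⟨hg.2.2.1.le, le_rfl⟩
  have c := (S.pi_mem hg).2.2.1
  have d := sub_pos.2 hg.2.2.1
  rcases S.exact_ends hg h with ⟨e1, e2⟩ | ⟨e1, e2⟩
  · have s : 0 < S.L.sl g.1 := (mul_pos_iff_of_pos_right d).1 (by linarith)
    constructor <;> nlinarith [mul_pos s (sub_pos.2 h1), mul_pos s (sub_pos.2 h2)]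
  · have s : 0 < -S.L.sl g.1 := (mul_pos_iff_of_pos_right d).1 (by linarith)
    constructor <;> nlinarith [mul_pos s (sub_pos.2 h1), mul_pos s (sub_pos.2 h2)]

lemma exact_piece {w w' : ℝ} (hw : w ∈ S.P.K) (hw' : w' ∈ S.P.K) (h : w ≤ w')
    (hex : ∀ g ∈ Gap S.P.K, Inner w w' g → ¬ S.Long g) :
    InjOn S.P.T (Icc w w') ∧ (∀ y ∈ Icc w w', S.P.T y ∈ S.P.K → y ∈ S.P.K) ∧
      S.P.T '' Icc w w' = uIcc (S.P.T w) (S.P.T w') ∧
      (∀ g ∈ Gap S.P.K, Inner w w' g →
        Inner (min (S.P.T w) (S.P.T w')) (max (S.P.T w) (S.P.T w')) (S.pi g)) ∧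
      (∀ γ ∈ Gap S.P.K, Inner (min (S.P.T w) (S.P.T w')) (max (S.P.T w) (S.P.T w')) γ →
        ∃ g ∈ Gap S.P.K, Inner w w' g ∧ S.pi g = γ) := by
  have h1 : ∀ y ∈ Icc w w', y ∉ S.P.K → ∃ g ∈ Gap S.P.K, Inner w w' g ∧ y ∈ cl g ∧
      (S.pi g).1 < S.P.T y ∧ S.P.T y < (S.pi g).2 := fun y hy hK => by
    obtain ⟨g, hg, a, b, c, d⟩ := exists_gap_around S.P.cpt hw hw' hy.1 hy.2 hK
    exact ⟨g, hg, ⟨a, d⟩, ⟨b.le, c.le⟩, S.f2a_open hg (hex g hg ⟨a, d⟩) b c⟩
  have h2 : ∀ y ∈ Icc w w', S.P.T y ∈ S.P.K → y ∈ S.P.K := fun y hy hT => by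
    by_contra hK
    obtain ⟨g, hg, -, -, a⟩ := h1 y hy hK
    exact (S.pi_mem hg).2.2.2 _ hT a
  have h3 : InjOn S.P.T (Icc w w') := fun y hy y' hy' e => by
    by_cases hK : y ∈ S.P.K
    · exact S.P.inj hK (h2 y' hy' (e ▸ S.P.mapsK hK)) e
    · obtain ⟨g, hg, -, a, b⟩ := h1 y hy hK
      obtain ⟨g', hg', -, a', b'⟩ := h1 y' hy' fun hK' => hK (h2 y hy (e ▸ S.P.mapsK hK'))
      obtain rfl : g = g' := S.ok.bij.injOn hg hg'
        (Gap.eq_of_mem (S.pi_mem hg) (S.pi_mem hg') b (e ▸ b'))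
      rw [S.gap_aff hg a, S.gap_aff hg a', add_right_inj, mul_right_inj' (S.f2a_sl_ne _),
        sub_left_inj] at e
      exact e
  have h4 : S.P.T '' Icc w w' = uIcc (S.P.T w) (S.P.T w') := by
    refine Subset.antisymm ?_ (uIcc_of_le h ▸ intermediate_value_uIcc S.P.cont.continuousOn)
    rintro _ ⟨y, hy, rfl⟩
    have a := left_mem_Icc.2 h
    have b := right_mem_Icc.2 h
    rcases S.P.cont.continuousOn.strictMonoOn_of_injOn_Icc' h h3 with m | m
    · exact mem_uIcc_of_le (m.monotoneOn a hy hy.1) (m.monotoneOn hy b hy.2)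
    · exact mem_uIcc_of_ge (m.antitoneOn hy b hy.2) (m.antitoneOn a hy hy.1)
  refine ⟨h3, h2, h4, fun g hg hi => ?_, fun γ hγ hi => ?_⟩
  · have a : S.P.T g.1 ∈ uIcc (S.P.T w) (S.P.T w') :=
      h4 ▸ mem_image_of_mem _ ⟨hi.1, hg.2.2.1.le.trans hi.2⟩
    have b : S.P.T g.2 ∈ uIcc (S.P.T w) (S.P.T w') :=
      h4 ▸ mem_image_of_mem _ ⟨hi.1.trans hg.2.2.1.le, hi.2⟩
    rcases S.exact_ends hg (hex g hg hi) with ⟨e1, e2⟩ | ⟨e1, e2⟩
    · exact ⟨e1 ▸ a.1, e2 ▸ b.2⟩
    · exact ⟨e2 ▸ b.1, e1 ▸ a.2⟩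
  · have a := hγ.2.2.1
    have b : γ.1 < (γ.1 + γ.2) / 2 ∧ (γ.1 + γ.2) / 2 < γ.2 := ⟨by linarith, by linarith⟩
    have c : (γ.1 + γ.2) / 2 ∈ S.P.T '' Icc w w' :=
      h4 ▸ ⟨hi.1.trans b.1.le, b.2.le.trans hi.2⟩
    obtain ⟨y, hy, e⟩ := c
    obtain ⟨g, hg, d, -, f⟩ := h1 y hy fun hK => hγ.2.2.2 _ (S.P.mapsK hK) (e ▸ b)
    exact ⟨g, hg, d, Gap.eq_of_mem (S.pi_mem hg) hγ f (e ▸ b)⟩

end Sys

end Pool.Agent.MP_8df504_an.C

end

section

set_option autoImplicit false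

namespace Pool.Agent.MP_8df504_an.C

open Set Filter Topology MeasureTheory

/-! Finitely many long gaps: the left end of a gap returns to its left.

`exact_piece` (Lemma X): on `[w,w']`, points of `K` go injectively to `K`, and each open gap `g`
goes injectively (affine, slope nonzero) onto the open gap `pi g` (`exact_ends`, `gap_aff`);
`pi` is injective.  A continuous injective map on an interval is monotone or antitone, so the
image is the segment between `T w` and `T w'`; a gap `γ` inside the image has its midpoint equal to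
`T y` with `y` in an open gap `g` inside `[w,w']`, and then `γ = pi g` (`Gap.eq_of_mem`).

`ret_left`: let `a = g0.1`.  Choose (`acc_left`, `exists_gap_between`) a gap `fL` with
`a - ε ≤ fL.1` and `fL.2 < a`; `J = [fL.2, a]`, with flanks `fL` and `g0`.  Call a gap `g` inside `J`
bad if for some `k`, `pi^[k] g` is long or a flank and `pi^[i] g` is not inside `J` for
`0 < i ≤ k`.  Each long gap or flank `γ` comes from at most one bad `g` (if `pi^[k] g = pi^[k'] g'`,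
`k ≤ k'`, then `g = pi^[k'-k] g'` by injectivity, so `k = k'`), hence finitely many bad gaps; pick
`w ∈ K`, `fL.2 ≤ w < a`, to the right of all bad gaps (no gap has right end `a`, by `acc_left`).
Pick an orbit point `y ∈ (w,a)` and its first return time `n ≥ 1` to `J` (`acc_left`).  By
induction on `j ≤ n`: `T^[j]` is injective on `[w,a]`, `T^[j] y' ∈ K ↔ y' ∈ K` there, the image
`P j` is the segment between `T^[j] w` and `T^[j] a`, every gap inside `P j` is `pi^[j] g` with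
`g` a gap inside `[w,a]` and conversely `pi^[j] g` is inside `P j`, and `P j` is disjoint from `J`
for `0 < j < n`.  (If `P j` contains a point of `J` and a point of `K` outside `J`, then it contains
a flank, which makes a gap bad.)  For `j = n` the same argument gives `P n ⊆ J`. -/

namespace Sys

variable (S : Sys)

/-- the `j`-th iterate is exact on `[w,a]`, with image inside `[p,q]` -/
structure f2_Inv (w a : ℝ) (j : ℕ) (p q : ℝ) : Prop where
  hp : p ∈ S.P.K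
  hq : q ∈ S.P.K
  le : p ≤ q
  inj : InjOn S.P.T^[j] (Icc w a)
  back : ∀ y ∈ Icc w a, S.P.T^[j] y ∈ S.P.K → y ∈ S.P.K
  maps : MapsTo S.P.T^[j] (Icc w a) (Icc p q)
  fwd : ∀ g ∈ Gap S.P.K, Inner w a g → Inner p q (S.pi^[j] g)
  bwd : ∀ γ ∈ Gap S.P.K, Inner p q γ → ∃ g ∈ Gap S.P.K, Inner w a g ∧ S.pi^[j] g = γ

lemma f2_zero {w a : ℝ} (hw : w ∈ S.P.K) (ha : a ∈ S.P.K) (h : w ≤ a) : S.f2_Inv w a 0 w a :=
  ⟨hw, ha, h, injOn_id _, fun _ _ h => h, mapsTo_id _, fun _ _ h => h,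
    fun γ h h' => ⟨γ, h, h', rfl⟩⟩

lemma f2_step {w a p q : ℝ} {j : ℕ} (h : S.f2_Inv w a j p q)
    (hl : ∀ g ∈ Gap S.P.K, Inner w a g → ¬ S.Long (S.pi^[j] g)) :
    ∃ p' q', S.f2_Inv w a (j + 1) p' q' := by
  obtain ⟨e1, e2, e3, e4, e5⟩ := S.exact_piece h.hp h.hq h.le fun γ hγ hi => by
    obtain ⟨g, hg, h1, rfl⟩ := h.bwd γ hγ hi
    exact hl g hg h1
  have kp := S.P.mapsK h.hp
  have kq := S.P.mapsK h.hq
  refine ⟨min (S.P.T p) (S.P.T q), max (S.P.T p) (S.P.T q), ?_, ?_, min_le_max, ?_, ?_, ?_, ?_, ?_⟩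
  · rcases min_choice (S.P.T p) (S.P.T q) with e | e <;> rwa [e]
  · rcases max_choice (S.P.T p) (S.P.T q) with e | e <;> rwa [e]
  · rw [Function.iterate_succ']
    exact e1.comp h.inj h.maps
  · intro y hy hk
    rw [Function.iterate_succ_apply'] at hk
    exact h.back y hy (e2 _ (h.maps hy) hk)
  · intro y hy
    rw [Function.iterate_succ_apply']
    have : S.P.T (S.P.T^[j] y) ∈ uIcc (S.P.T p) (S.P.T q) := e3 ▸ mem_image_of_mem _ (h.maps hy)
    exact this
  · intro g hg hi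
    rw [Function.iterate_succ_apply']
    exact e4 _ (S.pi_iter_mem hg j) (h.fwd g hg hi)
  · intro γ hγ hi
    obtain ⟨g', hg', h1, rfl⟩ := e5 γ hγ hi
    obtain ⟨g, hg, h2, rfl⟩ := h.bwd g' hg' h1
    exact ⟨g, hg, h2, Function.iterate_succ_apply' _ _ _⟩

lemma f2_dich {w a p q z : ℝ} {j : ℕ} (h : S.f2_Inv w a j p q) {fL g0 : ℝ × ℝ}
    (hL : fL ∈ Gap S.P.K) (h0 : g0 ∈ Gap S.P.K)
    (hf : ∀ g ∈ Gap S.P.K, Inner w a g → S.pi^[j] g ≠ fL ∧ S.pi^[j] g ≠ g0)
    (hz : z ∈ Icc p q) (hz' : z ∈ Icc fL.2 g0.1) : fL.2 ≤ p ∧ q ≤ g0.1 := by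
  constructor
  · refine (Gap.le_or_ge hL h.hp).resolve_left fun c => ?_
    obtain ⟨g, hg, h1, h2⟩ := h.bwd fL hL ⟨c, hz'.1.trans hz.2⟩
    exact (hf g hg h1).1 h2
  · refine (Gap.le_or_ge h0 h.hq).resolve_right fun c => ?_
    obtain ⟨g, hg, h1, h2⟩ := h.bwd g0 h0 ⟨hz.1.trans hz'.2, c⟩
    exact (hf g hg h1).2 h2

lemma f2_bad_finite {E : Set (ℝ × ℝ)} (hE : E.Finite) (u a : ℝ) :
    {g | g ∈ Gap S.P.K ∧ Inner u a g ∧ ∃ k, S.pi^[k] g ∈ E ∧
      ∀ i, 0 < i → i ≤ k → ¬ Inner u a (S.pi^[i] g)}.Finite := by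
  have key : ∀ (g g' : ℝ × ℝ) (k k' : ℕ), g ∈ Gap S.P.K → g' ∈ Gap S.P.K → Inner u a g → k ≤ k' →
      S.pi^[k] g = S.pi^[k'] g' → (∀ i, 0 < i → i ≤ k' → ¬ Inner u a (S.pi^[i] g')) → g = g' := by
    intro g g' k k' hg hg' hi hk e h
    obtain ⟨d, rfl⟩ := Nat.exists_eq_add_of_le hk
    rw [Function.iterate_add_apply] at e
    have e' := S.pi_iter_inj k hg (S.pi_iter_mem hg' d) e
    rcases Nat.eq_zero_or_pos d with rfl | hd
    · exact e'
    · exact absurd (e' ▸ hi) (h d hd (by omega))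
  refine (hE.biUnion (t := fun γ => {g | g ∈ Gap S.P.K ∧ Inner u a g ∧ ∃ k, S.pi^[k] g = γ ∧
      ∀ i, 0 < i → i ≤ k → ¬ Inner u a (S.pi^[i] g)}) fun γ _ => ?_).subset ?_
  · refine Set.Subsingleton.finite ?_
    rintro g ⟨hg, hi, k, e, h⟩ g' ⟨hg', hi', k', e', h'⟩
    rcases le_total k k' with c | c
    · exact key g g' k k' hg hg' hi c (e.trans e'.symm) h'
    · exact (key g' g k' k hg' hg hi' c (e'.trans e.symm) h).symm
  · rintro g ⟨hg, hi, k, e, h⟩
    exact mem_biUnion e ⟨hg, hi, k, rfl, h⟩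

lemma f2_pick {Bd : Set (ℝ × ℝ)} (hB : Bd.Finite) {g0 : ℝ × ℝ} (hg0 : g0 ∈ Gap S.P.K) {u : ℝ}
    (hu : u ∈ S.P.K) (hua : u < g0.1) (h : ∀ g ∈ Bd, g ∈ Gap S.P.K ∧ g.2 ≤ g0.1) :
    ∃ w ∈ S.P.K, u ≤ w ∧ w < g0.1 ∧ ∀ g ∈ Bd, g.2 ≤ w := by
  obtain ⟨w, hw, hm⟩ := exists_max_image (insert u (Prod.snd '' Bd)) id
    ((hB.image _).insert u) (insert_nonempty _ _)
  have h1 : w ∈ S.P.K ∧ w < g0.1 := by
    rcases hw with rfl | ⟨g, hg, rfl⟩
    · exact ⟨hu, hua⟩
    · obtain ⟨h2, h3⟩ := h g hg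
      refine ⟨h2.2.1, lt_of_le_of_ne h3 fun e => ?_⟩
      obtain ⟨n, -, h4, h5⟩ := S.P.acc_left hg0 (ε := g0.1 - g.1)
        (sub_pos.2 (e ▸ h2.2.2.1)) 0
      exact h2.2.2.2 _ (S.P.x_mem n) ⟨by linarith, e ▸ h5⟩
  exact ⟨w, h1.1, hm u (mem_insert _ _), h1.2,
    fun g hg => hm g.2 (mem_insert_of_mem _ (mem_image_of_mem _ hg))⟩

lemma ret_left (hfin : {g | g ∈ Gap S.P.K ∧ S.Long g}.Finite) {g0 : ℝ × ℝ}
    (hg0 : g0 ∈ Gap S.P.K) {ε : ℝ} (hε : 0 < ε) :
    ∃ (w : ℝ) (n : ℕ), w ∈ S.P.K ∧ w < g0.1 ∧ 1 ≤ n ∧ InjOn S.P.T^[n] (Icc w g0.1) ∧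
      (∀ y ∈ Icc w g0.1, S.P.T^[n] y ∈ S.P.K → y ∈ S.P.K) ∧
      MapsTo S.P.T^[n] (Icc w g0.1) (Icc (g0.1 - ε) g0.1) := by
  classical
  obtain ⟨n1, -, a1, a2⟩ := S.P.acc_left hg0 hε 0
  obtain ⟨n2, -, a3, a4⟩ := S.P.acc_left hg0 (sub_pos.2 a2) 0
  obtain ⟨fL, hL, a5, a6⟩ := S.P.exists_gap_between (S.P.x_mem n1) (S.P.x_mem n2) (by linarith)
  have hLa : fL.2 < g0.1 := a6.trans_lt a4
  have hL12 := hL.2.2.1
  have hg12 := hg0.2.2.1
  obtain ⟨w, hw, huw, hwa, hbad⟩ := S.f2_pick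
    (S.f2_bad_finite ((hfin.insert g0).insert fL) fL.2 g0.1) hg0 hL.2.1 hLa
    fun g hg => ⟨hg.1, hg.2.1.2⟩
  have good : ∀ g ∈ Gap S.P.K, Inner w g0.1 g → ∀ k,
      (∀ i, 0 < i → i ≤ k → ¬ Inner fL.2 g0.1 (S.pi^[i] g)) →
      S.pi^[k] g ≠ fL ∧ S.pi^[k] g ≠ g0 ∧ ¬ S.Long (S.pi^[k] g) := by
    intro g hg hi k hk
    have : S.pi^[k] g ∉ insert fL (insert g0 {g | g ∈ Gap S.P.K ∧ S.Long g}) := fun c => by
      have h1 := hbad g ⟨hg, ⟨huw.trans hi.1, hi.2⟩, k, c, hk⟩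
      have h2 := hi.1
      have h3 := hg.2.2.1
      linarith
    exact ⟨fun e => this (Or.inl e), fun e => this (Or.inr (Or.inl e)),
      fun e => this (Or.inr (Or.inr ⟨S.pi_iter_mem hg k, e⟩))⟩
  have good2 : ∀ k, (∀ g ∈ Gap S.P.K, Inner w g0.1 g → ∀ i, 0 < i → i < k →
      ¬ Inner fL.2 g0.1 (S.pi^[i] g)) →
      ∀ g ∈ Gap S.P.K, Inner w g0.1 g → S.pi^[k] g ≠ fL ∧ S.pi^[k] g ≠ g0 := by
    intro k hk g hg hi
    by_cases c : Inner fL.2 g0.1 (S.pi^[k] g)
    · exact ⟨fun e => absurd (e ▸ c.1) (not_le.2 hL12), fun e => absurd (e ▸ c.2) (not_le.2 hg12)⟩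
    · have := good g hg hi k fun i h1 h2 => by
        rcases h2.eq_or_lt with rfl | h3
        · exact c
        · exact hk g hg hi i h1 h3
      exact ⟨this.1, this.2.1⟩
  obtain ⟨n0, -, b1, b2⟩ := S.P.acc_left hg0 (sub_pos.2 hwa) 0
  have hy : S.P.x n0 ∈ Icc w g0.1 := ⟨by linarith, b2.le⟩
  have hex : ∃ n, 1 ≤ n ∧ S.P.T^[n] (S.P.x n0) ∈ Icc fL.2 g0.1 := by
    obtain ⟨n, h1, h2, h3⟩ := S.P.acc_left hg0 (sub_pos.2 hLa) (n0 + 1)
    refine ⟨n - n0, by omega, ?_⟩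
    rw [S.P.x_iter, Nat.add_sub_cancel' (by omega)]
    exact ⟨by linarith, h3.le⟩
  obtain ⟨hn1, hn2⟩ := Nat.find_spec hex
  have hmin : ∀ j, j < Nat.find hex → 0 < j → S.P.T^[j] (S.P.x n0) ∉ Icc fL.2 g0.1 :=
    fun j h1 h2 h3 => Nat.find_min hex h1 ⟨h2, h3⟩
  generalize Nat.find hex = n at hn1 hn2 hmin
  have main : ∀ j, j ≤ n → (∃ p q, S.f2_Inv w g0.1 j p q) ∧ ∀ g ∈ Gap S.P.K, Inner w g0.1 g →
      ∀ i, 0 < i → i < j → ¬ Inner fL.2 g0.1 (S.pi^[i] g) := by
    intro j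
    induction j with
    | zero => exact fun _ => ⟨⟨_, _, S.f2_zero hw hg0.1 hwa.le⟩, fun _ _ _ _ _ h => by omega⟩
    | succ j ih =>
      intro hj
      obtain ⟨⟨p, q, hI⟩, hH⟩ := ih (by omega)
      have hH' : ∀ g ∈ Gap S.P.K, Inner w g0.1 g → ∀ i, 0 < i → i ≤ j →
          ¬ Inner fL.2 g0.1 (S.pi^[i] g) := by
        intro g hg hi i h1 h2
        rcases h2.eq_or_lt with rfl | h3
        · intro c
          have h4 := hI.fwd g hg hi
          have h5 := (S.pi_iter_mem hg i).2.2.1.le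
          obtain ⟨h6, h7⟩ := S.f2_dich hI hL hg0 (good2 i hH) (z := (S.pi^[i] g).1)
            ⟨h4.1, h5.trans h4.2⟩ ⟨c.1, h5.trans c.2⟩
          exact hmin i (by omega) h1 ⟨h6.trans (hI.maps hy).1, (hI.maps hy).2.trans h7⟩
        · exact hH g hg hi i h1 h3
      exact ⟨S.f2_step hI fun g hg hi => (good g hg hi j (hH' g hg hi)).2.2,
        fun g hg hi i h1 h2 => hH' g hg hi i h1 (by omega)⟩
  obtain ⟨⟨p, q, hI⟩, hH⟩ := main n le_rfl
  obtain ⟨h6, h7⟩ := S.f2_dich hI hL hg0 (good2 n hH) (hI.maps hy) hn2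
  exact ⟨w, n, hw, hwa, hn1, hI.inj, hI.back, fun y hy' =>
    ⟨by linarith [(hI.maps hy').1], (hI.maps hy').2.trans h7⟩⟩

end Sys

end Pool.Agent.MP_8df504_an.C

end

section

set_option autoImplicit false

namespace Pool.Agent.MP_8df504_an.C

open Set Filter Topology MeasureTheory

/-! Finitely many long gaps is impossible.

`not_periodic_left`: let `a = g0.1` be periodic.  Take `ε` smaller than the distance from `a` to
the other points of its finite orbit; `ret_left` gives `F = T^[n]` with `F a = a`, `F` injective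
and continuous on `[w,a]` with values `≤ a`, so strictly increasing there.  If some orbit point
`x k ∈ (w,a)` has `x k ≤ F (x k)`, then `x (k + j n)` increases and stays in `[w,a]`: contradiction
with `noconv`.  Otherwise `F z < z` for all orbit points `z ∈ (w,a)`.  No orbit point equals `a`
(`x` is injective and `a` periodic).  Take (`acc_left`) `x l ∈ (t, a)` where `t < a` is larger than
`w`, `F w` and all `x i < a` with `i < n`.  If `l ≥ n` then `x l = F y` with `y ∈ [w,a]`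
(intermediate values), `y ∈ K`, so `y = x (l - n)` (`iter_inj`), and `x l < y < a`; descend to get
`i < n` with `x i ∈ (t,a)`, contradiction.

`exists_exact_chain`: if the `pi`-orbit of `g` meets the finite set of long gaps infinitely often
then `g` is `pi`-periodic and lies on the orbit of a periodic long gap; there are finitely many such
`g` but infinitely many gaps (`gap_infinite`); shift.

`seq_W`: `d (n+1) ≥ d n * (1 - ℓ n)`, `ℓ` summable: for `N` with tail sum `≤ 1/2`,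
`d (N + k) ≥ d N * (1 - ∑ ℓ) ≥ d N / 2`.

`caseA`: take `g0` from `exists_exact_chain`, `g i = pi^[i] g0`, `y i = T^[i] a`, `a = g0.1`.
By `exact_ends`, `y i` is an end of `g i` and `T^[i]` maps the two ends of `g0` to the two ends of
`g i`.  `y` is injective (`not_periodic_left`, `iter_inj`); the `g i` are distinct (else `a` is
periodic), so `len (g i)` is summable (`sum_len_le`).  All `r (g i) = 1`, so
`∏ i<n |sl (g i).1| = len (g n) / len g0` (`prod_sl_chain`).  By `ret_left` there are `n ≥ 1` with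
`y n ∈ [a-ε, a)` for every `ε`.  Fix `n0 ≥ 1` with `y n0 < a`, and for `n ≥ n0` let `p n` be the
largest `y i < a` with `1 ≤ i ≤ n`, `d n = a - p n`.  If `p (n+1) ≠ p n` then
`p n < y (n+1) < a`; apply `T1lo` (slopes from `slopeAt_gap`) to `y 0, ..., y (n+1)` and `rho_cmp`
with `L = p n`, `R = g0.2`, `θ₁ = (y (n+1) - p n)/(a - p n)`, `θ₂ = 1` to get
`d n - d (n+1) ≤ d n * C * len (g (n+1)) / len g0`.  Then `seq_W` contradicts `inf d = 0`. -/

lemma f3_below (f : ℕ → ℝ) (a : ℝ) (N : ℕ) : ∃ t < a, ∀ i < N, f i < a → f i < t := by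
  induction N with
  | zero => exact ⟨a - 1, by linarith, fun i hi => absurd hi (Nat.not_lt_zero i)⟩
  | succ N ih =>
    obtain ⟨t, ht, h⟩ := ih
    by_cases hN : f N < a
    · obtain ⟨t', h1, h2⟩ := exists_between (max_lt ht hN)
      refine ⟨t', h2, fun i hi hf => ?_⟩
      rcases (Nat.lt_succ_iff.1 hi).eq_or_lt with rfl | hi'
      · exact (le_max_right _ _).trans_lt h1
      · exact (h i hi' hf).trans ((le_max_left _ _).trans_lt h1)
    · refine ⟨t, ht, fun i hi hf => ?_⟩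
      rcases (Nat.lt_succ_iff.1 hi).eq_or_lt with rfl | hi'
      · exact absurd hf hN
      · exact h i hi' hf

namespace Sys

variable (S : Sys)

lemma not_periodic_left (hfin : {g | g ∈ Gap S.P.K ∧ S.Long g}.Finite) {g0 : ℝ × ℝ}
    (hg0 : g0 ∈ Gap S.P.K) (p : ℕ) (hp : 1 ≤ p) : S.P.T^[p] g0.1 ≠ g0.1 := by
  intro hper
  obtain ⟨t0, ht0, h0⟩ := f3_below (fun i => S.P.T^[i] g0.1) g0.1 p
  obtain ⟨w, n, -, hw, hn, hinj, hK, hmap⟩ := S.ret_left hfin hg0 (sub_pos.2 ht0)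
  have hFa : S.P.T^[n] g0.1 = g0.1 := by
    obtain ⟨h1, h2⟩ := hmap ⟨hw.le, le_rfl⟩
    have e : S.P.T^[n % p] g0.1 = S.P.T^[n] g0.1 :=
      Function.IsPeriodicPt.iterate_mod_apply (f := S.P.T) hper n
    by_contra hne
    have := h0 (n % p) (Nat.mod_lt _ hp) (by simpa only [e] using lt_of_le_of_ne h2 hne)
    simp only [e] at this
    linarith
  have hc : ContinuousOn S.P.T^[n] (Icc w g0.1) := (S.P.cont.iterate n).continuousOn
  have hm : StrictMonoOn S.P.T^[n] (Icc w g0.1) :=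
    hc.strictMonoOn_of_injOn_Icc hw.le (by rw [hFa]; exact (hmap ⟨le_rfl, hw.le⟩).2) hinj
  by_cases hk : ∃ k, S.P.x k ∈ Icc w g0.1 ∧ S.P.x k ≤ S.P.T^[n] (S.P.x k)
  · obtain ⟨k, hk1, hk2⟩ := hk
    have e : ∀ j, S.P.x (k + (j + 1) * n) = S.P.T^[n] (S.P.x (k + j * n)) := fun j => by
      rw [S.P.x_iter, add_mul, one_mul, add_assoc]
    have key : ∀ j, S.P.x (k + j * n) ∈ Icc w g0.1 ∧
        S.P.x (k + j * n) ≤ S.P.T^[n] (S.P.x (k + j * n)) := by
      intro j
      induction j with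
      | zero => simpa using ⟨hk1, hk2⟩
      | succ j ih =>
        have h1 : S.P.T^[n] (S.P.x (k + j * n)) ∈ Icc w g0.1 := ⟨ih.1.1.trans ih.2, (hmap ih.1).2⟩
        rw [e]
        exact ⟨h1, hm.monotoneOn ih.1 h1 ih.2⟩
    refine S.P.noconv k n hn _ (tendsto_atTop_ciSup (monotone_nat_of_le_succ fun j => ?_)
      ⟨g0.1, ?_⟩)
    · rw [e]
      exact (key j).2
    · rintro _ ⟨j, rfl⟩
      exact (key j).1.2
  push Not at hk
  have hFw : S.P.T^[n] w < g0.1 := by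
    have := hm ⟨le_rfl, hw.le⟩ ⟨hw.le, le_rfl⟩ hw
    rwa [hFa] at this
  obtain ⟨t, ht, h1⟩ := f3_below S.P.x g0.1 n
  have key : ∀ l, max t (S.P.T^[n] w) < S.P.x l → ¬ S.P.x l < g0.1 := by
    intro l
    induction l using Nat.strong_induction_on with
    | _ l ih =>
      intro hl hl'
      rcases lt_or_ge l n with h | h
      · exact absurd (h1 l h hl') (not_lt.2 ((le_max_left _ _).trans hl.le))
      obtain ⟨y, hy, e⟩ := intermediate_value_Icc hw.le hc
        (show S.P.x l ∈ Icc _ _ from ⟨(le_max_right _ _).trans hl.le, by rw [hFa]; exact hl'.le⟩)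
      have e' : S.P.T^[n] (S.P.x (l - n)) = S.P.x l := by rw [S.P.x_iter, Nat.sub_add_cancel h]
      obtain rfl : y = S.P.x (l - n) :=
        S.P.iter_inj n (hK y hy (e ▸ S.P.x_mem l)) (S.P.x_mem _) (e.trans e'.symm)
      have h2 := hk _ hy
      refine ih (l - n) (by omega) (hl.trans (e ▸ h2)) (lt_of_le_of_ne hy.2 fun h3 => ?_)
      rw [h3, hFa] at h2
      exact lt_irrefl _ h2
  obtain ⟨l, -, h2, h3⟩ := S.P.acc_left hg0 (sub_pos.2 (max_lt ht hFw)) 0
  exact key l (by linarith) h3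

end Sys

end Pool.Agent.MP_8df504_an.C

end

section

set_option autoImplicit false

namespace Pool.Agent.MP_8df504_an.C

open Set Filter Topology MeasureTheory

/-! Finitely many long gaps is impossible.

`not_periodic_left`: let `a = g0.1` be periodic.  Take `ε` smaller than the distance from `a` to
the other points of its finite orbit; `ret_left` gives `F = T^[n]` with `F a = a`, `F` injective
and continuous on `[w,a]` with values `≤ a`, so strictly increasing there.  If some orbit point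
`x k ∈ (w,a)` has `x k ≤ F (x k)`, then `x (k + j n)` increases and stays in `[w,a]`: contradiction
with `noconv`.  Otherwise `F z < z` for all orbit points `z ∈ (w,a)`.  No orbit point equals `a`
(`x` is injective and `a` periodic).  Take (`acc_left`) `x l ∈ (t, a)` where `t < a` is larger than
`w`, `F w` and all `x i < a` with `i < n`.  If `l ≥ n` then `x l = F y` with `y ∈ [w,a]`
(intermediate values), `y ∈ K`, so `y = x (l - n)` (`iter_inj`), and `x l < y < a`; descend to get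
`i < n` with `x i ∈ (t,a)`, contradiction.

`exists_exact_chain`: if the `pi`-orbit of `g` meets the finite set of long gaps infinitely often
then `g` is `pi`-periodic and lies on the orbit of a periodic long gap; there are finitely many such
`g` but infinitely many gaps (`gap_infinite`); shift.

`seq_W`: `d (n+1) ≥ d n * (1 - ℓ n)`, `ℓ` summable: for `N` with tail sum `≤ 1/2`,
`d (N + k) ≥ d N * (1 - ∑ ℓ) ≥ d N / 2`.

`caseA`: take `g0` from `exists_exact_chain`, `g i = pi^[i] g0`, `y i = T^[i] a`, `a = g0.1`.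
By `exact_ends`, `y i` is an end of `g i` and `T^[i]` maps the two ends of `g0` to the two ends of
`g i`.  `y` is injective (`not_periodic_left`, `iter_inj`); the `g i` are distinct (else `a` is
periodic), so `len (g i)` is summable (`sum_len_le`).  All `r (g i) = 1`, so
`∏ i<n |sl (g i).1| = len (g n) / len g0` (`prod_sl_chain`).  By `ret_left` there are `n ≥ 1` with
`y n ∈ [a-ε, a)` for every `ε`.  Fix `n0 ≥ 1` with `y n0 < a`, and for `n ≥ n0` let `p n` be the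
largest `y i < a` with `1 ≤ i ≤ n`, `d n = a - p n`.  If `p (n+1) ≠ p n` then
`p n < y (n+1) < a`; apply `T1lo` (slopes from `slopeAt_gap`) to `y 0, ..., y (n+1)` and `rho_cmp`
with `L = p n`, `R = g0.2`, `θ₁ = (y (n+1) - p n)/(a - p n)`, `θ₂ = 1` to get
`d n - d (n+1) ≤ d n * C * len (g (n+1)) / len g0`.  Then `seq_W` contradicts `inf d = 0`. -/

lemma seq_W (d ℓ : ℕ → ℝ) (hd : ∀ n, 0 < d n) (hℓ : ∀ n, 0 ≤ ℓ n) (hs : Summable ℓ)
    (h : ∀ n, d n * (1 - ℓ n) ≤ d (n + 1)) : ∃ η > 0, ∀ n, η ≤ d n := by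
  obtain ⟨N, hN⟩ := ((tendsto_sum_nat_add ℓ).eventually
    (eventually_le_nhds (show (0 : ℝ) < 1 / 2 by norm_num))).exists
  have h1 : ∀ k, ∑ i ∈ Finset.range k, ℓ (i + N) ≤ 1 / 2 := fun k =>
    (((summable_nat_add_iff N).2 hs).sum_le_tsum _ fun i _ => hℓ _).trans hN
  have h2 : ∀ k, d N * (1 - ∑ i ∈ Finset.range k, ℓ (i + N)) ≤ d (k + N) := fun k => by
    induction k with
    | zero => simp
    | succ k ih =>
      have h3 := h1 (k + 1)
      have h4 : 0 ≤ ∑ i ∈ Finset.range k, ℓ (i + N) := Finset.sum_nonneg fun i _ => hℓ _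
      rw [Finset.sum_range_succ] at h3 ⊢
      have h5 := h (k + N)
      have h6 := mul_le_mul_of_nonneg_right ih (show 0 ≤ 1 - ℓ (k + N) by linarith)
      have h7 := mul_nonneg (hd N).le (mul_nonneg h4 (hℓ (k + N)))
      rw [add_right_comm]
      linarith
  obtain ⟨j, -, hj⟩ := Finset.exists_min_image (Finset.range (N + 1)) d ⟨0, by simp⟩
  refine ⟨d j / 2, half_pos (hd j), fun n => ?_⟩
  rcases le_total n N with hn | hn
  · linarith [hj n (Finset.mem_range.2 (by omega)), hd j]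
  · obtain ⟨k, rfl⟩ := Nat.exists_eq_add_of_le' hn
    have h3 := mul_le_mul_of_nonneg_left (h1 k) (hd N).le
    linarith [hj N (Finset.mem_range.2 (by omega)), h2 k]

namespace Sys

variable (S : Sys)

lemma casea_per {g : ℝ × ℝ} (hg : g ∈ Gap S.P.K) {i j : ℕ} (hij : i < j)
    (e : S.pi^[i] g = S.pi^[j] g) : S.pi^[j - i] g = g := by
  refine S.pi_iter_inj i (S.pi_iter_mem hg _) hg ?_
  rw [← Function.iterate_add_apply, Nat.add_sub_cancel' hij.le, e]

lemma exists_exact_chain (hfin : {g | g ∈ Gap S.P.K ∧ S.Long g}.Finite) :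
    ∃ g0 ∈ Gap S.P.K, ∀ i : ℕ, ¬ S.Long (S.pi^[i] g0) := by
  by_contra hc
  push Not at hc
  have h1 : ∀ g ∈ Gap S.P.K, ∃ p, 0 < p ∧ Function.IsPeriodicPt S.pi p g := fun g hg => by
    have h2 : {i : ℕ | S.Long (S.pi^[i] g)}.Infinite := infinite_of_forall_exists_gt fun k => by
      obtain ⟨i, hi⟩ := hc _ (S.pi_iter_mem hg (k + 1))
      exact ⟨i + (k + 1), by rwa [← Function.iterate_add_apply] at hi, by omega⟩
    obtain ⟨i, -, j, -, hij, e⟩ := h2.exists_lt_map_eq_of_mapsTo (f := fun i => S.pi^[i] g)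
      (t := {g | g ∈ Gap S.P.K ∧ S.Long g}) (fun i hi => ⟨S.pi_iter_mem hg i, hi⟩) hfin
    exact ⟨j - i, by omega, S.casea_per hg hij e⟩
  refine S.P.gap_infinite ((hfin.biUnion (t := fun h => range fun n => S.pi^[n] h)
    fun h hh => ?_).subset fun g hg => ?_)
  · obtain ⟨p, hp, e⟩ := h1 h hh.1
    refine ((finite_Iio p).image fun n => S.pi^[n] h).subset ?_
    rintro _ ⟨n, rfl⟩
    exact ⟨n % p, Nat.mod_lt _ hp, e.iterate_mod_apply n⟩
  · obtain ⟨p, hp, e⟩ := h1 g hg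
    obtain ⟨i, hi⟩ := hc g hg
    refine mem_biUnion (x := S.pi^[i] g) ⟨S.pi_iter_mem hg i, hi⟩ ⟨p * i - i, ?_⟩
    change S.pi^[p * i - i] (S.pi^[i] g) = g
    rw [← Function.iterate_add_apply, Nat.sub_add_cancel (Nat.le_mul_of_pos_left i hp)]
    exact e.mul_const i

lemma casea_ends {g0 : ℝ × ℝ} (hg : g0 ∈ Gap S.P.K) (h : ∀ i : ℕ, ¬ S.Long (S.pi^[i] g0))
    (i : ℕ) : (S.P.T^[i] g0.1 = (S.pi^[i] g0).1 ∧ S.P.T^[i] g0.2 = (S.pi^[i] g0).2) ∨
      (S.P.T^[i] g0.1 = (S.pi^[i] g0).2 ∧ S.P.T^[i] g0.2 = (S.pi^[i] g0).1) := by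
  induction i with
  | zero => exact Or.inl ⟨rfl, rfl⟩
  | succ i ih =>
    simp only [Function.iterate_succ_apply']
    have h1 := S.exact_ends (S.pi_iter_mem hg i) (h i)
    rcases ih with ⟨e1, e2⟩ | ⟨e1, e2⟩ <;> rw [e1, e2] <;> tauto

lemma casea_summable (hfin : {g | g ∈ Gap S.P.K ∧ S.Long g}.Finite) {g0 : ℝ × ℝ}
    (hg : g0 ∈ Gap S.P.K) (h : ∀ i : ℕ, ¬ S.Long (S.pi^[i] g0)) :
    Summable fun i => len (S.pi^[i] g0) := by
  have h1 : ∀ i j, i < j → S.pi^[i] g0 ≠ S.pi^[j] g0 := fun i j hij e => by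
    have h2 : S.pi^[j - i] g0 = g0 := S.casea_per hg hij e
    rcases S.casea_ends hg h (j - i) with h3 | h3 <;> rw [h2] at h3
    · exact S.not_periodic_left hfin hg _ (by omega) h3.1
    · refine S.not_periodic_left hfin hg (j - i + (j - i)) (by omega) ?_
      rw [Function.iterate_add_apply, h3.1, h3.2]
  have h2 : Function.Injective fun i => S.pi^[i] g0 := fun i j e => by
    rcases lt_trichotomy i j with c | c | c
    · exact absurd e (h1 i j c)
    · exact c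
    · exact absurd e.symm (h1 j i c)
  refine summable_of_sum_range_le (c := S.P.hi - S.P.lo)
    (fun i => (Gap.len_pos (S.pi_iter_mem hg i)).le) fun n => ?_
  rw [← Finset.sum_image (f := len) h2.injOn]
  exact S.P.sum_len_le _ fun g hg' => by
    obtain ⟨i, -, rfl⟩ := Finset.mem_image.1 hg'
    exact S.pi_iter_mem hg i

lemma casea_inj (hfin : {g | g ∈ Gap S.P.K ∧ S.Long g}.Finite) {g0 : ℝ × ℝ}
    (hg : g0 ∈ Gap S.P.K) : Function.Injective fun i => S.P.T^[i] g0.1 := by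
  have h1 : ∀ i j, i < j → S.P.T^[i] g0.1 ≠ S.P.T^[j] g0.1 := fun i j hij e => by
    refine S.not_periodic_left hfin hg (j - i) (by omega) (S.P.iter_inj i
      (S.P.mapsK.iterate _ hg.1) hg.1 ?_)
    rw [← Function.iterate_add_apply, Nat.add_sub_cancel' hij.le, e]
  intro i j e
  rcases lt_trichotomy i j with c | c | c
  · exact absurd e (h1 i j c)
  · exact c
  · exact absurd e.symm (h1 j i c)

lemma casea_step (hfin : {g | g ∈ Gap S.P.K ∧ S.Long g}.Finite) {g0 : ℝ × ℝ}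
    (hg : g0 ∈ Gap S.P.K) (h : ∀ i : ℕ, ¬ S.Long (S.pi^[i] g0)) {n : ℕ} (hn : 1 ≤ n) {q : ℝ}
    (hq : ∀ i, 0 < i → i < n → S.P.T^[i] g0.1 < g0.1 → S.P.T^[i] g0.1 ≤ q)
    (h1 : q < S.P.T^[n] g0.1) (h2 : S.P.T^[n] g0.1 < g0.1) :
    S.P.T^[n] g0.1 - q ≤
      (g0.1 - q) * (cC S.L.m S.L.M S.P.B / len g0 * len (S.pi^[n] g0)) := by
  have hi := S.casea_inj hfin hg
  have hK : ∀ i, S.P.T^[i] g0.1 ∈ S.P.K := fun i => S.P.mapsK.iterate i hg.1
  have h3 := T1lo (T := S.P.T) (B := S.P.B) (y := fun i => S.P.T^[i] g0.1)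
    (s := fun i => |S.L.sl (S.pi^[i] g0).1|) S.L.m_pos S.L.lip hn
    (fun i _ => Function.iterate_succ_apply' _ _ _) (fun i _ j _ e => hi e)
    (fun i _ => S.P.sub (hK i)) fun i _ => ⟨S.L.sl_lo _, S.L.sl_hi _,
      S.slopeAt_gap (S.pi_iter_mem hg i) (by
        have h4 := (S.pi_iter_mem hg i).2.2.1.le
        rcases S.casea_ends hg h i with e | e <;> rw [e.1]
        exacts [left_mem_Icc.2 h4, right_mem_Icc.2 h4])⟩
  have h4 := S.prod_sl_chain hg n
  rw [Finset.prod_eq_one (f := fun i => S.r (S.pi^[i] g0)) fun i _ =>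
    le_antisymm (not_lt.1 (h i)) (S.one_le_r (S.pi_iter_mem hg i)), one_mul,
    ← eq_div_iff (Gap.len_pos hg).ne'] at h4
  have h5 : 0 < g0.1 - q := by linarith
  have h6 := hg.2.2.1
  have h7 := rho_cmp (O := mid (fun i => S.P.T^[i] g0.1) n) (L := q) (R := g0.2)
    (y := S.P.T^[n] g0.1) (y' := g0.1) (θ₁ := (S.P.T^[n] g0.1 - q) / (g0.1 - q)) (θ₂ := 1)
    (fun z hz hc => by
      obtain ⟨i, hi', rfl⟩ := Finset.mem_image.1 hz
      rw [Finset.mem_Ioo] at hi'
      rcases lt_trichotomy (S.P.T^[i] g0.1) g0.1 with c | c | c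
      · exact hc.1.not_ge (hq i hi'.1 hi'.2 c)
      · exact S.not_periodic_left hfin hg i hi'.1 c
      · exact hg.2.2.2 _ (hK i) ⟨c, hc.2⟩)
    ⟨h1, h2.trans h6⟩ ⟨h1.trans h2, h6⟩
    ⟨div_nonneg (by linarith) h5.le, (div_le_one h5).2 (by linarith)⟩ ⟨zero_le_one, le_rfl⟩
    (div_mul_cancel₀ _ h5.ne').le (by linarith)
  have h8 := le_of_mul_le_mul_right (h7.trans h3) (rho_pos _ _)
  rw [mul_one, div_le_iff₀ h5, h4] at h8
  exact h8.trans_eq (by ring)

theorem caseA (hfin : {g | g ∈ Gap S.P.K ∧ S.Long g}.Finite) : False := by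
  obtain ⟨g0, hg, h⟩ := S.exists_exact_chain hfin
  let p : ℕ → ℝ := fun n => Nat.rec (g0.1 - 1)
    (fun n q => if S.P.T^[n + 1] g0.1 < g0.1 then max q (S.P.T^[n + 1] g0.1) else q) n
  have hp : ∀ n, p (n + 1) =
      if S.P.T^[n + 1] g0.1 < g0.1 then max (p n) (S.P.T^[n + 1] g0.1) else p n := fun _ => rfl
  have h1 : ∀ n, p n < g0.1 := fun n => by
    induction n with
    | zero => exact sub_one_lt _
    | succ n ih =>
      rw [hp]
      split_ifs with c
      exacts [max_lt ih c, ih]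
  have h2 : ∀ n i, 0 < i → i < n + 1 → S.P.T^[i] g0.1 < g0.1 → S.P.T^[i] g0.1 ≤ p n := by
    intro n
    induction n with
    | zero => omega
    | succ n ih =>
      intro i h0 hi c
      rw [hp]
      rcases (Nat.lt_succ_iff.1 hi).eq_or_lt with rfl | hi
      · rw [if_pos c]
        exact le_max_right _ _
      · split_ifs
        exacts [(ih i h0 hi c).trans (le_max_left _ _), ih i h0 hi c]
  have hm := S.L.m_pos
  have hM := hm.trans_le S.m_le_M
  have hC : 0 ≤ cC S.L.m S.L.M S.P.B / len g0 :=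
    div_nonneg (by unfold cC; positivity) (Gap.len_pos hg).le
  have hl : ∀ n, 0 ≤ cC S.L.m S.L.M S.P.B / len g0 * len (S.pi^[n + 1] g0) := fun n =>
    mul_nonneg hC (Gap.len_pos (S.pi_iter_mem hg _)).le
  obtain ⟨η, hη, h3⟩ := seq_W (fun n => g0.1 - p n) _ (fun n => sub_pos.2 (h1 n)) hl
    (((summable_nat_add_iff 1).2 (S.casea_summable hfin hg h)).mul_left _) fun n => by
      have h4 := mul_nonneg (sub_pos.2 (h1 n)).le (hl n)
      rw [hp]
      split_ifs with c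
      · rcases le_or_gt (S.P.T^[n + 1] g0.1) (p n) with c' | c'
        · rw [max_eq_left c']
          linarith
        · rw [max_eq_right c'.le]
          linarith [S.casea_step hfin hg h n.succ_pos (h2 n) c' c]
      · linarith
  obtain ⟨w, n, -, hw, hn, -, -, h4⟩ := S.ret_left hfin hg (half_pos hη)
  have h5 := h4 (right_mem_Icc.2 hw.le)
  have h6 := h2 n n hn n.lt_succ_self
    (h5.2.lt_of_ne (S.not_periodic_left hfin hg n hn))
  linarith [h3 n, h5.1]

end Sys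

end Pool.Agent.MP_8df504_an.C

end
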