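import Pool.Agent.Mg.F8df504.G78a617
import Pool.Agent.Mg.F8df504.G12bc4a
import Pool.Agent.Mg.F8df504.G624e1e
import Pool.Agent.Mg.F8df504.Gcd9dd6
import Pool.Agent.Mg.F8df504.G8a5c1a
import Pool.Agent.Mg.F8df504.G8511ac

section

set_option autoImplicit false

namespace Pool.Agent.MP_8df504_an.C

open Set Filter Topology MeasureTheory

/-! Coboundaries and Fatou; measurability of `Dl` along orbits.

`cob_lintegral`: truncate `u` to `uN = max (-N) (min u N)`; `uN - uN ∘ T` has the sign of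
`u - u ∘ T` and is smaller in absolute value, so `|f| + uN - uN ∘ T ≥ 0` a.e. and its integral is
`∫ |f|`.  Fatou (`lintegral_liminf_le'`) gives that `|f| + u - u ∘ T ≥ 0` is integrable with integral
`≤ ∫ |f|`; subtract `|f| - f`.
`cob_frequently`: Fatou over `n`: the lintegral of the liminf is `≤ ofReal C < ∞`, so the liminf is
finite a.e. (`ae_lt_top'`), hence some `W` is frequently an upper bound.
`exists_meas_Dl`: take
`D n x = ∏ i<n, ∏ j<n, if T^[i] x < T^[j] x ∧ ∀ l<n, ¬ (T^[i] x < T^[l] x ∧ T^[l] x < T^[j] x)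
then T^[j] x - T^[i] x else 1` (`Finset.prod_product'`, `Finset.prod_filter`, `Finset.prod_nbij`). -/

/-- the index pairs that give consecutive points -/
def measdl_P (y : ℕ → ℝ) (n : ℕ) (q : ℕ × ℕ) : Prop :=
  y q.1 < y q.2 ∧ ∀ l ∈ Finset.range n, ¬ (y q.1 < y l ∧ y l < y q.2)

open Classical in
lemma measdl_eq {y : ℕ → ℝ} (hy : Function.Injective y) (n : ℕ) :
    (∏ q ∈ Finset.range n ×ˢ Finset.range n, if measdl_P y n q then y q.2 - y q.1 else 1) =
      Dl (orb y n) := by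
  rw [← Finset.prod_filter]
  unfold Dl
  refine Finset.prod_nbij (fun q => (y q.1, y q.2)) ?_ ?_ ?_ ?_
  · intro q hq
    rw [Finset.mem_filter, Finset.mem_product] at hq
    refine mem_gaps.2 ⟨Finset.mem_coe.2 (Finset.mem_image_of_mem y hq.1.1),
      Finset.mem_coe.2 (Finset.mem_image_of_mem y hq.1.2), hq.2.1, fun z hz => ?_⟩
    obtain ⟨l, hl, rfl⟩ := Finset.mem_image.1 (Finset.mem_coe.1 hz)
    exact hq.2.2 l hl
  · intro q _ q' _ h
    exact Prod.ext (hy (congrArg Prod.fst h)) (hy (congrArg Prod.snd h))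
  · intro g hg
    obtain ⟨h1, h2, h3, h4⟩ := mem_gaps.1 (Finset.mem_coe.1 hg)
    obtain ⟨i, hi, hi'⟩ := Finset.mem_image.1 (Finset.mem_coe.1 h1)
    obtain ⟨j, hj, hj'⟩ := Finset.mem_image.1 (Finset.mem_coe.1 h2)
    refine ⟨(i, j), Finset.mem_coe.2 (Finset.mem_filter.2 ⟨Finset.mem_product.2 ⟨hi, hj⟩, ?_, ?_⟩),
      Prod.ext hi' hj'⟩
    · show y i < y j
      rw [hi', hj']
      exact h3
    · intro l hl
      show ¬ (y i < y l ∧ y l < y j)
      rw [hi', hj']
      exact h4 _ (Finset.mem_coe.2 (Finset.mem_image_of_mem y hl))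
  · intro q _
    rfl

lemma measdl_set {T : ℝ → ℝ} (hT : Measurable T) (n : ℕ) (q : ℕ × ℕ) :
    MeasurableSet {x : ℝ | measdl_P (fun i => T^[i] x) n q} := by
  have h1 : ∀ i j : ℕ, MeasurableSet {x : ℝ | T^[i] x < T^[j] x} := fun i j =>
    measurableSet_lt (hT.iterate i) (hT.iterate j)
  have h2 : {x : ℝ | measdl_P (fun i => T^[i] x) n q} = {x : ℝ | T^[q.1] x < T^[q.2] x} ∩
      ⋂ l ∈ Finset.range n, ({x : ℝ | T^[q.1] x < T^[l] x} ∩ {x : ℝ | T^[l] x < T^[q.2] x})ᶜ := by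
    ext x
    simp only [measdl_P, mem_inter_iff, mem_iInter, mem_compl_iff]
    rfl
  rw [h2]
  exact (h1 _ _).inter (Finset.measurableSet_biInter _ fun l _ => ((h1 _ _).inter (h1 _ _)).compl)

lemma exists_meas_Dl {T : ℝ → ℝ} (hT : Measurable T) :
    ∃ D : ℕ → ℝ → ℝ, (∀ n, Measurable (D n)) ∧ ∀ n x,
      Function.Injective (fun i : ℕ => T^[i] x) → D n x = Dl (orb (fun i => T^[i] x) n) := by
  classical
  refine ⟨fun n x => ∏ q ∈ Finset.range n ×ˢ Finset.range n,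
    if measdl_P (fun i => T^[i] x) n q then T^[q.2] x - T^[q.1] x else 1, fun n => ?_,
    fun n x hx => ?_⟩
  · refine Finset.measurable_prod _ fun q _ => ?_
    exact Measurable.ite (measdl_set hT n q) ((hT.iterate _).sub (hT.iterate _)) measurable_const
  · convert measdl_eq hx n

end Pool.Agent.MP_8df504_an.C

end

section

set_option autoImplicit false

namespace Pool.Agent.MP_8df504_an.C

open Set Filter Topology MeasureTheory

/-! From escaping points to a cycle of intervals.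

`ret_of_esc`: let `c` be from `expand_K`, `C' = G M (M/c)^card B`, `Λ = 8 C' (M/m)^card B + 2`
(any larger constant works).  `X` = closure of the two orbits: closed, forward invariant, disjoint
from `(u-D, v+D)`.  `α = sSup (X ∩ [yL,u])`, `β = sInf (X ∩ [v,yR])`, `U = (α,β)` misses `X`,
`α ≤ u - D`, `v + D ≤ β`.  Orbit points visit `[u,v]` infinitely often (`visit` at `u`; `K` has no
point in the open flanks).  Let `y = x k ∈ [u,v]`, `r ≥ 1` its first return time to `[u,v]`,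
`y i = x (k+i)`; `mid y r` misses `(fL.1, fR.2)`; `T1up` (`slopeAt_self`) and `rho_cmp` with
`θ₁ = θ₂ = 1/2` give `∏ i<r |sl (y i)| ≤ 4 C'`.  Claim A: if `T^[r]` maps the segment `Z` from `y`
to `w` into `U` then `T^[i] Z` misses `U` for `0<i<r` (else by the intermediate value theorem some
`T^[i] z ∈ {α,β} ⊆ X`, so `T^[r] z ∈ X`), and the `T^[i] Z`, `i<r`, are disjoint (if
`T^[i] z = T^[l] z'`, apply `T^[r-l]`).  Claim B: `T^[r] w ∈ (u - D/2, v + D/2)` for all
`w ∈ [u,v]`: otherwise take the first `w*` on the segment from `y` to `w` where this fails; `T^[r]`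
maps the segment from `y` to `w*` into `[u-D/2, v+D/2] ⊆ U` and `distortion` gives
`D/2 ≤ (M/m)^card B * 4 C' * (v-u)`.

`cyc_of_ret`: `H = K ∩ [u,v]`, `a i = sInf (T^[i % r] '' H)`, `b i = sSup (...)` (compact sets).
`[a i, b i] ⊆ T^[i % r] '' [u,v]` and these images are pairwise disjoint for different `i < r`.
`T^[r]` maps `H` into `K ∩ U ⊆ H`, so `⋃ i<r, T^[i] '' H` is closed, forward invariant, contains a
tail of `x`, hence contains `K`.  So `K ∩ [a i, b i] = T^[i % r] '' H`. -/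

lemma Pre.cyc_of_ret (P : Pre) {u v : ℝ} (hu : u ∈ P.K) (hv : v ∈ P.K) (huv : u < v)
    (h : P.Ret u v) : ∃ C : Cyc P, C.a 0 = u ∧ C.b 0 = v := by
  obtain ⟨α, β, r, hr, hα, hβ, hK, hret, havo⟩ := h
  have hr0 : 0 < r := hr
  have hiterK : ∀ n, MapsTo P.T^[n] P.K P.K := fun n => P.mapsK.iterate n
  -- disjointness of the images of the interval
  have hdis0 : ∀ i l, i < l → l < r → ∀ w ∈ Icc u v, ∀ w' ∈ Icc u v,
      P.T^[i] w ≠ P.T^[l] w' := by
    intro i l hil hl w hw w' hw' e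
    have e1 : P.T^[r - l + i] w = P.T^[r] w' := by
      rw [Function.iterate_add_apply, e, ← Function.iterate_add_apply, Nat.sub_add_cancel hl.le]
    exact havo (r - l + i) (by omega) (by omega) w hw (e1 ▸ hret w' hw')
  have hdis : ∀ i l, i < r → l < r → ∀ z, z ∈ P.T^[i] '' Icc u v → z ∈ P.T^[l] '' Icc u v →
      i = l := by
    rintro i l hi hl z ⟨w, hw, e⟩ ⟨w', hw', e'⟩
    rcases lt_trichotomy i l with c | c | c
    · exact absurd (e.trans e'.symm) (hdis0 i l c hl w hw w' hw')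
    · exact c
    · exact absurd (e'.trans e.symm) (hdis0 l i c hi w' hw' w hw)
  set H : Set ℝ := P.K ∩ Icc u v with hH
  have hHc : IsCompact H := P.cpt.inter_right isClosed_Icc
  have huH : u ∈ H := ⟨hu, le_rfl, huv.le⟩
  have hvH : v ∈ H := ⟨hv, huv.le, le_rfl⟩
  have hHr : ∀ w ∈ H, P.T^[r] w ∈ H := fun w hw =>
    ⟨hiterK r hw.1, hK _ (hiterK r hw.1) (hret w hw.2).1 (hret w hw.2).2⟩
  obtain ⟨S, hS⟩ : ∃ S : ℕ → Set ℝ, ∀ i, S i = P.T^[i % r] '' H := ⟨_, fun _ => rfl⟩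
  have hSc : ∀ i, IsCompact (S i) := fun i => by
    rw [hS]; exact hHc.image (P.cont.iterate _)
  have hSn : ∀ i, (S i).Nonempty := fun i => by
    rw [hS]; exact ⟨_, mem_image_of_mem _ huH⟩
  have hSK : ∀ i, S i ⊆ P.K := fun i => by
    rw [hS]; rintro _ ⟨w, hw, rfl⟩; exact hiterK _ hw.1
  have hSJ : ∀ i, S i ⊆ P.T^[i % r] '' Icc u v := fun i => by
    rw [hS]; exact image_mono inter_subset_right
  have hSmod : ∀ i l, i % r = l % r → S i = S l := fun i l e => by rw [hS, hS, e]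
  have hSsucc : ∀ i, ∀ z ∈ S i, P.T z ∈ S (i + 1) := by
    intro i z hz
    rw [hS] at hz ⊢
    obtain ⟨w, hw, rfl⟩ := hz
    have hlt : i % r < r := Nat.mod_lt _ hr0
    have e0 : (i + 1) % r = (i % r + 1) % r := by simp
    rw [← Function.iterate_succ_apply' P.T, e0]
    rcases Nat.lt_or_ge (i % r + 1) r with c | c
    · rw [Nat.mod_eq_of_lt c]
      exact mem_image_of_mem _ hw
    · have e1 : i % r + 1 = r := by omega
      rw [Nat.succ_eq_add_one, e1, Nat.mod_self]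
      exact ⟨_, hHr w hw, rfl⟩
  have hcov : ∀ z ∈ P.K, ∃ i < r, z ∈ S i := by
    obtain ⟨k, -, -, hk⟩ := P.visit hu (lt_min (sub_pos.2 hα) (sub_pos.2 (huv.trans hβ))) 0
    rw [lt_min_iff, abs_lt, abs_lt] at hk
    have hkH : P.x k ∈ H :=
      ⟨P.x_mem k, hK _ (P.x_mem k) (by linarith [hk.1.1]) (by linarith [hk.2.2])⟩
    have hall : ∀ j, P.x (k + j) ∈ S j := by
      intro j
      induction j with
      | zero =>
        rw [hS, Nat.zero_mod]
        exact ⟨_, hkH, rfl⟩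
      | succ j ih =>
        rw [← add_assoc, P.x_succ]
        exact hSsucc j _ ih
    have hcl : IsClosed (⋃ i ∈ Finset.range r, S i) :=
      isClosed_biUnion_finset fun i _ => (hSc i).isClosed
    have hsub : P.x '' Ici k ⊆ ⋃ i ∈ Finset.range r, S i := by
      rintro _ ⟨n, hn, rfl⟩
      obtain ⟨j, rfl⟩ := Nat.exists_eq_add_of_le (mem_Ici.1 hn)
      refine mem_iUnion₂.2 ⟨j % r, Finset.mem_range.2 (Nat.mod_lt _ hr0), ?_⟩
      rw [hSmod (j % r) j (Nat.mod_mod _ _)]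
      exact hall j
    intro z hz
    obtain ⟨i, hi, hzi⟩ := mem_iUnion₂.1 (closure_minimal hsub hcl (P.dense k hz))
    exact ⟨i, Finset.mem_range.1 hi, hzi⟩
  have ha : ∀ i, sInf (S i) ∈ S i := fun i => (hSc i).sInf_mem (hSn i)
  have hb : ∀ i, sSup (S i) ∈ S i := fun i => (hSc i).sSup_mem (hSn i)
  have hle : ∀ i, ∀ z ∈ S i, sInf (S i) ≤ z ∧ z ≤ sSup (S i) := fun i z hz =>
    ⟨csInf_le (hSc i).bddBelow hz, le_csSup (hSc i).bddAbove hz⟩
  have hJ : ∀ i z, sInf (S i) ≤ z → z ≤ sSup (S i) → z ∈ P.T^[i % r] '' Icc u v := by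
    intro i z h1 h2
    have hc : IsPreconnected (P.T^[i % r] '' Icc u v) :=
      isPreconnected_Icc.image _ (P.cont.iterate _).continuousOn
    exact hc.Icc_subset (hSJ i (ha i)) (hSJ i (hb i)) ⟨h1, h2⟩
  have hS0 : S 0 = H := by rw [hS, Nat.zero_mod]; simp
  refine ⟨{ p := r
            a := fun i => sInf (S i)
            b := fun i => sSup (S i)
            p_pos := hr
            a_per := fun i => by rw [hSmod (i + r) i (by simp)]
            b_per := fun i => by rw [hSmod (i + r) i (by simp)]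
            a_mem := fun i => hSK i (ha i)
            b_mem := fun i => hSK i (hb i)
            ab := fun i => (hle i _ (ha i)).2
            disj := ?_
            cover := ?_
            maps := ?_ }, ?_, ?_⟩
  · intro i l hi hl hne
    by_contra hc
    push Not at hc
    have h1 := hJ i (max (sInf (S i)) (sInf (S l))) (le_max_left _ _)
      (max_le (hle i _ (ha i)).2 hc.1)
    have h2 := hJ l (max (sInf (S i)) (sInf (S l))) (le_max_right _ _)
      (max_le hc.2 (hle l _ (ha l)).2)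
    rw [Nat.mod_eq_of_lt hi] at h1
    rw [Nat.mod_eq_of_lt hl] at h2
    exact hne (hdis i l hi hl _ h1 h2)
  · intro z hz
    obtain ⟨i, hi, hzi⟩ := hcov z hz
    exact ⟨i, hi, hle i z hzi⟩
  · intro i z hz h1 h2
    obtain ⟨l, hl, hzl⟩ := hcov z hz
    have h3 := hSJ l hzl
    rw [Nat.mod_eq_of_lt hl] at h3
    have e : i % r = l := hdis _ _ (Nat.mod_lt _ hr0) hl z (hJ i z h1 h2) h3
    have e' : S l = S i := hSmod l i (by rw [← e, Nat.mod_mod])
    exact hle (i + 1) _ (hSsucc i z (e' ▸ hzl))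
  · show sInf (S 0) = u
    rw [hS0]
    exact IsLeast.csInf_eq ⟨huH, fun z hz => hz.2.1⟩
  · show sSup (S 0) = v
    rw [hS0]
    exact IsGreatest.csSup_eq ⟨hvH, fun z hz => hz.2.2⟩

end Pool.Agent.MP_8df504_an.C

end

section

set_option autoImplicit false

namespace Pool.Agent.MP_8df504_an.C

open Set Filter Topology MeasureTheory

/-! Levels from clusters, and avoidance of the inner gaps.

`exists_lev`: choose `j0` with `b (i+1) ≤ (1/4)(a i - b (i+1))` for `i ≥ j0`, put `i = j + j0`,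
`e j = gp (sd i) (b (i+2)) (a i)`; `u j`, `v j` are the inner ends `pt (sd i) (b (i+2))` and
`pt (sd (i+1)) (b (i+3))` (the one on side `false` is `u j`), `c1 = 3 m / (8 M)`.  A point of
`cl (e j)` is `pt (sd i) h` with `h ∈ [b (i+2), a i]`, its image is `T c - h` (`val`), which lies in
`cl (pi (e j))` only if `b (i+1) ≤ h`.

`outside_of_not_inner`: if `g.1 < u` then `g.1 ≤ fL.1`, `g.2 ≤ u`, and `g.2 ≠ u`, so `g.2 ≤ fL.1`.

`avoid`: fix `j` large, `fL`, `fR` the flanks, `L = fL.1`, `R = fR.2`.  Suppose `pi^[k] f` is inner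
for a flank `f`; take such a pair `(f,k)` with `k` minimal, so `k ≥ 1` and `f i = pi^[i] f` is
neither inner nor a flank for `0 < i < k`; the `f i`, `i ≤ k`, are distinct.  Pull the midpoint
`y k` of `f k` back (`pull_op`) to `y i` in the open gap `f i`.  `mid y k` misses `(L,R)`.  `T1lo`
with slopes `|sl (f i).1|` (`slopeAt_gap`), `prod_sl_chain`, `prod_r_chain_le` give
`rho (y k) ≤ C G (len (f k) / len f) rho (y 0)`, `len (f k) ≤ v - u`.  `rho_cmp` (for `f = fR`:
`θ₂ = 1`, `θ₁ = len fL / (len fL + (v-u) + len fR)`, symmetric for `f = fL`) gives a contradiction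
as soon as `3 C G (v - u) < len (e (j+1))`, `v - u ≤ len (e (j+1)) ≤ len (e j)`. -/

lemma levex_cmp {m M s t x : ℝ} (hm : 0 < m) (hs : m ≤ s) (ht0 : m ≤ t) (ht : t ≤ M) (hx : 0 ≤ x) :
    m / M * (x / s) ≤ x / t := by
  have h1 : 0 < s := hm.trans_le hs
  have h2 : 0 < t := hm.trans_le ht0
  have h3 : 0 < M := h2.trans_le ht
  rw [div_mul_div_comm, div_le_div_iff₀ (mul_pos h3 h1) h2]
  have h4 : m * t ≤ s * M := mul_le_mul hs ht h2.le h1.le
  nlinarith [mul_le_mul_of_nonneg_left h4 hx]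

variable {S : Sys}

lemma levex_bb (C : Clu S) (i : ℕ) : C.b (i + 1) < C.b i := (C.ba i).trans_le (C.ab i)

lemma levex_sp (C : Clu S) : 0 < C.sp := S.L.m_pos.trans_le C.sp_lo

lemma levex_sm (C : Clu S) : 0 < C.sm := S.L.m_pos.trans_le C.sm_lo

/-- the gap number `i` -/
noncomputable def levex_E (C : Clu S) (i : ℕ) : ℝ × ℝ :=
  gp C.c C.sp C.sm (C.sd i) (C.b (i + 2)) (C.a i)

noncomputable def levex_u (C : Clu S) (i : ℕ) : ℝ :=
  C.c - (if C.sd i = true then C.b (i + 3) else C.b (i + 2)) / C.sm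

noncomputable def levex_v (C : Clu S) (i : ℕ) : ℝ :=
  C.c + (if C.sd i = true then C.b (i + 2) else C.b (i + 3)) / C.sp

lemma levex_Et (C : Clu S) {i : ℕ} (h : C.sd i = true) :
    levex_E C i = (C.c + C.b (i + 2) / C.sp, C.c + C.a i / C.sp) := by
  simp [levex_E, gp, pt, h]

lemma levex_Ef (C : Clu S) {i : ℕ} (h : C.sd i = false) :
    levex_E C i = (C.c - C.a i / C.sm, C.c - C.b (i + 2) / C.sm) := by
  simp [levex_E, gp, pt, h]

lemma levex_t (C : Clu S) {i : ℕ} (h : C.sd i = true) :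
    C.sd (i + 1) = false ∧ levex_u C i = C.c - C.b (i + 3) / C.sm ∧
      levex_v C i = C.c + C.b (i + 2) / C.sp := by
  simp [levex_u, levex_v, C.sd_succ, h]

lemma levex_f (C : Clu S) {i : ℕ} (h : C.sd i = false) :
    C.sd (i + 1) = true ∧ levex_u C i = C.c - C.b (i + 2) / C.sm ∧
      levex_v C i = C.c + C.b (i + 3) / C.sp := by
  simp [levex_u, levex_v, C.sd_succ, h]

lemma levex_pi (C : Clu S) (i : ℕ) :
    S.pi (levex_E C i) = (S.P.T C.c - C.a i, S.P.T C.c - C.b (i + 1)) := C.pi_eq i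

lemma levex_long (C : Clu S) (i : ℕ) : S.Long (levex_E C i) := by
  have h1 := C.ba i
  have h2 := levex_bb C (i + 1)
  have h3 := C.b_pos (i + 2)
  have v1 := C.val (C.sd i) (C.b (i + 2)) h3.le (C.b_le _)
  have v2 := C.val (C.sd i) (C.a i) (by linarith) ((C.ab i).trans (C.b_le i))
  have e : img S.P.T (levex_E C i) = C.a i - C.b (i + 2) := by
    unfold img levex_E gp
    split_ifs
    · simp only [v1, v2]
      rw [abs_of_neg (by linarith)]
      ring
    · simp only [v1, v2]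
      rw [abs_of_pos (by linarith)]
      ring
  unfold Sys.Long Sys.r
  rw [e, levex_pi, len, one_lt_div (by simp only; linarith)]
  simp only
  linarith

lemma levex_yt (C : Clu S) {i : ℕ} (h : C.sd i = true) {y : ℝ} (hy : y ∈ cl (levex_E C i))
    (hT : S.P.T y ∈ cl (S.pi (levex_E C i))) : C.c + C.b (i + 1) / C.sp ≤ y := by
  have hp := levex_sp C
  rw [levex_pi] at hT
  rw [levex_Et C h] at hy
  have h1 : C.b (i + 2) / C.sp ≤ y - C.c := by have := hy.1; simp only at this; linarith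
  have h2 : y - C.c ≤ C.a i / C.sp := by have := hy.2; simp only at this; linarith
  rw [div_le_iff₀ hp] at h1
  rw [le_div_iff₀ hp] at h2
  have v := C.val true ((y - C.c) * C.sp) ((C.b_pos _).le.trans h1)
    (h2.trans ((C.ab i).trans (C.b_le i)))
  have e : pt C.c C.sp C.sm true ((y - C.c) * C.sp) = y := by
    simp only [pt, if_true]
    field_simp
    ring
  rw [e] at v
  have h3 : C.b (i + 1) / C.sp ≤ y - C.c := by
    rw [div_le_iff₀ hp]
    have := hT.2
    simp only at this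
    linarith
  linarith

lemma levex_yf (C : Clu S) {i : ℕ} (h : C.sd i = false) {y : ℝ} (hy : y ∈ cl (levex_E C i))
    (hT : S.P.T y ∈ cl (S.pi (levex_E C i))) : y ≤ C.c - C.b (i + 1) / C.sm := by
  have hp := levex_sm C
  rw [levex_pi] at hT
  rw [levex_Ef C h] at hy
  have h1 : C.b (i + 2) / C.sm ≤ C.c - y := by have := hy.2; simp only at this; linarith
  have h2 : C.c - y ≤ C.a i / C.sm := by have := hy.1; simp only at this; linarith
  rw [div_le_iff₀ hp] at h1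
  rw [le_div_iff₀ hp] at h2
  have v := C.val false ((C.c - y) * C.sm) ((C.b_pos _).le.trans h1)
    (h2.trans ((C.ab i).trans (C.b_le i)))
  have e : pt C.c C.sp C.sm false ((C.c - y) * C.sm) = y := by
    simp only [pt, Bool.false_eq_true, if_false]
    field_simp
    ring
  rw [e] at v
  have h3 : C.b (i + 1) / C.sm ≤ C.c - y := by
    rw [div_le_iff₀ hp]
    have := hT.2
    simp only at this
    linarith
  linarith

lemma levex_uv (C : Clu S) (i : ℕ) : levex_u C i < levex_v C i := by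
  have p2 := C.b_pos (i + 2)
  have p3 := C.b_pos (i + 3)
  have hp := levex_sp C
  have hm := levex_sm C
  cases h : C.sd i
  · rw [(levex_f C h).2.1, (levex_f C h).2.2]
    linarith [div_pos p2 hm, div_pos p3 hp]
  · rw [(levex_t C h).2.1, (levex_t C h).2.2]
    linarith [div_pos p3 hm, div_pos p2 hp]

lemma levex_flank (C : Clu S) (i : ℕ) :
    ((levex_E C (i + 1)).2 = levex_u C i ∧ (levex_E C i).1 = levex_v C i) ∨
      ((levex_E C i).2 = levex_u C i ∧ (levex_E C (i + 1)).1 = levex_v C i) := by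
  cases h : C.sd i
  · obtain ⟨h1, h2, h3⟩ := levex_f C h
    right
    rw [levex_Ef C h, levex_Et C h1, h2, h3]
    exact ⟨rfl, rfl⟩
  · obtain ⟨h1, h2, h3⟩ := levex_t C h
    left
    rw [levex_Et C h, levex_Ef C h1, h2, h3]
    exact ⟨rfl, rfl⟩

lemma levex_nest (C : Clu S) (i : ℕ) :
    levex_u C i ≤ levex_u C (i + 1) ∧ levex_v C (i + 1) ≤ levex_v C i := by
  have q : C.b (i + 1 + 3) ≤ C.b (i + 2) := ((levex_bb C (i + 3)).trans (levex_bb C (i + 2))).le
  cases h : C.sd i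
  · obtain ⟨h1, h2, h3⟩ := levex_f C h
    obtain ⟨-, h4, h5⟩ := levex_t C h1
    rw [h2, h3, h4, h5]
    exact ⟨by linarith [div_le_div_of_nonneg_right q (levex_sm C).le], le_rfl⟩
  · obtain ⟨h1, h2, h3⟩ := levex_t C h
    obtain ⟨-, h4, h5⟩ := levex_f C h1
    rw [h2, h3, h4, h5]
    exact ⟨le_rfl, by linarith [div_le_div_of_nonneg_right q (levex_sp C).le]⟩

lemma levex_inner (C : Clu S) (i : ℕ) : Inner (levex_u C i) (levex_v C i) (levex_E C (i + 2)) := by
  have q := C.ab (i + 2)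
  have p3 := C.b_pos (i + 3)
  have p4 := C.b_pos (i + 2 + 2)
  have hp := levex_sp C
  have hm := levex_sm C
  cases h : C.sd i
  · obtain ⟨h1, h2, h3⟩ := levex_f C h
    rw [h2, h3, levex_Ef C (levex_t C h1).1]
    exact ⟨by simp only; linarith [div_le_div_of_nonneg_right q hm.le],
      by simp only; linarith [div_pos p3 hp, div_pos p4 hm]⟩
  · obtain ⟨h1, h2, h3⟩ := levex_t C h
    rw [h2, h3, levex_Et C (levex_f C h1).1]
    exact ⟨by simp only; linarith [div_pos p3 hm, div_pos p4 hp],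
      by simp only; linarith [div_le_div_of_nonneg_right q hp.le]⟩

lemma levex_len (C : Clu S) (i : ℕ) :
    len (levex_E C i) = (C.a i - C.b (i + 2)) / (if C.sd i = true then C.sp else C.sm) := by
  cases h : C.sd i
  · rw [levex_Ef C h]
    simp only [len, Bool.false_eq_true, if_false]
    ring
  · rw [levex_Et C h]
    simp only [len, if_true]
    ring

/-- the width of a level, measured with any slope -/
lemma levex_wid (C : Clu S) (i : ℕ) {t : ℝ} (h0 : S.L.m ≤ t) (h1 : t ≤ S.L.M) :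
    S.L.m / S.L.M * (levex_v C i - levex_u C i) ≤ 2 * (C.b (i + 2) / t) := by
  have p2 := C.b_pos (i + 2)
  have p3 := C.b_pos (i + 3)
  have q := div_le_div_of_nonneg_right (levex_bb C (i + 2)).le (S.L.m_pos.trans_le h0).le
  have a1 := levex_cmp S.L.m_pos C.sp_lo h0 h1 p2.le
  have a2 := levex_cmp S.L.m_pos C.sm_lo h0 h1 p2.le
  have a3 := levex_cmp S.L.m_pos C.sp_lo h0 h1 p3.le
  have a4 := levex_cmp S.L.m_pos C.sm_lo h0 h1 p3.le
  cases h : C.sd i
  · rw [(levex_f C h).2.1, (levex_f C h).2.2]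
    linarith
  · rw [(levex_t C h).2.1, (levex_t C h).2.2]
    linarith

lemma levex_small (C : Clu S) (i : ℕ) {ε : ℝ} (hε : 0 < ε)
    (hr : C.b (i + 1 + 1) ≤ ε * (S.L.m / S.L.M) / 2 * (C.a (i + 1) - C.b (i + 1 + 1))) :
    levex_v C i - levex_u C i ≤ ε * len (levex_E C (i + 1)) := by
  have hm := S.L.m_pos
  have hM : 0 < S.L.M := (levex_sp C).trans_le C.sp_hi
  have hq : 0 < S.L.m / S.L.M := div_pos hm hM
  obtain ⟨t, h0, h1, e⟩ : ∃ t, S.L.m ≤ t ∧ t ≤ S.L.M ∧
      len (levex_E C (i + 1)) = (C.a (i + 1) - C.b (i + 1 + 2)) / t := by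
    refine ⟨_, ?_, ?_, levex_len C (i + 1)⟩ <;> split_ifs
    exacts [C.sp_lo, C.sm_lo, C.sp_hi, C.sm_hi]
  have ht : 0 < t := hm.trans_le h0
  have w := levex_wid C i h0 h1
  have q : C.b (i + 1 + 2) < C.b (i + 1 + 1) := levex_bb C (i + 2)
  have h2 : 2 * C.b (i + 2) ≤ S.L.m / S.L.M * (ε * (C.a (i + 1) - C.b (i + 1 + 2))) := by
    have := mul_le_mul_of_nonneg_left (sub_le_sub_left q.le (C.a (i + 1))) (mul_pos hε hq).le
    have e2 : C.b (i + 2) = C.b (i + 1 + 1) := rfl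
    rw [e2]
    linarith
  have h3 := div_le_div_of_nonneg_right h2 ht.le
  rw [e]
  refine le_of_mul_le_mul_left (w.trans ?_) hq
  calc 2 * (C.b (i + 2) / t) = 2 * C.b (i + 2) / t := by ring
    _ ≤ _ := h3
    _ = _ := by ring

lemma levex_s4 (C : Clu S) (i : ℕ)
    (hr : C.b (i + 1 + 1) ≤ 1 / 4 * (C.a (i + 1) - C.b (i + 1 + 1))) {y : ℝ}
    (hy : y ∈ cl (levex_E C i)) (hT : S.P.T y ∈ cl (S.pi (levex_E C i))) :
    y ≤ levex_u C i - 3 / 8 * (S.L.m / S.L.M) * len (levex_E C (i + 1)) ∨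
      levex_v C i + 3 / 8 * (S.L.m / S.L.M) * len (levex_E C (i + 1)) ≤ y := by
  have e2 : C.b (i + 1 + 1) = C.b (i + 2) := rfl
  rw [e2] at hr
  have p3 := C.b_pos (i + 1 + 2)
  have p2 := C.b_pos (i + 2)
  have q0 := C.ab (i + 1)
  have q1 : C.b (i + 1 + 2) < C.b (i + 2) := levex_bb C (i + 2)
  have x0 : 0 ≤ C.a (i + 1) - C.b (i + 1 + 2) := by linarith
  have x1 : 3 / 8 * (C.a (i + 1) - C.b (i + 1 + 2)) ≤ C.b (i + 1) - C.b (i + 2) := by linarith
  rw [levex_len]
  cases h : C.sd i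
  · obtain ⟨h1, h2, -⟩ := levex_f C h
    left
    have a1 := levex_yf C h hy hT
    have a2 := levex_cmp S.L.m_pos C.sp_lo C.sm_lo C.sm_hi x0
    have a3 := div_le_div_of_nonneg_right x1 (levex_sm C).le
    rw [mul_div_assoc, sub_div (C.b (i + 1))] at a3
    rw [h2, if_pos h1]
    linarith
  · obtain ⟨h1, -, h3⟩ := levex_t C h
    right
    have a1 := levex_yt C h hy hT
    have a2 := levex_cmp S.L.m_pos C.sm_lo C.sp_lo C.sp_hi x0
    have a3 := div_le_div_of_nonneg_right x1 (levex_sp C).le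
    rw [mul_div_assoc, sub_div (C.b (i + 1))] at a3
    rw [h3, if_neg (by simp [h1])]
    linarith

lemma levex_s5 (C : Clu S) (i : ℕ)
    (hr : C.b (i + 2 + 1) ≤ 1 / 4 * (C.a (i + 2) - C.b (i + 2 + 1))) {y : ℝ}
    (hy : y ∈ cl (levex_E C (i + 1))) (hT : S.P.T y ∈ cl (S.pi (levex_E C (i + 1)))) :
    y ≤ levex_u C i - 3 / 8 * (S.L.m / S.L.M) * (levex_v C i - levex_u C i) ∨
      levex_v C i + 3 / 8 * (S.L.m / S.L.M) * (levex_v C i - levex_u C i) ≤ y := by
  have e2 : C.b (i + 1 + 1) = C.b (i + 2) := rfl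
  have e3 : C.b (i + 2 + 1) = C.b (i + 3) := rfl
  rw [e3] at hr
  have q0 := C.ab (i + 2)
  have p3 := C.b_pos (i + 3)
  have x1 : 3 / 4 * C.b (i + 2) ≤ C.b (i + 2) - C.b (i + 3) := by linarith
  cases h : C.sd i
  · obtain ⟨h1, -, h3⟩ := levex_f C h
    right
    have a1 := levex_yt C h1 hy hT
    have a2 := levex_wid C i C.sp_lo C.sp_hi
    have a3 := div_le_div_of_nonneg_right x1 (levex_sp C).le
    rw [mul_div_assoc, sub_div] at a3
    rw [e2] at a1
    linarith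
  · obtain ⟨h1, h2, -⟩ := levex_t C h
    left
    have a1 := levex_yf C h1 hy hT
    have a2 := levex_wid C i C.sm_lo C.sm_hi
    have a3 := div_le_div_of_nonneg_right x1 (levex_sm C).le
    rw [mul_div_assoc, sub_div] at a3
    rw [e2] at a1
    linarith

lemma Sys.exists_lev (S : Sys) (C : Clu S) : Nonempty (Lev S) := by
  obtain ⟨j0, hj⟩ := eventually_atTop.1 (C.ratio (1 / 4) (by norm_num))
  have hq : 0 < S.L.m / S.L.M := div_pos S.L.m_pos ((levex_sp C).trans_le C.sp_hi)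
  refine ⟨{
    e := fun j => levex_E C (j0 + j)
    u := fun j => levex_u C (j0 + j)
    v := fun j => levex_v C (j0 + j)
    c1 := 3 / 8 * (S.L.m / S.L.M)
    c1_pos := by positivity
    gap := fun j => C.gap _
    long := fun j => levex_long C _
    uv := fun j => levex_uv C _
    flank := fun j => levex_flank C (j0 + j)
    nest := fun j => levex_nest C (j0 + j)
    inner := fun j => levex_inner C (j0 + j)
    small := fun ε hε => ?_
    s4 := fun j y hy hT => levex_s4 C (j0 + j) (hj _ (by omega)) hy hT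
    s5 := fun j y hy hT => levex_s5 C (j0 + j) (hj _ (by omega)) hy hT }⟩
  obtain ⟨j1, h1⟩ := eventually_atTop.1 (C.ratio (ε * (S.L.m / S.L.M) / 2) (by positivity))
  exact eventually_atTop.2 ⟨j1, fun j hj' => levex_small C (j0 + j) hε (h1 _ (by omega))⟩

end Pool.Agent.MP_8df504_an.C

end

section

set_option autoImplicit false

namespace Pool.Agent.MP_8df504_an.C

open Set Filter Topology MeasureTheory

/-! Infinitely many long gaps give a two-sided turning point; reflection; heights.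

`exists_turn`: the left ends of infinitely many long gaps accumulate at some `z ∈ K` and their
lengths tend to `0` (`finite_big`), so every neighbourhood of `z` contains (the closure of) a long
gap.  `T` is affine with
nonzero slope on `[z, z+δ]` (if `z < hi`) and on `[z-δ, z]` (if `lo < z`).  Suppose not
(`TwoMax z` or `TwoMin z`).  Then there is an interval `N` (`[z-δ,z+δ]` if the slopes have the same
sign, `[z,z+δ]` or `[z-δ,z]` if `K` does not accumulate at `z` from the other side) on which `T` is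
strictly monotone or antitone and which contains `K ∩ (z-δ', z+δ')`.  With `inv_cont`, for a gap `g`
close to `z` any point of `K` strictly between `T g.1` and `T g.2` is `T y` with `y ∈ K ∩ N`
(`surjK`), hence `y` strictly between `g.1` and `g.2`: impossible; so `g` is not long
(`not_long_of_no_point`).

`exists_neg`: `T' y = - T (-y)`, `K' = -K`, `lo' = -hi`, `B' = B.image (-·)`, `x' = -x`; the edges of
`A.image (-·)` are the pairs `(-g.2, -g.1)`.

`exists_ht`: `sp = |sl c|`, `sm = |sl (c - δ₀)|` for a small `δ₀` with no break point in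
`(c - δ₀, c)` and in `(c, c+δ₀)`; the signs of the slopes come from `TwoMax`.  `cover` from `surjK`
and `inv_cont`. -/

lemma turn_acc (S : Sys) (h : {g | g ∈ Gap S.P.K ∧ S.Long g}.Infinite) :
    ∃ z ∈ S.P.K, ∀ ε > 0, ∃ g ∈ Gap S.P.K, S.Long g ∧ |g.1 - z| < ε ∧ |g.2 - z| < ε := by
  have h1 : ∀ n : ℕ, ∃ g ∈ Gap S.P.K, S.Long g ∧ len g < 1 / ((n : ℝ) + 1) := fun n => by
    obtain ⟨g, hg, hn⟩ := (h.sdiff (S.P.finite_big (δ := 1 / ((n : ℝ) + 1))
      (by positivity))).nonempty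
    exact ⟨g, hg.1, hg.2, lt_of_not_ge fun hc => hn ⟨hg.1, hc⟩⟩
  choose g hg hl hs using h1
  obtain ⟨z, hz, φ, hφ, ht⟩ := S.P.cpt.tendsto_subseq (x := fun n => (g n).1) fun n => (hg n).1
  refine ⟨z, hz, fun ε hε => ?_⟩
  have h2 := (Metric.tendsto_nhds.1 ht) (ε / 2) (by positivity)
  have h3 := ((tendsto_one_div_add_atTop_nhds_zero_nat (𝕜 := ℝ)).comp
    hφ.tendsto_atTop).eventually (gt_mem_nhds (show 0 < ε / 2 by positivity))
  obtain ⟨n, a, b⟩ := (h2.and h3).exists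
  have c := (hs (φ n)).trans b
  have d := Gap.len_pos (hg (φ n))
  simp only [Function.comp, Real.dist_eq, abs_lt, len] at a c d
  exact ⟨g (φ n), hg _, hl _, abs_lt.2 ⟨by linarith [a.1], by linarith [a.2]⟩,
    abs_lt.2 ⟨by linarith [a.1], by linarith [a.2]⟩⟩

lemma turn_key (S : Sys) {z δ σ τ : ℝ} (hz : z ∈ S.P.K) (hδ : 0 < δ) (hs : 0 < σ * τ)
    (hR : ∀ y ∈ S.P.K, |y - z| < δ → z ≤ y → S.P.T y = S.P.T z + σ * (y - z))
    (hL : ∀ y ∈ S.P.K, |y - z| < δ → y ≤ z → S.P.T y = S.P.T z + τ * (y - z))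
    (h : ∀ ε > 0, ∃ g ∈ Gap S.P.K, S.Long g ∧ |g.1 - z| < ε ∧ |g.2 - z| < ε) : False := by
  have mono : ∀ y ∈ S.P.K, |y - z| < δ → ∀ w ∈ S.P.K, |w - z| < δ → y ≤ w →
      0 ≤ σ * (S.P.T w - S.P.T y) := by
    intro y hy hy' w hw hw' hyw
    have h2 := mul_self_nonneg σ
    rcases le_total z y with c | c
    · rw [hR y hy hy' c, hR w hw hw' (c.trans hyw)]
      nlinarith [mul_nonneg h2 (sub_nonneg.2 hyw)]
    rcases le_total w z with d | d
    · rw [hL y hy hy' c, hL w hw hw' d]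
      nlinarith [mul_nonneg hs.le (sub_nonneg.2 hyw)]
    · rw [hL y hy hy' c, hR w hw hw' d]
      nlinarith [mul_nonneg h2 (sub_nonneg.2 d), mul_nonneg hs.le (sub_nonneg.2 c)]
  obtain ⟨η, hη, hinv⟩ := S.P.inv_cont hδ
  obtain ⟨δ', hδ', hc⟩ := Metric.continuousAt_iff.1 (S.P.cont.continuousAt (x := z)) η hη
  obtain ⟨g, hg, hl, g1, g2⟩ := h (min δ δ') (lt_min hδ hδ')
  rw [lt_min_iff] at g1 g2
  refine S.not_long_of_no_point hg (fun w hw hb => ?_) hl
  obtain ⟨y, hy, rfl⟩ := S.P.surjK hw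
  have a1 := abs_lt.1 (hc (x := g.1) g1.2)
  have a2 := abs_lt.1 (hc (x := g.2) g2.2)
  have b1 := min_lt_iff.1 hb.1
  have b2 := lt_max_iff.1 hb.2
  have hy' : |y - z| < δ := hinv y hy z hz (abs_le.2
    ⟨by rcases b1 with b | b <;> linarith [a1.1, a2.1],
      by rcases b2 with b | b <;> linarith [a1.2, a2.2]⟩)
  have m0 := mono _ hg.1 g1.1 _ hg.2.1 g2.1 hg.2.2.1.le
  have hσ : σ ≠ 0 := fun e => by simp [e] at hs
  rcases Gap.le_or_ge hg hy with c | c
  · have m1 := mono _ hy hy' _ hg.1 g1.1 c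
    rcases lt_or_gt_of_ne hσ with d | d
    · rcases b2 with b | b <;> nlinarith
    · rcases b1 with b | b <;> nlinarith
  · have m1 := mono _ hg.2.1 g2.1 _ hy hy' c
    rcases lt_or_gt_of_ne hσ with d | d
    · rcases b1 with b | b <;> nlinarith
    · rcases b2 with b | b <;> nlinarith

lemma turn_delta (B : Finset ℝ) (z : ℝ) : ∃ δ > 0, ∀ b ∈ B, |b - z| < δ → b = z := by
  have h : ∀ᶠ δ in 𝓝[>] (0 : ℝ), ∀ b ∈ B, |b - z| < δ → b = z := by
    refine (eventually_all_finset B).2 fun b _ => ?_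
    by_cases e : b = z
    · exact Eventually.of_forall fun _ _ => e
    · filter_upwards [nhdsWithin_le_nhds (gt_mem_nhds (abs_pos.2 (sub_ne_zero.2 e)))] with δ h1 h2
      exact absurd h1 (not_lt.2 h2.le)
  obtain ⟨δ, h1, h2⟩ := (h.and self_mem_nhdsWithin).exists
  exact ⟨δ, h2, h1⟩

lemma Sys.exists_turn (S : Sys) (h : {g | g ∈ Gap S.P.K ∧ S.Long g}.Infinite) :
    ∃ c, S.P.TwoMax c ∨ S.P.TwoMin c := by
  obtain ⟨z, hz, hacc⟩ := turn_acc S h
  obtain ⟨δ, hδ, hB⟩ := turn_delta S.P.B z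
  have hzI := S.P.sub hz
  have right : ∃ σ : ℝ, σ ≠ 0 ∧ ∀ y, |y - z| < δ → z ≤ y → z < S.P.hi ∨ y ≤ S.P.hi →
      S.P.T y = S.P.T z + σ * (y - z) := by
    rcases hzI.2.eq_or_lt with e | e
    · refine ⟨1, one_ne_zero, fun y _ h1 h2 => ?_⟩
      have : y = z := le_antisymm (by rcases h2 with h2 | h2 <;> linarith) h1
      simp [this]
    · have h1 : z + δ ≤ S.P.hi := le_of_not_gt fun c =>
        e.ne' (hB _ S.P.hi_B (abs_lt.2 ⟨by linarith, by linarith⟩))
      obtain ⟨σ, h2, h3⟩ := S.P.aff z (z + δ) hzI.1 (by linarith) h1 fun b hb c =>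
        c.1.ne' (hB b hb (abs_lt.2 ⟨by linarith [c.1], by linarith [c.2]⟩))
      exact ⟨σ, h2, fun y a b _ => h3 y ⟨b, by linarith [(abs_lt.1 a).2]⟩⟩
  have left : ∃ τ : ℝ, τ ≠ 0 ∧ ∀ y, |y - z| < δ → y ≤ z → S.P.lo < z ∨ S.P.lo ≤ y →
      S.P.T y = S.P.T z + τ * (y - z) := by
    rcases hzI.1.eq_or_lt with e | e
    · refine ⟨1, one_ne_zero, fun y _ h1 h2 => ?_⟩
      have : y = z := le_antisymm h1 (by rcases h2 with h2 | h2 <;> linarith)
      simp [this]
    · have h1 : S.P.lo ≤ z - δ := le_of_not_gt fun c =>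
        e.ne (hB _ S.P.lo_B (abs_lt.2 ⟨by linarith, by linarith⟩))
      obtain ⟨σ, h2, h3⟩ := S.P.aff (z - δ) z h1 (by linarith) hzI.2 fun b hb c =>
        c.2.ne (hB b hb (abs_lt.2 ⟨by linarith [c.1], by linarith [c.2]⟩))
      refine ⟨σ, h2, fun y a b _ => ?_⟩
      rw [h3 y ⟨by linarith [(abs_lt.1 a).1], b⟩, h3 z ⟨by linarith, le_rfl⟩]
      ring
  obtain ⟨σ, hσ, hR⟩ := right
  obtain ⟨τ, hτ, hL⟩ := left
  have hR' := fun y (hy : y ∈ S.P.K) a b => hR y a b (Or.inr (S.P.sub hy).2)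
  have hL' := fun y (hy : y ∈ S.P.K) a b => hL y a b (Or.inr (S.P.sub hy).1)
  by_cases aR : ∀ ε > 0, ∃ w ∈ S.P.K, z < w ∧ w < z + ε
  swap
  · push Not at aR
    obtain ⟨ε, hε, aR⟩ := aR
    refine (turn_key S hz (lt_min hδ hε) (mul_self_pos.2 hτ) (fun y hy a b => ?_)
      (fun y hy a b => hL' y hy (lt_min_iff.1 a).1 b) hacc).elim
    rcases b.eq_or_lt with rfl | c
    · simp
    · linarith [aR y hy c, (abs_lt.1 (lt_min_iff.1 a).2).2]
  by_cases aL : ∀ ε > 0, ∃ w ∈ S.P.K, z - ε < w ∧ w < z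
  swap
  · push Not at aL
    obtain ⟨ε, hε, aL⟩ := aL
    refine (turn_key S hz (lt_min hδ hε) (mul_self_pos.2 hσ)
      (fun y hy a b => hR' y hy (lt_min_iff.1 a).1 b) (fun y hy a b => ?_) hacc).elim
    have : y = z := le_antisymm b (aL y hy (by linarith [(abs_lt.1 (lt_min_iff.1 a).2).1]))
    simp [this]
  have zhi : z < S.P.hi := by
    obtain ⟨w, hw, c, -⟩ := aR 1 one_pos
    exact c.trans_le (S.P.sub hw).2
  have zlo : S.P.lo < z := by
    obtain ⟨w, hw, -, c⟩ := aL 1 one_pos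
    exact (S.P.sub hw).1.trans_lt c
  have two : S.P.TwoSided z := ⟨hz, aR, aL⟩
  rcases lt_or_gt_of_ne hσ with s | s <;> rcases lt_or_gt_of_ne hτ with t | t
  · exact (turn_key S hz hδ (mul_pos_of_neg_of_neg s t) hR' hL' hacc).elim
  · refine ⟨z, Or.inl ⟨two, δ, hδ, fun y a b => ?_⟩⟩
    rcases lt_or_gt_of_ne b with c | c
    · rw [hL y a c.le (Or.inl zlo)]; nlinarith
    · rw [hR y a c.le (Or.inl zhi)]; nlinarith
  · refine ⟨z, Or.inr ⟨two, δ, hδ, fun y a b => ?_⟩⟩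
    rcases lt_or_gt_of_ne b with c | c
    · rw [hL y a c.le (Or.inl zlo)]; nlinarith
    · rw [hR y a c.le (Or.inl zhi)]; nlinarith
  · exact (turn_key S hz hδ (mul_pos s t) hR' hL' hacc).elim

end Pool.Agent.MP_8df504_an.C

end

section

set_option autoImplicit false

namespace Pool.Agent.MP_8df504_an.C

open Set Filter Topology MeasureTheory

/-! Outer gaps of a cycle of intervals.

Hints.  `a`, `b` only depend on `i % p`.  An outer gap `g` has `g.1 = b i` for the `i < p` with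
`g.1 ∈ [a i, b i]`; conversely if `b i < hi` there is a gap starting at `b i` (up to the least
`a l > b i`), and it is outer.  `pi` maps inner gaps to inner gaps (`maps`, `Cov`), so by finiteness
and bijectivity it permutes the outer gaps, and `∏ r = ∏ img / ∏ len = ∏ |sl g.1|` (`img_gap`).
`prod_compare`: `∏ O |sl g.1| = ∏ (i<p, b i ≠ hi) |sl (b i)|`.  Call `i` exceptional if some point of
`B` is in `((g i).1, b i]`; at most `card B` indices are exceptional (`disj`), `b i = hi` is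
exceptional, and for the other `i`, `sl (g i).1 = sl (b i)` (`sl_eq` on the segment from `(g i).1`
to the right end of the gap starting at `b i`; `B ⊆ K`).  Take for `Φ` the quotients of two
elements of the finite set given by `exists_prod_set`. -/

lemma exists_prod_set (Sl : Finset ℝ) (n : ℕ) : ∃ Q : Finset ℝ,
    ∀ (I : Finset ℕ) (t : ℕ → ℝ), I.card ≤ n → (∀ i ∈ I, t i ∈ Sl) → ∏ i ∈ I, t i ∈ Q := by
  induction n with
  | zero =>
    refine ⟨{1}, fun I t hI _ => ?_⟩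
    rw [Finset.card_eq_zero.1 (Nat.le_zero.1 hI), Finset.prod_empty]
    exact Finset.mem_singleton_self _
  | succ n ih =>
    obtain ⟨Q, hQ⟩ := ih
    refine ⟨Q ∪ Finset.image₂ (· * ·) Sl Q, fun I t hI ht => ?_⟩
    rcases I.eq_empty_or_nonempty with rfl | ⟨i, hi⟩
    · exact Finset.mem_union_left _ (hQ ∅ t (Nat.zero_le _) ht)
    · rw [← Finset.mul_prod_erase I t hi]
      refine Finset.mem_union_right _ (Finset.mem_image₂_of_mem (ht i hi)
        (hQ _ t ?_ fun j hj => ht j (Finset.mem_of_mem_erase hj)))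
      rw [Finset.card_erase_of_mem hi]
      omega

namespace Cyc

lemma mt1_mod {P : Pre} (C : Cyc P) (i : ℕ) : ∃ l < C.p, C.a l = C.a i ∧ C.b l = C.b i :=
  ⟨i % C.p, Nat.mod_lt _ C.p_pos, Function.Periodic.map_mod_nat C.a_per i,
    Function.Periodic.map_mod_nat C.b_per i⟩

lemma mt1_fst {P : Pre} (C : Cyc P) {g : ℝ × ℝ} (hg : g ∈ Gap P.K)
    (h : ∀ i, ¬ Inner (C.a i) (C.b i) g) : ∃ i < C.p, C.b i = g.1 := by
  obtain ⟨i, hi, h1, h2⟩ := C.cover _ hg.1
  rcases Gap.le_or_ge hg (C.b_mem i) with c | c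
  · exact ⟨i, hi, le_antisymm c h2⟩
  · exact absurd ⟨h1, c⟩ (h i)

lemma mt1_sep {P : Pre} (C : Cyc P) {i l : ℕ} (hi : i < C.p) (hl : l < C.p) (h : C.b i < C.b l) :
    C.b i < C.a l := by
  rcases C.disj i l hi hl (fun e => h.ne (e ▸ rfl)) with c | c
  · exact c
  · linarith [C.ab i]

lemma mt1_gap {P : Pre} (C : Cyc P) {i : ℕ} (hi : i < C.p) (h : C.b i ≠ P.hi) :
    ∃ g ∈ Gap P.K, g.1 = C.b i ∧ ∀ j, ¬ Inner (C.a j) (C.b j) g := by
  have h1 : C.b i < P.hi := lt_of_le_of_ne (P.sub (C.b_mem i)).2 h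
  obtain ⟨l₀, hl₀, -, h2⟩ := C.cover _ P.hi_mem
  obtain ⟨l, hl, hm⟩ := ((Finset.range C.p).filter fun l => C.b i < C.a l).exists_min_image C.a
    ⟨l₀, Finset.mem_filter.2 ⟨Finset.mem_range.2 hl₀, C.mt1_sep hi hl₀ (h1.trans_le h2)⟩⟩
  have h3 := (Finset.mem_filter.1 hl).2
  refine ⟨(C.b i, C.a l), ⟨C.b_mem i, C.a_mem l, h3, fun z hz hc => ?_⟩, rfl, fun j hj => ?_⟩
  · obtain ⟨k, hk, h4, h5⟩ := C.cover z hz
    exact absurd ((hm k (Finset.mem_filter.2 ⟨Finset.mem_range.2 hk,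
      C.mt1_sep hi hk (hc.1.trans_le h5)⟩)).trans h4) (not_le.2 hc.2)
  · obtain ⟨k, hk, e1, e2⟩ := C.mt1_mod j
    rw [← e1, ← e2] at hj
    exact absurd hj.1 (not_le.2 (C.mt1_sep hi hk (h3.trans_le hj.2)))

lemma mt1_eq {P : Pre} (C : Cyc P) {i l : ℕ} (hi : i < C.p) (hl : l < C.p) {z : ℝ}
    (h1 : C.a i ≤ z) (h2 : z ≤ C.b i) (h3 : C.a l ≤ z) (h4 : z ≤ C.b l) : i = l := by
  by_contra hne
  rcases C.disj i l hi hl hne with c | c <;> linarith

lemma mt1_inner {S : Sys} (C : Cyc S.P) {g : ℝ × ℝ} (hg : g ∈ Gap S.P.K) {i : ℕ}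
    (h : Inner (C.a i) (C.b i) g) : Inner (C.a (i + 1)) (C.b (i + 1)) (S.pi g) := by
  have h0 : g.1 ≤ g.2 := hg.2.2.1.le
  obtain ⟨h1, h2⟩ := C.maps i _ hg.1 h.1 (h0.trans h.2)
  obtain ⟨h3, h4⟩ := C.maps i _ hg.2.1 (h.1.trans h0) h.2
  exact ⟨(le_min h1 h3).trans (S.ok.cov g hg).1, (S.ok.cov g hg).2.trans (max_le h2 h4)⟩

open Classical in
lemma mt1_prod {P : Pre} (C : Cyc P) {O : Finset (ℝ × ℝ)} (hO : C.IsOuter O) (t : ℝ → ℝ) :
    ∏ g ∈ O, t g.1 = ∏ i ∈ (Finset.range C.p).filter fun i => C.b i ≠ P.hi, t (C.b i) := by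
  rw [← Finset.prod_image (g := Prod.fst) (f := t)
      fun g hg g' hg' e => Gap.eq_of_fst ((hO g).1 hg).1 ((hO g').1 hg').1 e,
    ← Finset.prod_image (g := C.b) (f := t) fun i hi l hl e =>
      C.mt1_eq (Finset.mem_range.1 (Finset.mem_filter.1 hi).1)
        (Finset.mem_range.1 (Finset.mem_filter.1 hl).1) (C.ab i) le_rfl (e ▸ C.ab l) e.le]
  congr 1
  ext z
  simp only [Finset.mem_image, Finset.mem_filter, Finset.mem_range]
  constructor
  · rintro ⟨g, hg, rfl⟩
    obtain ⟨h1, h2⟩ := (hO g).1 hg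
    obtain ⟨i, hi, e⟩ := C.mt1_fst h1 h2
    exact ⟨i, ⟨hi, (e.trans_lt (h1.2.2.1.trans_le (P.sub h1.2.1).2)).ne⟩, e⟩
  · rintro ⟨i, ⟨hi, h⟩, rfl⟩
    obtain ⟨g, h1, e, h2⟩ := C.mt1_gap hi h
    exact ⟨g, (hO g).2 ⟨h1, h2⟩, e⟩

lemma exists_outer {P : Pre} (C : Cyc P) : ∃ O, C.IsOuter O := by
  have h : {g | g ∈ Gap P.K ∧ ∀ i, ¬ Inner (C.a i) (C.b i) g}.Finite := by
    refine Finite.of_finite_image (f := Prod.fst) (((finite_Iio C.p).image C.b).subset ?_)
      fun g hg g' hg' e => Gap.eq_of_fst hg.1 hg'.1 e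
    rintro _ ⟨g, hg, rfl⟩
    exact C.mt1_fst hg.1 hg.2
  exact ⟨h.toFinset, fun g => h.mem_toFinset⟩

lemma outer_prod {S : Sys} (C : Cyc S.P) {O : Finset (ℝ × ℝ)} (hO : C.IsOuter O) :
    ∏ g ∈ O, S.r g = ∏ g ∈ O, |S.L.sl g.1| := by
  classical
  have hg : ∀ g ∈ O, g ∈ Gap S.P.K := fun g h => ((hO g).1 h).1
  have h1 : O = O.image S.pi := by
    refine Finset.eq_of_subset_of_card_le (fun γ hγ => ?_) Finset.card_image_le
    obtain ⟨g, h2, rfl⟩ := S.ok.bij.surjOn (hg γ hγ)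
    exact Finset.mem_image_of_mem _ ((hO g).2 ⟨h2, fun i hi =>
      ((hO _).1 hγ).2 (i + 1) (C.mt1_inner h2 hi)⟩)
  have h2 : ∏ g ∈ O, len (S.pi g) = ∏ g ∈ O, len g := by
    rw [← Finset.prod_image (g := S.pi) (f := len)
      fun g h g' h' e => S.ok.bij.injOn (hg g h) (hg g' h') e, ← h1]
  have h3 : 0 < ∏ g ∈ O, len g := Finset.prod_pos fun g h => Gap.len_pos (hg g h)
  unfold Sys.r
  rw [Finset.prod_div_distrib, h2, div_eq_iff h3.ne', ← Finset.prod_mul_distrib]
  exact Finset.prod_congr rfl fun g h => S.img_gap (hg g h)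

end Cyc

lemma Sys.prod_compare (S : Sys) : ∃ Φ : Finset ℝ, ∀ (C : Cyc S.P) (O : Finset (ℝ × ℝ)),
    C.IsOuter O → ∀ g : ℕ → ℝ × ℝ,
      (∀ i < C.p, g i ∈ Gap S.P.K ∧ Inner (C.a i) (C.b i) (g i)) →
      ∃ β ∈ Φ, ∏ i ∈ Finset.range C.p, |S.L.sl (g i).1| = β * ∏ g ∈ O, S.r g := by
  classical
  obtain ⟨Q, hQ⟩ := exists_prod_set S.L.Sl S.P.B.card
  refine ⟨Finset.image₂ (· / ·) Q Q, fun C O hO g hg => ?_⟩
  let E : ℕ → Prop := fun i => ∃ β ∈ S.P.B, (g i).1 < β ∧ β ≤ C.b i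
  have hE : ((Finset.range C.p).filter E).card ≤ S.P.B.card := by
    have : ∀ i, ∃ β, E i → β ∈ S.P.B ∧ (g i).1 < β ∧ β ≤ C.b i := fun i => by
      by_cases h : E i
      · obtain ⟨β, hβ⟩ := h
        exact ⟨β, fun _ => hβ⟩
      · exact ⟨0, fun h' => absurd h' h⟩
    choose f hf using this
    refine Finset.card_le_card_of_injOn f (fun i hi => (hf i (Finset.mem_filter.1 hi).2).1)
      fun i hi l hl e => ?_
    obtain ⟨i1, i2⟩ := Finset.mem_filter.1 hi
    obtain ⟨l1, l2⟩ := Finset.mem_filter.1 hl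
    rw [Finset.mem_range] at i1 l1
    exact C.mt1_eq i1 l1 ((hg i i1).2.1.trans (hf i i2).2.1.le) (hf i i2).2.2
      (e ▸ (hg l l1).2.1.trans (hf l l2).2.1.le) (e ▸ (hf l l2).2.2)
  have hlt : ∀ i < C.p, (g i).1 < C.b i := fun i hi => (hg i hi).1.2.2.1.trans_le (hg i hi).2.2
  have hne : ∀ i < C.p, ¬ E i → C.b i ≠ S.P.hi := fun i hi h e =>
    h ⟨_, S.P.hi_B, e ▸ hlt i hi, e.ge⟩
  have hsl : ∀ i < C.p, ¬ E i → S.L.sl (C.b i) = S.L.sl (g i).1 := fun i hi h => by
    obtain ⟨γ, h1, e, -⟩ := C.mt1_gap hi (hne i hi h)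
    have h2 : C.b i < γ.2 := e ▸ h1.2.2.1
    refine S.L.sl_eq _ γ.2 (S.P.sub (hg i hi).1.1).1 ((hlt i hi).trans h2) (S.P.sub h1.2.1).2
      (fun β hβ hc => ?_) _ (hlt i hi).le h2
    rcases le_or_gt β (C.b i) with c | c
    · exact h ⟨β, hβ, hc.1, c⟩
    · exact h1.2.2.2 β (S.P.B_sub β hβ) ⟨e ▸ c, hc.2⟩
  have e1 : ((Finset.range C.p).filter fun i => C.b i ≠ S.P.hi).filter (fun i => ¬ E i) =
      (Finset.range C.p).filter fun i => ¬ E i := by
    ext i
    simp only [Finset.mem_filter, Finset.mem_range]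
    exact ⟨fun h => ⟨h.1.1, h.2⟩, fun h => ⟨⟨h.1, hne i h.1 h.2⟩, h.2⟩⟩
  refine ⟨_, Finset.mem_image₂_of_mem (hQ _ (fun i => |S.L.sl (g i).1|) hE fun i _ => S.L.sl_mem _)
    (hQ (((Finset.range C.p).filter fun i => C.b i ≠ S.P.hi).filter E) (fun i => |S.L.sl (C.b i)|)
      ((Finset.card_le_card (Finset.filter_subset_filter _ (Finset.filter_subset _ _))).trans hE)
      fun i _ => S.L.sl_mem _), ?_⟩
  have h0 : 0 < ∏ i ∈ ((Finset.range C.p).filter fun i => C.b i ≠ S.P.hi).filter E,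
      |S.L.sl (C.b i)| := Finset.prod_pos fun i _ => S.L.m_pos.trans_le (S.L.sl_lo _)
  rw [C.outer_prod hO, C.mt1_prod hO fun z => |S.L.sl z|,
    ← Finset.prod_filter_mul_prod_filter_not (Finset.range C.p) E,
    ← Finset.prod_filter_mul_prod_filter_not
      ((Finset.range C.p).filter fun i => C.b i ≠ S.P.hi) E, e1, ← mul_assoc,
    div_mul_cancel₀ _ h0.ne']
  refine congrArg _ (Finset.prod_congr rfl fun i hi => ?_)
  obtain ⟨i1, i2⟩ := Finset.mem_filter.1 hi
  rw [hsl i (Finset.mem_range.1 i1) i2]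

end Pool.Agent.MP_8df504_an.C

end

section

set_option autoImplicit false

namespace Pool.Agent.MP_8df504_an.C

open Set Filter Topology MeasureTheory

/-! The Martens-Tresser type contradiction.

`seq_MT`: `Γ` converges to `Γ∞ > Γ j ≥ 1`, `τ j = Γ (j+1) / Γ j → 1`.  The `β` are bounded above, so
the second alternative fails for large `j`; some `β` occurs infinitely often; `β > 0`; in the limit
`β Γ∞ ≤ 1`, but `β Γ∞ > β Γ j ≥ 1`.

`step_MT`: `Λ = ∏ i<p |sl (g i).1| = ∏ img (g i) / len (g i) = ∏ img (g i) / len (g (i+1))` (cyclic,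
`g p = g 0`), each factor `≥ 1` (`Cov.len_le`).  `O ⊆ O'` (`nested`), `τ = ∏ (O' \ O) r`, the `g i`
are distinct elements of `O' \ O` (`same_idx`).  If `pi (g i) = g (i+1)` for all `i < p` then
`Λ = ∏ r (g i) ≤ τ`.  Otherwise for some `i` the segment `T (g i)` contains the two different gaps
`pi (g i)`, `g (i+1)` (`Gap.sep`), so `len (g (i+1)) ≤ img (1 - 1 / r (g i)) ≤ img (1 - 1/τ)`.

`no_cycles`: choose cycles `C j` for `j ≥ j0`, outer sets `O j`, `Γ j = ∏ (O j) r ≤ G`.  The gap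
`e (j+2)` is long, inner at level `j`, outer at level `j+1` (it is a flank of `[u (j+1), v (j+1)]`:
one end is in that interval and the other is not; use `same_idx` and periodicity), so
`Γ j < Γ (j+1)`; its outer end is the point `z0` for `new_cycle`. -/

lemma mt3_idx {P : Pre} (C : Cyc P) {i : ℕ} {z : ℝ} (h1 : z ∈ Icc (C.a i) (C.b i))
    (h2 : z ∈ Icc (C.a 0) (C.b 0)) : C.a i = C.a 0 ∧ C.b i = C.b 0 := by
  have e := C.same_idx h1 h2
  have ha : Function.Periodic C.a C.p := C.a_per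
  have hb : Function.Periodic C.b C.p := C.b_per
  rw [← ha.map_mod_nat i, ← hb.map_mod_nat i, e, Nat.zero_mod]
  exact ⟨rfl, rfl⟩

lemma mt3_flank {P : Pre} (C : Cyc P) {e : ℝ × ℝ} (he : e ∈ Gap P.K)
    (h : e.2 = C.a 0 ∨ e.1 = C.b 0) : (∀ i, ¬ Inner (C.a i) (C.b i) e) ∧
      ∃ z ∈ P.K, e.1 ≤ z ∧ z ≤ e.2 ∧ z ∉ Icc (C.a 0) (C.b 0) := by
  have h0 := he.2.2.1
  have h1 := C.ab 0
  rcases h with h | h
  · refine ⟨fun i hi => ?_, e.1, he.1, le_rfl, h0.le, fun hz => ?_⟩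
    · have := (mt3_idx C (z := e.2) ⟨hi.1.trans h0.le, hi.2⟩ ⟨h.ge, h.le.trans h1⟩).1
      linarith [hi.1]
    · linarith [hz.1]
  · refine ⟨fun i hi => ?_, e.2, he.2.1, h0.le, le_rfl, fun hz => ?_⟩
    · have := (mt3_idx C (z := e.1) ⟨hi.1, h0.le.trans hi.2⟩ ⟨h1.trans h.ge, h.le⟩).2
      linarith [hi.2]
    · linarith [hz.2]

lemma Lev.no_cycles {S : Sys} (V : Lev S)
    (h : ∀ᶠ j in atTop, ∃ C : Cyc S.P, C.a 0 = V.u j ∧ C.b 0 = V.v j) : False := by
  classical
  obtain ⟨j0, hj0⟩ := eventually_atTop.1 h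
  choose C ha hb using fun j => hj0 (j0 + j) (Nat.le_add_right _ _)
  choose O hO using fun j => (C j).exists_outer
  obtain ⟨Φ, hΦ⟩ := S.prod_compare
  have hr : ∀ j, ∀ g ∈ O j, 1 ≤ S.r g := fun j g hg => S.one_le_r ((hO j g).1 hg).1
  have h1 : ∀ j, 1 ≤ ∏ g ∈ O j, S.r g := fun j => Finset.one_le_prod (hr j)
  have n1 : ∀ j, (C j).a 0 ≤ (C (j + 1)).a 0 := fun j => by
    rw [ha, ha]
    exact (V.nest (j0 + j)).1
  have n2 : ∀ j, (C (j + 1)).b 0 ≤ (C j).b 0 := fun j => by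
    rw [hb, hb]
    exact (V.nest (j0 + j)).2
  have hin : ∀ j, Inner ((C j).a 0) ((C j).b 0) (V.e (j0 + j + 2)) := fun j => by
    rw [ha, hb]
    exact V.inner (j0 + j)
  have hfl := fun j => mt3_flank (C (j + 1)) (V.gap (j0 + j + 2)) (by
    rw [ha, hb]
    exact (V.flank (j0 + j + 1)).imp And.left And.right)
  refine seq_MT (fun j => ∏ g ∈ O j, S.r g) S.P.G Φ h1
    (fun j => S.prod_r_le _ fun g hg => ((hO j g).1 hg).1) (fun j => ?_) fun j => ?_
  · have e1 : V.e (j0 + j + 2) ∉ O j := fun hg => ((hO j _).1 hg).2 0 (hin j)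
    have e2 : insert (V.e (j0 + j + 2)) (O j) ⊆ O (j + 1) := by
      refine Finset.insert_subset ((hO _ _).2 ⟨V.gap _, (hfl j).1⟩) fun g hg => ?_
      obtain ⟨g1, g2⟩ := (hO j g).1 hg
      refine (hO _ _).2 ⟨g1, fun i hi => g2 i ?_⟩
      obtain ⟨b1, b2⟩ := (C j).nested (C (j + 1)) (n1 j) (n2 j) i
      exact ⟨b1.trans hi.1, hi.2.trans b2⟩
    have e3 := Finset.prod_le_prod_of_subset_of_one_le (f := S.r) e2
      (fun g hg => zero_le_one.trans (hr _ g (e2 hg))) fun g hg _ => hr _ g hg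
    rw [Finset.prod_insert e1] at e3
    exact (lt_mul_of_one_lt_left (zero_lt_one.trans_le (h1 j)) (V.long _)).trans_le e3
  · obtain ⟨z, z1, z2, z3, z4⟩ := (hfl j).2
    obtain ⟨g, g1, g2⟩ := (C j).new_cycle (C (j + 1)) (n1 j) (n2 j) z1
      ⟨(hin j).1.trans z2, z3.trans (hin j).2⟩ z4
    obtain ⟨β, b1, b2⟩ := hΦ (C j) (O j) (hO j) g fun i hi => ⟨(g2 i hi).1, (g2 i hi).2.1⟩
    exact ⟨β, b1, S.step_MT (C j) (C (j + 1)) (n1 j) (n2 j) (hO j) (hO _) g g1 g2 b2.symm rfl⟩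

end Pool.Agent.MP_8df504_an.C

end

section

set_option autoImplicit false

namespace Pool.Agent.MP_8df504_an.C

open Set Filter Topology MeasureTheory

/-! No `Pre` exists. -/

lemma Pre.exists_sys (P : Pre) : ∃ S : Sys, S.P = P := by
  obtain ⟨L⟩ := P.exists_slp
  obtain ⟨pi, h⟩ := P.exists_pi L
  exact ⟨⟨P, L, pi, h⟩, rfl⟩

lemma Lev.false {S : Sys} (V : Lev S) : False := by
  obtain ⟨Λ, hΛ, hR⟩ := S.ret_of_esc
  refine V.no_cycles ?_
  filter_upwards [V.escape hΛ, V.small 1 one_pos, V.len_small one_pos] with j h1 h2 h3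
  have huv := V.uv j
  rcases V.flank j with ⟨e1, e2⟩ | ⟨e1, e2⟩
  · have := hR (V.e (j + 1)) (V.e j) (V.gap _) (V.gap _) (by rw [e1, e2]; exact huv)
      (by rw [e1, e2]; linarith) (by rw [e1, e2]; linarith) (by rw [e1, e2]; exact h1)
    rw [e1, e2] at this
    exact S.P.cyc_of_ret (e1 ▸ (V.gap (j + 1)).2.1) (e2 ▸ (V.gap j).1) huv this
  · have := hR (V.e j) (V.e (j + 1)) (V.gap _) (V.gap _) (by rw [e1, e2]; exact huv)
      (by rw [e1, e2]; linarith) (by rw [e1, e2]; linarith) (by rw [e1, e2]; exact h1)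
    rw [e1, e2] at this
    exact S.P.cyc_of_ret (e1 ▸ (V.gap j).2.1) (e2 ▸ (V.gap (j + 1)).1) huv this

lemma Pre.not_twoMax (P : Pre) {c : ℝ} (h : P.TwoMax c) : False := by
  obtain ⟨S, rfl⟩ := P.exists_sys
  obtain ⟨H⟩ := S.exists_ht h
  obtain ⟨C⟩ := S.exists_clu H
  obtain ⟨V⟩ := S.exists_lev C
  exact V.false

theorem Pre.false (P : Pre) : False := by
  obtain ⟨S, rfl⟩ := P.exists_sys
  by_cases h : {g | g ∈ Gap S.P.K ∧ S.Long g}.Finite
  · exact S.caseA h
  · obtain ⟨c, hc | hc⟩ := S.exists_turn h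
    · exact S.P.not_twoMax hc
    · obtain ⟨P', h'⟩ := S.P.exists_neg hc
      exact P'.not_twoMax h'

end Pool.Agent.MP_8df504_an.C

end

section

set_option autoImplicit false

namespace Pool.Agent.MP_8df504_an.C

open Set Filter Topology MeasureTheory

/-! Coboundaries and Fatou; measurability of `Dl` along orbits.

`cob_lintegral`: truncate `u` to `uN = max (-N) (min u N)`; `uN - uN ∘ T` has the sign of
`u - u ∘ T` and is smaller in absolute value, so `|f| + uN - uN ∘ T ≥ 0` a.e. and its integral is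
`∫ |f|`.  Fatou (`lintegral_liminf_le'`) gives that `|f| + u - u ∘ T ≥ 0` is integrable with integral
`≤ ∫ |f|`; subtract `|f| - f`.
`cob_frequently`: Fatou over `n`: the lintegral of the liminf is `≤ ofReal C < ∞`, so the liminf is
finite a.e. (`ae_lt_top'`), hence some `W` is frequently an upper bound.
`exists_meas_Dl`: take
`D n x = ∏ i<n, ∏ j<n, if T^[i] x < T^[j] x ∧ ∀ l<n, ¬ (T^[i] x < T^[l] x ∧ T^[l] x < T^[j] x)
then T^[j] x - T^[i] x else 1` (`Finset.prod_product'`, `Finset.prod_filter`, `Finset.prod_nbij`). -/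

private lemma cb_tr {a b c N : ℝ} (h : 0 ≤ c + a - b) :
    0 ≤ |c| + (max (-N) (min a N) - max (-N) (min b N)) := by
  have h1 := le_abs_self c
  have h2 := abs_nonneg c
  simp only [max_def, min_def]
  split_ifs <;> linarith

private lemma cb_ev (a : ℝ) : ∀ᶠ N : ℕ in atTop, max (-(N : ℝ)) (min a N) = a := by
  filter_upwards [tendsto_natCast_atTop_atTop.eventually_ge_atTop |a|] with N hN
  rw [min_eq_left (abs_le.1 hN).2, max_eq_right (abs_le.1 hN).1]

lemma cob_lintegral {X : Type} [MeasurableSpace X] (ν : Measure X) [IsFiniteMeasure ν]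
    {T : X → X} (hT : MeasurePreserving T ν ν) {u f : X → ℝ} (hu : Measurable u)
    (hf : Integrable f ν) (h : ∀ᵐ x ∂ν, 0 ≤ f x + u x - u (T x)) :
    ∫⁻ x, ENNReal.ofReal (f x + u x - u (T x)) ∂ν ≤ ENNReal.ofReal (∫ x, f x ∂ν) := by
  have h1 : ∀ N : ℕ, Integrable (fun x => max (-(N : ℝ)) (min (u x) N)) ν := fun N =>
    Integrable.of_bound (by fun_prop) N (Eventually.of_forall fun x => abs_le.2
      ⟨le_max_left _ _, max_le (neg_le_self N.cast_nonneg) (min_le_right _ _)⟩)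
  have h2 : ∀ N : ℕ, Integrable (fun x => max (-(N : ℝ)) (min (u (T x)) N)) ν := fun N =>
    hT.integrable_comp_of_integrable (h1 N)
  have h3 : ∀ N : ℕ, ∫⁻ x, ENNReal.ofReal (|f x| + (max (-(N : ℝ)) (min (u x) N) -
      max (-(N : ℝ)) (min (u (T x)) N))) ∂ν = ENNReal.ofReal (∫ x, |f x| ∂ν) := fun N => by
    have e : ∫ x, max (-(N : ℝ)) (min (u (T x)) N) ∂ν = ∫ x, max (-(N : ℝ)) (min (u x) N) ∂ν := by
      conv_rhs => rw [← hT.map_eq]
      rw [integral_map hT.aemeasurable (by fun_prop)]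
    rw [← ofReal_integral_eq_lintegral_ofReal (hf.abs.fun_add ((h1 N).sub' (h2 N)))
      (h.mono fun x hx => cb_tr hx), integral_add hf.abs ((h1 N).sub' (h2 N)),
      integral_sub (h1 N) (h2 N), e, sub_self, add_zero]
  have h4 := lintegral_liminf_le' (μ := ν) (u := atTop) fun N : ℕ =>
    (hf.abs.add ((h1 N).sub (h2 N))).aemeasurable.ennreal_ofReal
  simp only [Pi.add_apply, Pi.sub_apply, h3, liminf_const] at h4
  have h5 : ∀ x, 0 ≤ |f x| - f x := fun x => sub_nonneg.2 (le_abs_self _)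
  have h6 : ∫⁻ x, ENNReal.ofReal (f x + u x - u (T x)) ∂ν +
      ENNReal.ofReal (∫ x, |f x| - f x ∂ν) ≤ ENNReal.ofReal (∫ x, |f x| ∂ν) := by
    rw [ofReal_integral_eq_lintegral_ofReal (hf.abs.sub' hf) (Eventually.of_forall h5),
      ← lintegral_add_right' _ (hf.abs.sub' hf).aemeasurable.ennreal_ofReal]
    refine le_of_eq_of_le (lintegral_congr_ae (h.mono fun x hx => ?_)) h4
    refine (Tendsto.liminf_eq (tendsto_const_nhds.congr' ?_)).symm
    filter_upwards [cb_ev (u x), cb_ev (u (T x))] with N a b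
    rw [a, b, ← ENNReal.ofReal_add hx (h5 x)]
    congr 1
    ring
  refine (ENNReal.le_sub_of_add_le_right ENNReal.ofReal_ne_top h6).trans_eq ?_
  rw [← ENNReal.ofReal_sub _ (integral_nonneg h5), integral_sub hf.abs hf, sub_sub_cancel]

lemma cob_frequently {X : Type} [MeasurableSpace X] (ν : Measure X) [IsFiniteMeasure ν]
    {T : X → X} (hT : MeasurePreserving T ν ν) {u f : ℕ → X → ℝ} (hu : ∀ n, Measurable (u n))
    (hf : ∀ n, Integrable (f n) ν) {C : ℝ} (hC : ∀ n, ∫ x, f n x ∂ν ≤ C)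
    (h : ∀ n, ∀ᵐ x ∂ν, 0 ≤ f n x + u n x - u n (T x)) :
    ∀ᵐ x ∂ν, ∃ W : ℝ, ∃ᶠ n in atTop, f n x + u n x - u n (T x) ≤ W := by
  have h1 : ∀ n, AEMeasurable (fun x => ENNReal.ofReal (f n x + u n x - u n (T x))) ν := fun n =>
    (((hf n).aemeasurable.add (hu n).aemeasurable).sub
      ((hu n).comp hT.measurable).aemeasurable).ennreal_ofReal
  have h2 := (lintegral_liminf_le' (μ := ν) (u := atTop) h1).trans (liminf_le_of_frequently_le'
    (Frequently.of_forall fun n => (cob_lintegral ν hT (hu n) (hf n) (h n)).trans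
      (ENNReal.ofReal_le_ofReal (hC n))))
  have h3 : AEMeasurable (fun x => liminf
      (fun n => ENNReal.ofReal (f n x + u n x - u n (T x))) atTop) ν :=
    ⟨_, Measurable.liminf fun n => (h1 n).measurable_mk,
      (ae_all_iff.2 fun n => (h1 n).ae_eq_mk).mono fun x hx => congrArg (liminf · atTop) (funext hx)⟩
  filter_upwards [ae_lt_top' h3 (h2.trans_lt ENNReal.ofReal_lt_top).ne]
    with x hx
  obtain ⟨W, h3, -⟩ := ENNReal.lt_iff_exists_nnreal_btwn.1 hx
  refine ⟨W, (frequently_lt_of_liminf_lt (h := h3)).mono fun n hn => ?_⟩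
  exact (ENNReal.ofReal_le_iff_le_toReal ENNReal.coe_ne_top).1 hn.le

end Pool.Agent.MP_8df504_an.C

end

section

set_option autoImplicit false

namespace Pool.Agent.MP_8df504_an.C

open Set Filter Topology MeasureTheory

/-! An invariant measure that lives on non-periodic points has a positive exponent.

Hints.  The a.e. property holds along whole orbits (`hinv.iterate`, `quasiMeasurePreserving.ae`,
`ae_all_iff`), so a.e. orbit is injective; a.e. point is recurrent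
(`MeasurePreserving.conservative`, `Conservative.ae_frequently_mem_of_mem_nhds`).  With `D` from
`exists_meas_Dl`, put `u n x = log (D (n+1) x)`, `f n x = log (cC m M B) + ∑ i<n+1, log (s (T^[i] x))`;
`∫ f n ≤ log (cC) * ν.real univ`.  With `A = orb (T^[·] x) (n+1)`, `A.image T` is
`orb (T^[·] (T x)) (n+1)`, and `Dl (A.image T) ≤ Pt T A ≤ cC * Dl A * ∏ s` (`Dl_image_le`, `up`), so
`w n = f n + u n - u n ∘ T ≥ 0`.  If `w n x ≤ W` then `cC * Dl A * ∏ s ≤ exp W * Dl (A.image T)`,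
hence `Pt T A ≤ exp W * Dl (A.image T)` and (`up_edge`, `Dl (A.image T) ≤ Pt T A`, `0 < Pt`)
`m * len e ≤ exp W * img T e` for all edges.  `cob_frequently`, `raw_of_orbit`, `Raw.exists_pre`,
`Pre.false`. -/

lemma tb_inj {T : ℝ → ℝ} {x : ℝ} (h : ∀ i p : ℕ, 1 ≤ p → T^[p] (T^[i] x) ≠ T^[i] x) :
    Function.Injective fun i : ℕ => T^[i] x := by
  refine Function.Injective.of_lt_imp_ne fun i j hij he => h i (j - i) (by omega) ?_
  rw [← Function.iterate_add_apply, Nat.sub_add_cancel hij.le]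
  exact he.symm

lemma tb_point {T : ℝ → ℝ} {B : Finset ℝ} {m M : ℝ} (hm : 0 < m) (hlip : LipOn T 0 1 M)
    {s : ℝ → ℝ} {x : ℝ} (hinj : Function.Injective fun i : ℕ => T^[i] x)
    (hx : ∀ i : ℕ, T^[i] x ∈ Icc (0 : ℝ) 1 ∧ m ≤ s (T^[i] x) ∧ s (T^[i] x) ≤ M ∧
      SlopeAt T 1 B (T^[i] x) (s (T^[i] x))) (n : ℕ) {w : ℝ}
    (hw : w = Real.log (cC m M B) + ∑ i ∈ Finset.range (n + 1), Real.log (s (T^[i] x)) +
      Real.log (Dl (orb (fun i => T^[i] x) (n + 1))) -
      Real.log (Dl (orb (fun i => T^[i] (T x)) (n + 1)))) :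
    0 ≤ w ∧ ∀ W, w ≤ W → Pt T (orb (fun i => T^[i] x) (n + 1)) ≤
      Real.exp W * Dl ((orb (fun i => T^[i] x) (n + 1)).image T) ∧
      ∀ e ∈ gaps (orb (fun i => T^[i] x) (n + 1)), m / Real.exp W * len e ≤ img T e := by
  have him : orb (fun i => T^[i] (T x)) (n + 1) = (orb (fun i => T^[i] x) (n + 1)).image T := by
    rw [orb, orb, Finset.image_image]
    exact Finset.image_congr fun i _ => Function.iterate_succ_apply' T i x
  rw [him] at hw
  set A := orb (fun i => T^[i] x) (n + 1) with hA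
  have hmem : ∀ a ∈ A, ∃ i, T^[i] x = a := fun a ha => by
    obtain ⟨i, -, h⟩ := Finset.mem_image.1 ha
    exact ⟨i, h⟩
  have hsub : ∀ a ∈ A, a ∈ Icc (0 : ℝ) 1 := fun a ha => by
    obtain ⟨i, rfl⟩ := hmem a ha
    exact (hx i).1
  have hs : ∀ a ∈ A, m ≤ s a ∧ s a ≤ M ∧ SlopeAt T 1 B a (s a) := fun a ha => by
    obtain ⟨i, rfl⟩ := hmem a ha
    exact (hx i).2
  have hi : InjOn T (A : Set ℝ) := fun a ha b hb hab => by
    obtain ⟨i, rfl⟩ := hmem a ha
    obtain ⟨j, rfl⟩ := hmem b hb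
    rw [← Function.iterate_succ_apply' T, ← Function.iterate_succ_apply' T] at hab
    rw [Nat.succ_injective (hinj hab)]
  have hC : 0 < cC m M B := by
    have : 0 < M := hm.trans_le ((hx 0).2.1.trans (hx 0).2.2.1)
    unfold cC
    positivity
  have hsp : ∀ i, 0 < s (T^[i] x) := fun i => hm.trans_le (hx i).2.1
  have hP : ∏ a ∈ A, s a = ∏ i ∈ Finset.range (n + 1), s (T^[i] x) :=
    Finset.prod_image hinj.injOn
  have hPp : 0 < ∏ a ∈ A, s a := hP ▸ Finset.prod_pos fun i _ => hsp i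
  have h1 := Dl_image_le hi
  have h2 := up hm hlip (Finset.nonempty_range_add_one.image _) hsub hs
  have hD := Dl_pos (A.image T)
  have hDA := Dl_pos A
  set E := cC m M B * Dl A * ∏ a ∈ A, s a with hE
  have hE0 : 0 < E := by positivity
  have hw' : w = Real.log E - Real.log (Dl (A.image T)) := by
    rw [hw, hE, Real.log_mul (by positivity) hPp.ne', Real.log_mul hC.ne' hDA.ne', hP,
      Real.log_prod fun i _ => (hsp i).ne']
    ring
  refine ⟨hw' ▸ sub_nonneg.2 (Real.log_le_log hD (h1.trans h2)), fun W hW => ?_⟩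
  have h3 : E ≤ Real.exp W * Dl (A.image T) := by
    rw [← Real.exp_log hD, ← Real.exp_add, ← Real.log_le_iff_le_exp hE0]
    linarith
  refine ⟨h2.trans h3, fun e he => ?_⟩
  have h4 := (up_edge hm hlip hsub hs he).trans (mul_le_mul_of_nonneg_left
    (h3.trans (mul_le_mul_of_nonneg_left h1 (Real.exp_pos W).le)) (img_nonneg T e))
  rw [← mul_assoc] at h4
  rw [div_mul_eq_mul_div, div_le_iff₀ (Real.exp_pos W)]
  exact le_of_mul_le_mul_right h4 (hD.trans_le h1)

theorem TB {T : ℝ → ℝ} (hT : Continuous T) {B : Finset ℝ} (hPL : PLz T 0 1 B) {m M : ℝ}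
    (hm : 0 < m) (hlip : LipOn T 0 1 M) (ν : Measure ℝ) [IsFiniteMeasure ν] (hν : ν ≠ 0)
    (hinv : MeasurePreserving T ν ν) {s : ℝ → ℝ} (hs : Measurable s)
    (hae : ∀ᵐ x ∂ν, x ∈ Icc (0 : ℝ) 1 ∧ (∀ p : ℕ, 1 ≤ p → T^[p] x ≠ x) ∧ m ≤ s x ∧ s x ≤ M ∧
      SlopeAt T 1 B x (s x))
    (hint : ∫ x, Real.log (s x) ∂ν ≤ 0) : False := by
  have hall := ae_all_iff.2 fun i : ℕ => (hinv.iterate i).quasiMeasurePreserving.ae hae
  obtain ⟨D, hDm, hD⟩ := exists_meas_Dl hT.measurable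
  have hg : Integrable (fun x => Real.log (s x)) ν :=
    Integrable.of_mem_Icc (Real.log m) (Real.log M) hs.log.aemeasurable (hae.mono fun x hx =>
      ⟨Real.log_le_log hm hx.2.2.1, Real.log_le_log (hm.trans_le hx.2.2.1) hx.2.2.2.1⟩)
  have hgi : ∀ i : ℕ, Integrable (fun x => Real.log (s (T^[i] x))) ν := fun i =>
    (hinv.iterate i).integrable_comp_of_integrable hg
  have hgI : ∀ i : ℕ, ∫ x, Real.log (s (T^[i] x)) ∂ν ≤ 0 := fun i => by
    have := integral_map (μ := ν) (hinv.iterate i).measurable.aemeasurable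
      hs.log.aestronglyMeasurable
    rwa [← this, (hinv.iterate i).map_eq]
  have key : ∀ᵐ x ∂ν, (Function.Injective fun i : ℕ => T^[i] x) ∧
      (∀ i : ℕ, T^[i] x ∈ Icc (0 : ℝ) 1) ∧ ∀ n : ℕ, ∀ w, w = Real.log (cC m M B) +
        ∑ i ∈ Finset.range (n + 1), Real.log (s (T^[i] x)) + Real.log (D (n + 1) x) -
        Real.log (D (n + 1) (T x)) → 0 ≤ w ∧ ∀ W, w ≤ W → Pt T (orb (fun i => T^[i] x) (n + 1)) ≤
      Real.exp W * Dl ((orb (fun i => T^[i] x) (n + 1)).image T) ∧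
      ∀ e ∈ gaps (orb (fun i => T^[i] x) (n + 1)), m / Real.exp W * len e ≤ img T e := by
    filter_upwards [hall] with x hx
    have h1 := tb_inj fun i => (hx i).2.1
    have h2 := tb_inj (x := T x) fun i => (hx (i + 1)).2.1
    refine ⟨h1, fun i => (hx i).1, fun n w hw => ?_⟩
    rw [hD _ _ h1, hD _ _ h2] at hw
    exact tb_point hm hlip h1 (fun i => ⟨(hx i).1, (hx i).2.2⟩) n hw
  have hfr := cob_frequently ν hinv (u := fun n x => Real.log (D (n + 1) x))
    (f := fun n x => Real.log (cC m M B) + ∑ i ∈ Finset.range (n + 1), Real.log (s (T^[i] x)))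
    (fun n => (hDm _).log)
    (fun n => (integrable_const _).add (integrable_finsetSum _ fun i _ => hgi i))
    (C := ∫ _, Real.log (cC m M B) ∂ν) (fun n => by
      rw [integral_add (integrable_const _) (integrable_finsetSum _ fun i _ => hgi i),
        integral_finsetSum _ fun i _ => hgi i]
      exact add_le_of_nonpos_right (Finset.sum_nonpos fun i _ => hgI i))
    fun n => key.mono fun x hx => (hx.2.2 n _ rfl).1
  haveI : (ae ν).NeBot := ae_neBot.2 hν
  obtain ⟨x, ⟨⟨h1, h2, h3⟩, W, hW⟩, hr⟩ :=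
    ((key.and hfr).and hinv.conservative.ae_frequently_mem_of_mem_nhds).exists
  obtain ⟨R⟩ := raw_of_orbit hT hPL (x := fun i => T^[i] x)
    (fun n => Function.iterate_succ_apply' T n x) h2 h1 (fun N => mem_closure_iff_nhds.2
      fun t ht => by
        obtain ⟨n, hn, hN⟩ := ((hr t ht).and_eventually (eventually_ge_atTop N)).exists
        exact ⟨_, hn, n, hN, rfl⟩) (div_pos hm (Real.exp_pos W))
    ((tendsto_add_atTop_nat 1).frequently (hW.mono fun n hn => (h3 n _ rfl).2 W hn))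
  obtain ⟨P⟩ := R.exists_pre
  exact P.false

end Pool.Agent.MP_8df504_an.C

end

section

set_option autoImplicit false

namespace Pool.Agent.MP_8df504_an.C

open Set Filter Topology MeasureTheory

/-! No attracting cycle implies eventual expansion on `Lam`.

Hints.  Suppose not; take `μ` from `kb`, `F z = (T z.1, sh z.2 1)`, `ψ z = log |c (z.2 0)|`.
`E p = {z | Function.minimalPeriod T z.1 = p + 1}` (measurable: `T^[p+1] x = x` and
`T^[q] x ≠ x` for `0 < q ≤ p`; forward invariant by `Function.minimalPeriod_apply`), `k p = 2 (p+1)`,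
`l p = p + 1`; `∑ i<2(p+1), ψ (F^[p+1+i] z) = log |gam (2(p+1)) (sh z.2 (p+1))| > 0` by `pp` and
`c_ne`.  `remove_pos`, `restrict_preserving`; `ν = map Prod.fst (μ.restrict N)`, `N = (⋃ E)ᶜ`.
`ν`-a.e. point is in `[0,1]` and not periodic; `ν {b} = 0` for every `b` (otherwise
`Conservative.exists_mem_iterate_mem` makes `b` periodic), so a.e. `z.1 ∉ B`, hence
`z.1 ∈ Piece (z.2 0)` and `c (z.2 0) ≠ 0`.  Take the measurable
`s x = ∑ j, (Piece j).indicator (fun _ => |c j|) x`; apply `TB` with `exists_bounds`, `slopeAt`. -/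

lemma exp_iter (D : BL) (n : ℕ) (z : ℝ × (ℕ → Fin D.m)) :
    (fun z : ℝ × (ℕ → Fin D.m) => (D.T z.1, sh z.2 1))^[n] z = (D.T^[n] z.1, sh z.2 n) := by
  induction n with
  | zero => rfl
  | succ n ih =>
    rw [Function.iterate_succ_apply', ih, Function.iterate_succ_apply']
    refine Prod.ext rfl (funext fun i => ?_)
    exact congrArg z.2 (by omega : i + 1 + n = i + (n + 1))

/-- points of exact period `p + 1` -/
def exp_E (T : ℝ → ℝ) (p : ℕ) : Set ℝ := {x | T^[p + 1] x = x ∧ ∀ q < p, T^[q + 1] x ≠ x}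

lemma exp_fix {T : ℝ → ℝ} (hT : Continuous T) (p : ℕ) : MeasurableSet {x | T^[p] x = x} :=
  (isClosed_eq (hT.iterate p) continuous_id).measurableSet

lemma exp_meas {T : ℝ → ℝ} (hT : Continuous T) (p : ℕ) : MeasurableSet (exp_E T p) := by
  have e : exp_E T p = {x | T^[p + 1] x = x} ∩ ⋂ q, ⋂ _ : q < p, {x | T^[q + 1] x = x}ᶜ := by
    ext x
    simp [exp_E]
  rw [e]
  exact (exp_fix hT _).inter
    (MeasurableSet.iInter fun q => MeasurableSet.iInter fun _ => (exp_fix hT _).compl)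

lemma exp_maps (T : ℝ → ℝ) (p : ℕ) : MapsTo T (exp_E T p) (exp_E T p) := by
  rintro x ⟨h1, h2⟩
  refine ⟨?_, fun q hq h => h2 q hq ?_⟩
  · rw [← Function.iterate_succ_apply, Function.iterate_succ_apply', h1]
  · have e := congrArg T^[p] h
    rw [← Function.iterate_add_apply, add_comm, Function.iterate_add_apply,
      ← Function.iterate_succ_apply T p, Nat.succ_eq_add_one, h1] at e
    exact e

lemma exp_disj (T : ℝ → ℝ) {p q : ℕ} (h : p ≠ q) : Disjoint (exp_E T p) (exp_E T q) := by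
  rw [Set.disjoint_left]
  rintro x ⟨h1, h2⟩ ⟨h3, h4⟩
  rcases lt_or_gt_of_ne h with c | c
  · exact h4 p c h1
  · exact h2 q c h3

lemma exp_nper {T : ℝ → ℝ} {x : ℝ} (h : ∀ p, x ∉ exp_E T p) (p : ℕ) : T^[p + 1] x ≠ x := by
  induction p using Nat.strong_induction_on with
  | _ p ih => exact fun e => h p ⟨e, ih⟩

lemma exp_s (D : BL) {x : ℝ} {j : Fin D.m} (h : x ∈ D.Piece j) :
    ∑ i, (D.Piece i).indicator (fun _ => |D.c i|) x = |D.c j| := by
  rw [Finset.sum_eq_single j (fun i _ hi => indicator_of_notMem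
    (fun h' => hi (D.piece_unique h' h)) _) (fun h' => absurd (Finset.mem_univ j) h'),
    indicator_of_mem h]

lemma exp_piece (D : BL) {x : ℝ} {ω : ℕ → Fin D.m} (h : x ∈ closure (D.Cyl 1 ω ∩ D.Lam))
    (hB : ∀ b ∈ D.B, x ≠ b) : D.c (ω 0) ≠ 0 ∧ x ∈ D.Piece (ω 0) := by
  refine ⟨D.c_ne (Set.Nonempty.of_closure ⟨x, h⟩) one_pos, ?_⟩
  have h1 : x ∈ Icc (D.a (ω 0).castSucc) (D.a (ω 0).succ) :=
    closure_minimal (fun y hy => Ioo_subset_Icc_self (hy.1 0 one_pos)) isClosed_Icc h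
  exact ⟨lt_of_le_of_ne h1.1 (hB _ (Finset.mem_image_of_mem _ (Finset.mem_univ _))).symm,
    lt_of_le_of_ne h1.2 (hB _ (Finset.mem_image_of_mem _ (Finset.mem_univ _)))⟩

theorem BL.expd (D : BL) (h : ¬ HasAttr D.T) : D.Expd := by
  by_contra hE
  obtain ⟨μ, hμ, hF, hcl, hint⟩ := D.kb hE
  have hT := D.cont.measurable
  have hψm : Measurable fun z : ℝ × (ℕ → Fin D.m) => Real.log |D.c (z.2 0)| :=
    (Measurable.of_discrete (f := fun j : Fin D.m => Real.log |D.c j|)).comp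
      ((measurable_pi_apply 0).comp measurable_snd)
  have hψ : Integrable (fun z : ℝ × (ℕ → Fin D.m) => Real.log |D.c (z.2 0)|) μ :=
    Integrable.of_bound hψm.aestronglyMeasurable (∑ j, ‖Real.log |D.c j|‖)
      (Eventually.of_forall fun z => Finset.single_le_sum
        (f := fun j => ‖Real.log |D.c j|‖) (fun _ _ => norm_nonneg _) (Finset.mem_univ (z.2 0)))
  let E : ℕ → Set (ℝ × (ℕ → Fin D.m)) := fun p => Prod.fst ⁻¹' exp_E D.T p
  have hEm : ∀ p, MeasurableSet (E p) := fun p => measurable_fst (exp_meas D.cont p)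
  have hEF : ∀ p, MapsTo (fun z : ℝ × (ℕ → Fin D.m) => (D.T z.1, sh z.2 1)) (E p) (E p) :=
    fun p z hz => exp_maps D.T p hz
  obtain ⟨hN0, hNi⟩ := remove_pos μ hF hψ hint E hEm
    (fun p q hpq => (exp_disj D.T hpq).preimage _) hEF (fun p => 2 * (p + 1)) (fun p => p + 1)
    (fun p => by
      filter_upwards [hcl] with z hz hp
      have h1 := D.pp h (Nat.le_add_left 1 p) hp.1 (hz _)
      have h2 : D.gam (2 * (p + 1)) (sh z.2 (p + 1)) ≠ 0 := fun e => by
        rw [e, abs_zero] at h1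
        exact absurd h1 (by norm_num)
      have h3 := Real.log_pos h1
      rw [Real.log_abs, BL.gam, Real.log_prod (Finset.prod_ne_zero_iff.1 h2)] at h3
      refine h3.trans_eq (Finset.sum_congr rfl fun i _ => ?_)
      simp only [exp_iter, Real.log_abs, sh]
      rw [zero_add, add_comm i])
  have hU : MeasurableSet (⋃ p, E p) := MeasurableSet.iUnion hEm
  have hF' := (restrict_preserving μ hF hU
    (fun z hz => by
      obtain ⟨p, hp⟩ := mem_iUnion.1 hz
      exact mem_iUnion.2 ⟨p, hEF p hp⟩)).2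
  have hnp : ∀ᵐ z ∂μ.restrict (⋃ p, E p)ᶜ, ∀ p, D.T^[p + 1] z.1 ≠ z.1 := by
    filter_upwards [ae_restrict_mem hU.compl] with z hz
    exact exp_nper fun p hp => hz (mem_iUnion.2 ⟨p, hp⟩)
  have hcl' : ∀ᵐ z ∂μ.restrict (⋃ p, E p)ᶜ, ∀ k, z.1 ∈ closure (D.Cyl k z.2 ∩ D.Lam) :=
    ae_restrict_of_ae hcl
  have hμ0 : μ.restrict (⋃ p, E p)ᶜ ≠ 0 := fun e => hN0 (Measure.restrict_eq_zero.1 e)
  have hfin : IsFiniteMeasure (μ.restrict (⋃ p, E p)ᶜ) := inferInstance
  generalize μ.restrict (⋃ p, E p)ᶜ = μ' at hF' hnp hcl' hμ0 hfin hNi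
  have hinv : MeasurePreserving D.T (μ'.map Prod.fst) (μ'.map Prod.fst) := by
    refine ⟨hT, ?_⟩
    rw [Measure.map_map hT measurable_fst]
    conv_rhs => rw [← hF'.map_eq, Measure.map_map measurable_fst hF'.measurable]
    rfl
  have hb : ∀ b : ℝ, ∀ᵐ z ∂μ', z.1 ≠ b := by
    intro b
    by_cases h0 : μ'.map Prod.fst {b} = 0
    · rw [Measure.map_apply measurable_fst (measurableSet_singleton b)] at h0
      exact measure_eq_zero_iff_ae_notMem.1 h0
    · obtain ⟨x, hx, k, hk, hxk⟩ := hinv.conservative.exists_mem_iterate_mem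
        (measurableSet_singleton b).nullMeasurableSet h0
      obtain ⟨k, rfl⟩ := Nat.exists_eq_succ_of_ne_zero hk
      rw [mem_singleton_iff] at hx hxk
      filter_upwards [hnp] with z hz e
      exact hz k (by rw [e, ← hx, hxk, hx])
  have hP : ∀ᵐ z ∂μ', D.c (z.2 0) ≠ 0 ∧ z.1 ∈ D.Piece (z.2 0) := by
    filter_upwards [hcl', (eventually_all_finset D.B).2 fun b _ => hb b] with z h1 h2
    exact exp_piece D (h1 1) h2
  have hs : Measurable fun x => ∑ i, (D.Piece i).indicator (fun _ => |D.c i|) x :=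
    Finset.measurable_sum _ fun i _ => measurable_const.indicator measurableSet_Ioo
  obtain ⟨m, M, hm, -, hlip, hbd⟩ := D.exists_bounds
  have hG : MeasurableSet ((⋃ j, ⋃ _ : D.c j ≠ 0, D.Piece j) ∩
      ⋂ p, {x | D.T^[p + 1] x = x}ᶜ) :=
    (MeasurableSet.iUnion fun j => MeasurableSet.iUnion fun _ => measurableSet_Ioo).inter
      (MeasurableSet.iInter fun p => (exp_fix D.cont _).compl)
  have hGa : ∀ᵐ x ∂μ'.map Prod.fst, x ∈ (⋃ j, ⋃ _ : D.c j ≠ 0, D.Piece j) ∩
      ⋂ p, {x | D.T^[p + 1] x = x}ᶜ := by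
    refine (ae_map_iff measurable_fst.aemeasurable hG).2 ?_
    filter_upwards [hP, hnp] with z h1 h2
    exact ⟨mem_iUnion₂.2 ⟨_, h1.1, h1.2⟩, mem_iInter.2 h2⟩
  refine TB D.cont D.plz hm hlip (μ'.map Prod.fst)
    (fun e => hμ0 ((Measure.map_eq_zero_iff measurable_fst.aemeasurable).1 e)) hinv hs ?_ ?_
  · filter_upwards [hGa] with x hx
    obtain ⟨j, hj, hxj⟩ := mem_iUnion₂.1 hx.1
    rw [exp_s D hxj]
    refine ⟨Ioo_subset_Icc_self (D.piece_sub j hxj), fun p hp => ?_, (hbd j hj).1, (hbd j hj).2,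
      D.slopeAt hxj⟩
    obtain ⟨p, rfl⟩ := Nat.exists_eq_add_of_le' hp
    exact mem_iInter.1 hx.2 p
  · rw [integral_map measurable_fst.aemeasurable hs.log.aestronglyMeasurable]
    refine le_of_eq_of_le (integral_congr_ae ?_) hNi
    filter_upwards [hP] with z hz
    rw [exp_s D hz.2]

end Pool.Agent.MP_8df504_an.C

end

section

set_option autoImplicit false

namespace Pool.Agent.MP_8df504_an.C

open Set Filter Topology MeasureTheory

/-! Assembly. -/

noncomputable def clamp (x : ℝ) : ℝ := max 0 (min x 1)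

lemma clamp_mem (x : ℝ) : clamp x ∈ Icc (0 : ℝ) 1 :=
  ⟨le_max_left _ _, max_le zero_le_one (min_le_right _ _)⟩

lemma clamp_eq {x : ℝ} (hx : x ∈ Icc (0 : ℝ) 1) : clamp x = x := by
  unfold clamp
  rw [min_eq_left hx.2, max_eq_right hx.1]

lemma clamp_cont : Continuous clamp := by
  unfold clamp
  fun_prop

lemma exists_BL {T : ℝ → ℝ} (h : IsBrokenLinear T) :
    ∃ D : BL, ∀ (i : ℕ), ∀ x ∈ Icc (0 : ℝ) 1, D.T^[i] x = T^[i] x := by
  obtain ⟨hc, hm, m, a, ha, h0, h1, haff⟩ := h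
  choose c d hcd using haff
  refine ⟨⟨fun x => T (clamp x), hc.comp_continuous clamp_cont clamp_mem,
    fun x => hm (clamp_mem x), m, a, ha, h0, h1, c, d, fun j x hx => ?_⟩, ?_⟩
  · have e : x ∈ Icc (0 : ℝ) 1 :=
      ⟨h0 ▸ (ha.monotone (Fin.zero_le _)).trans hx.1,
        h1 ▸ hx.2.trans (ha.monotone (Fin.le_last _))⟩
    show T (clamp x) = _
    rw [clamp_eq e]
    exact hcd j x hx
  · intro i
    induction i with
    | zero => intro x _; rfl
    | succ n ih =>
      intro x hx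
      rw [Function.iterate_succ_apply, Function.iterate_succ_apply]
      show (fun x => T (clamp x))^[n] (T (clamp x)) = _
      rw [clamp_eq hx]
      exact ih _ (hm hx)

section transfer

variable {T T' : ℝ → ℝ} (h : ∀ (i : ℕ), ∀ x ∈ Icc (0 : ℝ) 1, T'^[i] x = T^[i] x)
include h

lemma hasAttr_iff : HasAttr T' ↔ HasAttr T := by
  unfold HasAttr
  refine exists_congr fun p => and_congr_right fun _ => exists_congr fun q =>
    and_congr_right fun hq => exists_congr fun q' => and_congr_right fun hq' =>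
    and_congr_right fun _ => exists_congr fun σ => and_congr_right fun _ =>
    and_congr_right fun _ => forall_congr' fun y => forall_congr' fun hy => ?_
  rw [h p y (uIcc_subset_Icc hq hq' hy)]

lemma flatEvPer_iff : FlatEvPer T' ↔ FlatEvPer T := by
  unfold FlatEvPer
  refine forall_congr' fun u => forall_congr' fun v => forall_congr' fun hu =>
    forall_congr' fun huv => forall_congr' fun hv => ?_
  have hu' : u ∈ Icc (0 : ℝ) 1 := ⟨hu, huv.le.trans hv⟩
  have e : ∀ y ∈ Icc u v, T' y = T y := fun y hy => h 1 y ⟨hu.trans hy.1, hy.2.trans hv⟩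
  refine imp_congr ?_ ?_
  · refine forall_congr' fun y => forall_congr' fun hy => ?_
    rw [e y hy, e u ⟨le_rfl, huv.le⟩]
  · refine exists_congr fun i => exists_congr fun p => ?_
    rw [h _ u hu', h _ u hu']

lemma ergAvg_eq (R : Set ℝ) {p : ℝ} (hp : p ∈ Icc (0 : ℝ) 1) : ergAvg T' R p = ergAvg T R p :=
  avg_congr fun i _ => by rw [h i p hp]

lemma ae_avg_iff (R : Set ℝ) (Q : ℝ → (ℕ → ℝ) → Prop) :
    (∀ᵐ p ∂(volume.restrict (Icc (0 : ℝ) 1)), Q p (ergAvg T' R p)) ↔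
      ∀ᵐ p ∂(volume.restrict (Icc (0 : ℝ) 1)), Q p (ergAvg T R p) := by
  refine Filter.eventually_congr ?_
  filter_upwards [ae_restrict_mem measurableSet_Icc] with p hp
  rw [ergAvg_eq h R hp]

end transfer

theorem q1_class {T : ℝ → ℝ} (hT : IsBrokenLinear T) :
    (∀ R : Set ℝ, NullMeasurableSet R volume → R ⊆ Icc 0 1 →
      ∀ᵐ p ∂(volume.restrict (Icc (0 : ℝ) 1)), ∃ L, Tendsto (ergAvg T R p) atTop (𝓝 L)) ↔
    (¬ HasAttr T ∧ FlatEvPer T) := by
  obtain ⟨D, h⟩ := exists_BL hT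
  rw [← hasAttr_iff h, ← flatEvPer_iff h]
  have key := fun R => ae_avg_iff h R (fun _ A => ∃ L, Tendsto A atTop (𝓝 L))
  constructor
  · intro H
    constructor
    · intro hA
      obtain ⟨α, β, h0, hαβ, h1, hw⟩ := D.wander hA
      obtain ⟨R, hR, hs, hn⟩ := neg1 D.cont D.maps h0 hαβ h1 hw
      exact hn ((key R).2 (H R hR.nullMeasurableSet hs))
    · by_contra hF
      obtain ⟨R, hR, hs, hn⟩ := neg1_flat D.maps hF
      exact hn ((key R).2 (H R hR.nullMeasurableSet hs))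
  · rintro ⟨hA, hF⟩ R hR _
    exact (key R).1 (D.pos1 (D.expd hA) hF hR)

theorem q2_class {T : ℝ → ℝ} (hT : IsBrokenLinear T) :
    (∀ (R : Set ℝ) (L : ℝ → ℝ), NullMeasurableSet R volume → R ⊆ Icc 0 1 →
      (∀ᵐ p ∂(volume.restrict (Icc (0 : ℝ) 1)), Tendsto (ergAvg T R p) atTop (𝓝 (L p))) →
      ∃ F : Finset ℝ, ∀ᵐ p ∂(volume.restrict (Icc (0 : ℝ) 1)), L p ∈ F) ↔ ¬ HasAttr T := by
  obtain ⟨D, h⟩ := exists_BL hT
  rw [← hasAttr_iff h]
  constructor
  · intro H hA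
    obtain ⟨α, β, h0, hαβ, h1, hw⟩ := D.wander hA
    obtain ⟨R, L, hR, hs, hL, hn⟩ := neg2 D.cont D.maps h0 hαβ h1 hw
    obtain ⟨F, hF⟩ := H R L hR.nullMeasurableSet hs
      ((ae_avg_iff h R (fun p A => Tendsto A atTop (𝓝 (L p)))).1 (ae_of_all _ hL))
    exact hn F hF
  · intro hA R L hR _ hL
    obtain ⟨F, hF⟩ := D.pos2 (D.expd hA) hR
    refine ⟨F, ?_⟩
    filter_upwards [hF, (ae_avg_iff h R (fun p A => Tendsto A atTop (𝓝 (L p)))).2 hL] with p h1 h2
    exact h1 _ h2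

end Pool.Agent.MP_8df504_an.C

end
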